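import Mathlib
import Pool.Agent.H.MP_3e6494_nt.helper50.T3Res

/-!
The truncated series with finitely many Euler factors removed.
-/

open Finset

set_option linter.unusedSectionVars false

namespace Pool.Agent.H.MP_3e6494_nt.A14

open Pool.Agent.H.MP_3e6494_nt.Class

variable {q : ℕ} [hq : Fact q.Prime]

/-- the truncated series without the multiples of the primes in `P` -/
noncomputable def DP (χ : DirichletCharacter ℂ q) (P : Finset ℕ) (X : ℕ) : ℂ :=
  ∑ n ∈ (Finset.Icc 1 X).filter (fun n => ∀ p ∈ P, ¬ p ∣ n),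
    χ (n : ZMod q) * (((n : ℝ) ^ (-(1 / 2) : ℝ) : ℝ) : ℂ)

lemma DP_empty (χ : DirichletCharacter ℂ q) (X : ℕ) : DP χ ∅ X = Approx.D χ X := by
  unfold DP Approx.D
  simp

lemma DP_insert (χ : DirichletCharacter ℂ q) {P : Finset ℕ} (hP : ∀ p ∈ P, p.Prime) {p : ℕ}
    (hp : p.Prime) (hpP : p ∉ P) (X : ℕ) :
    DP χ (insert p P) X = DP χ P X -
      χ (p : ZMod q) * (((p : ℝ) ^ (-(1 / 2) : ℝ) : ℝ) : ℂ) * DP χ P (X / p) := by
  classical
  set g : ℕ → ℂ := fun n => χ (n : ZMod q) * (((n : ℝ) ^ (-(1 / 2) : ℝ) : ℝ) : ℂ) with hg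
  have hmul : ∀ n : ℕ, g (p * n) = χ (p : ZMod q) * (((p : ℝ) ^ (-(1 / 2) : ℝ) : ℝ) : ℂ) * g n := by
    intro n
    simp only [hg]
    rw [Nat.cast_mul, map_mul, Nat.cast_mul, Real.mul_rpow (Nat.cast_nonneg _) (Nat.cast_nonneg _)]
    push_cast
    ring
  set F := (Finset.Icc 1 X).filter (fun n => ∀ r ∈ P, ¬ r ∣ n) with hF
  have h1 : DP χ P X = ∑ n ∈ F.filter (fun n => ¬ p ∣ n), g n + ∑ n ∈ F.filter (fun n => p ∣ n), g n := by
    have := Finset.sum_filter_add_sum_filter_not F (fun n => ¬ p ∣ n) g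
    simp only [not_not] at this
    rw [this]
    rfl
  have h2 : DP χ (insert p P) X = ∑ n ∈ F.filter (fun n => ¬ p ∣ n), g n := by
    unfold DP
    apply Finset.sum_congr _ (fun _ _ => rfl)
    ext n
    simp only [hF, Finset.mem_filter, Finset.mem_insert]
    constructor
    · rintro ⟨a, b⟩
      exact ⟨⟨a, fun r hr => b r (Or.inr hr)⟩, b p (Or.inl rfl)⟩
    · rintro ⟨⟨a, b⟩, c⟩
      refine ⟨a, ?_⟩
      rintro r (rfl | hr)
      · exact c
      · exact b r hr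
  have h3 : ∑ n ∈ F.filter (fun n => p ∣ n), g n =
      ∑ n ∈ (Finset.Icc 1 (X / p)).filter (fun n => ∀ r ∈ P, ¬ r ∣ n), g (p * n) := by
    symm
    apply Finset.sum_bij (fun n _ => p * n)
    · intro n hn
      simp only [hF, Finset.mem_filter, Finset.mem_Icc] at hn ⊢
      obtain ⟨⟨a, b⟩, c⟩ := hn
      refine ⟨⟨⟨?_, ?_⟩, ?_⟩, dvd_mul_right _ _⟩
      · exact Nat.mul_pos hp.pos a
      · rw [mul_comm]
        exact (Nat.le_div_iff_mul_le hp.pos).1 b
      · intro r hr hd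
        rcases (hP r hr).dvd_mul.1 hd with h | h
        · have := (Nat.prime_dvd_prime_iff_eq (hP r hr) hp).1 h
          exact hpP (this ▸ hr)
        · exact c r hr h
    · intro a _ b _ hab
      exact Nat.eq_of_mul_eq_mul_left hp.pos hab
    · intro n hn
      simp only [hF, Finset.mem_filter, Finset.mem_Icc] at hn
      obtain ⟨⟨⟨a, b⟩, c⟩, ⟨m, rfl⟩⟩ := hn
      refine ⟨m, ?_, rfl⟩
      simp only [Finset.mem_filter, Finset.mem_Icc]
      refine ⟨⟨?_, ?_⟩, ?_⟩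
      · rcases Nat.eq_zero_or_pos m with h | h
        · subst h; simp at a
        · exact h
      · rw [Nat.le_div_iff_mul_le hp.pos, mul_comm]
        exact b
      · intro r hr hd
        exact c r hr (dvd_mul_of_dvd_right hd _)
    · intro n _
      rfl
  rw [h1, h2, h3]
  have h4 : ∑ n ∈ (Finset.Icc 1 (X / p)).filter (fun n => ∀ r ∈ P, ¬ r ∣ n), g (p * n) =
      χ (p : ZMod q) * (((p : ℝ) ^ (-(1 / 2) : ℝ) : ℝ) : ℂ) * DP χ P (X / p) := by
    unfold DP
    rw [Finset.mul_sum]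
    exact Finset.sum_congr rfl fun n _ => hmul n
  rw [h4]
  ring

theorem norm_DP_le {χ : DirichletCharacter ℂ q} (hχ : χ ≠ 1) (P : Finset ℕ)
    (hP : ∀ p ∈ P, p.Prime) : ∀ X : ℕ, ∏ p ∈ P, p ≤ X →
    ‖DP χ P X‖ ≤ 4 ^ P.card * (‖χ.LFunction (1 / 2)‖ + 2 * Approx.B q / Real.sqrt X) := by
  classical
  induction P using Finset.induction_on with
  | empty =>
    intro X hX
    rw [Finset.prod_empty] at hX
    rw [DP_empty, Finset.card_empty, pow_zero, one_mul]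
    have h1 := Approx.approx hχ X hX
    calc ‖Approx.D χ X‖ = ‖χ.LFunction (1 / 2) - (χ.LFunction (1 / 2) - Approx.D χ X)‖ := by
          congr 1; ring
      _ ≤ ‖χ.LFunction (1 / 2)‖ + ‖χ.LFunction (1 / 2) - Approx.D χ X‖ := norm_sub_le _ _
      _ ≤ _ := by linarith
  | insert p P hpP ih =>
    intro X hX
    have hp : p.Prime := hP p (Finset.mem_insert_self _ _)
    have hP' : ∀ r ∈ P, r.Prime := fun r hr => hP r (Finset.mem_insert_of_mem hr)
    rw [Finset.prod_insert hpP] at hX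
    have hPpos : 0 < ∏ r ∈ P, r := Finset.prod_pos fun r hr => (hP' r hr).pos
    have hX1 : ∏ r ∈ P, r ≤ X := le_trans (Nat.le_mul_of_pos_left _ hp.pos) hX
    have hX2 : ∏ r ∈ P, r ≤ X / p := by
      rw [Nat.le_div_iff_mul_le hp.pos, mul_comm]; exact hX
    have i1 := ih hP' X hX1
    have i2 := ih hP' (X / p) hX2
    have hB := Approx.B_nonneg (q := q)
    have hL : 0 ≤ ‖χ.LFunction (1 / 2)‖ := norm_nonneg _
    have hp0 : (0 : ℝ) < p := by exact_mod_cast hp.pos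
    have hp1 : (1 : ℝ) ≤ p := by exact_mod_cast hp.one_lt.le
    have hXp : 1 ≤ X / p := le_trans hPpos hX2
    have hX0 : (0 : ℝ) < X := by exact_mod_cast lt_of_lt_of_le hPpos hX1
    have hXp0 : (0 : ℝ) < ((X / p : ℕ) : ℝ) := by exact_mod_cast hXp
    -- the floor
    have hfl : (X : ℝ) ≤ 2 * p * ((X / p : ℕ) : ℝ) := by
      have h1 : X < p * (X / p + 1) := Nat.lt_mul_div_succ X hp.pos
      have h2 : X ≤ 2 * p * (X / p) := by nlinarith
      exact_mod_cast h2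
    have hr : (p : ℝ) ^ (-(1 / 2) : ℝ) = 1 / Real.sqrt p := by
      rw [Real.rpow_neg hp0.le, ← Real.sqrt_eq_rpow, one_div]
    have hr1 : (p : ℝ) ^ (-(1 / 2) : ℝ) ≤ 1 := by
      apply Real.rpow_le_one_of_one_le_of_nonpos hp1; norm_num
    have hr0 : 0 ≤ (p : ℝ) ^ (-(1 / 2) : ℝ) := by positivity
    have hsq : (p : ℝ) ^ (-(1 / 2) : ℝ) * (2 * Approx.B q / Real.sqrt ((X / p : ℕ) : ℝ)) ≤
        2 * (2 * Approx.B q / Real.sqrt X) := by
      have h1 : Real.sqrt X ≤ 2 * (Real.sqrt p * Real.sqrt ((X / p : ℕ) : ℝ)) := by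
        rw [← Real.sqrt_mul hp0.le]
        apply Real.sqrt_le_iff.2
        refine ⟨by positivity, ?_⟩
        rw [mul_pow, Real.sq_sqrt (by positivity)]
        have h3 : (0 : ℝ) ≤ p * ((X / p : ℕ) : ℝ) := by positivity
        nlinarith
      have hs1 : 0 < Real.sqrt X := Real.sqrt_pos.2 hX0
      have hs2 : 0 < Real.sqrt p := Real.sqrt_pos.2 hp0
      have hs3 : 0 < Real.sqrt ((X / p : ℕ) : ℝ) := Real.sqrt_pos.2 hXp0
      rw [hr]
      have e1 : 1 / Real.sqrt p * (2 * Approx.B q / Real.sqrt ((X / p : ℕ) : ℝ)) =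
          (2 * Approx.B q) / (Real.sqrt p * Real.sqrt ((X / p : ℕ) : ℝ)) := by
        field_simp
      have e2 : 2 * (2 * Approx.B q / Real.sqrt X) = (2 * Approx.B q * 2) / Real.sqrt X := by ring
      rw [e1, e2, div_le_div_iff₀ (by positivity) hs1]
      nlinarith
    have hχp : ‖χ (p : ZMod q)‖ ≤ 1 := DirichletCharacter.norm_le_one χ _
    rw [DP_insert χ hP' hp hpP X, Finset.card_insert_of_notMem hpP]
    set M := ‖χ.LFunction (1 / 2)‖ with hM
    set Q := 2 * Approx.B q / Real.sqrt X with hQ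
    have hQ0 : 0 ≤ Q := by positivity
    calc ‖DP χ P X - χ (p : ZMod q) * (((p : ℝ) ^ (-(1 / 2) : ℝ) : ℝ) : ℂ) * DP χ P (X / p)‖
        ≤ ‖DP χ P X‖ + ‖χ (p : ZMod q)‖ * (p : ℝ) ^ (-(1 / 2) : ℝ) * ‖DP χ P (X / p)‖ := by
          refine (norm_sub_le _ _).trans ?_
          rw [norm_mul, norm_mul, Complex.norm_real, Real.norm_of_nonneg hr0]
      _ ≤ 4 ^ P.card * (M + Q) + 1 * (p : ℝ) ^ (-(1 / 2) : ℝ) *
            (4 ^ P.card * (M + 2 * Approx.B q / Real.sqrt ((X / p : ℕ) : ℝ))) := by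
          gcongr
      _ = 4 ^ P.card * (M + Q) + 4 ^ P.card * ((p : ℝ) ^ (-(1 / 2) : ℝ) * M +
            (p : ℝ) ^ (-(1 / 2) : ℝ) * (2 * Approx.B q / Real.sqrt ((X / p : ℕ) : ℝ))) := by ring
      _ ≤ 4 ^ P.card * (M + Q) + 4 ^ P.card * (1 * M + 2 * Q) := by
          gcongr
      _ ≤ 4 ^ (P.card + 1) * (M + Q) := by
          rw [pow_succ]
          have h4 : (0 : ℝ) < 4 ^ P.card := by positivity
          nlinarith [mul_nonneg h4.le hL, mul_nonneg h4.le hQ0]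

theorem norm_DP_one (P : Finset ℕ) (X : ℕ) :
    ‖DP (1 : DirichletCharacter ℂ q) P X‖ ≤ 2 * Real.sqrt X := by
  have h1 : ∑ n ∈ Finset.Icc 1 X, ((n : ℝ) ^ (-(1 / 2) : ℝ)) ≤ 2 * Real.sqrt X := by
    induction X with
    | zero => simp
    | succ X ih =>
      rw [Finset.sum_Icc_succ_top (by omega)]
      have h2 : (((X + 1 : ℕ) : ℝ)) ^ (-(1 / 2) : ℝ) = 1 / Real.sqrt ((X + 1 : ℕ) : ℝ) := by
        rw [Real.rpow_neg (by positivity), ← Real.sqrt_eq_rpow, one_div]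
      rw [h2]
      have hs0 : 0 ≤ Real.sqrt X := Real.sqrt_nonneg _
      have hs1 : 0 < Real.sqrt ((X + 1 : ℕ) : ℝ) := Real.sqrt_pos.2 (by positivity)
      have e0 : Real.sqrt X * Real.sqrt X = X := Real.mul_self_sqrt (Nat.cast_nonneg _)
      have e1 : Real.sqrt ((X + 1 : ℕ) : ℝ) * Real.sqrt ((X + 1 : ℕ) : ℝ) = X + 1 := by
        rw [Real.mul_self_sqrt (by positivity)]; push_cast; ring
      have hle : Real.sqrt X ≤ Real.sqrt ((X + 1 : ℕ) : ℝ) :=
        Real.sqrt_le_sqrt (by push_cast; linarith)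
      have h3 : 1 / Real.sqrt ((X + 1 : ℕ) : ℝ) ≤
          2 * (Real.sqrt ((X + 1 : ℕ) : ℝ) - Real.sqrt X) := by
        rw [div_le_iff₀ hs1]
        nlinarith
      linarith
  unfold DP
  refine (norm_sum_le _ _).trans (le_trans ?_ h1)
  refine le_trans (Finset.sum_le_sum_of_subset_of_nonneg (Finset.filter_subset _ _)
    (fun _ _ _ => norm_nonneg _)) ?_
  apply Finset.sum_le_sum
  intro n _
  rw [norm_mul, Complex.norm_real, Real.norm_of_nonneg (by positivity)]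
  have h2 : ‖(1 : DirichletCharacter ℂ q) (n : ZMod q)‖ ≤ 1 := DirichletCharacter.norm_le_one _ _
  have h3 : 0 ≤ (n : ℝ) ^ (-(1 / 2) : ℝ) := by positivity
  nlinarith

end Pool.Agent.H.MP_3e6494_nt.A14
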