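import Mathlib
import Pool.Agent.H.MP_3e6494_nt.helper50.T6Par
import Pool.Agent.H.MP_3e6494_nt.helper50.T3Cnt
import Pool.Agent.H.MP_3e6494_nt.helper14.DP

/-!
The resonance inequality on almost all cosets: the second moment over the cosets.
-/

open Finset

set_option linter.unusedSectionVars false
set_option linter.unusedVariables false

namespace Pool.Agent.H.MP_3e6494_nt.A14

open Pool.Agent.H.MP_3e6494_nt.Class Pool.Agent.H.MP_3e6494_nt.T3Res
  Pool.Agent.H.MP_3e6494_nt.T6Par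

variable {q : ℕ} [hq : Fact q.Prime] {α : Type*}

/-- weighted Cauchy-Schwarz -/
lemma cauchy_w {ι : Type*} (s : Finset ι) (g x : ι → ℝ) (hg : ∀ i ∈ s, 0 ≤ g i) :
    (∑ i ∈ s, g i * x i) ^ 2 ≤ (∑ i ∈ s, g i) * ∑ i ∈ s, g i * x i ^ 2 := by
  have h := Finset.sum_mul_sq_le_sq_mul_sq s (fun i => Real.sqrt (g i)) (fun i => Real.sqrt (g i) * x i)
  have e1 : ∑ i ∈ s, Real.sqrt (g i) * (Real.sqrt (g i) * x i) = ∑ i ∈ s, g i * x i := by
    apply Finset.sum_congr rfl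
    intro i hi
    rw [← mul_assoc, Real.mul_self_sqrt (hg i hi)]
  have e2 : ∑ i ∈ s, Real.sqrt (g i) ^ 2 = ∑ i ∈ s, g i := by
    apply Finset.sum_congr rfl
    intro i hi
    rw [Real.sq_sqrt (hg i hi)]
  have e3 : ∑ i ∈ s, (Real.sqrt (g i) * x i) ^ 2 = ∑ i ∈ s, g i * x i ^ 2 := by
    apply Finset.sum_congr rfl
    intro i hi
    rw [mul_pow, Real.sq_sqrt (hg i hi)]
  rw [e1, e2, e3] at h
  exact h

/-- the integers up to `X` prime to `q` and to the primes of `P` -/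
def NN (q : ℕ) (P : Finset ℕ) (X : ℕ) : Finset ℕ :=
  (Finset.Icc 1 X).filter (fun n => n.Coprime q ∧ ∀ p ∈ P, ¬ p ∣ n)

lemma mem_NN {P : Finset ℕ} {X n : ℕ} :
    n ∈ NN q P X ↔ (1 ≤ n ∧ n ≤ X) ∧ n.Coprime q ∧ ∀ p ∈ P, ¬ p ∣ n := by
  unfold NN; rw [Finset.mem_filter, Finset.mem_Icc]

open scoped Classical in
lemma inner_bound (K : Subgroup (ZMod q)ˣ) (P : Finset ℕ) (X Z : ℕ)
    (u : ℕ → (ZMod q)ˣ) (hu : ∀ m : ℕ, m.Coprime q → ((u m : (ZMod q)ˣ) : ZMod q) = (m : ZMod q))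
    (c : (ZMod q)ˣ) {τ : ℝ}
    (hrel : ∀ n ∈ NN q P X, n ≤ Z → u n * c ∈ K → u n * c = 1)
    (hτ : ∑ m ∈ (Finset.Ioc Z X).filter (fun m => m.Coprime q ∧ u m * c ∈ K), ((m : ℝ)⁻¹) ≤ τ) :
    ∑ κ ∈ (Finset.univ : Finset (ZMod q)ˣ).filter (fun κ => κ ∈ K ∧ κ ≠ 1),
      (∑ n ∈ (NN q P X).filter (fun n => u n * c = κ), ((n : ℝ) ^ (-(1 / 2) : ℝ))) ^ 2
      ≤ ((X / q + 1 : ℕ) : ℝ) * τ := by
  have hone : ∀ κ ∈ (Finset.univ : Finset (ZMod q)ˣ).filter (fun κ => κ ∈ K ∧ κ ≠ 1),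
      (∑ n ∈ (NN q P X).filter (fun n => u n * c = κ), ((n : ℝ) ^ (-(1 / 2) : ℝ))) ^ 2
      ≤ ((X / q + 1 : ℕ) : ℝ) * ∑ n ∈ (NN q P X).filter (fun n => u n * c = κ), ((n : ℝ)⁻¹) := by
    intro κ _
    refine (sq_sum_le_card_mul_sum_sq).trans ?_
    have h1 : ((NN q P X).filter (fun n => u n * c = κ)).card ≤ X / q + 1 := by
      refine (Finset.card_le_card ?_).trans
        (T3Cnt.residue_count (((κ * c⁻¹ : (ZMod q)ˣ)) : ZMod q) X)
      intro n hn
      rw [Finset.mem_filter, mem_NN] at hn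
      rw [Finset.mem_filter, Finset.mem_Icc]
      refine ⟨hn.1.1, ?_⟩
      rw [← hu n hn.1.2.1, ← hn.2]
      simp
    have h2 : ∑ n ∈ (NN q P X).filter (fun n => u n * c = κ), ((n : ℝ) ^ (-(1 / 2) : ℝ)) ^ 2
        = ∑ n ∈ (NN q P X).filter (fun n => u n * c = κ), ((n : ℝ)⁻¹) := by
      apply Finset.sum_congr rfl
      intro n _
      rw [← Real.rpow_natCast, ← Real.rpow_mul (Nat.cast_nonneg _)]
      norm_num
      rw [Real.rpow_neg_one]
    rw [h2]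
    apply mul_le_mul_of_nonneg_right (by exact_mod_cast h1)
    exact Finset.sum_nonneg fun n _ => by positivity
  refine (Finset.sum_le_sum hone).trans ?_
  rw [← Finset.mul_sum]
  apply mul_le_mul_of_nonneg_left _ (Nat.cast_nonneg _)
  refine le_trans ?_ hτ
  rw [← Finset.sum_biUnion]
  · apply Finset.sum_le_sum_of_subset_of_nonneg
    · intro n hn
      rw [Finset.mem_biUnion] at hn
      obtain ⟨κ, hκ, hn⟩ := hn
      rw [Finset.mem_filter] at hκ hn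
      have h1 := mem_NN.1 hn.1
      rw [Finset.mem_filter, Finset.mem_Ioc]
      refine ⟨⟨?_, h1.1.2⟩, h1.2.1, ?_⟩
      · by_contra hle
        push Not at hle
        have := hrel n hn.1 hle (by rw [hn.2]; exact hκ.2.1)
        exact hκ.2.2 (by rw [← hn.2]; exact this)
      · rw [hn.2]; exact hκ.2.1
    · intro n _ _
      positivity
  · intro κ _ κ' _ hne
    rw [Function.onFun, Finset.disjoint_left]
    intro n h1 h2
    rw [Finset.mem_filter] at h1 h2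
    exact hne (h1.2.symm.trans h2.2)

open scoped Classical in
/-- the product of the truncated series and the resonators as one sum -/
lemma product_sum (χ : DirichletCharacter ℂ q) (P : Finset ℕ) (S T : Finset α)
    (r : α → (ZMod q)ˣ) (f : α → ℝ) (X : ℕ) (u : ℕ → (ZMod q)ˣ)
    (hu : ∀ m : ℕ, m.Coprime q → ((u m : (ZMod q)ˣ) : ZMod q) = (m : ZMod q)) :
    DP χ P X * (RS S r f χ * (starRingEnd ℂ) (RS T r f χ)) =
      ∑ t ∈ (NN q P X) ×ˢ (S ×ˢ T), ((((t.1 : ℝ) ^ (-(1 / 2) : ℝ) * (f t.2.1 * f t.2.2) : ℝ)) : ℂ) *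
        χ ((u t.1 * (r t.2.1 * (r t.2.2)⁻¹) : (ZMod q)ˣ) : ZMod q) := by
  have h1 : DP χ P X = ∑ n ∈ NN q P X, ((((n : ℝ) ^ (-(1 / 2) : ℝ) : ℝ)) : ℂ) * χ (u n : ZMod q) := by
    unfold DP
    have h2 : (Finset.Icc 1 X).filter (fun n => ∀ p ∈ P, ¬ p ∣ n) =
        NN q P X ∪ ((Finset.Icc 1 X).filter (fun n => ¬ n.Coprime q ∧ ∀ p ∈ P, ¬ p ∣ n)) := by
      ext n
      simp only [NN, Finset.mem_union, Finset.mem_filter]
      tauto
    have hd : Disjoint (NN q P X)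
        ((Finset.Icc 1 X).filter (fun n => ¬ n.Coprime q ∧ ∀ p ∈ P, ¬ p ∣ n)) := by
      rw [Finset.disjoint_left]
      intro n h3 h4
      rw [mem_NN] at h3
      rw [Finset.mem_filter] at h4
      exact h4.2.1 h3.2.1
    rw [h2, Finset.sum_union hd]
    have h5 : ∑ n ∈ (Finset.Icc 1 X).filter (fun n => ¬ n.Coprime q ∧ ∀ p ∈ P, ¬ p ∣ n),
        χ (n : ZMod q) * (((n : ℝ) ^ (-(1 / 2) : ℝ) : ℝ) : ℂ) = 0 := by
      apply Finset.sum_eq_zero
      intro n hn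
      rw [Finset.mem_filter] at hn
      have : ¬ IsUnit (n : ZMod q) := by
        rw [ZMod.isUnit_iff_coprime]; exact hn.2.1
      rw [MulChar.map_nonunit _ this, zero_mul]
    rw [h5, add_zero]
    apply Finset.sum_congr rfl
    intro n hn
    rw [hu n (mem_NN.1 hn).2.1, mul_comm]
  have h3 : (starRingEnd ℂ) (RS T r f χ) = ∑ b ∈ T, (f b : ℂ) * χ (((r b)⁻¹ : (ZMod q)ˣ) : ZMod q) := by
    unfold RS
    rw [map_sum]
    apply Finset.sum_congr rfl
    intro b _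
    rw [map_mul, Complex.conj_ofReal, conj_char]
  rw [h1, h3]
  unfold RS
  rw [Finset.sum_mul_sum, Finset.sum_mul_sum, Finset.sum_product]
  apply Finset.sum_congr rfl
  intro n _
  rw [Finset.sum_product, ]
  apply Finset.sum_congr rfl
  intro a _
  rw [Finset.mul_sum]
  apply Finset.sum_congr rfl
  intro b _
  push_cast
  rw [map_mul, map_mul]
  ring

end Pool.Agent.H.MP_3e6494_nt.A14
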