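import Mathlib
import Pool.Agent.H.MP_3e6494_nt.helper14.Res

/-!
The number of exceptional characters.
-/

open Finset

set_option linter.unusedSectionVars false
set_option linter.unusedVariables false

namespace Pool.Agent.H.MP_3e6494_nt.A14

open Pool.Agent.H.MP_3e6494_nt.Class Pool.Agent.H.MP_3e6494_nt.T3Res
  Pool.Agent.H.MP_3e6494_nt.T6Par

variable {q : ℕ} [hq : Fact q.Prime] {α : Type*}

/-- the index set -/
abbrev IX (q : ℕ) (P : Finset ℕ) (X : ℕ) (S T : Finset α) : Finset (ℕ × α × α) :=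
  (NN q P X) ×ˢ (S ×ˢ T)

/-- the weight -/
noncomputable def wt (f : α → ℝ) (t : ℕ × α × α) : ℝ := (t.1 : ℝ) ^ (-(1 / 2) : ℝ) * (f t.2.1 * f t.2.2)

/-- the residue -/
def zt (u : ℕ → (ZMod q)ˣ) (r : α → (ZMod q)ˣ) (t : ℕ × α × α) : (ZMod q)ˣ :=
  u t.1 * (r t.2.1 * (r t.2.2)⁻¹)

lemma wt_nonneg {f : α → ℝ} (hf : ∀ a, 0 ≤ f a) (t : ℕ × α × α) : 0 ≤ wt f t := by
  unfold wt
  have := hf t.2.1
  have := hf t.2.2
  positivity

open scoped Classical in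
/-- the part of the mean over the coset coming from the nontrivial elements of the kernel -/
noncomputable def rest (H : Subgroup (DirichletCharacter ℂ q)) (P : Finset ℕ) (X : ℕ)
    (S T : Finset α) (u : ℕ → (ZMod q)ˣ) (r : α → (ZMod q)ˣ) (f : α → ℝ)
    (χ₀ : DirichletCharacter ℂ q) : ℂ :=
  ∑ t ∈ ((IX q P X S T).filter (fun t => zt u r t ≠ 1)).filter (fun t => zt u r t ∈ K H),
    (wt f t : ℂ) * χ₀ (zt u r t : ZMod q)

open scoped Classical in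
/-- the mean over a coset: main part and rest -/
lemma mean_split (H : Subgroup (DirichletCharacter ℂ q)) (χ₀ : DirichletCharacter ℂ q)
    (P : Finset ℕ) (S T : Finset α) (r : α → (ZMod q)ˣ) (f : α → ℝ) (X : ℕ)
    (u : ℕ → (ZMod q)ˣ)
    (hu : ∀ m : ℕ, m.Coprime q → ((u m : (ZMod q)ˣ) : ZMod q) = (m : ZMod q)) :
    ∑ ψ ∈ mem H, DP (χ₀ * ψ) P X *
        (RS S r f (χ₀ * ψ) * (starRingEnd ℂ) (RS T r f (χ₀ * ψ))) =
      ((mem H).card : ℂ) * (((∑ t ∈ (IX q P X S T).filter (fun t => zt u r t = 1), wt f t : ℝ) : ℂ)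
        + rest H P X S T u r f χ₀) := by
  have h1 : ∀ ψ ∈ mem H, DP (χ₀ * ψ) P X *
        (RS S r f (χ₀ * ψ) * (starRingEnd ℂ) (RS T r f (χ₀ * ψ))) =
      ∑ t ∈ IX q P X S T, (wt f t : ℂ) * (χ₀ * ψ) (zt u r t : ZMod q) := by
    intro ψ _
    exact product_sum (χ₀ * ψ) P S T r f X u hu
  rw [Finset.sum_congr rfl h1, coset_mean H χ₀ (IX q P X S T) (wt f) (zt u r)]
  congr 1
  have h2 := Finset.sum_filter_add_sum_filter_not ((IX q P X S T).filter (fun t => zt u r t ∈ K H))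
    (fun t => zt u r t = 1) (fun t => (wt f t : ℂ) * χ₀ (zt u r t : ZMod q))
  rw [← h2]
  congr 1
  · rw [Complex.ofReal_sum]
    have h3 : ((IX q P X S T).filter (fun t => zt u r t ∈ K H)).filter (fun t => zt u r t = 1) =
        (IX q P X S T).filter (fun t => zt u r t = 1) := by
      ext t
      simp only [Finset.mem_filter]
      constructor
      · rintro ⟨⟨a, _⟩, c⟩; exact ⟨a, c⟩
      · rintro ⟨a, c⟩; exact ⟨⟨a, by rw [c]; exact (K H).one_mem⟩, c⟩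
    rw [h3]
    apply Finset.sum_congr rfl
    intro t ht
    rw [(Finset.mem_filter.1 ht).2, Units.val_one, map_one, mul_one]
  · unfold rest
    apply Finset.sum_congr _ (fun _ _ => rfl)
    ext t
    simp only [Finset.mem_filter]
    tauto

open scoped Classical in
/-- the second moment of the rest -/
lemma rest_second (H : Subgroup (DirichletCharacter ℂ q)) (P : Finset ℕ)
    (S T : Finset α) (r : α → (ZMod q)ˣ) (f : α → ℝ) (hf : ∀ a, 0 ≤ f a)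
    (u : ℕ → (ZMod q)ˣ) (hu : ∀ m : ℕ, m.Coprime q → ((u m : (ZMod q)ˣ) : ZMod q) = (m : ZMod q))
    {M : ℝ} (hM : (∑ a ∈ S, f a) * (∑ b ∈ T, f b) ≤ M)
    (X Z : ℕ)
    (hrel : ∀ n ∈ NN q P X, n ≤ Z → ∀ a ∈ S, ∀ b ∈ T,
      u n * (r a * (r b)⁻¹) ∈ K H → u n * (r a * (r b)⁻¹) = 1)
    {τ : ℝ} (hτ : ∀ c : (ZMod q)ˣ,
      ∑ m ∈ (Finset.Ioc Z X).filter (fun m => m.Coprime q ∧ u m * c ∈ K H), ((m : ℝ)⁻¹) ≤ τ) :
    ∑ χ₀ ∈ XX q, ‖rest H P X S T u r f χ₀‖ ^ 2 ≤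
      ((XX q).card : ℝ) * (M ^ 2 * (((X / q + 1 : ℕ) : ℝ) * τ)) := by
  unfold rest
  rw [coset_second H ((IX q P X S T).filter (fun t => zt u r t ≠ 1)) (wt f) (zt u r)]
  apply mul_le_mul_of_nonneg_left _ (Nat.cast_nonneg _)
  have hS0 : 0 ≤ ∑ a ∈ S, f a := Finset.sum_nonneg fun a _ => hf a
  have hT0 : 0 ≤ ∑ a ∈ T, f a := Finset.sum_nonneg fun a _ => hf a
  have hτ0 : 0 ≤ τ := le_trans (Finset.sum_nonneg fun m _ => by positivity) (hτ 1)
  set W := (∑ a ∈ S, f a) * (∑ b ∈ T, f b) with hW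
  have hW0 : 0 ≤ W := mul_nonneg hS0 hT0
  -- the inner sums
  set y : (ZMod q)ˣ → α × α → ℝ := fun κ ab =>
    ∑ n ∈ (NN q P X).filter (fun n => u n * (r ab.1 * (r ab.2)⁻¹) = κ), ((n : ℝ) ^ (-(1 / 2) : ℝ)) with hy
  have hone : ∀ κ : (ZMod q)ˣ, κ ∈ K H → κ ≠ 1 →
      (∑ t ∈ ((IX q P X S T).filter (fun t => zt u r t ≠ 1)).filter (fun t => zt u r t = κ), wt f t)
      = ∑ ab ∈ S ×ˢ T, (f ab.1 * f ab.2) * y κ ab := by
    intro κ _ hκ1
    have h1 : ((IX q P X S T).filter (fun t => zt u r t ≠ 1)).filter (fun t => zt u r t = κ) =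
        (IX q P X S T).filter (fun t => zt u r t = κ) := by
      ext t
      simp only [Finset.mem_filter]
      constructor
      · rintro ⟨⟨a, _⟩, c⟩; exact ⟨a, c⟩
      · rintro ⟨a, c⟩; exact ⟨⟨a, by rw [c]; exact hκ1⟩, c⟩
    rw [h1, Finset.sum_filter, IX, Finset.sum_product_right]
    apply Finset.sum_congr rfl
    intro ab _
    simp only [hy]
    rw [Finset.mul_sum, Finset.sum_filter]
    apply Finset.sum_congr rfl
    intro n _
    unfold zt wt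
    simp only
    split_ifs
    · ring
    · rfl
  have hsplit : ∑ κ ∈ (Finset.univ : Finset (ZMod q)ˣ).filter (fun κ => κ ∈ K H),
      (∑ t ∈ ((IX q P X S T).filter (fun t => zt u r t ≠ 1)).filter (fun t => zt u r t = κ),
        wt f t) ^ 2
      ≤ ∑ κ ∈ (Finset.univ : Finset (ZMod q)ˣ).filter (fun κ => κ ∈ K H ∧ κ ≠ 1),
        W * ∑ ab ∈ S ×ˢ T, (f ab.1 * f ab.2) * y κ ab ^ 2 := by
    have h1 : ∑ κ ∈ (Finset.univ : Finset (ZMod q)ˣ).filter (fun κ => κ ∈ K H),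
      (∑ t ∈ ((IX q P X S T).filter (fun t => zt u r t ≠ 1)).filter (fun t => zt u r t = κ),
        wt f t) ^ 2 =
        ∑ κ ∈ (Finset.univ : Finset (ZMod q)ˣ).filter (fun κ => κ ∈ K H ∧ κ ≠ 1),
      (∑ t ∈ ((IX q P X S T).filter (fun t => zt u r t ≠ 1)).filter (fun t => zt u r t = κ),
        wt f t) ^ 2 := by
      symm
      apply Finset.sum_subset
      · intro κ hκ
        rw [Finset.mem_filter] at hκ ⊢
        exact ⟨hκ.1, hκ.2.1⟩
      · intro κ hκ hκ'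
        rw [Finset.mem_filter] at hκ hκ'
        have hκ1 : κ = 1 := by
          by_contra hne
          exact hκ' ⟨hκ.1, hκ.2, hne⟩
        have : ((IX q P X S T).filter (fun t => zt u r t ≠ 1)).filter (fun t => zt u r t = κ) = ∅ := by
          rw [Finset.filter_eq_empty_iff]
          intro t ht h
          exact (Finset.mem_filter.1 ht).2 (h.trans hκ1)
        rw [this]; simp
    rw [h1]
    apply Finset.sum_le_sum
    intro κ hκ
    rw [Finset.mem_filter] at hκ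
    rw [hone κ hκ.2.1 hκ.2.2]
    have h2 := cauchy_w (S ×ˢ T) (fun ab => f ab.1 * f ab.2) (fun ab => y κ ab)
      (fun ab _ => mul_nonneg (hf _) (hf _))
    have h3 : ∑ ab ∈ S ×ˢ T, f ab.1 * f ab.2 = W := by
      rw [hW, Finset.sum_mul_sum, Finset.sum_product]
    rw [h3] at h2
    exact h2
  refine hsplit.trans ?_
  set KF := (Finset.univ : Finset (ZMod q)ˣ).filter (fun κ => κ ∈ K H ∧ κ ≠ 1) with hKF
  rw [← Finset.mul_sum, Finset.sum_comm]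
  have hinner : ∑ ab ∈ S ×ˢ T, ∑ κ ∈ KF, (f ab.1 * f ab.2) * y κ ab ^ 2 ≤
      W * (((X / q + 1 : ℕ) : ℝ) * τ) := by
    calc ∑ ab ∈ S ×ˢ T, ∑ κ ∈ KF, (f ab.1 * f ab.2) * y κ ab ^ 2
        ≤ ∑ ab ∈ S ×ˢ T, (f ab.1 * f ab.2) * (((X / q + 1 : ℕ) : ℝ) * τ) := by
          apply Finset.sum_le_sum
          intro ab hab
          rw [Finset.mem_product] at hab
          rw [← Finset.mul_sum]
          apply mul_le_mul_of_nonneg_left _ (mul_nonneg (hf _) (hf _))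
          exact inner_bound (K H) P X Z u hu (r ab.1 * (r ab.2)⁻¹)
            (fun n hn hnZ hk => hrel n hn hnZ ab.1 hab.1 ab.2 hab.2 hk) (hτ _)
      _ = W * (((X / q + 1 : ℕ) : ℝ) * τ) := by
          rw [← Finset.sum_mul, hW, Finset.sum_mul_sum, Finset.sum_product]
  have hXτ : 0 ≤ ((X / q + 1 : ℕ) : ℝ) * τ := mul_nonneg (Nat.cast_nonneg _) hτ0
  calc W * ∑ ab ∈ S ×ˢ T, ∑ κ ∈ KF, (f ab.1 * f ab.2) * y κ ab ^ 2
      ≤ W * (W * (((X / q + 1 : ℕ) : ℝ) * τ)) := mul_le_mul_of_nonneg_left hinner hW0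
    _ = W ^ 2 * (((X / q + 1 : ℕ) : ℝ) * τ) := by ring
    _ ≤ M ^ 2 * (((X / q + 1 : ℕ) : ℝ) * τ) := by
        apply mul_le_mul_of_nonneg_right _ hXτ
        exact pow_le_pow_left₀ hW0 hM 2

open scoped Classical in
/-- **the number of exceptional characters** -/
theorem coset_exc (H : Subgroup (DirichletCharacter ℂ q)) (P : Finset ℕ)
    (hP : ∀ p ∈ P, p.Prime)
    (S T : Finset α) (r : α → (ZMod q)ˣ) (f : α → ℝ) (hf : ∀ a, 0 ≤ f a)
    (u : ℕ → (ZMod q)ˣ) (hu : ∀ m : ℕ, m.Coprime q → ((u m : (ZMod q)ˣ) : ZMod q) = (m : ZMod q))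
    {F N : ℝ} (hF : 0 < F) (hFS : ∑ a ∈ S, f a ^ 2 = F) (hFT : ∑ a ∈ T, f a ^ 2 = F)
    (hNS : (S.card : ℝ) ≤ N) (hNT : (T.card : ℝ) ≤ N)
    (hS : ∀ a ∈ S, ∀ b ∈ S, r a * (r b)⁻¹ ∈ K H → a = b)
    (hT : ∀ a ∈ T, ∀ b ∈ T, r a * (r b)⁻¹ ∈ K H → a = b)
    (X Z : ℕ) (hPX : ∏ p ∈ P, p ≤ X)
    (hrel : ∀ n ∈ NN q P X, n ≤ Z → ∀ a ∈ S, ∀ b ∈ T,
      u n * (r a * (r b)⁻¹) ∈ K H → u n * (r a * (r b)⁻¹) = 1)
    {τ : ℝ} (hτ : ∀ c : (ZMod q)ˣ,
      ∑ m ∈ (Finset.Ioc Z X).filter (fun m => m.Coprime q ∧ u m * c ∈ K H), ((m : ℝ)⁻¹) ≤ τ)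
    (𝒵 : Finset (ℕ × α × α))
    (h𝒵 : ∀ z ∈ 𝒵, z.1 ∈ NN q P X ∧ z.2.1 ∈ S ∧ z.2.2 ∈ T ∧ u z.1 * r z.2.1 = r z.2.2)
    {E : ℝ} (hE : E * F ≤ ∑ z ∈ 𝒵, ((z.1 : ℝ) ^ (-(1 / 2) : ℝ)) * (f z.2.1 * f z.2.2))
    {V : ℝ} (hV0 : 0 ≤ V)
    (hEV : 4 ^ P.card * (V + 2 * Approx.B q / Real.sqrt X) + 2 ≤ E)
    (𝓑 : Finset (DirichletCharacter ℂ q))
    (h𝓑 : ∀ χ₀ ∈ 𝓑, (∀ ψ ∈ H, χ₀ * ψ ≠ 1 → ‖(χ₀ * ψ).LFunction (1 / 2)‖ ≤ V) ∧
      (χ₀ ∉ H ∨ 2 * Real.sqrt X * N ≤ Nat.card H)) :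
    (𝓑.card : ℝ) ≤ q * (N ^ 2 * (((X / q + 1 : ℕ) : ℝ) * τ)) := by
  set h : ℝ := ((mem H).card : ℝ) with hh
  have hh' : h = Nat.card H := by rw [hh, card_mem]
  have hhpos : 0 < h := by
    rw [hh]
    have : (mem H).Nonempty := ⟨1, mem_mem.2 H.one_mem⟩
    exact_mod_cast this.card_pos
  have hN0 : 0 ≤ N := le_trans (Nat.cast_nonneg _) hNS
  have hτ0 : 0 ≤ τ := le_trans (Finset.sum_nonneg fun m _ => by positivity) (hτ 1)
  have hSsum := sum_le_sqrt S f hFS hNS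
  have hTsum := sum_le_sqrt T f hFT hNT
  have hS0 : 0 ≤ ∑ a ∈ S, f a := Finset.sum_nonneg fun a _ => hf a
  have hT0 : 0 ≤ ∑ a ∈ T, f a := Finset.sum_nonneg fun a _ => hf a
  have hST : (∑ a ∈ S, f a) * (∑ b ∈ T, f b) ≤ N * F := by
    calc (∑ a ∈ S, f a) * (∑ b ∈ T, f b)
        ≤ (Real.sqrt N * Real.sqrt F) * (Real.sqrt N * Real.sqrt F) := by gcongr
      _ = (Real.sqrt N * Real.sqrt N) * (Real.sqrt F * Real.sqrt F) := by ring
      _ = N * F := by rw [Real.mul_self_sqrt hN0, Real.mul_self_sqrt hF.le]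
  have hsec := rest_second H P S T r f hf u hu hST X Z hrel hτ
  set A := 4 ^ P.card * (V + 2 * Approx.B q / Real.sqrt X) with hA
  have hA0 : 0 ≤ A := by
    have := Approx.B_nonneg (q := q)
    positivity
  -- the main term
  have hmain : E * F ≤ ∑ t ∈ (IX q P X S T).filter (fun t => zt u r t = 1), wt f t := by
    refine hE.trans ?_
    apply Finset.sum_le_sum_of_subset_of_nonneg
    · intro z hz
      obtain ⟨h1, h2, h3, h4⟩ := h𝒵 z hz
      rw [Finset.mem_filter, IX, Finset.mem_product, Finset.mem_product]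
      refine ⟨⟨h1, h2, h3⟩, ?_⟩
      unfold zt
      rw [← mul_assoc, h4, mul_inv_cancel]
    · intro t _ _
      exact wt_nonneg hf t
  -- lower bound of the rest at an exceptional character
  have hlow : ∀ χ₀ ∈ 𝓑, F ≤ ‖rest H P X S T u r f χ₀‖ := by
    intro χ₀ hχ₀
    obtain ⟨hL, hprin⟩ := h𝓑 χ₀ hχ₀
    set W : DirichletCharacter ℂ q → ℂ := fun ψ => RS S r f (χ₀ * ψ) *
        (starRingEnd ℂ) (RS T r f (χ₀ * ψ)) with hW
    have hsplit := mean_split H χ₀ P S T r f X u hu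
    have hup : ‖∑ ψ ∈ mem H, DP (χ₀ * ψ) P X * W ψ‖ ≤ (A + 1) * (h * F) := by
      have h1 : ∀ ψ ∈ mem H, ‖DP (χ₀ * ψ) P X * W ψ‖
          ≤ A * ((‖RS S r f (χ₀ * ψ)‖ ^ 2 + ‖RS T r f (χ₀ * ψ)‖ ^ 2) / 2)
            + (if ψ = χ₀⁻¹ then 2 * Real.sqrt X * (N * F) else 0) := by
        intro ψ hψ
        have hWn : ‖W ψ‖ = ‖RS S r f (χ₀ * ψ)‖ * ‖RS T r f (χ₀ * ψ)‖ := by
          rw [hW]; simp only
          rw [norm_mul, RCLike.norm_conj]
        rw [norm_mul]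
        by_cases h1 : χ₀ * ψ = 1
        · rw [if_pos (eq_inv_of_mul_eq_one_right h1)]
          have h2 : ‖DP (χ₀ * ψ) P X‖ ≤ 2 * Real.sqrt X := by
            rw [h1]; exact norm_DP_one P X
          have h3 : ‖W ψ‖ ≤ N * F := by
            rw [hWn]
            refine le_trans ?_ hST
            exact mul_le_mul (norm_RS_le S r f hf _) (norm_RS_le T r f hf _) (norm_nonneg _) hS0
          have h4 : 0 ≤ A * ((‖RS S r f (χ₀ * ψ)‖ ^ 2 + ‖RS T r f (χ₀ * ψ)‖ ^ 2) / 2) := by positivity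
          have h5 : ‖DP (χ₀ * ψ) P X‖ * ‖W ψ‖ ≤ 2 * Real.sqrt X * (N * F) :=
            mul_le_mul h2 h3 (norm_nonneg _) (by positivity)
          linarith
        · have h2 := norm_DP_le h1 P hP X hPX
          have h3 := hL ψ (mem_mem.1 hψ) h1
          have h4 : ‖DP (χ₀ * ψ) P X‖ ≤ A := by
            refine h2.trans ?_
            rw [hA]
            gcongr
          have h5 : 0 ≤ (if ψ = χ₀⁻¹ then 2 * Real.sqrt X * (N * F) else 0) := by
            split_ifs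
            · positivity
            · exact le_rfl
          have h6 : ‖DP (χ₀ * ψ) P X‖ * ‖W ψ‖ ≤
              A * ((‖RS S r f (χ₀ * ψ)‖ ^ 2 + ‖RS T r f (χ₀ * ψ)‖ ^ 2) / 2) := by
            apply mul_le_mul h4 _ (norm_nonneg _) hA0
            rw [hWn]
            nlinarith [sq_nonneg (‖RS S r f (χ₀ * ψ)‖ - ‖RS T r f (χ₀ * ψ)‖)]
          linarith
      calc ‖∑ ψ ∈ mem H, DP (χ₀ * ψ) P X * W ψ‖ ≤ ∑ ψ ∈ mem H, ‖DP (χ₀ * ψ) P X * W ψ‖ :=
            norm_sum_le _ _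
        _ ≤ ∑ ψ ∈ mem H, (A * ((‖RS S r f (χ₀ * ψ)‖ ^ 2 + ‖RS T r f (χ₀ * ψ)‖ ^ 2) / 2)
            + (if ψ = χ₀⁻¹ then 2 * Real.sqrt X * (N * F) else 0)) := Finset.sum_le_sum h1
        _ = A * (((∑ ψ ∈ mem H, ‖RS S r f (χ₀ * ψ)‖ ^ 2)
              + (∑ ψ ∈ mem H, ‖RS T r f (χ₀ * ψ)‖ ^ 2)) / 2)
            + ∑ ψ ∈ mem H, (if ψ = χ₀⁻¹ then 2 * Real.sqrt X * (N * F) else 0) := by
            rw [Finset.sum_add_distrib, ← Finset.mul_sum, ← Finset.sum_div, Finset.sum_add_distrib]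
        _ ≤ A * (h * F) + 1 * (h * F) := by
            apply add_le_add
            · rw [sum_norm_sq H χ₀ S r f hS, sum_norm_sq H χ₀ T r f hT, hFS, hFT]
              apply le_of_eq; rw [← hh]; ring
            · rw [Finset.sum_ite_eq']
              split_ifs with hmem
              · rcases hprin with hp | hp
                · exfalso
                  have h3 := mem_mem.1 hmem
                  exact hp (by simpa using H.inv_mem h3)
                · rw [← hh'] at hp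
                  calc 2 * Real.sqrt X * (N * F) = (2 * Real.sqrt X * N) * F := by ring
                    _ ≤ h * F := mul_le_mul_of_nonneg_right hp hF.le
                    _ = 1 * (h * F) := by ring
              · positivity
        _ = (A + 1) * (h * F) := by ring
    rw [hsplit] at hup
    rw [norm_mul] at hup
    have h7 : ‖((mem H).card : ℂ)‖ = h := by
      rw [hh]; simp
    rw [h7] at hup
    set M0 := ∑ t ∈ (IX q P X S T).filter (fun t => zt u r t = 1), wt f t with hM0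
    have h8 : ‖((M0 : ℝ) : ℂ) + rest H P X S T u r f χ₀‖ ≤ (A + 1) * F := by
      have h9 : h * ‖((M0 : ℝ) : ℂ) + rest H P X S T u r f χ₀‖ ≤ h * ((A + 1) * F) := by
        calc _ ≤ (A + 1) * (h * F) := hup
          _ = _ := by ring
      exact le_of_mul_le_mul_left h9 hhpos
    have h10 : M0 ≤ ‖((M0 : ℝ) : ℂ) + rest H P X S T u r f χ₀‖ + ‖rest H P X S T u r f χ₀‖ := by
      calc M0 ≤ ‖((M0 : ℝ) : ℂ)‖ := by
            rw [Complex.norm_real]; exact le_abs_self _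
        _ = ‖(((M0 : ℝ) : ℂ) + rest H P X S T u r f χ₀) - rest H P X S T u r f χ₀‖ := by
            congr 1; ring
        _ ≤ _ := norm_sub_le _ _
    nlinarith
  -- Chebyshev
  have h1 : (𝓑.card : ℝ) * F ^ 2 ≤ ∑ χ₀ ∈ XX q, ‖rest H P X S T u r f χ₀‖ ^ 2 := by
    calc (𝓑.card : ℝ) * F ^ 2 = ∑ χ₀ ∈ 𝓑, F ^ 2 := by rw [Finset.sum_const, nsmul_eq_mul]
      _ ≤ ∑ χ₀ ∈ 𝓑, ‖rest H P X S T u r f χ₀‖ ^ 2 :=
          Finset.sum_le_sum fun χ₀ hχ₀ => pow_le_pow_left₀ hF.le (hlow χ₀ hχ₀) 2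
      _ ≤ _ := Finset.sum_le_sum_of_subset_of_nonneg (fun χ _ => mem_XX χ)
          (fun _ _ _ => sq_nonneg _)
  have hXXq : ((XX q).card : ℝ) ≤ q := by
    rw [card_XX]
    exact_mod_cast Nat.sub_le _ _
  have hpos : 0 ≤ (N ^ 2 * (((X / q + 1 : ℕ) : ℝ) * τ)) := by positivity
  have h2 : (𝓑.card : ℝ) * F ^ 2 ≤ (q * (N ^ 2 * (((X / q + 1 : ℕ) : ℝ) * τ))) * F ^ 2 := by
    refine (h1.trans hsec).trans ?_
    calc ((XX q).card : ℝ) * ((N * F) ^ 2 * (((X / q + 1 : ℕ) : ℝ) * τ))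
        = ((XX q).card : ℝ) * ((N ^ 2 * (((X / q + 1 : ℕ) : ℝ) * τ)) * F ^ 2) := by ring
      _ ≤ q * ((N ^ 2 * (((X / q + 1 : ℕ) : ℝ) * τ)) * F ^ 2) := by
          apply mul_le_mul_of_nonneg_right hXXq
          positivity
      _ = _ := by ring
  exact le_of_mul_le_mul_right h2 (by positivity)

end Pool.Agent.H.MP_3e6494_nt.A14
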