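import Mathlib
import Pool.Agent.H.MP_3e6494_nt.helper14.Res2

/-!
The truncated series with finitely many Euler factors removed, for all lengths.
-/

open Finset

set_option linter.unusedSectionVars false

namespace Pool.Agent.H.MP_3e6494_nt.A14

open Pool.Agent.H.MP_3e6494_nt.Class

variable {q : ℕ} [hq : Fact q.Prime]

lemma DP_zero (χ : DirichletCharacter ℂ q) (P : Finset ℕ) : DP χ P 0 = 0 := by
  unfold DP
  simp

theorem norm_DP_le' {χ : DirichletCharacter ℂ q} (hχ : χ ≠ 1) (P : Finset ℕ)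
    (hP : ∀ p ∈ P, p.Prime) : ∀ X : ℕ, 1 ≤ X →
    ‖DP χ P X‖ ≤ 4 ^ P.card * (‖χ.LFunction (1 / 2)‖ + 2 * Approx.B q / Real.sqrt X) := by
  classical
  induction P using Finset.induction_on with
  | empty =>
    intro X hX
    have := norm_DP_le hχ ∅ (by simp) X (by rw [Finset.prod_empty]; exact hX)
    exact this
  | insert p P hpP ih =>
    intro X hX1
    have hp : p.Prime := hP p (Finset.mem_insert_self _ _)
    have hP' : ∀ r ∈ P, r.Prime := fun r hr => hP r (Finset.mem_insert_of_mem hr)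
    have i1 := ih hP' X hX1
    have hB := Approx.B_nonneg (q := q)
    have hL : 0 ≤ ‖χ.LFunction (1 / 2)‖ := norm_nonneg _
    have hp0 : (0 : ℝ) < p := by exact_mod_cast hp.pos
    have hp1 : (1 : ℝ) ≤ p := by exact_mod_cast hp.one_lt.le
    have hX0 : (0 : ℝ) < X := by exact_mod_cast hX1
    have hr1 : (p : ℝ) ^ (-(1 / 2) : ℝ) ≤ 1 := by
      apply Real.rpow_le_one_of_one_le_of_nonpos hp1; norm_num
    have hr0 : 0 ≤ (p : ℝ) ^ (-(1 / 2) : ℝ) := by positivity
    have hχp : ‖χ (p : ZMod q)‖ ≤ 1 := DirichletCharacter.norm_le_one χ _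
    rw [DP_insert χ hP' hp hpP X, Finset.card_insert_of_notMem hpP]
    set M := ‖χ.LFunction (1 / 2)‖ with hM
    set Q := 2 * Approx.B q / Real.sqrt X with hQ
    have hQ0 : 0 ≤ Q := by positivity
    have h4 : (0 : ℝ) < 4 ^ P.card := by positivity
    rcases Nat.eq_zero_or_pos (X / p) with h0 | hXp
    · rw [h0, DP_zero, mul_zero, sub_zero, pow_succ]
      nlinarith [mul_nonneg h4.le hL, mul_nonneg h4.le hQ0]
    have i2 := ih hP' (X / p) hXp
    have hXp0 : (0 : ℝ) < ((X / p : ℕ) : ℝ) := by exact_mod_cast hXp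
    -- the floor
    have hfl : (X : ℝ) ≤ 2 * p * ((X / p : ℕ) : ℝ) := by
      have h1 : X < p * (X / p + 1) := Nat.lt_mul_div_succ X hp.pos
      have h2 : X ≤ 2 * p * (X / p) := by nlinarith
      exact_mod_cast h2
    have hr : (p : ℝ) ^ (-(1 / 2) : ℝ) = 1 / Real.sqrt p := by
      rw [Real.rpow_neg hp0.le, ← Real.sqrt_eq_rpow, one_div]
    have hsq : (p : ℝ) ^ (-(1 / 2) : ℝ) * (2 * Approx.B q / Real.sqrt ((X / p : ℕ) : ℝ)) ≤
        2 * (2 * Approx.B q / Real.sqrt X) := by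
      have h1 : Real.sqrt X ≤ 2 * (Real.sqrt p * Real.sqrt ((X / p : ℕ) : ℝ)) := by
        rw [← Real.sqrt_mul hp0.le]
        apply Real.sqrt_le_iff.2
        refine ⟨by positivity, ?_⟩
        rw [mul_pow, Real.sq_sqrt (by positivity)]
        have h3 : (0 : ℝ) ≤ p * ((X / p : ℕ) : ℝ) := by positivity
        nlinarith
      have hs1 : 0 < Real.sqrt X := Real.sqrt_pos.2 hX0
      have hs2 : 0 < Real.sqrt p := Real.sqrt_pos.2 hp0
      have hs3 : 0 < Real.sqrt ((X / p : ℕ) : ℝ) := Real.sqrt_pos.2 hXp0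
      rw [hr]
      have e1 : 1 / Real.sqrt p * (2 * Approx.B q / Real.sqrt ((X / p : ℕ) : ℝ)) =
          (2 * Approx.B q) / (Real.sqrt p * Real.sqrt ((X / p : ℕ) : ℝ)) := by
        field_simp
      have e2 : 2 * (2 * Approx.B q / Real.sqrt X) = (2 * Approx.B q * 2) / Real.sqrt X := by ring
      rw [e1, e2, div_le_div_iff₀ (by positivity) hs1]
      nlinarith
    calc ‖DP χ P X - χ (p : ZMod q) * (((p : ℝ) ^ (-(1 / 2) : ℝ) : ℝ) : ℂ) * DP χ P (X / p)‖
        ≤ ‖DP χ P X‖ + ‖χ (p : ZMod q)‖ * (p : ℝ) ^ (-(1 / 2) : ℝ) * ‖DP χ P (X / p)‖ := by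
          refine (norm_sub_le _ _).trans ?_
          rw [norm_mul, norm_mul, Complex.norm_real, Real.norm_of_nonneg hr0]
      _ ≤ 4 ^ P.card * (M + Q) + 1 * (p : ℝ) ^ (-(1 / 2) : ℝ) *
            (4 ^ P.card * (M + 2 * Approx.B q / Real.sqrt ((X / p : ℕ) : ℝ))) := by
          gcongr
      _ = 4 ^ P.card * (M + Q) + 4 ^ P.card * ((p : ℝ) ^ (-(1 / 2) : ℝ) * M +
            (p : ℝ) ^ (-(1 / 2) : ℝ) * (2 * Approx.B q / Real.sqrt ((X / p : ℕ) : ℝ))) := by ring
      _ ≤ 4 ^ P.card * (M + Q) + 4 ^ P.card * (1 * M + 2 * Q) := by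
          gcongr
      _ ≤ 4 ^ (P.card + 1) * (M + Q) := by
          rw [pow_succ]
          nlinarith [mul_nonneg h4.le hL, mul_nonneg h4.le hQ0]

end Pool.Agent.H.MP_3e6494_nt.A14
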