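import Mathlib
import Pool.Agent.H.MP_3e6494_nt.helper14.DP2
import Pool.Agent.H.MP_3e6494_nt.helper50.T3Prime

/-!
The long part of the truncated series as a function on the residue classes.
-/

open Finset

set_option linter.unusedSectionVars false
set_option linter.unusedVariables false

namespace Pool.Agent.H.MP_3e6494_nt.A14

open Pool.Agent.H.MP_3e6494_nt.Class
open Pool.Agent.H.MP_3e6494_nt.T3Prime (u u_val u_mul u_one)

variable {q : ℕ} [hq : Fact q.Prime]

/-- the centred counting function of an interval -/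
noncomputable def hI (q a ℓ : ℕ) (x : (ZMod q)ˣ) : ℝ :=
  (((Finset.Ioc a (a + ℓ)).filter (fun n : ℕ => (n : ZMod q) = (x : ZMod q))).card : ℝ) - ℓ / q

/-- complete sums -/
lemma sum_complete {M : Type*} [AddCommMonoid M] (g : ZMod q → M) (a : ℕ) :
    ∑ n ∈ Finset.Ioc a (a + q), g (n : ZMod q) = ∑ x : ZMod q, g x := by
  have hinj : Set.InjOn (fun n : ℕ => (n : ZMod q)) (Finset.Ioc a (a + q) : Finset ℕ) := by
    intro m hm n hn h
    rw [Finset.mem_coe, Finset.mem_Ioc] at hm hn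
    simp only at h
    rw [ZMod.natCast_eq_natCast_iff] at h
    rcases le_total m n with hmn | hmn
    · have h1 := (Nat.modEq_iff_dvd' hmn).1 h
      rcases Nat.eq_zero_or_pos (n - m) with h0 | h0
      · omega
      · have := Nat.le_of_dvd h0 h1
        omega
    · have h1 := (Nat.modEq_iff_dvd' hmn).1 h.symm
      rcases Nat.eq_zero_or_pos (m - n) with h0 | h0
      · omega
      · have := Nat.le_of_dvd h0 h1
        omega
  have himg : (Finset.Ioc a (a + q)).image (fun n : ℕ => (n : ZMod q)) = Finset.univ := by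
    apply Finset.eq_univ_of_card
    rw [Finset.card_image_of_injOn hinj, Nat.card_Ioc, ZMod.card]
    omega
  rw [← himg, Finset.sum_image hinj]

lemma char_sum_period {χ : DirichletCharacter ℂ q} (hχ : χ ≠ 1) (Y ℓ m : ℕ) :
    ∑ n ∈ Finset.Ioc Y (Y + ℓ + q * m), χ (n : ZMod q) = ∑ n ∈ Finset.Ioc Y (Y + ℓ), χ (n : ZMod q) := by
  induction m with
  | zero => simp
  | succ m ih =>
    rw [← ih]
    have h1 : Y + ℓ + q * (m + 1) = (Y + ℓ + q * m) + q := by ring
    rw [h1, ← Finset.sum_Ioc_consecutive (fun n : ℕ => χ (n : ZMod q))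
      (show Y ≤ Y + ℓ + q * m by omega) (show Y + ℓ + q * m ≤ Y + ℓ + q * m + q by omega)]
    rw [sum_complete (fun x => χ x) (Y + ℓ + q * m), MulChar.sum_eq_zero_of_ne_one hχ, add_zero]

lemma char_sum_units (χ : DirichletCharacter ℂ q) (I : Finset ℕ) :
    ∑ x : (ZMod q)ˣ, ((((I.filter (fun n : ℕ => (n : ZMod q) = (x : ZMod q))).card : ℝ)) : ℂ) *
      χ (x : ZMod q) = ∑ n ∈ I, χ (n : ZMod q) := by
  have h1 : ∀ x : (ZMod q)ˣ,
      ((((I.filter (fun n : ℕ => (n : ZMod q) = (x : ZMod q))).card : ℝ)) : ℂ) * χ (x : ZMod q) =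
      ∑ n ∈ I.filter (fun n : ℕ => (n : ZMod q) = (x : ZMod q)), χ (n : ZMod q) := by
    intro x
    have : ∀ n ∈ I.filter (fun n : ℕ => (n : ZMod q) = (x : ZMod q)),
        χ (n : ZMod q) = χ (x : ZMod q) := by
      intro n hn
      rw [(Finset.mem_filter.1 hn).2]
    rw [Finset.sum_congr rfl this, Finset.sum_const, nsmul_eq_mul]
    push_cast
    rfl
  simp_rw [h1]
  simp_rw [Finset.sum_filter]
  rw [Finset.sum_comm]
  apply Finset.sum_congr rfl
  intro n _
  by_cases hc : n.Coprime q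
  · rw [Finset.sum_eq_single (ZMod.unitOfCoprime n hc)]
    · rw [if_pos (ZMod.coe_unitOfCoprime n hc).symm]
    · intro x _ hx
      rw [if_neg]
      intro h
      apply hx
      apply Units.ext
      rw [ZMod.coe_unitOfCoprime, h]
    · intro h; exact absurd (Finset.mem_univ _) h
  · have h0 : χ (n : ZMod q) = 0 := by
      apply MulChar.map_nonunit
      rw [ZMod.isUnit_iff_coprime]; exact hc
    rw [h0]
    apply Finset.sum_eq_zero
    intro x _
    split_ifs <;> rfl

lemma hI_char {χ : DirichletCharacter ℂ q} (hχ : χ ≠ 1) (Y t : ℕ) (ht : Y ≤ t) :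
    ∑ n ∈ Finset.Ioc Y t, χ (n : ZMod q) =
      ∑ x : (ZMod q)ˣ, (hI q Y ((t - Y) % q) x : ℂ) * χ (x : ZMod q) := by
  have h1 : t = Y + (t - Y) % q + q * ((t - Y) / q) := by
    have := Nat.mod_add_div (t - Y) q
    omega
  conv_lhs => rw [h1]
  rw [char_sum_period hχ, ← char_sum_units χ]
  have h2 : ∀ x : (ZMod q)ˣ, (hI q Y ((t - Y) % q) x : ℂ) * χ (x : ZMod q) =
      (((((Finset.Ioc Y (Y + (t - Y) % q)).filter
        (fun n : ℕ => (n : ZMod q) = (x : ZMod q))).card : ℝ)) : ℂ) * χ (x : ZMod q) -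
        ((((t - Y) % q : ℕ) : ℝ) / q : ℝ) * χ (x : ZMod q) := by
    intro x
    unfold hI
    push_cast
    ring
  simp_rw [h2]
  rw [Finset.sum_sub_distrib, ← Finset.mul_sum, Dual.sum_units_eq_zero hχ, mul_zero, sub_zero]

lemma hI_sum (a ℓ : ℕ) (hℓ : ℓ < q) : |∑ x : (ZMod q)ˣ, hI q a ℓ x| ≤ 1 := by
  have hq0 : (0 : ℝ) < q := by exact_mod_cast hq.out.pos
  have hq1 : 1 ≤ q := hq.out.one_lt.le
  unfold hI
  rw [Finset.sum_sub_distrib, Finset.sum_const, Finset.card_univ, ZMod.card_units, nsmul_eq_mul]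
  set I := Finset.Ioc a (a + ℓ) with hI'
  -- the number of integers counted
  have h1 : ∑ x : (ZMod q)ˣ, (((I.filter (fun n : ℕ => (n : ZMod q) = (x : ZMod q))).card : ℝ)) =
      ((I.filter (fun n => n.Coprime q)).card : ℝ) := by
    have h2 : ∑ x : (ZMod q)ˣ, (I.filter (fun n : ℕ => (n : ZMod q) = (x : ZMod q))).card =
        (I.filter (fun n => n.Coprime q)).card := by
      rw [← Finset.card_biUnion]
      · congr 1
        ext n
        simp only [Finset.mem_biUnion, Finset.mem_univ, true_and, Finset.mem_filter]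
        constructor
        · rintro ⟨x, hn, hx⟩
          refine ⟨hn, ?_⟩
          rw [← ZMod.isUnit_iff_coprime, hx]
          exact x.isUnit
        · rintro ⟨hn, hc⟩
          exact ⟨ZMod.unitOfCoprime n hc, hn, (ZMod.coe_unitOfCoprime n hc).symm⟩
      · intro x _ y _ hxy
        rw [Function.onFun, Finset.disjoint_left]
        intro n h1 h2
        rw [Finset.mem_filter] at h1 h2
        exact hxy (Units.ext (h1.2.symm.trans h2.2))
    exact_mod_cast h2
  rw [h1]
  have h3 : (I.filter (fun n => n.Coprime q)).card + (I.filter (fun n => ¬ n.Coprime q)).card = ℓ := by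
    rw [Finset.card_filter_add_card_filter_not, hI', Nat.card_Ioc]
    omega
  have h4 : (I.filter (fun n => ¬ n.Coprime q)).card ≤ 1 := by
    rw [Finset.card_le_one]
    intro m hm n hn
    rw [Finset.mem_filter, hI', Finset.mem_Ioc] at hm hn
    have d1 : q ∣ m := by
      by_contra h
      exact hm.2 ((Nat.Prime.coprime_iff_not_dvd hq.out).2 h).symm
    have d2 : q ∣ n := by
      by_contra h
      exact hn.2 ((Nat.Prime.coprime_iff_not_dvd hq.out).2 h).symm
    rcases le_total m n with hmn | hmn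
    · rcases Nat.eq_zero_or_pos (n - m) with h0 | h0
      · omega
      · have := Nat.le_of_dvd h0 (Nat.dvd_sub d2 d1)
        omega
    · rcases Nat.eq_zero_or_pos (m - n) with h0 | h0
      · omega
      · have := Nat.le_of_dvd h0 (Nat.dvd_sub d1 d2)
        omega
  have h5 : ((I.filter (fun n => n.Coprime q)).card : ℝ) +
      ((I.filter (fun n => ¬ n.Coprime q)).card : ℝ) = ℓ := by exact_mod_cast h3
  have h6 : ((I.filter (fun n => ¬ n.Coprime q)).card : ℝ) ≤ 1 := by exact_mod_cast h4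
  have h7 : (0 : ℝ) ≤ ((I.filter (fun n => ¬ n.Coprime q)).card : ℝ) := Nat.cast_nonneg _
  have h8 : ((q - 1 : ℕ) : ℝ) * ((ℓ : ℝ) / q) = ℓ - ℓ / q := by
    rw [Nat.cast_sub hq1]
    field_simp
    push_cast
    ring
  rw [h8]
  have h9 : (ℓ : ℝ) / q ≤ 1 := by
    rw [div_le_one hq0]; exact_mod_cast hℓ.le
  have h10 : (0 : ℝ) ≤ (ℓ : ℝ) / q := by positivity
  rw [abs_le]
  constructor <;> linarith

/-- the weight -/
noncomputable def aw (t : ℕ) : ℝ := (t : ℝ) ^ (-(1 / 2) : ℝ)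

lemma aw_nonneg (t : ℕ) : 0 ≤ aw t := by unfold aw; positivity

lemma aw_eq (t : ℕ) : aw t = 1 / Real.sqrt t := by
  unfold aw
  rw [Real.rpow_neg (Nat.cast_nonneg _), ← Real.sqrt_eq_rpow, one_div]

lemma aw_anti {s t : ℕ} (hs : 1 ≤ s) (h : s ≤ t) : aw t ≤ aw s := by
  rw [aw_eq, aw_eq]
  have : (0 : ℝ) < Real.sqrt s := Real.sqrt_pos.2 (by exact_mod_cast hs)
  apply one_div_le_one_div_of_le this
  apply Real.sqrt_le_sqrt
  exact_mod_cast h

lemma aw_diff {t : ℕ} (ht : 1 ≤ t) : (aw t - aw (t + 1)) * Real.sqrt t ≤ 1 / t := by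
  have ht0 : (0 : ℝ) < t := by exact_mod_cast ht
  have hs : 0 < Real.sqrt t := Real.sqrt_pos.2 ht0
  have hs1 : 0 < Real.sqrt ((t + 1 : ℕ) : ℝ) := Real.sqrt_pos.2 (by positivity)
  have e0 : Real.sqrt t * Real.sqrt t = t := Real.mul_self_sqrt ht0.le
  have e1 : Real.sqrt ((t + 1 : ℕ) : ℝ) * Real.sqrt ((t + 1 : ℕ) : ℝ) = t + 1 := by
    rw [Real.mul_self_sqrt (by positivity)]; push_cast; ring
  have hle : Real.sqrt t ≤ Real.sqrt ((t + 1 : ℕ) : ℝ) :=
    Real.sqrt_le_sqrt (by push_cast; linarith)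
  rw [aw_eq, aw_eq]
  have e2 : (1 / Real.sqrt t - 1 / Real.sqrt ((t + 1 : ℕ) : ℝ)) * Real.sqrt t =
      (Real.sqrt ((t + 1 : ℕ) : ℝ) - Real.sqrt t) / Real.sqrt ((t + 1 : ℕ) : ℝ) := by
    field_simp
  rw [e2, div_le_div_iff₀ hs1 ht0]
  nlinarith

/-- the difference of two truncations -/
noncomputable def LP (χ : DirichletCharacter ℂ q) (D : Finset ℕ) (Y X : ℕ) : ℂ :=
  DP χ D X - DP χ D Y

lemma LP_empty (χ : DirichletCharacter ℂ q) {Y X : ℕ} (h : Y ≤ X) :
    LP χ ∅ Y X = ∑ n ∈ Finset.Ioc Y X, χ (n : ZMod q) * ((aw n : ℝ) : ℂ) := by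
  unfold LP DP aw
  simp only [Finset.notMem_empty, IsEmpty.forall_iff, implies_true, Finset.filter_true]
  have : Finset.Icc 1 X = Finset.Icc 1 Y ∪ Finset.Ioc Y X := by
    ext n
    simp only [Finset.mem_union, Finset.mem_Icc, Finset.mem_Ioc]
    omega
  rw [this, Finset.sum_union]
  · ring
  · rw [Finset.disjoint_left]
    intro n h1 h2
    rw [Finset.mem_Icc] at h1
    rw [Finset.mem_Ioc] at h2
    omega

lemma abel (A : ℕ → ℂ) (c : ℕ → ℂ) (a : ℕ → ℂ) (Y : ℕ) (hA0 : A Y = 0)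
    (hA : ∀ t, Y ≤ t → A (t + 1) = A t + c (t + 1)) :
    ∀ X, Y ≤ X → ∑ n ∈ Finset.Ioc Y X, c n * a n =
      ∑ t ∈ Finset.Ico (Y + 1) X, (a t - a (t + 1)) * A t + a X * A X := by
  intro X hX
  induction X, hX using Nat.le_induction with
  | base => simp [hA0]
  | succ X hX ih =>
    rw [Finset.sum_Ioc_succ_top (by omega), ih, hA X hX]
    rcases Nat.eq_or_lt_of_le hX with h | h
    · subst h
      rw [hA0]
      simp
      ring
    · rw [Finset.sum_Ico_succ_top (by omega)]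
      ring

/-- the function on the residue classes attached to the long part -/
noncomputable def gL (q Y X : ℕ) : (ZMod q)ˣ → ℝ := fun x =>
  ∑ t ∈ Finset.Ico (Y + 1) X, (aw t - aw (t + 1)) * hI q Y ((t - Y) % q) x +
    aw X * hI q Y ((X - Y) % q) x

lemma gL_char {χ : DirichletCharacter ℂ q} (hχ : χ ≠ 1) {Y X : ℕ} (h : Y ≤ X) :
    LP χ ∅ Y X = ∑ x : (ZMod q)ˣ, (gL q Y X x : ℂ) * χ (x : ZMod q) := by
  rw [LP_empty χ h]
  rw [abel (fun t => ∑ n ∈ Finset.Ioc Y t, χ (n : ZMod q)) (fun n => χ (n : ZMod q))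
    (fun n => ((aw n : ℝ) : ℂ)) Y (by simp) (by
      intro t ht
      rw [Finset.sum_Ioc_succ_top (by omega)]) X h]
  have h1 : ∀ t, Y ≤ t → (∑ n ∈ Finset.Ioc Y t, χ (n : ZMod q)) =
      ∑ x : (ZMod q)ˣ, (hI q Y ((t - Y) % q) x : ℂ) * χ (x : ZMod q) := fun t ht => hI_char hχ Y t ht
  have h2 : ∑ t ∈ Finset.Ico (Y + 1) X, (((aw t : ℝ) : ℂ) - ((aw (t + 1) : ℝ) : ℂ)) *
      ∑ n ∈ Finset.Ioc Y t, χ (n : ZMod q) = ∑ t ∈ Finset.Ico (Y + 1) X,
        (((aw t : ℝ) : ℂ) - ((aw (t + 1) : ℝ) : ℂ)) *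
        ∑ x : (ZMod q)ˣ, (hI q Y ((t - Y) % q) x : ℂ) * χ (x : ZMod q) := by
    apply Finset.sum_congr rfl
    intro t ht
    rw [Finset.mem_Ico] at ht
    rw [h1 t (by omega)]
  rw [h2, h1 X h]
  unfold gL
  push_cast
  simp_rw [add_mul, Finset.sum_mul]
  rw [Finset.sum_add_distrib]
  congr 1
  · rw [Finset.sum_comm]
    apply Finset.sum_congr rfl
    intro t _
    rw [Finset.mul_sum]
    apply Finset.sum_congr rfl
    intro x _
    ring
  · rw [Finset.mul_sum]
    apply Finset.sum_congr rfl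
    intro x _
    ring

section seminorm

variable (N : (ZMod q)ˣ → ((ZMod q)ˣ → ℝ) → ℝ)

lemma N_sum (h0 : ∀ v, N v (fun _ => 0) ≤ 0)
    (hadd : ∀ v g h, N v (fun x => g x + h x) ≤ N v g + N v h)
    (hsmul : ∀ v (c : ℝ) g, N v (fun x => c * g x) ≤ |c| * N v g)
    {ι : Type*} (s : Finset ι) (c : ι → ℝ) (g : ι → (ZMod q)ˣ → ℝ) (v : (ZMod q)ˣ) :
    N v (fun x => ∑ t ∈ s, c t * g t x) ≤ ∑ t ∈ s, |c t| * N v (g t) := by
  classical
  induction s using Finset.induction_on with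
  | empty => simpa using h0 v
  | insert a s ha ih =>
    have e : (fun x => ∑ t ∈ insert a s, c t * g t x) =
        (fun x => c a * g a x + ∑ t ∈ s, c t * g t x) := by
      funext x
      rw [Finset.sum_insert ha]
    rw [e, Finset.sum_insert ha]
    exact (hadd v _ _).trans (add_le_add (hsmul v _ _) ih)

lemma gL_bound (h0 : ∀ v, N v (fun _ => 0) ≤ 0)
    (hadd : ∀ v g h, N v (fun x => g x + h x) ≤ N v g + N v h)
    (hsmul : ∀ v (c : ℝ) g, N v (fun x => c * g x) ≤ |c| * N v g)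
    {A B : ℝ} (hA : 0 ≤ A) (hB : 0 ≤ B) {X₀ : ℕ} (v : (ZMod q)ˣ)
    (hcore : ∀ a ℓ : ℕ, ℓ < q → N v (hI q a ℓ) ≤ A * Real.sqrt ℓ + B)
    {Y X : ℕ} (h : Y ≤ X) (hX : X ≤ X₀) :
    N v (gL q Y X) ≤ A * (2 + Real.log X₀) + B * aw (Y + 1) := by
  have hlogX₀ : 0 ≤ Real.log X₀ := Real.log_natCast_nonneg X₀
  have haw := aw_nonneg (Y + 1)
  rcases Nat.eq_or_lt_of_le h with h1 | h1
  · subst h1
    have e : gL q Y Y = fun _ => 0 := by
      funext x
      unfold gL hI
      simp
    rw [e]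
    refine (h0 v).trans ?_
    positivity
  have hcore' : ∀ t, Y ≤ t → N v (hI q Y ((t - Y) % q)) ≤ A * Real.sqrt t + B := by
    intro t ht
    refine (hcore Y ((t - Y) % q) (Nat.mod_lt _ hq.out.pos)).trans ?_
    gcongr
    exact (Nat.mod_le _ _).trans (Nat.sub_le _ _)
  have e : gL q Y X = fun x => (∑ t ∈ Finset.Ico (Y + 1) X, (aw t - aw (t + 1)) *
      hI q Y ((t - Y) % q) x) + aw X * hI q Y ((X - Y) % q) x := rfl
  rw [e]
  have hm : ∀ t ∈ Finset.Ico (Y + 1) X, |aw t - aw (t + 1)| = aw t - aw (t + 1) := by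
    intro t ht
    rw [Finset.mem_Ico] at ht
    rw [abs_of_nonneg]
    have := aw_anti (show 1 ≤ t by omega) (show t ≤ t + 1 by omega)
    linarith
  have s1 := hadd v (fun x => ∑ t ∈ Finset.Ico (Y + 1) X, (aw t - aw (t + 1)) *
      hI q Y ((t - Y) % q) x) (fun x => aw X * hI q Y ((X - Y) % q) x)
  have s2 := N_sum N h0 hadd hsmul (Finset.Ico (Y + 1) X) (fun t => aw t - aw (t + 1))
    (fun t => hI q Y ((t - Y) % q)) v
  have s3 := hsmul v (aw X) (hI q Y ((X - Y) % q))
  rw [abs_of_nonneg (aw_nonneg X)] at s3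
  have t1 : ∑ t ∈ Finset.Ico (Y + 1) X, |aw t - aw (t + 1)| * N v (hI q Y ((t - Y) % q)) ≤
      A * (1 + Real.log X₀) + B * (aw (Y + 1) - aw X) := by
    calc ∑ t ∈ Finset.Ico (Y + 1) X, |aw t - aw (t + 1)| * N v (hI q Y ((t - Y) % q))
        ≤ ∑ t ∈ Finset.Ico (Y + 1) X, (A * (1 / (t : ℝ)) + B * (aw t - aw (t + 1))) := by
          apply Finset.sum_le_sum
          intro t ht
          rw [hm t ht]
          rw [Finset.mem_Ico] at ht
          have hd : 0 ≤ aw t - aw (t + 1) := by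
            have := aw_anti (show 1 ≤ t by omega) (show t ≤ t + 1 by omega)
            linarith
          have h2 := mul_le_mul_of_nonneg_left (hcore' t (by omega)) hd
          have h3 := mul_le_mul_of_nonneg_left (aw_diff (show 1 ≤ t by omega)) hA
          nlinarith
      _ = A * ∑ t ∈ Finset.Ico (Y + 1) X, (1 / (t : ℝ)) +
            B * ∑ t ∈ Finset.Ico (Y + 1) X, (aw t - aw (t + 1)) := by
          rw [Finset.sum_add_distrib, ← Finset.mul_sum, ← Finset.mul_sum]
      _ ≤ A * (1 + Real.log X₀) + B * (aw (Y + 1) - aw X) := by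
          have h4 : ∑ t ∈ Finset.Ico (Y + 1) X, (1 / (t : ℝ)) ≤ 1 + Real.log X₀ := by
            have h5 := harmonic_le_one_add_log X₀
            have h6 : ((harmonic X₀ : ℚ) : ℝ) = ∑ i ∈ Finset.Icc 1 X₀, 1 / (i : ℝ) := by
              rw [harmonic_eq_sum_Icc]
              push_cast
              apply Finset.sum_congr rfl; intro i _; rw [one_div]
            rw [h6] at h5
            refine le_trans ?_ h5
            apply Finset.sum_le_sum_of_subset_of_nonneg
            · intro t ht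
              rw [Finset.mem_Ico] at ht
              rw [Finset.mem_Icc]
              omega
            · intro t _ _; positivity
          have h7 : ∑ t ∈ Finset.Ico (Y + 1) X, (aw t - aw (t + 1)) = aw (Y + 1) - aw X := by
            have := Finset.sum_Ico_sub aw (show Y + 1 ≤ X by omega)
            have h8 : ∑ t ∈ Finset.Ico (Y + 1) X, (aw t - aw (t + 1)) =
                -∑ t ∈ Finset.Ico (Y + 1) X, (aw (t + 1) - aw t) := by
              rw [← Finset.sum_neg_distrib]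
              apply Finset.sum_congr rfl
              intro t _; ring
            rw [h8, this]; ring
          rw [h7]
          have := mul_le_mul_of_nonneg_left h4 hA
          linarith
  have t2 : aw X * N v (hI q Y ((X - Y) % q)) ≤ A + B * aw X := by
    have h2 := mul_le_mul_of_nonneg_left (hcore' X h) (aw_nonneg X)
    have hX0 : (0 : ℝ) < X := by exact_mod_cast (by omega : 0 < X)
    have h3 : aw X * Real.sqrt X = 1 := by
      rw [aw_eq]
      have : Real.sqrt X ≠ 0 := (Real.sqrt_pos.2 hX0).ne'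
      field_simp
    calc aw X * N v (hI q Y ((X - Y) % q)) ≤ aw X * (A * Real.sqrt X + B) := h2
      _ = A * (aw X * Real.sqrt X) + B * aw X := by ring
      _ = A + B * aw X := by rw [h3, mul_one]
  linarith

end seminorm

end Pool.Agent.H.MP_3e6494_nt.A14
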