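import Pool.Agent.H.MP_3e6494_nt.helper14.BlocksRDef

/-!
Structure: the two-sided combinatorial resonator, robust under the removal of up to `r` primes.
-/

open Finset

set_option autoImplicit false
set_option linter.unusedVariables false

namespace Pool.Agent.H.MP_3e6494_nt.H14

/-- an abstract two-sided resonator which stays a resonator after the removal of at most `r`
primes: `V` is the logarithm of the size and `G` the gain -/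
structure ResoR (r : ℕ) (V G : ℝ) where
  α : Type
  S : Finset α
  T : Finset α
  nu : α → ℕ
  de : α → ℕ
  f : α → ℝ
  f_nonneg : ∀ a, 0 ≤ f a
  cardS : (S.card : ℝ) ≤ Real.exp V
  cardT : (T.card : ℝ) ≤ Real.exp V
  pos : ∀ a, (a ∈ S ∨ a ∈ T) → 0 < nu a ∧ 0 < de a
  size : ∀ a, (a ∈ S ∨ a ∈ T) → nu a ≤ 4 ^ ⌊V ^ 2⌋₊ ∧ de a ≤ 4 ^ ⌊V ^ 2⌋₊
  cop : ∀ a, (a ∈ S ∨ a ∈ T) → ∀ q : ℕ, q.Prime → V ^ 2 < q → (nu a).Coprime q ∧ (de a).Coprime q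
  injS : ∀ a ∈ S, ∀ b ∈ S, nu a * de b = de a * nu b → a = b
  injT : ∀ a ∈ T, ∀ b ∈ T, nu a * de b = de a * nu b → a = b
  sub : ∀ D : Finset ℕ, (∀ p ∈ D, p.Prime) → D.card ≤ r →
    ∃ (S' T' : Finset α) (F : ℝ) (Z : Finset (ℕ × α × α)), S' ⊆ S ∧ T' ⊆ T ∧ 0 < F ∧
      (∀ a, (a ∈ S' ∨ a ∈ T') → ∀ p ∈ D, ¬ p ∣ nu a ∧ ¬ p ∣ de a) ∧
      ∑ a ∈ S', f a ^ 2 = F ∧ ∑ a ∈ T', f a ^ 2 = F ∧
      (∀ z ∈ Z, 1 ≤ z.1 ∧ (z.1 : ℝ) ≤ Real.exp (2 * V) ∧ z.2.1 ∈ S' ∧ z.2.2 ∈ T' ∧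
        z.1 * nu z.2.1 * de z.2.2 = de z.2.1 * nu z.2.2 ∧ ∀ p ∈ D, ¬ p ∣ z.1) ∧
      Real.exp G * F ≤ ∑ z ∈ Z, ((z.1 : ℝ) ^ (-(1 / 2) : ℝ)) * (f z.2.1 * f z.2.2)

end Pool.Agent.H.MP_3e6494_nt.H14
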