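import Pool.Agent.H.MP_3e6494_nt.helper14.BlocksRDef

/-!
Structures: blocks and the two-sided resonator with a bound for its energy.
-/

set_option autoImplicit false
set_option linter.unusedVariables false

open Finset

namespace Pool.Agent.H.MP_3e6494_nt.H14

open Pool.Agent.H.MP_3e6494_nt.H15

/-- a system of blocks with few primes in each product -/
structure BlocksE (r : ℕ) (V G δ : ℝ) extends BlocksR r V G where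
  R : ℝ
  R1 : 1 ≤ R
  σpos : 0 < σ
  hR : ∀ k ∈ I, ∑ p ∈ P k, 1 / (p : ℝ) ≤ R * σ
  hJ : ∀ k ∈ I, ∑ p ∈ P k, 1 / (p : ℝ) ≤ J k
  en : ∑ k ∈ I, 2 * (J k : ℝ) * (80 + 2 * Real.log R) ≤ δ * V

/-- the weight in the energy: for four fractions `nu a / de a`, ... -/
noncomputable def gw {α : Type*} (nu de : α → ℕ) (a b a' b' : α) : ℝ :=
  (Nat.gcd (nu a * de b * (de a' * nu b')) (de a * nu b * (nu a' * de b')) : ℝ) /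
    Real.sqrt (((nu a * de b * (de a' * nu b') : ℕ) : ℝ) * ((de a * nu b * (nu a' * de b') : ℕ) : ℝ))

/-- an abstract two-sided resonator which stays a resonator after the removal of at most `r`
primes, with an energy bound: `V` is the logarithm of the size, `G` the gain, `Λ` the loss -/
structure ResoE (r : ℕ) (V G Λ : ℝ) where
  α : Type
  S : Finset α
  T : Finset α
  nu : α → ℕ
  de : α → ℕ
  f : α → ℝ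
  F0 : ℝ
  F0_pos : 0 < F0
  f_nonneg : ∀ a, 0 ≤ f a
  cardS : (S.card : ℝ) ≤ Real.exp V
  cardT : (T.card : ℝ) ≤ Real.exp V
  pos : ∀ a, (a ∈ S ∨ a ∈ T) → 0 < nu a ∧ 0 < de a
  size : ∀ a, (a ∈ S ∨ a ∈ T) → nu a ≤ 4 ^ ⌊V ^ 2⌋₊ ∧ de a ≤ 4 ^ ⌊V ^ 2⌋₊
  cop : ∀ a, (a ∈ S ∨ a ∈ T) → ∀ q : ℕ, q.Prime → V ^ 2 < q → (nu a).Coprime q ∧ (de a).Coprime q
  injS : ∀ a ∈ S, ∀ b ∈ S, nu a * de b = de a * nu b → a = b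
  injT : ∀ a ∈ T, ∀ b ∈ T, nu a * de b = de a * nu b → a = b
  sumS : ∑ a ∈ S, f a ^ 2 ≤ F0
  sumT : ∑ a ∈ T, f a ^ 2 ≤ F0
  energy : ∀ A B A' B' : Finset α, (A = S ∨ A = T) → (B = S ∨ B = T) → (A' = S ∨ A' = T) →
    (B' = S ∨ B' = T) →
    ∑ a ∈ A, ∑ b ∈ B, ∑ a' ∈ A', ∑ b' ∈ B', (f a * f b * f a' * f b') * gw nu de a b a' b' ≤
      Λ * F0 ^ 2
  sub : ∀ D : Finset ℕ, (∀ p ∈ D, p.Prime) → D.card ≤ r →
    ∃ (S' T' : Finset α) (F : ℝ) (Z : Finset (ℕ × α × α)), S' ⊆ S ∧ T' ⊆ T ∧ 0 < F ∧ F0 ≤ Λ * F ∧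
      (∀ a, (a ∈ S' ∨ a ∈ T') → ∀ p ∈ D, ¬ p ∣ nu a ∧ ¬ p ∣ de a) ∧
      ∑ a ∈ S', f a ^ 2 = F ∧ ∑ a ∈ T', f a ^ 2 = F ∧
      (∀ z ∈ Z, 1 ≤ z.1 ∧ (z.1 : ℝ) ≤ Real.exp (2 * V) ∧ z.2.1 ∈ S' ∧ z.2.2 ∈ T' ∧
        z.1 * nu z.2.1 * de z.2.2 = de z.2.1 * nu z.2.2 ∧ ∀ p ∈ D, ¬ p ∣ z.1) ∧
      Real.exp G * F ≤ ∑ z ∈ Z, ((z.1 : ℝ) ^ (-(1 / 2) : ℝ)) * (f z.2.1 * f z.2.2)

end Pool.Agent.H.MP_3e6494_nt.H14
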