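import Pool.Agent.H.MP_3e6494_nt.helper14.BlocksR
import Pool.Agent.H.MP_3e6494_nt.helper14.EDef

/-!
Blocks from which `r` primes can be removed and whose energy is small.
-/

set_option autoImplicit false
set_option linter.unusedVariables false

open Finset Filter Topology

namespace Pool.Agent.H.MP_3e6494_nt.H14

open Pool.Agent.H.MP_3e6494_nt.H15

theorem sum_Ico_sq (a b : ℕ) (ha : 2 ≤ a) :
    ∑ k ∈ Finset.Ico a b, 1 / (k : ℝ) ^ 2 ≤ 1 / ((a : ℝ) - 1) := by
  rcases le_or_gt b a with hab | hab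
  · rw [Finset.Ico_eq_empty (by omega), Finset.sum_empty]
    have : (2 : ℝ) ≤ a := by exact_mod_cast ha
    exact div_nonneg zero_le_one (by linarith)
  · have key : ∀ b : ℕ, a ≤ b → ∑ k ∈ Finset.Ico a b, 1 / (k : ℝ) ^ 2 ≤
        1 / ((a : ℝ) - 1) - 1 / ((b : ℝ) - 1) := by
      intro b hb
      induction b, hb using Nat.le_induction with
      | base => simp
      | succ b hb ih =>
        rw [Finset.sum_Ico_succ_top hb]
        have h2 : (2 : ℝ) ≤ b := by exact_mod_cast (ha.trans hb)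
        have h3 : 1 / (b : ℝ) ^ 2 ≤ 1 / ((b : ℝ) - 1) - 1 / (((b + 1 : ℕ) : ℝ) - 1) := by
          push_cast
          have e : 1 / ((b : ℝ) - 1) - 1 / ((b : ℝ) + 1 - 1) = 1 / (((b : ℝ) - 1) * b) := by
            have h4 : (b : ℝ) - 1 ≠ 0 := by linarith
            have h5 : (b : ℝ) ≠ 0 := by linarith
            rw [add_sub_cancel_right]
            field_simp
            ring
          rw [e]
          apply one_div_le_one_div_of_le
          · nlinarith
          · nlinarith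
        linarith
    have h1 := key b hab.le
    have h2 : (2 : ℝ) ≤ b := by exact_mod_cast (ha.trans hab.le)
    have h3 : 0 ≤ 1 / ((b : ℝ) - 1) := div_nonneg zero_le_one (by linarith)
    linarith

theorem ev_K0_log (η δ D : ℝ) (hη : 0 < η) (hδ : 0 < δ) :
    ∀ᶠ ℓ : ℝ in atTop, D + 4 * Real.log ℓ ≤ δ * ((K0 η ℓ : ℝ) - 1) := by
  have h1 := (isLittleO_log_rpow_atTop hη).bound (show 0 < δ / 8 by positivity)
  have h2 := (tendsto_rpow_atTop hη).eventually_ge_atTop (2 * (D + 2 * δ) / δ)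
  filter_upwards [h1, h2, eventually_ge_atTop (1 : ℝ)] with ℓ h3 h4 h5
  have h6 : ℓ ^ η < (K0 η ℓ : ℝ) + 1 := Nat.lt_floor_add_one _
  rw [Real.norm_of_nonneg (Real.log_nonneg h5), Real.norm_of_nonneg (Real.rpow_nonneg (by linarith) _)]
    at h3
  rw [div_le_iff₀ hδ] at h4
  nlinarith

section build

variable {η ε C0 : ℝ} {B : ℕ} {V : ℝ} (h : Pre η ε C0 B V)

include h

theorem sumP_le (k : ℕ) : ∑ p ∈ Pb B V k, 1 / (p : ℝ) ≤ B := by
  have hYpos : (0 : ℝ) < Yb B V k := by exact_mod_cast Y_pos h k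
  have h4 : ∑ p ∈ Pb B V k, 1 / (p : ℝ) ≤ ((Pb B V k).card : ℝ) * (1 / (Yb B V k : ℝ)) := by
    rw [← nsmul_eq_mul]
    apply Finset.sum_le_card_nsmul
    intro p hp
    rw [Pb, Finset.mem_filter, Finset.mem_Ioc] at hp
    apply one_div_le_one_div_of_le hYpos
    exact_mod_cast hp.1.1.le
  refine h4.trans ?_
  rw [mul_one_div, div_le_iff₀ hYpos]
  have h5 : (Pb B V k).card ≤ Yb B V (k + 1) := by
    refine (Finset.card_filter_le _ _).trans ?_
    rw [Nat.card_Ioc]
    omega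
  have h6 : Yb B V (k + 1) = B * Yb B V k := by
    unfold Yb
    ring
  rw [h6] at h5
  exact_mod_cast h5

theorem RσB : (B : ℝ) ≤ (2 * B * Real.log V) * σb η B V := by
  have h1 := ℓpos h
  have h2 := h.LB1
  have h3 := h.η1
  have hBr : (2 : ℝ) ≤ B := by exact_mod_cast h.B2
  have e : (2 * B * Real.log V) * σb η B V = B * (2 * (1 - η) * Real.log B) := by
    unfold σb
    field_simp
  rw [e]
  have : 1 ≤ 2 * (1 - η) * Real.log B := by nlinarith
  nlinarith

theorem J_ge_B (hVB : B * Real.log B ≤ Real.log V) {k : ℕ} (hk0 : K0 η (Real.log V) ≤ k)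
    (hk1 : k < K1 η (Real.log V)) : (B : ℝ) ≤ Jb η B V k := by
  have h1 := i1_ok h hk0 hk1
  have h1r : (1 : ℝ) ≤ (ib η B V k : ℝ) := by exact_mod_cast h1
  have h2 := hi_ok h k
  have h3 := σb_pos h
  have h4 := ℓpos h
  have h5 := h.LB1
  have h6 := h.η1
  have h7 := h.η0
  have hBr : (2 : ℝ) ≤ B := by exact_mod_cast h.B2
  have h8 : B * σb η B V ≤ 1 := by
    unfold σb
    rw [← mul_div_assoc, div_le_iff₀ h4]
    have : 0 ≤ (B : ℝ) * Real.log B := by positivity
    nlinarith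
  have h9 : (B : ℝ) * σb η B V ≤ Jb η B V k * σb η B V := by nlinarith
  exact le_of_mul_le_mul_right h9 h3

theorem en_ok {δ : ℝ} (hδ : 0 < δ)
    (hK : 2 * (80 + 2 * Real.log (2 * B)) + 4 * Real.log (Real.log V) ≤
      δ * ((K0 η (Real.log V) : ℝ) - 1)) :
    ∑ k ∈ Finset.Ico (K0 η (Real.log V)) (K1 η (Real.log V)),
      2 * (Jb η B V k : ℝ) * (80 + 2 * Real.log (2 * B * Real.log V)) ≤ δ * V := by
  have h4 := ℓpos h
  have h5 := h.LB1
  have hBr : (2 : ℝ) ≤ B := by exact_mod_cast h.B2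
  have hV := h.V1
  have hK2 := h.K02
  have hK2r : (2 : ℝ) ≤ K0 η (Real.log V) := by exact_mod_cast hK2
  have hlog : Real.log (2 * B * Real.log V) = Real.log (2 * B) + Real.log (Real.log V) :=
    Real.log_mul (by positivity) h4.ne'
  set L := 80 + 2 * Real.log (2 * B * Real.log V) with hL
  have hL2 : 2 * L ≤ δ * ((K0 η (Real.log V) : ℝ) - 1) := by
    rw [hL, hlog]
    linarith
  have hL0 : 0 ≤ L := by
    have h1 : 0 ≤ Real.log (2 * B) := Real.log_nonneg (by linarith)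
    have h2 := h.ll1
    rw [hL, hlog]
    linarith
  have h1 : ∑ k ∈ Finset.Ico (K0 η (Real.log V)) (K1 η (Real.log V)),
      2 * (Jb η B V k : ℝ) * L ≤ ∑ k ∈ Finset.Ico (K0 η (Real.log V)) (K1 η (Real.log V)),
      (2 * V * L) * (1 / (k : ℝ) ^ 2) := by
    apply Finset.sum_le_sum
    intro k hk
    rw [Finset.mem_Ico] at hk
    have h2 := Jb_le h hk.1
    have h3 := cc_le h
    have h6 := kpos h hk.1
    have h7 : (Jb η B V k : ℝ) ≤ V / (k : ℝ) ^ 2 := h2.trans (by gcongr)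
    calc 2 * (Jb η B V k : ℝ) * L ≤ 2 * (V / (k : ℝ) ^ 2) * L := by gcongr
      _ = _ := by ring
  rw [← Finset.mul_sum] at h1
  have h2 := sum_Ico_sq (K0 η (Real.log V)) (K1 η (Real.log V)) hK2
  have h3 : (2 * V * L) * ∑ k ∈ Finset.Ico (K0 η (Real.log V)) (K1 η (Real.log V)),
      1 / (k : ℝ) ^ 2 ≤ (2 * V * L) * (1 / ((K0 η (Real.log V) : ℝ) - 1)) := by
    apply mul_le_mul_of_nonneg_left h2 (by positivity)
  refine h1.trans (h3.trans ?_)
  rw [mul_one_div, div_le_iff₀ (by linarith)]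
  nlinarith

end build

/-- The system of blocks. -/
noncomputable def mkBlocksE {η ε C0 : ℝ} {B : ℕ} {V : ℝ} (h : Pre η ε C0 B V)
    (hM : ∀ x y : ℕ, 2 ≤ x → x ≤ y → Real.log y - Real.log x - C0 ≤
      ∑ p ∈ (Finset.Ioc x y).filter Nat.Prime, Real.log p / p) (r : ℕ) (hr : (r : ℝ) ≤ V)
    (hVB : B * Real.log B ≤ Real.log V) {δ : ℝ} (hδ : 0 < δ)
    (hK : 2 * (80 + 2 * Real.log (2 * B)) + 4 * Real.log (Real.log V) ≤
      δ * ((K0 η (Real.log V) : ℝ) - 1)) :
    BlocksE r V ((Real.sqrt 2 - ε) * Real.sqrt (V * Real.log (Real.log V) / Real.log V) + 1) δ where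
  toBlocksR := mkBlocksR h hM r hr
  R := 2 * B * Real.log V
  R1 := by
    have h1 := h.ℓ1
    have hBr : (2 : ℝ) ≤ B := by exact_mod_cast h.B2
    nlinarith
  σpos := σb_pos h
  hR := by
    intro k hk
    exact (sumP_le h k).trans (RσB h)
  hJ := by
    intro k hk
    have hk' : k ∈ Finset.Ico (K0 η (Real.log V)) (K1 η (Real.log V)) := hk
    rw [Finset.mem_Ico] at hk'
    exact (sumP_le h k).trans (J_ge_B h hVB hk'.1 hk'.2)
  en := en_ok h hδ hK

theorem exists_blocksE (r : ℕ) (C0 : ℝ)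
    (hM : ∀ x y : ℕ, 2 ≤ x → x ≤ y → Real.log y - Real.log x - C0 ≤
      ∑ p ∈ (Finset.Ioc x y).filter Nat.Prime, Real.log p / p) (ε : ℝ) (hε : 0 < ε)
    (δ : ℝ) (hδ : 0 < δ) :
    ∀ᶠ V : ℝ in atTop, Nonempty (BlocksE r V
      ((Real.sqrt 2 - ε) * Real.sqrt (V * Real.log (Real.log V) / Real.log V) + 1) δ) := by
  set η : ℝ := min (ε / 16) (1 / 20) with hη
  have hη0 : 0 < η := lt_min (by positivity) (by norm_num)
  have hη1 : η ≤ 1 / 20 := min_le_right _ _
  have hηε : 16 * η ≤ ε := by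
    have := min_le_left (ε / 16) (1 / 20 : ℝ)
    rw [← hη] at this
    linarith
  obtain ⟨B, hB⟩ : ∃ B : ℕ, max (2 : ℝ) (max (Real.exp 1) (Real.exp (4 * C0 / η))) ≤ B :=
    exists_nat_ge _
  have hB2 : (2 : ℝ) ≤ B := (le_max_left _ _).trans hB
  have hBe : Real.exp 1 ≤ B := (le_max_left _ _).trans ((le_max_right _ _).trans hB)
  have hBc : Real.exp (4 * C0 / η) ≤ B := (le_max_right _ _).trans ((le_max_right _ _).trans hB)
  have hB0 : (0 : ℝ) < B := by linarith
  have hLB1 : 1 ≤ Real.log B := by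
    rw [Real.le_log_iff_exp_le hB0]
    exact hBe
  have hLBc : C0 ≤ (η / 4) * Real.log B := by
    have h1 : 4 * C0 / η ≤ Real.log B := by
      rw [Real.le_log_iff_exp_le hB0]
      exact hBc
    rw [div_le_iff₀ hη0] at h1
    linarith
  filter_upwards [ev_Pre η ε C0 B hη0 hη1 hηε hε (by exact_mod_cast hB2) hLB1 hLBc,
    eventually_ge_atTop (r : ℝ), Real.tendsto_log_atTop.eventually_ge_atTop (B * Real.log B),
    Real.tendsto_log_atTop.eventually (ev_K0_log η δ (2 * (80 + 2 * Real.log (2 * B))) hη0 hδ)]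
    with V hV hr h3 h4
  exact ⟨mkBlocksE hV hM r hr h3 hδ h4⟩

end Pool.Agent.H.MP_3e6494_nt.H14
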