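import Pool.Agent.H.MP_3e6494_nt.helper15.Conclude

/-!
Blocks of primes that stay good after removing up to `r` primes.
-/

set_option autoImplicit false
set_option linter.unusedVariables false

open Finset

namespace Pool.Agent.H.MP_3e6494_nt.H14

open Pool.Agent.H.MP_3e6494_nt.H15

/-- a system of blocks in which every block has room for the removal of `r` primes -/
structure BlocksR (r : ℕ) (V G : ℝ) extends Blocks V G where
  cardr : ∀ k ∈ I, 2 * J k + r ≤ (P k).card
  hsr : ∀ k ∈ I, σ ≤ (∑ p ∈ P k, 1 / (p : ℝ)) - (2 * J k + r) * w k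

end Pool.Agent.H.MP_3e6494_nt.H14
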