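import Pool.Agent.H.MP_3e6494_nt.helper15.Params2
import Pool.Agent.H.MP_3e6494_nt.helper14.BlocksRDef

/-!
Blocks from which `r` primes can be removed.
-/

set_option autoImplicit false
set_option linter.unusedVariables false

open Finset Filter Topology

namespace Pool.Agent.H.MP_3e6494_nt.H14

open Pool.Agent.H.MP_3e6494_nt.H15

section build

variable {η ε C0 : ℝ} {B : ℕ} {V : ℝ} (h : Pre η ε C0 B V)

include h

theorem σ_okR (hM : ∀ x y : ℕ, 2 ≤ x → x ≤ y → Real.log y - Real.log x - C0 ≤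
      ∑ p ∈ (Finset.Ioc x y).filter Nat.Prime, Real.log p / p) {r : ℕ} (hr : (r : ℝ) ≤ V)
    {k : ℕ} (hk0 : K0 η (Real.log V) ≤ k) (hk1 : k < K1 η (Real.log V)) :
    σb η B V ≤ (∑ p ∈ Pb B V k, 1 / (p : ℝ)) - (2 * (Jb η B V k) + r) * (1 / (Yb B V k : ℝ)) := by
  have h1 := density h hM hk0 hk1
  have h2 := Jb_le h hk0
  have h3 := BK_ge h hk0
  have hc := cc_le h
  have hc0 := cc_pos h
  have hk := kpos h hk0
  have hk1' : (1 : ℝ) ≤ k := by
    have := h.K02
    exact_mod_cast (by omega : 1 ≤ k)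
  have hℓ := ℓpos h
  have hη := h.η0
  have hη1 := h.η1
  have hLB := h.LB1
  have hV := h.V1
  have hMg := M_ge h
  have hJV : (Jb η B V k : ℝ) ≤ V := by
    refine h2.trans ?_
    rw [div_le_iff₀ (by positivity)]
    have : (1 : ℝ) ≤ (k : ℝ) ^ 2 := one_le_pow₀ hk1'
    nlinarith
  have hY : V * ((16 / η) * Real.log V) ≤ (Yb B V k : ℝ) := by
    unfold Yb
    push_cast
    apply mul_le_mul hMg h3 (by positivity) (by linarith)
  have hYpos : (0 : ℝ) < Yb B V k := by exact_mod_cast Y_pos h k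
  have h4 : (2 * (Jb η B V k : ℝ) + r) * (1 / (Yb B V k : ℝ)) ≤ (η / 2) * Real.log B / Real.log V := by
    rw [mul_one_div, div_le_div_iff₀ hYpos hℓ]
    have h5 : (2 * (Jb η B V k : ℝ) + r) * Real.log V ≤ (3 * V) * Real.log V := by
      apply mul_le_mul_of_nonneg_right _ hℓ.le
      linarith
    have h6 : (3 * V) * Real.log V ≤ η / 2 * Real.log B * (V * ((16 / η) * Real.log V)) := by
      have : η / 2 * Real.log B * (V * ((16 / η) * Real.log V)) = 8 * Real.log B * (V * Real.log V) := by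
        field_simp
        ring
      rw [this]
      have : 0 < V * Real.log V := by positivity
      nlinarith
    calc (2 * (Jb η B V k : ℝ) + r) * Real.log V ≤ (3 * V) * Real.log V := h5
      _ ≤ η / 2 * Real.log B * (V * ((16 / η) * Real.log V)) := h6
      _ ≤ η / 2 * Real.log B * (Yb B V k : ℝ) := by gcongr
  have h7 : σb η B V = (1 - η / 2) * Real.log B / Real.log V - (η / 2) * Real.log B / Real.log V := by
    unfold σb
    ring
  rw [h7]
  linarith

theorem card_okR (hM : ∀ x y : ℕ, 2 ≤ x → x ≤ y → Real.log y - Real.log x - C0 ≤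
      ∑ p ∈ (Finset.Ioc x y).filter Nat.Prime, Real.log p / p) {r : ℕ} (hr : (r : ℝ) ≤ V)
    {k : ℕ} (hk0 : K0 η (Real.log V) ≤ k) (hk1 : k < K1 η (Real.log V)) :
    2 * Jb η B V k + r ≤ (Pb B V k).card := by
  have h1 := density h hM hk0 hk1
  have h2 := Jb_le h hk0
  have h3 := BK_ge h hk0
  have hc := cc_le h
  have hc0 := cc_pos h
  have hk1' : (1 : ℝ) ≤ k := by
    have := h.K02
    exact_mod_cast (by omega : 1 ≤ k)
  have hℓ := ℓpos h
  have hη := h.η0
  have hη1 := h.η1
  have hLB := h.LB1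
  have hV := h.V1
  have hMg := M_ge h
  have hJV : (Jb η B V k : ℝ) ≤ V := by
    refine h2.trans ?_
    rw [div_le_iff₀ (by positivity)]
    have : (1 : ℝ) ≤ (k : ℝ) ^ 2 := one_le_pow₀ hk1'
    nlinarith
  have hY : V * ((16 / η) * Real.log V) ≤ (Yb B V k : ℝ) := by
    unfold Yb
    push_cast
    apply mul_le_mul hMg h3 (by positivity) (by linarith)
  have hYpos : (0 : ℝ) < Yb B V k := by exact_mod_cast Y_pos h k
  have h4 : ∑ p ∈ Pb B V k, 1 / (p : ℝ) ≤ ((Pb B V k).card : ℝ) * (1 / (Yb B V k : ℝ)) := by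
    rw [← nsmul_eq_mul]
    apply Finset.sum_le_card_nsmul
    intro p hp
    rw [Pb, Finset.mem_filter, Finset.mem_Ioc] at hp
    apply one_div_le_one_div_of_le hYpos
    exact_mod_cast hp.1.1.le
  have h5 : (1 - η / 2) * Real.log B / Real.log V * (Yb B V k : ℝ) ≤ ((Pb B V k).card : ℝ) := by
    have := h1.trans h4
    rw [mul_one_div, le_div_iff₀ hYpos] at this
    exact this
  have h6 : 3 * V ≤ (1 - η / 2) * Real.log B / Real.log V * (Yb B V k : ℝ) := by
    calc 3 * V ≤ (1 - η / 2) * Real.log B / Real.log V * (V * ((16 / η) * Real.log V)) := by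
          have e : (1 - η / 2) * Real.log B / Real.log V * (V * ((16 / η) * Real.log V)) =
              (1 - η / 2) * Real.log B * V * (16 / η) := by
            field_simp
          rw [e]
          have h16 : (16 : ℝ) ≤ 16 / η := by
            rw [le_div_iff₀ hη]
            nlinarith
          have : (1 / 2 : ℝ) * V ≤ (1 - η / 2) * Real.log B * V := by
            apply mul_le_mul_of_nonneg_right _ (by linarith)
            nlinarith
          nlinarith
      _ ≤ _ := by
          apply mul_le_mul_of_nonneg_left hY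
          apply div_nonneg _ hℓ.le
          nlinarith
  have h7 : (2 : ℝ) * (Jb η B V k : ℝ) + r ≤ ((Pb B V k).card : ℝ) := by linarith
  exact_mod_cast h7

end build

/-- The system of blocks. -/
noncomputable def mkBlocksR {η ε C0 : ℝ} {B : ℕ} {V : ℝ} (h : Pre η ε C0 B V)
    (hM : ∀ x y : ℕ, 2 ≤ x → x ≤ y → Real.log y - Real.log x - C0 ≤
      ∑ p ∈ (Finset.Ioc x y).filter Nat.Prime, Real.log p / p) (r : ℕ) (hr : (r : ℝ) ≤ V) :
    BlocksR r V ((Real.sqrt 2 - ε) * Real.sqrt (V * Real.log (Real.log V) / Real.log V) + 1) where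
  toBlocks := mkBlocks h hM
  cardr := by
    intro k hk
    have hk' : k ∈ Finset.Ico (K0 η (Real.log V)) (K1 η (Real.log V)) := hk
    rw [Finset.mem_Ico] at hk'
    exact card_okR h hM hr hk'.1 hk'.2
  hsr := by
    intro k hk
    have hk' : k ∈ Finset.Ico (K0 η (Real.log V)) (K1 η (Real.log V)) := hk
    rw [Finset.mem_Ico] at hk'
    exact σ_okR h hM hr hk'.1 hk'.2

theorem exists_blocksR (r : ℕ) (C0 : ℝ)
    (hM : ∀ x y : ℕ, 2 ≤ x → x ≤ y → Real.log y - Real.log x - C0 ≤
      ∑ p ∈ (Finset.Ioc x y).filter Nat.Prime, Real.log p / p) (ε : ℝ) (hε : 0 < ε) :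
    ∀ᶠ V : ℝ in atTop, Nonempty (BlocksR r V
      ((Real.sqrt 2 - ε) * Real.sqrt (V * Real.log (Real.log V) / Real.log V) + 1)) := by
  set η : ℝ := min (ε / 16) (1 / 20) with hη
  have hη0 : 0 < η := lt_min (by positivity) (by norm_num)
  have hη1 : η ≤ 1 / 20 := min_le_right _ _
  have hηε : 16 * η ≤ ε := by
    have := min_le_left (ε / 16) (1 / 20 : ℝ)
    rw [← hη] at this
    linarith
  obtain ⟨B, hB⟩ : ∃ B : ℕ, max (2 : ℝ) (max (Real.exp 1) (Real.exp (4 * C0 / η))) ≤ B :=
    exists_nat_ge _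
  have hB2 : (2 : ℝ) ≤ B := (le_max_left _ _).trans hB
  have hBe : Real.exp 1 ≤ B := (le_max_left _ _).trans ((le_max_right _ _).trans hB)
  have hBc : Real.exp (4 * C0 / η) ≤ B := (le_max_right _ _).trans ((le_max_right _ _).trans hB)
  have hB0 : (0 : ℝ) < B := by linarith
  have hLB1 : 1 ≤ Real.log B := by
    rw [Real.le_log_iff_exp_le hB0]
    exact hBe
  have hLBc : C0 ≤ (η / 4) * Real.log B := by
    have h1 : 4 * C0 / η ≤ Real.log B := by
      rw [Real.le_log_iff_exp_le hB0]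
      exact hBc
    rw [div_le_iff₀ hη0] at h1
    linarith
  filter_upwards [ev_Pre η ε C0 B hη0 hη1 hηε hε (by exact_mod_cast hB2) hLB1 hLBc,
    eventually_ge_atTop (r : ℝ)] with V hV hr
  exact ⟨mkBlocksR hV hM r hr⟩

end Pool.Agent.H.MP_3e6494_nt.H14
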