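import Mathlib
import Pool.Agent.H.MP_3e6494_nt.helper14.Res2
import Pool.Agent.H.MP_3e6494_nt.helper14.ResoRDef
import Pool.Agent.H.MP_3e6494_nt.helper50.T3Prime

/-!
The argument for one prime: from the separation after deletion and the tail counts to the number
of exceptional characters.
-/

open Finset Filter

set_option linter.unusedSectionVars false
set_option linter.unusedVariables false

namespace Pool.Agent.H.MP_3e6494_nt.A14

open Pool.Agent.H.MP_3e6494_nt.H14 (ResoR)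

open Pool.Agent.H.MP_3e6494_nt.Class Pool.Agent.H.MP_3e6494_nt.T3Cnt
  Pool.Agent.H.MP_3e6494_nt.T6Par
open Pool.Agent.H.MP_3e6494_nt.T3Prime (u u_val u_mul u_one)

variable {q : ℕ} [hq : Fact q.Prime]

/-- the relation in terms of one fraction -/
lemma u_frac {m a b c d : ℕ} (hm : m.Coprime q) (ha : a.Coprime q) (hb : b.Coprime q)
    (hc : c.Coprime q) (hd : d.Coprime q) :
    u q m * ((u q a * (u q b)⁻¹) * (u q c * (u q d)⁻¹)⁻¹) = u q (m * a * d) * (u q (b * c))⁻¹ := by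
  rw [u_mul (Nat.Coprime.mul_left hm ha) hd, u_mul hm ha, u_mul hb hc]
  have : ∀ A B C D E : (ZMod q)ˣ, A * ((B * C⁻¹) * (D * E⁻¹)⁻¹) = A * B * E * (C * D)⁻¹ := by
    intro A B C D E
    rw [mul_inv, mul_inv, inv_inv]
    calc A * (B * C⁻¹ * (D⁻¹ * E)) = (A * B * E) * (C⁻¹ * D⁻¹) := by
          simp only [mul_comm, mul_assoc, mul_left_comm]
      _ = _ := rfl
  exact this _ _ _ _ _

open scoped Classical in
theorem one_prime {r : ℕ} {V G : ℝ} (R : ResoR r V G) (hVq : V ^ 2 < q)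
    (H : Subgroup (DirichletCharacter ℂ q)) (Z : ℕ) (hZ1 : 1 ≤ Z) (hZV : Real.exp (2 * V) ≤ Z)
    (hZX : Z ≤ Final.len q)
    (D : Finset ℕ) (hDp : ∀ p ∈ D, p.Prime) (hDr : D.card ≤ r) (hDX : ∏ p ∈ D, p ≤ Final.len q)
    (hdel : ∀ m ∈ Finset.Icc 1 Z, m.Coprime q → ∀ a b : R.α, (a ∈ R.S ∨ a ∈ R.T) →
      (b ∈ R.S ∨ b ∈ R.T) →
      u q (m * R.nu a * R.de b) * (u q (R.de a * R.nu b))⁻¹ ∈ K H →
      (∀ p ∈ D, ¬ p ∣ m * R.nu a * R.de b ∧ ¬ p ∣ R.de a * R.nu b) →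
      m * R.nu a * R.de b = R.de a * R.nu b)
    {τ : ℝ} (hτ : ∀ c : (ZMod q)ˣ,
      ∑ n ∈ (A (K H) (u q) c (Final.len q)).filter (fun n => Z < n), (1 / (n : ℝ)) ≤ τ)
    {VL : ℝ} (hV0 : 0 ≤ VL) (hG : 4 ^ r * (VL + 2) + 2 ≤ Real.exp G) :
    ({χ₀ : DirichletCharacter ℂ q | ∀ ψ ∈ H, χ₀ * ψ ≠ 1 →
        ‖(χ₀ * ψ).LFunction (1 / 2)‖ ≤ VL}.ncard : ℝ) ≤
      q * (Real.exp V ^ 2 * (((Final.len q / q + 1 : ℕ) : ℝ) * τ)) +
        2 * Real.sqrt (Final.len q) * Real.exp V := by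
  set X := Final.len q with hX
  set N := Real.exp V with hN
  have hN0 : 0 ≤ N := (Real.exp_pos _).le
  obtain ⟨S', T', F, 𝒵, hSS, hTT, hF, hcopD, hFS, hFT, h𝒵, hE⟩ := R.sub D hDp hDr
  set ρ : R.α → (ZMod q)ˣ := fun a => u q (R.nu a) * (u q (R.de a))⁻¹ with hρ
  have hcop : ∀ a, (a ∈ R.S ∨ a ∈ R.T) → (R.nu a).Coprime q ∧ (R.de a).Coprime q :=
    fun a ha => R.cop a ha q hq.out hVq
  have hST' : ∀ a, (a ∈ S' ∨ a ∈ T') → (a ∈ R.S ∨ a ∈ R.T) := by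
    rintro a (h | h)
    · exact Or.inl (hSS h)
    · exact Or.inr (hTT h)
  -- the key relation
  have key : ∀ m : ℕ, 1 ≤ m → m ≤ Z → m.Coprime q → (∀ p ∈ D, ¬ p ∣ m) → ∀ a b : R.α,
      (a ∈ S' ∨ a ∈ T') → (b ∈ S' ∨ b ∈ T') → u q m * (ρ a * (ρ b)⁻¹) ∈ K H →
      m * R.nu a * R.de b = R.de a * R.nu b := by
    intro m h1 h2 hmc hmD a b ha hb hk
    obtain ⟨ca1, ca2⟩ := hcop a (hST' a ha)
    obtain ⟨cb1, cb2⟩ := hcop b (hST' b hb)
    rw [hρ, u_frac hmc ca1 ca2 cb1 cb2] at hk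
    refine hdel m (Finset.mem_Icc.2 ⟨h1, h2⟩) hmc a b (hST' a ha) (hST' b hb) hk ?_
    intro p hp
    have hpp := hDp p hp
    refine ⟨fun hd => ?_, fun hd => ?_⟩
    · rcases hpp.dvd_mul.1 hd with h | h
      · rcases hpp.dvd_mul.1 h with h' | h'
        · exact hmD p hp h'
        · exact (hcopD a ha p hp).1 h'
      · exact (hcopD b hb p hp).2 h
    · rcases hpp.dvd_mul.1 hd with h | h
      · exact (hcopD a ha p hp).2 h
      · exact (hcopD b hb p hp).1 h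
  have key1 : ∀ a b : R.α, (a ∈ S' ∨ a ∈ T') → (b ∈ S' ∨ b ∈ T') → ρ a * (ρ b)⁻¹ ∈ K H →
      R.nu a * R.de b = R.de a * R.nu b := by
    intro a b ha hb hk
    have := key 1 le_rfl hZ1 (Nat.coprime_one_left q)
      (fun p hp hd => (hDp p hp).one_lt.ne' (Nat.dvd_one.1 hd)) a b ha hb
      (by rw [u_one, one_mul]; exact hk)
    rw [one_mul] at this
    exact this
  have hS : ∀ a ∈ S', ∀ b ∈ S', ρ a * (ρ b)⁻¹ ∈ K H → a = b := fun a ha b hb hk =>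
    R.injS a (hSS ha) b (hSS hb) (key1 a b (Or.inl ha) (Or.inl hb) hk)
  have hT : ∀ a ∈ T', ∀ b ∈ T', ρ a * (ρ b)⁻¹ ∈ K H → a = b := fun a ha b hb hk =>
    R.injT a (hTT ha) b (hTT hb) (key1 a b (Or.inr ha) (Or.inr hb) hk)
  have hrel : ∀ n ∈ NN q D X, n ≤ Z → ∀ a ∈ S', ∀ b ∈ T',
      u q n * (ρ a * (ρ b)⁻¹) ∈ K H → u q n * (ρ a * (ρ b)⁻¹) = 1 := by
    intro n hn hnZ a ha b hb hk
    obtain ⟨⟨n1, n2⟩, nc, nD⟩ := mem_NN.1 hn
    have e := key n n1 hnZ nc nD a b (Or.inl ha) (Or.inr hb) hk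
    obtain ⟨ca1, ca2⟩ := hcop a (hST' a (Or.inl ha))
    obtain ⟨cb1, cb2⟩ := hcop b (hST' b (Or.inr hb))
    rw [hρ, u_frac nc ca1 ca2 cb1 cb2, e, mul_inv_cancel]
  have hτ' : ∀ c : (ZMod q)ˣ,
      ∑ m ∈ (Finset.Ioc Z X).filter (fun m => m.Coprime q ∧ u q m * c ∈ K H), ((m : ℝ)⁻¹) ≤ τ := by
    intro c
    refine le_trans (le_of_eq ?_) (hτ c)
    have h1 : (Finset.Ioc Z X).filter (fun m => m.Coprime q ∧ u q m * c ∈ K H) =
        (A (K H) (u q) c X).filter (fun n => Z < n) := by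
      ext m
      unfold A
      simp only [Finset.mem_filter, Finset.mem_Ioc, Finset.mem_Icc]
      constructor
      · rintro ⟨⟨a, b⟩, c⟩
        exact ⟨⟨⟨by omega, b⟩, c⟩, a⟩
      · rintro ⟨⟨⟨a, b⟩, c⟩, d⟩
        exact ⟨⟨d, b⟩, c⟩
    rw [h1]
    exact Finset.sum_congr rfl fun m _ => (one_div _).symm
  have hNS : (S'.card : ℝ) ≤ N := by
    refine le_trans ?_ R.cardS
    exact_mod_cast Finset.card_le_card hSS
  have hNT : (T'.card : ℝ) ≤ N := by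
    refine le_trans ?_ R.cardT
    exact_mod_cast Finset.card_le_card hTT
  have h𝒵' : ∀ z ∈ 𝒵, z.1 ∈ NN q D X ∧ z.2.1 ∈ S' ∧ z.2.2 ∈ T' ∧ u q z.1 * ρ z.2.1 = ρ z.2.2 := by
    intro z hz
    obtain ⟨z1, z2, z3, z4, z5, z6⟩ := h𝒵 z hz
    obtain ⟨ca1, ca2⟩ := hcop z.2.1 (hST' _ (Or.inl z3))
    obtain ⟨cb1, cb2⟩ := hcop z.2.2 (hST' _ (Or.inr z4))
    have hc : z.1.Coprime q := by
      have h1 : (R.de z.2.1 * R.nu z.2.2).Coprime q := Nat.Coprime.mul_left ca2 cb1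
      apply Nat.Coprime.coprime_dvd_left _ h1
      rw [← z5, mul_assoc]
      exact dvd_mul_right _ _
    refine ⟨mem_NN.2 ⟨⟨z1, ?_⟩, hc, z6⟩, z3, z4, ?_⟩
    · have h1 : (z.1 : ℝ) ≤ Z := z2.trans hZV
      exact (by exact_mod_cast h1 : z.1 ≤ Z).trans hZX
    · have h2 := u_frac hc ca1 ca2 cb1 cb2
      rw [z5, mul_inv_cancel] at h2
      rw [← mul_assoc, mul_inv_eq_one] at h2
      exact h2
  have hEV : 4 ^ D.card * (VL + 2 * Approx.B q / Real.sqrt X) + 2 ≤ Real.exp G := by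
    refine le_trans ?_ hG
    have h1 := Final.B_div (q := q)
    have h2 := Approx.B_nonneg (q := q)
    have h3 : (4 : ℝ) ^ D.card ≤ 4 ^ r := pow_le_pow_right₀ (by norm_num) hDr
    have h4 : 0 ≤ VL + 2 * Approx.B q / Real.sqrt X := by positivity
    have h5 : (4 : ℝ) ^ D.card * (VL + 2 * Approx.B q / Real.sqrt X) ≤ 4 ^ r * (VL + 2) := by
      apply mul_le_mul h3 _ h4 (by positivity)
      linarith
    linarith
  -- the exceptional characters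
  set 𝒮 : Set (DirichletCharacter ℂ q) := {χ₀ : DirichletCharacter ℂ q | ∀ ψ ∈ H, χ₀ * ψ ≠ 1 →
        ‖(χ₀ * ψ).LFunction (1 / 2)‖ ≤ VL} with h𝒮
  have hfin : 𝒮.Finite := Set.Finite.subset (XX q).finite_toSet (fun χ _ => mem_XX χ)
  rw [Set.ncard_eq_toFinset_card 𝒮 hfin]
  have hmain := fun (𝓑 : Finset (DirichletCharacter ℂ q)) h𝓑 =>
    coset_exc H D hDp S' T' ρ R.f R.f_nonneg (u q) (fun m hm => u_val hm) hF hFS hFT hNS hNT hS hT
      X Z hDX hrel hτ' 𝒵 h𝒵' hE hV0 hEV 𝓑 h𝓑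
  have hXX : 0 ≤ 2 * Real.sqrt X * N := by positivity
  rcases le_or_gt (2 * Real.sqrt X * N) (Nat.card H : ℝ) with hc | hc
  · have h1 := hmain hfin.toFinset (by
      intro χ₀ hχ₀
      rw [Set.Finite.mem_toFinset] at hχ₀
      exact ⟨hχ₀, Or.inr hc⟩)
    linarith
  · have h1 := hmain (hfin.toFinset.filter (fun χ₀ => χ₀ ∉ H)) (by
      intro χ₀ hχ₀
      rw [Finset.mem_filter, Set.Finite.mem_toFinset] at hχ₀
      exact ⟨hχ₀.1, Or.inl hχ₀.2⟩)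
    have h2 : hfin.toFinset.card ≤ (hfin.toFinset.filter (fun χ₀ => χ₀ ∉ H)).card + (mem H).card := by
      have h3 := Finset.card_filter_add_card_filter_not (s := hfin.toFinset) (fun χ₀ => χ₀ ∉ H)
      have h4 : (hfin.toFinset.filter (fun χ₀ => ¬ χ₀ ∉ H)).card ≤ (mem H).card := by
        apply Finset.card_le_card
        intro χ₀ hχ₀
        rw [Finset.mem_filter, not_not] at hχ₀
        exact mem_mem.2 hχ₀.2
      omega
    have h5 : ((mem H).card : ℝ) ≤ 2 * Real.sqrt X * N := by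
      rw [card_mem]; exact hc.le
    have h6 : (hfin.toFinset.card : ℝ) ≤
        ((hfin.toFinset.filter (fun χ₀ => χ₀ ∉ H)).card : ℝ) + ((mem H).card : ℝ) := by
      exact_mod_cast h2
    linarith

end Pool.Agent.H.MP_3e6494_nt.A14
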