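import Mathlib
import Pool.Agent.H.MP_3e6494_nt.helper14.One
import Pool.Agent.H.MP_3e6494_nt.h26t.Level

/-!
One dyadic level.
-/

open Finset Filter

set_option linter.unusedSectionVars false
set_option linter.unusedVariables false

namespace Pool.Agent.H.MP_3e6494_nt.A14

open Pool.Agent.H.MP_3e6494_nt.H14 (ResoR)

open Pool.Agent.H.MP_3e6494_nt.Class Pool.Agent.H.MP_3e6494_nt.T3Cnt
  Pool.Agent.H.MP_3e6494_nt.T3Exc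
open Pool.Agent.H.MP_3e6494_nt.T3Prime (u u_val u_mul u_one index_le)

/-- the length of the separated range -/
noncomputable def Zq (ν : ℝ) (k : ℕ) : ℕ := ⌊((2 : ℝ) ^ k) ^ (2 * ν)⌋₊

open scoped Classical in
/-- the fractions which must be separated -/
noncomputable def Phi {r : ℕ} {V G : ℝ} (R : ResoR r V G) (Z : ℕ) : Finset (ℕ × ℕ) :=
  ((Finset.Icc 1 Z) ×ˢ ((R.S ∪ R.T) ×ˢ (R.S ∪ R.T))).image
    (fun t => (t.1 * R.nu t.2.1 * R.de t.2.2, R.de t.2.1 * R.nu t.2.2))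

lemma mem_Phi {r : ℕ} {V G : ℝ} {R : ResoR r V G} {Z : ℕ} {z : ℕ × ℕ} :
    z ∈ Phi R Z ↔ ∃ m : ℕ, ∃ a b : R.α, (1 ≤ m ∧ m ≤ Z) ∧ (a ∈ R.S ∨ a ∈ R.T) ∧
      (b ∈ R.S ∨ b ∈ R.T) ∧ z = (m * R.nu a * R.de b, R.de a * R.nu b) := by
  classical
  unfold Phi
  rw [Finset.mem_image]
  constructor
  · rintro ⟨⟨m, a, b⟩, ht, rfl⟩
    rw [Finset.mem_product, Finset.mem_product, Finset.mem_Icc, Finset.mem_union,
      Finset.mem_union] at ht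
    exact ⟨m, a, b, ht.1, ht.2.1, ht.2.2, rfl⟩
  · rintro ⟨m, a, b, h1, h2, h3, rfl⟩
    refine ⟨(m, a, b), ?_, rfl⟩
    rw [Finset.mem_product, Finset.mem_product, Finset.mem_Icc, Finset.mem_union,
      Finset.mem_union]
    exact ⟨h1, h2, h3⟩

lemma card_Phi {r : ℕ} {V G : ℝ} (R : ResoR r V G) (Z : ℕ) :
    ((Phi R Z).card : ℝ) ≤ Z * (2 * Real.exp V) ^ 2 := by
  classical
  have hU : ((R.S ∪ R.T).card : ℝ) ≤ 2 * Real.exp V := by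
    have h1 : (R.S ∪ R.T).card ≤ R.S.card + R.T.card := Finset.card_union_le _ _
    have h2 : ((R.S ∪ R.T).card : ℝ) ≤ R.S.card + R.T.card := by exact_mod_cast h1
    linarith [R.cardS, R.cardT]
  have h1 : (Phi R Z).card ≤ Z * ((R.S ∪ R.T).card * (R.S ∪ R.T).card) := by
    unfold Phi
    refine Finset.card_image_le.trans ?_
    rw [Finset.card_product, Finset.card_product, Nat.card_Icc]
    simp
  have h2 : ((Phi R Z).card : ℝ) ≤ Z * (((R.S ∪ R.T).card : ℝ) * (R.S ∪ R.T).card) := by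
    exact_mod_cast h1
  refine h2.trans ?_
  apply mul_le_mul_of_nonneg_left _ (Nat.cast_nonneg _)
  rw [sq]
  exact mul_le_mul hU hU (Nat.cast_nonneg _) (by positivity)

/-- the numerical conditions at the level `k` -/
structure Cnd (r : ℕ) (κ ν ε : ℝ) (k : ℕ) : Prop where
  k1 : 1 ≤ k
  c0 : ((Zq ν k : ℝ) * (2 * Real.exp (Vk ν ε k)) ^ 2) ^ r * (r * ((5 * k ^ 2 : ℕ) : ℝ) * (4 * 3 ^ r)) *
        ((2 : ℝ) ^ k) ^ (κ * (1 + 1 / r)) +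
      (((3 * k : ℕ) : ℝ) + 1) ^ 2 * (r * (4 * 3 ^ r)) *
        ((2 : ℝ) ^ k) ^ ((2 * ν - ε) * (r + 1) + κ * (1 + 1 / r)) ≤
      ((2 : ℝ) ^ k) ^ (κ * (1 + 1 / r) + 4 * r * ν - ε)
  c1 : ((k : ℝ) + 2) ^ 2 + 3 ≤ 2 ^ k
  c2 : (k : ℝ) ^ 2 + 1 ≤ ((2 : ℝ) ^ k) ^ (2 * ν)
  c3 : ((2 : ℝ) ^ k) ^ (2 * ν - 2 * ε) + 1 ≤ ((2 : ℝ) ^ k) ^ (2 * ν)
  c4 : 2 * ((((k : ℝ) + 2) ^ 2 + 3) * (4 * (3 * (k : ℝ) + 1) * (2 * ((3 * (k : ℝ) + 1) ^ (r - 1) + 1) + 1)))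
      ≤ ((2 : ℝ) ^ k) ^ (ε / 2)
  c5 : 6 * ((k : ℝ) + 2) ≤ ((2 : ℝ) ^ k) ^ (1 / 8 : ℝ)

section

variable {r : ℕ} {κ ν ε : ℝ} {k : ℕ}

lemma Vk_nonneg (hε : 0 < ε) (hεν : 32 * ε ≤ ν) : 0 ≤ Vk ν ε k := by
  unfold Vk
  have : 0 < ν - ε := by linarith
  have : 0 < Real.log 2 := Real.log_pos (by norm_num)
  positivity

lemma Vk_le (hε : 0 < ε) (hεν : 32 * ε ≤ ν) (hν : ν ≤ 1) : Vk ν ε k ≤ k := by
  have hl2 : 0 < Real.log 2 := Real.log_pos (by norm_num)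
  have hl21 : Real.log 2 < 1 := by linarith [Real.log_two_lt_d9]
  unfold Vk
  have h1 : ν - ε ≤ 1 := by linarith
  have hk : (0 : ℝ) ≤ k := Nat.cast_nonneg _
  have h2 : (k : ℝ) * Real.log 2 ≤ k := by nlinarith
  have h3 : 0 ≤ (k : ℝ) * Real.log 2 := by positivity
  nlinarith

lemma exp_Vk : Real.exp (Vk ν ε k) = ((2 : ℝ) ^ k) ^ (ν - ε) := by
  have hQ0 : (0 : ℝ) < (2 : ℝ) ^ k := by positivity
  rw [Real.rpow_def_of_pos hQ0, Real.log_pow]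
  unfold Vk
  congr 1; ring

/-- entries of the family -/
lemma Phi_entries (hε : 0 < ε) (hεν : 32 * ε ≤ ν) (hν : ν ≤ 1 / 4) (hk : 1 ≤ k) {G : ℝ}
    (R : ResoR r (Vk ν ε k) G) : ∀ z ∈ Phi R (Zq ν k),
      (z.1 ≠ 0 ∧ z.2 ≠ 0) ∧ z.1 ≤ 2 ^ (5 * k ^ 2) ∧ z.2 ≤ 2 ^ (5 * k ^ 2) := by
  intro z hz
  obtain ⟨m, a, b, ⟨m1, m2⟩, ha, hb, rfl⟩ := mem_Phi.1 hz
  obtain ⟨pa1, pa2⟩ := R.pos a ha
  obtain ⟨pb1, pb2⟩ := R.pos b hb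
  obtain ⟨sa1, sa2⟩ := R.size a ha
  obtain ⟨sb1, sb2⟩ := R.size b hb
  have hV0 := Vk_nonneg (k := k) hε hεν
  have hVle := Vk_le (k := k) hε hεν (by linarith)
  have hM : ⌊(Vk ν ε k) ^ 2⌋₊ ≤ k ^ 2 := by
    apply Nat.floor_le_of_le
    push_cast
    exact pow_le_pow_left₀ hV0 hVle 2
  have hQ1 : (1 : ℝ) ≤ (2 : ℝ) ^ k := one_le_pow₀ (by norm_num)
  have hZ2 : Zq ν k ≤ 2 ^ k := by
    unfold Zq
    apply Nat.floor_le_of_le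
    push_cast
    calc ((2 : ℝ) ^ k) ^ (2 * ν) ≤ ((2 : ℝ) ^ k) ^ (1 : ℝ) :=
          Real.rpow_le_rpow_of_exponent_le hQ1 (by linarith)
      _ = (2 : ℝ) ^ k := Real.rpow_one _
  have h4 : (4 : ℕ) ^ ⌊(Vk ν ε k) ^ 2⌋₊ ≤ 4 ^ (k ^ 2) := Nat.pow_le_pow_right (by norm_num) hM
  have e4 : (4 : ℕ) ^ (k ^ 2) * 4 ^ (k ^ 2) = 2 ^ (4 * k ^ 2) := by
    rw [show (4 : ℕ) = 2 ^ 2 by norm_num, ← pow_mul, ← pow_add]
    congr 1; ring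
  have hprod : ∀ x y : ℕ, x ≤ 4 ^ ⌊(Vk ν ε k) ^ 2⌋₊ → y ≤ 4 ^ ⌊(Vk ν ε k) ^ 2⌋₊ →
      x * y ≤ 2 ^ (4 * k ^ 2) := by
    intro x y hx hy
    rw [← e4]
    exact Nat.mul_le_mul (hx.trans h4) (hy.trans h4)
  refine ⟨⟨?_, ?_⟩, ?_, ?_⟩
  · have : 0 < m * R.nu a * R.de b := Nat.mul_pos (Nat.mul_pos m1 pa1) pb2
    exact this.ne'
  · exact (Nat.mul_pos pa2 pb1).ne'
  · calc m * R.nu a * R.de b = m * (R.nu a * R.de b) := mul_assoc _ _ _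
      _ ≤ 2 ^ k * 2 ^ (4 * k ^ 2) := Nat.mul_le_mul (m2.trans hZ2) (hprod _ _ sa1 sb2)
      _ = 2 ^ (k + 4 * k ^ 2) := (pow_add _ _ _).symm
      _ ≤ 2 ^ (5 * k ^ 2) := by
          apply Nat.pow_le_pow_right (by norm_num)
          nlinarith
  · refine (hprod _ _ sa2 sb1).trans ?_
    apply Nat.pow_le_pow_right (by norm_num)
    nlinarith

end

end Pool.Agent.H.MP_3e6494_nt.A14
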