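import Mathlib
import Pool.Agent.H.MP_3e6494_nt.helper14.Lev14
import Pool.Agent.H.MP_3e6494_nt.h26t.Num

/-!
The numerical conditions hold at all high levels.
-/

open Finset Filter Topology

set_option linter.unusedVariables false

namespace Pool.Agent.H.MP_3e6494_nt.A14

open Pool.Agent.H.MP_3e6494_nt.T3Exc

lemma poly_le (C : ℝ) (hC : 0 ≤ C) (n : ℕ) (s : ℝ) (hs : 0 < s) :
    ∀ᶠ k : ℕ in atTop, C * ((k : ℝ) + 2) ^ n ≤ ((2 : ℝ) ^ k) ^ s := by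
  have hr : 1 < (2 : ℝ) ^ s := Real.one_lt_rpow (by norm_num) hs
  have h1 := tendsto_pow_const_div_const_pow_of_one_lt n hr
  have h2 : ∀ᶠ k : ℕ in atTop, (k : ℝ) ^ n / ((2 : ℝ) ^ s) ^ k < 1 / (C * 3 ^ n + 1) :=
    h1.eventually_lt_const (by positivity)
  filter_upwards [h2, eventually_ge_atTop 1] with k a1 a2
  have hk1 : (1 : ℝ) ≤ k := by exact_mod_cast a2
  have hpos : (0 : ℝ) < ((2 : ℝ) ^ s) ^ k := by positivity
  have e : ((2 : ℝ) ^ k) ^ s = ((2 : ℝ) ^ s) ^ k := by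
    rw [← Real.rpow_natCast, ← Real.rpow_mul (by norm_num), ← Real.rpow_natCast,
      ← Real.rpow_mul (by norm_num), mul_comm]
  rw [div_lt_iff₀ hpos] at a1
  have h3 : (C * 3 ^ n + 1) * (k : ℝ) ^ n ≤ ((2 : ℝ) ^ s) ^ k := by
    have hc : 0 < C * 3 ^ n + 1 := by positivity
    have : (C * 3 ^ n + 1) * (k : ℝ) ^ n ≤ (C * 3 ^ n + 1) * (1 / (C * 3 ^ n + 1) * ((2 : ℝ) ^ s) ^ k) :=
      mul_le_mul_of_nonneg_left a1.le hc.le
    refine this.trans (le_of_eq ?_)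
    field_simp
  rw [e]
  refine le_trans ?_ h3
  calc C * ((k : ℝ) + 2) ^ n ≤ C * (3 * (k : ℝ)) ^ n := by
        gcongr; linarith
    _ = (C * 3 ^ n) * (k : ℝ) ^ n := by rw [mul_pow]; ring
    _ ≤ (C * 3 ^ n + 1) * (k : ℝ) ^ n := by
        apply mul_le_mul_of_nonneg_right (by linarith) (by positivity)

theorem cnd_eventually (r : ℕ) (κ ν ε : ℝ) (hr : 1 ≤ r) (h0 : 0 ≤ κ) (hk1 : κ ≤ 1) (hν : 0 < ν)
    (hε : 0 < ε) (h32 : 32 * ε ≤ ν) (hs : κ * (1 + 1 / r) + 4 * r * ν < 1) :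
    ∀ᶠ k : ℕ in atTop, Cnd r κ ν ε k := by
  set C4 : ℝ := 2 * (4 * (4 * 3 * (5 * 3 ^ (r - 1)))) with hC4
  filter_upwards [h26t.num_exc κ ν ε r hr h0 hk1 hν hε h32 hs, eventually_ge_atTop 1,
    poly_le 4 (by norm_num) 2 1 one_pos, poly_le 2 (by norm_num) 2 (2 * ν) (by positivity),
    poly_le 2 (by norm_num) 0 (2 * ε) (by positivity),
    poly_le C4 (by positivity) (r + 2) (ε / 2) (by positivity),
    poly_le 6 (by norm_num) 1 (1 / 8) (by norm_num)] with k a0 a1 a2 a3 a4 a5 a6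
  have hkr : (1 : ℝ) ≤ k := by exact_mod_cast a1
  have hQ1 : (1 : ℝ) ≤ (2 : ℝ) ^ k := one_le_pow₀ (by norm_num)
  have hQ0 : (0 : ℝ) < (2 : ℝ) ^ k := by positivity
  refine ⟨a1, a0, ?_, ?_, ?_, ?_, ?_⟩
  · rw [Real.rpow_one] at a2
    nlinarith
  · nlinarith
  · have e : ((2 : ℝ) ^ k) ^ (2 * ν) = ((2 : ℝ) ^ k) ^ (2 * ν - 2 * ε) * ((2 : ℝ) ^ k) ^ (2 * ε) := by
      rw [← Real.rpow_add hQ0]; congr 1; ring
    rw [e]
    rw [pow_zero, mul_one] at a4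
    have h1 : 1 ≤ ((2 : ℝ) ^ k) ^ (2 * ν - 2 * ε) := Real.one_le_rpow hQ1 (by linarith)
    nlinarith
  · refine le_trans ?_ a5
    set x : ℝ := (k : ℝ) + 2 with hx
    have hx3 : 3 ≤ x := by rw [hx]; linarith
    have h1 : x ^ 2 + 3 ≤ 4 * x ^ 2 := by nlinarith
    have h2 : 3 * (k : ℝ) + 1 ≤ 3 * x := by rw [hx]; linarith
    have h3 : (3 * (k : ℝ) + 1) ^ (r - 1) ≤ 3 ^ (r - 1) * x ^ (r - 1) := by
      rw [← mul_pow]
      exact pow_le_pow_left₀ (by positivity) h2 _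
    have h4 : 1 ≤ 3 ^ (r - 1) * x ^ (r - 1) :=
      one_le_mul_of_one_le_of_one_le (one_le_pow₀ (by norm_num)) (one_le_pow₀ (by linarith))
    have h5 : 2 * ((3 * (k : ℝ) + 1) ^ (r - 1) + 1) + 1 ≤ 5 * 3 ^ (r - 1) * x ^ (r - 1) := by
      nlinarith
    have hxr : x ^ 2 * x * x ^ (r - 1) = x ^ (r + 2) := by
      have : x ^ 2 * x * x ^ (r - 1) = x ^ (2 + 1 + (r - 1)) := by
        rw [pow_add, pow_add, pow_one]
      rw [this]; congr 1; omega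
    calc 2 * ((x ^ 2 + 3) * (4 * (3 * (k : ℝ) + 1) * (2 * ((3 * (k : ℝ) + 1) ^ (r - 1) + 1) + 1)))
        ≤ 2 * ((4 * x ^ 2) * (4 * (3 * x) * (5 * 3 ^ (r - 1) * x ^ (r - 1)))) := by
          gcongr
      _ = C4 * (x ^ 2 * x * x ^ (r - 1)) := by rw [hC4]; ring
      _ = C4 * x ^ (r + 2) := by rw [hxr]
  · rw [pow_one] at a6
    exact a6

end Pool.Agent.H.MP_3e6494_nt.A14
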