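import Mathlib
import Pool.Agent.H.MP_3e6494_nt.helper50.PV
import Pool.Agent.H.MP_3e6494_nt.helper50.Class
import Pool.Agent.H.MP_3e6494_nt.helper50.Dual

/-!
Additive characters on a multiplicative subgroup modulo a prime.
-/

set_option autoImplicit false
set_option linter.unusedVariables false
set_option linter.unusedSectionVars false

open Finset

namespace Pool.Agent.H.MP_3e6494_nt.DualA

open Pool.Agent.H.MP_3e6494_nt.Class
open Pool.Agent.H.MP_3e6494_nt.PV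

variable {q : ℕ} [hq : Fact q.Prime]

/-- orthogonality of the additive characters -/
theorem sum_std (b : ZMod q) :
    ∑ x : ZMod q, (ZMod.stdAddChar (x * b) : ℂ) = if b = 0 then (q : ℂ) else 0 := by
  have h := AddChar.sum_mulShift (R' := ℂ) b (ZMod.isPrimitive_stdAddChar q)
  rw [ZMod.card] at h
  exact_mod_cast h

theorem conj_std (a : ZMod q) :
    (starRingEnd ℂ) (ZMod.stdAddChar a : ℂ) = ZMod.stdAddChar (-a) :=
  (AddChar.map_neg_eq_conj _ _).symm

section sub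

variable (K : Subgroup (ZMod q)ˣ) [DecidablePred (fun κ : (ZMod q)ˣ => κ ∈ K)]

/-- the mean square of a Gauss period -/
theorem parseval :
    ∑ y : ZMod q, ‖∑ κ ∈ univ.filter (fun κ : (ZMod q)ˣ => κ ∈ K),
      (ZMod.stdAddChar ((κ : ZMod q) * y) : ℂ)‖ ^ 2 =
      (q : ℝ) * ((univ.filter (fun κ : (ZMod q)ˣ => κ ∈ K)).card : ℝ) := by
  set A := univ.filter (fun κ : (ZMod q)ˣ => κ ∈ K) with hA
  have h1 : ∀ y : ZMod q, ((‖∑ κ ∈ A, (ZMod.stdAddChar ((κ : ZMod q) * y) : ℂ)‖ ^ 2 : ℝ) : ℂ) =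
      ∑ κ ∈ A, ∑ l ∈ A, (ZMod.stdAddChar (y * ((κ : ZMod q) - (l : ZMod q))) : ℂ) := by
    intro y
    rw [← Complex.normSq_eq_norm_sq, Complex.normSq_eq_conj_mul_self, mul_comm, map_sum,
      Finset.sum_mul_sum]
    apply Finset.sum_congr rfl
    intro κ _
    apply Finset.sum_congr rfl
    intro l _
    rw [conj_std, ← AddChar.map_add_eq_mul]
    congr 1
    ring
  have h2 : ((∑ y : ZMod q, ‖∑ κ ∈ A, (ZMod.stdAddChar ((κ : ZMod q) * y) : ℂ)‖ ^ 2 : ℝ) : ℂ) =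
      (q : ℂ) * (A.card : ℂ) := by
    rw [Complex.ofReal_sum]
    simp_rw [h1]
    rw [Finset.sum_comm]
    have h3 : ∀ κ ∈ A, ∑ y : ZMod q, ∑ l ∈ A,
        (ZMod.stdAddChar (y * ((κ : ZMod q) - (l : ZMod q))) : ℂ) = (q : ℂ) := by
      intro κ hκ
      rw [Finset.sum_comm]
      simp_rw [sum_std]
      rw [Finset.sum_eq_single κ]
      · simp
      · intro l _ hl
        rw [if_neg]
        intro h
        apply hl
        exact (Units.ext (sub_eq_zero.1 h)).symm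
      · intro h
        exact absurd hκ h
    rw [Finset.sum_congr rfl h3, Finset.sum_const, nsmul_eq_mul, mul_comm]
  exact_mod_cast h2

theorem period_mul (l : (ZMod q)ˣ) (hl : l ∈ K) (y : ZMod q) :
    ∑ κ ∈ univ.filter (fun κ : (ZMod q)ˣ => κ ∈ K),
      (ZMod.stdAddChar ((κ : ZMod q) * ((l : ZMod q) * y)) : ℂ) =
    ∑ κ ∈ univ.filter (fun κ : (ZMod q)ˣ => κ ∈ K),
      (ZMod.stdAddChar ((κ : ZMod q) * y) : ℂ) := by
  refine Finset.sum_nbij' (fun κ => κ * l) (fun κ => κ * l⁻¹) ?_ ?_ ?_ ?_ ?_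
  · intro κ hκ
    rw [Finset.mem_filter] at *
    exact ⟨Finset.mem_univ _, K.mul_mem hκ.2 hl⟩
  · intro κ hκ
    rw [Finset.mem_filter] at *
    exact ⟨Finset.mem_univ _, K.mul_mem hκ.2 (K.inv_mem hl)⟩
  · intro κ _
    simp
  · intro κ _
    simp
  · intro κ _
    congr 1
    rw [Units.val_mul]
    ring

/-- (B1) the bound for a Gauss period -/
theorem period_le (y : ZMod q) (hy : y ≠ 0) :
    ‖∑ κ ∈ univ.filter (fun κ : (ZMod q)ˣ => κ ∈ K),
      (ZMod.stdAddChar ((κ : ZMod q) * y) : ℂ)‖ ≤ Real.sqrt q := by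
  set A := univ.filter (fun κ : (ZMod q)ˣ => κ ∈ K) with hA
  have h1 := parseval K
  rw [← hA] at h1
  set S : ZMod q → ℂ := fun y => ∑ κ ∈ A, (ZMod.stdAddChar ((κ : ZMod q) * y) : ℂ) with hS
  have hinj : Function.Injective (fun l : (ZMod q)ˣ => (l : ZMod q) * y) := by
    intro a b hab
    exact Units.ext (mul_right_cancel₀ hy hab)
  have h2 : ∑ z ∈ A.image (fun l : (ZMod q)ˣ => (l : ZMod q) * y), ‖S z‖ ^ 2 ≤
      ∑ z : ZMod q, ‖S z‖ ^ 2 :=
    Finset.sum_le_sum_of_subset_of_nonneg (Finset.subset_univ _) fun _ _ _ => by positivity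
  rw [Finset.sum_image (fun a _ b _ hab => hinj hab)] at h2
  have h3 : ∀ l ∈ A, ‖S ((l : ZMod q) * y)‖ ^ 2 = ‖S y‖ ^ 2 := by
    intro l hl
    rw [hS]
    simp only
    rw [hA, period_mul K l (Finset.mem_filter.1 hl).2 y]
  rw [Finset.sum_congr rfl h3, Finset.sum_const, nsmul_eq_mul] at h2
  have h4 : (0 : ℝ) < A.card := by
    have : 0 < A.card := Finset.card_pos.2 ⟨1, by
      rw [hA, Finset.mem_filter]
      exact ⟨Finset.mem_univ _, K.one_mem⟩⟩
    exact_mod_cast this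
  have h5 : (A.card : ℝ) * ‖S y‖ ^ 2 ≤ (A.card : ℝ) * q := by
    refine h2.trans (le_of_eq ?_)
    rw [mul_comm (A.card : ℝ) (q : ℝ)]
    exact h1
  have h6 := le_of_mul_le_mul_left h5 h4
  exact Real.le_sqrt_of_sq_le h6

/-- (B2) the mean square over a subgroup -/
theorem mean_square {β : Type*} (J : Finset β) (c : β → ℂ) (y : β → ZMod q) :
    ∑ κ ∈ univ.filter (fun κ : (ZMod q)ˣ => κ ∈ K),
      ‖∑ j ∈ J, c j * (ZMod.stdAddChar ((κ : ZMod q) * y j) : ℂ)‖ ^ 2 ≤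
    ((univ.filter (fun κ : (ZMod q)ˣ => κ ∈ K)).card : ℝ) *
      (∑ z ∈ (J ×ˢ J).filter (fun z => y z.1 = y z.2), ‖c z.1‖ * ‖c z.2‖) +
      Real.sqrt q * (∑ j ∈ J, ‖c j‖) ^ 2 := by
  set A := univ.filter (fun κ : (ZMod q)ˣ => κ ∈ K) with hA
  have h1 : ∀ κ : (ZMod q)ˣ,
      ((‖∑ j ∈ J, c j * (ZMod.stdAddChar ((κ : ZMod q) * y j) : ℂ)‖ ^ 2 : ℝ) : ℂ) =
      ∑ z ∈ J ×ˢ J, (c z.1 * (starRingEnd ℂ) (c z.2)) *
        (ZMod.stdAddChar ((κ : ZMod q) * (y z.1 - y z.2)) : ℂ) := by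
    intro κ
    rw [← Complex.normSq_eq_norm_sq, Complex.normSq_eq_conj_mul_self, mul_comm, map_sum,
      Finset.sum_mul_sum, Finset.sum_product]
    apply Finset.sum_congr rfl
    intro j _
    apply Finset.sum_congr rfl
    intro j' _
    rw [(starRingEnd ℂ).map_mul, conj_std]
    have e : (ZMod.stdAddChar ((κ : ZMod q) * (y j - y j')) : ℂ) =
        ZMod.stdAddChar ((κ : ZMod q) * y j) * ZMod.stdAddChar (-((κ : ZMod q) * y j')) := by
      rw [← AddChar.map_add_eq_mul]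
      congr 1
      ring
    simp only
    rw [e]
    ring
  have h2 : ((∑ κ ∈ A, ‖∑ j ∈ J, c j * (ZMod.stdAddChar ((κ : ZMod q) * y j) : ℂ)‖ ^ 2 : ℝ) : ℂ) =
      ∑ z ∈ J ×ˢ J, (c z.1 * (starRingEnd ℂ) (c z.2)) *
        ∑ κ ∈ A, (ZMod.stdAddChar ((κ : ZMod q) * (y z.1 - y z.2)) : ℂ) := by
    rw [Complex.ofReal_sum]
    simp_rw [h1]
    rw [Finset.sum_comm]
    apply Finset.sum_congr rfl
    intro z _
    rw [Finset.mul_sum]
  have h3 : ∑ κ ∈ A, ‖∑ j ∈ J, c j * (ZMod.stdAddChar ((κ : ZMod q) * y j) : ℂ)‖ ^ 2 ≤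
      ∑ z ∈ J ×ˢ J, (‖c z.1‖ * ‖c z.2‖) *
        ‖∑ κ ∈ A, (ZMod.stdAddChar ((κ : ZMod q) * (y z.1 - y z.2)) : ℂ)‖ := by
    have h4 : (0 : ℝ) ≤ ∑ κ ∈ A, ‖∑ j ∈ J, c j * (ZMod.stdAddChar ((κ : ZMod q) * y j) : ℂ)‖ ^ 2 :=
      Finset.sum_nonneg fun _ _ => by positivity
    rw [← Real.norm_of_nonneg h4, ← Complex.norm_real, h2]
    refine norm_sum_le_of_le _ ?_
    intro z _
    rw [norm_mul, norm_mul, RCLike.norm_conj]
  refine h3.trans ?_
  rw [← Finset.sum_filter_add_sum_filter_not (J ×ˢ J) (fun z => y z.1 = y z.2)]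
  apply add_le_add
  · rw [Finset.mul_sum]
    apply Finset.sum_le_sum
    intro z hz
    rw [Finset.mem_filter] at hz
    rw [hz.2, sub_self]
    simp only [mul_zero, AddChar.map_zero_eq_one, Finset.sum_const, nsmul_eq_mul, mul_one,
      Complex.norm_natCast]
    rw [mul_comm]
  · calc ∑ z ∈ (J ×ˢ J).filter (fun z => ¬ y z.1 = y z.2), (‖c z.1‖ * ‖c z.2‖) *
        ‖∑ κ ∈ A, (ZMod.stdAddChar ((κ : ZMod q) * (y z.1 - y z.2)) : ℂ)‖
        ≤ ∑ z ∈ (J ×ˢ J).filter (fun z => ¬ y z.1 = y z.2), (‖c z.1‖ * ‖c z.2‖) * Real.sqrt q := by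
          apply Finset.sum_le_sum
          intro z hz
          rw [Finset.mem_filter] at hz
          apply mul_le_mul_of_nonneg_left _ (by positivity)
          exact period_le K _ (sub_ne_zero.2 hz.2)
      _ ≤ ∑ z ∈ J ×ˢ J, (‖c z.1‖ * ‖c z.2‖) * Real.sqrt q := by
          apply Finset.sum_le_sum_of_subset_of_nonneg (Finset.filter_subset _ _)
          intro _ _ _
          positivity
      _ = Real.sqrt q * (∑ j ∈ J, ‖c j‖) ^ 2 := by
          rw [← Finset.sum_mul, Finset.sum_product, sq, Finset.sum_mul_sum, mul_comm]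

end sub

/-- the Fourier coefficients of an interval -/
noncomputable def ivc (q : ℕ) [Fact q.Prime] (a ℓ : ℕ) (m : ZMod q) : ℂ :=
  (1 / (q : ℂ)) * ∑ n ∈ Finset.Ioc a (a + ℓ), (ZMod.stdAddChar (-(m * (n : ZMod q))) : ℂ)

theorem ivc_zero (a ℓ : ℕ) : ivc q a ℓ 0 = (ℓ : ℂ) / q := by
  unfold ivc
  simp only [zero_mul, neg_zero, AddChar.map_zero_eq_one, Finset.sum_const, Nat.card_Ioc,
    nsmul_eq_mul, mul_one]
  rw [show a + ℓ - a = ℓ by omega]
  ring

/-- (B3) the trivial bound -/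
theorem norm_ivc_le (a ℓ : ℕ) (m : ZMod q) : ‖ivc q a ℓ m‖ ≤ (ℓ : ℝ) / q := by
  unfold ivc
  rw [norm_mul, norm_div, norm_one, Complex.norm_natCast]
  have h1 : ‖∑ n ∈ Finset.Ioc a (a + ℓ), (ZMod.stdAddChar (-(m * (n : ZMod q))) : ℂ)‖ ≤ (ℓ : ℝ) := by
    refine (norm_sum_le _ _).trans ?_
    have : ∀ n ∈ Finset.Ioc a (a + ℓ), ‖(ZMod.stdAddChar (-(m * (n : ZMod q))) : ℂ)‖ = 1 := by
      intro n _
      exact AddChar.norm_apply _ _
    rw [Finset.sum_congr rfl this, Finset.sum_const, Nat.card_Ioc]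
    simp
  calc 1 / (q : ℝ) * _ ≤ 1 / (q : ℝ) * ℓ := by
        apply mul_le_mul_of_nonneg_left h1 (by positivity)
    _ = (ℓ : ℝ) / q := by ring

/-- (B3) the bound by the distance to zero -/
theorem norm_ivc_le' (a ℓ : ℕ) (m : ZMod q) (hm : m ≠ 0) :
    ‖ivc q a ℓ m‖ ≤ (1 / 2) * (1 / (m.val : ℝ) + 1 / ((q - m.val : ℕ) : ℝ)) := by
  have hq0 : (0 : ℝ) < q := by exact_mod_cast hq.out.pos
  have hv : m.val < q := ZMod.val_lt m
  have hm' : -m ≠ 0 := neg_ne_zero.2 hm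
  have hnv : (-m).val = q - m.val := by
    have : NeZero m := ⟨hm⟩
    exact ZMod.val_neg_of_ne_zero m
  have hv0 : 0 < m.val := by
    rcases Nat.eq_zero_or_pos m.val with h | h
    · exact absurd ((ZMod.val_eq_zero m).1 h) hm
    · exact h
  have h1 := geom_bound (-m) hm' ℓ
  have h2 : ∑ n ∈ Finset.Ioc a (a + ℓ), (ZMod.stdAddChar (-(m * (n : ZMod q))) : ℂ) =
      (ZMod.stdAddChar (-(m * ((a : ZMod q) + 1))) : ℂ) *
        ∑ n ∈ range ℓ, (ZMod.stdAddChar ((-m) * (n : ZMod q)) : ℂ) := by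
    rw [Finset.mul_sum]
    refine Finset.sum_nbij' (fun n => n - (a + 1)) (fun n => n + (a + 1)) ?_ ?_ ?_ ?_ ?_
    · intro n hn
      rw [Finset.mem_Ioc] at hn
      rw [Finset.mem_range]
      omega
    · intro n hn
      rw [Finset.mem_range] at hn
      rw [Finset.mem_Ioc]
      omega
    · intro n hn
      rw [Finset.mem_Ioc] at hn
      omega
    · intro n hn
      omega
    · intro n hn
      rw [Finset.mem_Ioc] at hn
      rw [← AddChar.map_add_eq_mul]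
      congr 1
      obtain ⟨t, rfl⟩ : ∃ t, n = t + (a + 1) := ⟨n - (a + 1), by omega⟩
      rw [show t + (a + 1) - (a + 1) = t by omega]
      push_cast
      ring
  unfold ivc
  rw [norm_mul, norm_div, norm_one, Complex.norm_natCast, h2, norm_mul, AddChar.norm_apply, one_mul]
  rw [hnv, show q - (q - m.val) = m.val by omega] at h1
  calc 1 / (q : ℝ) * _ ≤ 1 / (q : ℝ) * ((q : ℝ) / 2 * (1 / ((q - m.val : ℕ) : ℝ) + 1 / (m.val : ℝ))) :=
        mul_le_mul_of_nonneg_left h1 (by positivity)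
    _ = _ := by
        field_simp
        ring

/-- (B3) the expansion of the indicator function of an interval -/
theorem interval_expansion (a ℓ : ℕ) (x : ZMod q) :
    (((Finset.Ioc a (a + ℓ)).filter (fun n : ℕ => (n : ZMod q) = x)).card : ℂ) =
      (ℓ : ℂ) / q + ∑ m ∈ univ.filter (fun m : ZMod q => m ≠ 0),
        ivc q a ℓ m * (ZMod.stdAddChar (m * x) : ℂ) := by
  have hq0 : (q : ℂ) ≠ 0 := by exact_mod_cast hq.out.pos.ne'
  have h1 : ∑ m : ZMod q, ivc q a ℓ m * (ZMod.stdAddChar (m * x) : ℂ) =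
      (((Finset.Ioc a (a + ℓ)).filter (fun n : ℕ => (n : ZMod q) = x)).card : ℂ) := by
    have h2 : ∀ m : ZMod q, ivc q a ℓ m * (ZMod.stdAddChar (m * x) : ℂ) =
        (1 / (q : ℂ)) * ∑ n ∈ Finset.Ioc a (a + ℓ),
          (ZMod.stdAddChar (m * (x - (n : ZMod q))) : ℂ) := by
      intro m
      unfold ivc
      rw [mul_assoc, Finset.sum_mul]
      congr 1
      apply Finset.sum_congr rfl
      intro n _
      rw [← AddChar.map_add_eq_mul]
      congr 1
      ring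
    simp_rw [h2]
    rw [← Finset.mul_sum, Finset.sum_comm]
    simp_rw [sum_std]
    rw [← Finset.sum_filter, Finset.sum_const, nsmul_eq_mul]
    have h3 : (Finset.Ioc a (a + ℓ)).filter (fun n : ℕ => x - (n : ZMod q) = 0) =
        (Finset.Ioc a (a + ℓ)).filter (fun n : ℕ => (n : ZMod q) = x) := by
      apply Finset.filter_congr
      intro n _
      rw [sub_eq_zero]
      exact eq_comm
    rw [h3]
    field_simp
  rw [← h1, ← Finset.sum_filter_add_sum_filter_not univ (fun m : ZMod q => m ≠ 0), add_comm]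
  congr 1
  have h4 : univ.filter (fun m : ZMod q => ¬ (m ≠ 0)) = {0} := by
    ext m
    simp
  rw [h4, Finset.sum_singleton, ivc_zero, zero_mul, AddChar.map_zero_eq_one, mul_one]

end Pool.Agent.H.MP_3e6494_nt.DualA
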