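import Mathlib
import Pool.Agent.H.MP_3e6494_nt.helper14.Long

/-!
The long part with Euler factors removed, multiplied by the resonator.
-/

open Finset

set_option linter.unusedSectionVars false
set_option linter.unusedVariables false

namespace Pool.Agent.H.MP_3e6494_nt.A14

open Pool.Agent.H.MP_3e6494_nt.Class
open Pool.Agent.H.MP_3e6494_nt.T3Prime (u u_val u_mul u_one)

variable {q : ℕ} [hq : Fact q.Prime]

lemma LP_insert (χ : DirichletCharacter ℂ q) {P : Finset ℕ} (hP : ∀ p ∈ P, p.Prime) {p : ℕ}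
    (hp : p.Prime) (hpP : p ∉ P) (Y X : ℕ) :
    LP χ (insert p P) Y X = LP χ P Y X -
      χ (p : ZMod q) * ((aw p : ℝ) : ℂ) * LP χ P (Y / p) (X / p) := by
  unfold LP aw
  rw [DP_insert χ hP hp hpP X, DP_insert χ hP hp hpP Y]
  ring

lemma aw_le_one {t : ℕ} (ht : 1 ≤ t) : aw t ≤ 1 := by
  have h := aw_anti le_rfl ht
  have h1 : aw 1 = 1 := by unfold aw; simp
  linarith

lemma aw_mul_div {p Y : ℕ} (hp : 0 < p) : aw p * aw (Y / p + 1) ≤ aw (Y + 1) := by
  have h1 : aw p * aw (Y / p + 1) = aw (p * (Y / p + 1)) := by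
    unfold aw
    rw [← Real.mul_rpow (Nat.cast_nonneg _) (Nat.cast_nonneg _), Nat.cast_mul]
  rw [h1]
  apply aw_anti (by omega)
  exact Nat.lt_mul_div_succ Y hp

lemma gL_sum {Y X : ℕ} (h : Y ≤ X) : |∑ x : (ZMod q)ˣ, gL q Y X x| ≤ 1 := by
  rcases Nat.eq_or_lt_of_le h with h1 | h1
  · subst h1
    unfold gL hI
    simp
  have e : ∑ x : (ZMod q)ˣ, gL q Y X x =
      ∑ t ∈ Finset.Ico (Y + 1) X, (aw t - aw (t + 1)) * (∑ x : (ZMod q)ˣ, hI q Y ((t - Y) % q) x) +
        aw X * ∑ x : (ZMod q)ˣ, hI q Y ((X - Y) % q) x := by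
    unfold gL
    rw [Finset.sum_add_distrib, Finset.sum_comm, Finset.mul_sum]
    congr 1
    apply Finset.sum_congr rfl
    intro t _
    rw [Finset.mul_sum]
  rw [e]
  refine (abs_add_le _ _).trans ?_
  have h2 : |∑ t ∈ Finset.Ico (Y + 1) X, (aw t - aw (t + 1)) *
      (∑ x : (ZMod q)ˣ, hI q Y ((t - Y) % q) x)| ≤
      ∑ t ∈ Finset.Ico (Y + 1) X, (aw t - aw (t + 1)) := by
    refine (Finset.abs_sum_le_sum_abs _ _).trans ?_
    apply Finset.sum_le_sum
    intro t ht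
    rw [Finset.mem_Ico] at ht
    have hd : 0 ≤ aw t - aw (t + 1) := by
      have := aw_anti (show 1 ≤ t by omega) (show t ≤ t + 1 by omega)
      linarith
    rw [abs_mul, abs_of_nonneg hd]
    calc (aw t - aw (t + 1)) * |∑ x : (ZMod q)ˣ, hI q Y ((t - Y) % q) x| ≤
          (aw t - aw (t + 1)) * 1 :=
          mul_le_mul_of_nonneg_left (hI_sum Y _ (Nat.mod_lt _ hq.out.pos)) hd
      _ = _ := mul_one _
  have h3 : |aw X * ∑ x : (ZMod q)ˣ, hI q Y ((X - Y) % q) x| ≤ aw X := by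
    rw [abs_mul, abs_of_nonneg (aw_nonneg X)]
    calc aw X * |∑ x : (ZMod q)ˣ, hI q Y ((X - Y) % q) x| ≤ aw X * 1 :=
          mul_le_mul_of_nonneg_left (hI_sum Y _ (Nat.mod_lt _ hq.out.pos)) (aw_nonneg X)
      _ = _ := mul_one _
  have h7 : ∑ t ∈ Finset.Ico (Y + 1) X, (aw t - aw (t + 1)) = aw (Y + 1) - aw X := by
    have := Finset.sum_Ico_sub aw (show Y + 1 ≤ X by omega)
    have h8 : ∑ t ∈ Finset.Ico (Y + 1) X, (aw t - aw (t + 1)) =
        -∑ t ∈ Finset.Ico (Y + 1) X, (aw (t + 1) - aw t) := by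
      rw [← Finset.sum_neg_distrib]
      apply Finset.sum_congr rfl
      intro t _; ring
    rw [h8, this]; ring
  have := aw_le_one (show 1 ≤ Y + 1 by omega)
  linarith

theorem long_exists (N : (ZMod q)ˣ → ((ZMod q)ˣ → ℝ) → ℝ) (h0 : ∀ v, N v (fun _ => 0) ≤ 0)
    (hadd : ∀ v g h, N v (fun x => g x + h x) ≤ N v g + N v h)
    (hsmul : ∀ v (c : ℝ) g, N v (fun x => c * g x) ≤ |c| * N v g)
    (hshift : ∀ v c g, N v (fun x => g (x * c)) ≤ N (v * c) g)
    {A B : ℝ} (hA : 0 ≤ A) (hB : 0 ≤ B) {X₀ : ℕ}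
    (hcore : ∀ v, ∀ a ℓ : ℕ, ℓ < q → N v (hI q a ℓ) ≤ A * Real.sqrt ℓ + B)
    (D : Finset ℕ) (hD : ∀ p ∈ D, p.Prime) : ∀ Y X : ℕ, Y ≤ X → X ≤ X₀ →
    ∃ g : (ZMod q)ˣ → ℝ, (∀ χ : DirichletCharacter ℂ q, χ ≠ 1 →
        LP χ D Y X = ∑ x : (ZMod q)ˣ, (g x : ℂ) * χ (x : ZMod q)) ∧
      (∀ v, N v g ≤ 2 ^ D.card * (A * (2 + Real.log X₀) + B * aw (Y + 1))) ∧
      |∑ x : (ZMod q)ˣ, g x| ≤ 2 ^ D.card := by
  classical
  induction D using Finset.induction_on with
  | empty =>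
    intro Y X h hX
    refine ⟨gL q Y X, fun χ hχ => gL_char hχ h, fun v => ?_, ?_⟩
    · rw [Finset.card_empty, pow_zero, one_mul]
      exact gL_bound N h0 hadd hsmul hA hB v (hcore v) h hX
    · rw [Finset.card_empty, pow_zero]
      exact gL_sum h
  | insert p D hpD ih =>
    intro Y X h hX
    have hp : p.Prime := hD p (Finset.mem_insert_self _ _)
    have hD' : ∀ r ∈ D, r.Prime := fun r hr => hD r (Finset.mem_insert_of_mem hr)
    obtain ⟨g1, a1, b1, c1⟩ := ih hD' Y X h hX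
    obtain ⟨g2, a2, b2, c2⟩ := ih hD' (Y / p) (X / p) (Nat.div_le_div_right h)
      ((Nat.div_le_self _ _).trans hX)
    have hlogX₀ : 0 ≤ Real.log X₀ := Real.log_natCast_nonneg X₀
    have h2 : (0 : ℝ) < 2 ^ D.card := by positivity
    have haw := aw_nonneg (Y + 1)
    have hc := Finset.card_insert_of_notMem hpD
    have hnn : 0 ≤ A * (2 + Real.log X₀) + B * aw (Y + 1) := by positivity
    have hawp : aw p ≤ 1 := aw_le_one hp.one_lt.le
    have hawp0 := aw_nonneg p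
    by_cases hpq : p = q
    · refine ⟨g1, ?_, ?_, ?_⟩
      · intro χ hχ
        rw [LP_insert χ hD' hp hpD, hpq]
        have : χ ((q : ℕ) : ZMod q) = 0 := by
          rw [ZMod.natCast_self]
          exact MulChar.map_zero χ
        rw [this, zero_mul, zero_mul, sub_zero]
        exact a1 χ hχ
      · intro v
        refine (b1 v).trans ?_
        rw [hc, pow_succ]
        nlinarith
      · refine c1.trans ?_
        rw [hc, pow_succ]
        linarith
    · have hcop : p.Coprime q := (Nat.coprime_primes hp hq.out).2 hpq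
      refine ⟨fun x => g1 x + (-aw p) * g2 (x * (u q p)⁻¹), ?_, ?_, ?_⟩
      · intro χ hχ
        rw [LP_insert χ hD' hp hpD, a1 χ hχ, a2 χ hχ]
        have e1 : ∑ x : (ZMod q)ˣ, (g2 (x * (u q p)⁻¹) : ℂ) * χ (x : ZMod q) =
            χ (p : ZMod q) * ∑ x : (ZMod q)ˣ, (g2 x : ℂ) * χ (x : ZMod q) := by
          rw [Finset.mul_sum]
          refine Fintype.sum_equiv (Equiv.mulRight (u q p)⁻¹) _ _ ?_
          intro x
          have e2 : χ (x : ZMod q) = χ (p : ZMod q) *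
              χ (((Equiv.mulRight (u q p)⁻¹) x : (ZMod q)ˣ) : ZMod q) := by
            rw [Equiv.coe_mulRight, Units.val_mul, map_mul, ← u_val hcop]
            have : χ ((u q p : (ZMod q)ˣ) : ZMod q) * χ (((u q p)⁻¹ : (ZMod q)ˣ) : ZMod q) = 1 := by
              rw [← map_mul, ← Units.val_mul, mul_inv_cancel, Units.val_one, map_one]
            calc χ (x : ZMod q) = χ (x : ZMod q) * 1 := (mul_one _).symm
              _ = _ := by rw [← this]; ring
          rw [e2, Equiv.coe_mulRight]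
          ring
        have e3 : ∑ x : (ZMod q)ˣ, ((g1 x + (-aw p) * g2 (x * (u q p)⁻¹) : ℝ) : ℂ) *
            χ (x : ZMod q) = ∑ x : (ZMod q)ˣ, (g1 x : ℂ) * χ (x : ZMod q) -
            ((aw p : ℝ) : ℂ) * ∑ x : (ZMod q)ˣ, (g2 (x * (u q p)⁻¹) : ℂ) * χ (x : ZMod q) := by
          rw [Finset.mul_sum, ← Finset.sum_sub_distrib]
          apply Finset.sum_congr rfl
          intro x _
          push_cast
          ring
        rw [e3, e1]
        ring
      · intro v
        have s1 := hadd v g1 (fun x => (-aw p) * g2 (x * (u q p)⁻¹))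
        have s2 := hsmul v (-aw p) (fun x => g2 (x * (u q p)⁻¹))
        have s3 := hshift v (u q p)⁻¹ g2
        rw [abs_neg, abs_of_nonneg hawp0] at s2
        have s4 : aw p * N v (fun x => g2 (x * (u q p)⁻¹)) ≤
            2 ^ D.card * (A * (2 + Real.log X₀) + B * aw (Y + 1)) := by
          calc aw p * N v (fun x => g2 (x * (u q p)⁻¹))
              ≤ aw p * (2 ^ D.card * (A * (2 + Real.log X₀) + B * aw (Y / p + 1))) :=
                mul_le_mul_of_nonneg_left (s3.trans (b2 _)) hawp0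
            _ = 2 ^ D.card * (aw p * (A * (2 + Real.log X₀)) + B * (aw p * aw (Y / p + 1))) := by
                ring
            _ ≤ 2 ^ D.card * (1 * (A * (2 + Real.log X₀)) + B * aw (Y + 1)) := by
                have := aw_mul_div (p := p) (Y := Y) hp.pos
                gcongr
            _ = _ := by ring
        have s5 := b1 v
        rw [hc, pow_succ]
        linarith
      · have e4 : ∑ x : (ZMod q)ˣ, (g1 x + (-aw p) * g2 (x * (u q p)⁻¹)) =
            ∑ x : (ZMod q)ˣ, g1 x + (-aw p) * ∑ x : (ZMod q)ˣ, g2 x := by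
          rw [Finset.sum_add_distrib, Finset.mul_sum]
          congr 1
          refine Fintype.sum_equiv (Equiv.mulRight (u q p)⁻¹) _ _ ?_
          intro x
          rfl
        rw [e4]
        refine (abs_add_le _ _).trans ?_
        rw [abs_mul, abs_neg, abs_of_nonneg hawp0, hc, pow_succ]
        have : aw p * |∑ x : (ZMod q)ˣ, g2 x| ≤ 1 * 2 ^ D.card :=
          mul_le_mul hawp c2 (abs_nonneg _) (by norm_num)
        linarith

lemma minkowski {ι : Type*} (s : Finset ι) (f g : ι → ℝ) :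
    Real.sqrt (∑ i ∈ s, (f i + g i) ^ 2) ≤
      Real.sqrt (∑ i ∈ s, f i ^ 2) + Real.sqrt (∑ i ∈ s, g i ^ 2) := by
  set A := ∑ i ∈ s, f i ^ 2 with hA
  set B := ∑ i ∈ s, g i ^ 2 with hB
  have hA0 : 0 ≤ A := Finset.sum_nonneg fun _ _ => sq_nonneg _
  have hB0 : 0 ≤ B := Finset.sum_nonneg fun _ _ => sq_nonneg _
  have h1 : ∑ i ∈ s, f i * g i ≤ Real.sqrt A * Real.sqrt B := by
    rw [← Real.sqrt_mul hA0]
    apply Real.le_sqrt_of_sq_le
    exact Finset.sum_mul_sq_le_sq_mul_sq s f g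
  apply Real.sqrt_le_iff.2
  refine ⟨by positivity, ?_⟩
  have e : ∑ i ∈ s, (f i + g i) ^ 2 = A + B + 2 * ∑ i ∈ s, f i * g i := by
    rw [hA, hB, Finset.mul_sum, ← Finset.sum_add_distrib, ← Finset.sum_add_distrib]
    apply Finset.sum_congr rfl
    intro i _
    ring
  rw [e, add_sq, Real.sq_sqrt hA0, Real.sq_sqrt hB0]
  linarith

open scoped Classical in
/-- the long part multiplied by the resonator, as a function on the residue classes -/
theorem Phi_exists (K : Subgroup (ZMod q)ˣ) {β : Type*} (J : Finset β) (c : β → ℝ)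
    (hc : ∀ j ∈ J, 0 ≤ c j) (y : β → (ZMod q)ˣ) {A B : ℝ} (hA : 0 ≤ A) (hB : 0 ≤ B) {X₀ : ℕ}
    (hcore : ∀ v : (ZMod q)ˣ, ∀ a ℓ : ℕ, ℓ < q →
      ∑ κ ∈ (Finset.univ : Finset (ZMod q)ˣ).filter (fun κ => κ ∈ K),
        (∑ j ∈ J, c j * hI q a ℓ (κ * v * (y j)⁻¹)) ^ 2 ≤ (A * Real.sqrt ℓ + B) ^ 2)
    (D : Finset ℕ) (hD : ∀ p ∈ D, p.Prime) (Y X : ℕ) (hYX : Y ≤ X) (hX : X ≤ X₀) :
    ∃ Φ : (ZMod q)ˣ → ℝ, (∀ χ : DirichletCharacter ℂ q, χ ≠ 1 →
        (DP χ D X - DP χ D Y) * (∑ j ∈ J, (c j : ℂ) * χ (y j : ZMod q)) =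
          ∑ x : (ZMod q)ˣ, (Φ x : ℂ) * χ (x : ZMod q)) ∧
      (∑ κ ∈ (Finset.univ : Finset (ZMod q)ˣ).filter (fun κ => κ ∈ K), Φ κ ^ 2 ≤
        (2 ^ D.card * (A * (2 + Real.log X₀) + B * aw (Y + 1))) ^ 2) ∧
      |∑ x : (ZMod q)ˣ, Φ x| ≤ 2 ^ D.card * ∑ j ∈ J, c j := by
  set KF := (Finset.univ : Finset (ZMod q)ˣ).filter (fun κ => κ ∈ K) with hKF
  set N : (ZMod q)ˣ → ((ZMod q)ˣ → ℝ) → ℝ := fun v g =>
    Real.sqrt (∑ κ ∈ KF, (∑ j ∈ J, c j * g (κ * v * (y j)⁻¹)) ^ 2) with hN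
  obtain ⟨g, g1, g2, g3⟩ := long_exists (q := q) N
    (by
      intro v
      simp [hN])
    (by
      intro v g h
      simp only [hN]
      refine le_trans (le_of_eq ?_) (minkowski KF (fun κ => ∑ j ∈ J, c j * g (κ * v * (y j)⁻¹))
        (fun κ => ∑ j ∈ J, c j * h (κ * v * (y j)⁻¹)))
      congr 1
      apply Finset.sum_congr rfl
      intro κ _
      rw [← Finset.sum_add_distrib]
      congr 1
      apply Finset.sum_congr rfl
      intro j _
      ring)
    (by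
      intro v a g
      simp only [hN]
      apply le_of_eq
      rw [← Real.sqrt_sq_eq_abs, ← Real.sqrt_mul (sq_nonneg a), Finset.mul_sum]
      congr 1
      apply Finset.sum_congr rfl
      intro κ _
      rw [← mul_pow, Finset.mul_sum]
      congr 1
      apply Finset.sum_congr rfl
      intro j _
      ring)
    (by
      intro v a g
      simp only [hN]
      apply le_of_eq
      congr 1
      apply Finset.sum_congr rfl
      intro κ _
      congr 1
      apply Finset.sum_congr rfl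
      intro j _
      congr 2
      rw [mul_assoc κ v, mul_assoc, mul_assoc, mul_assoc, mul_assoc, mul_comm a])
    hA hB (X₀ := X₀)
    (by
      intro v a ℓ hℓ
      simp only [hN]
      rw [← Real.sqrt_sq (show 0 ≤ A * Real.sqrt ℓ + B by positivity)]
      exact Real.sqrt_le_sqrt (hcore v a ℓ hℓ))
    D hD Y X hYX hX
  refine ⟨fun x => ∑ j ∈ J, c j * g (x * (y j)⁻¹), ?_, ?_, ?_⟩
  · intro χ hχ
    have e0 : DP χ D X - DP χ D Y = LP χ D Y X := rfl
    rw [e0, g1 χ hχ, Finset.mul_sum]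
    have e1 : ∀ j ∈ J, (∑ x : (ZMod q)ˣ, (g x : ℂ) * χ (x : ZMod q)) *
        ((c j : ℂ) * χ (y j : ZMod q)) =
        ∑ x : (ZMod q)ˣ, ((c j * g (x * (y j)⁻¹) : ℝ) : ℂ) * χ (x : ZMod q) := by
      intro j _
      rw [Finset.sum_mul]
      symm
      refine Fintype.sum_equiv (Equiv.mulRight (y j)⁻¹) _ _ ?_
      intro x
      have e2 : χ (x : ZMod q) = χ (((Equiv.mulRight (y j)⁻¹) x : (ZMod q)ˣ) : ZMod q) *
          χ (y j : ZMod q) := by
        rw [Equiv.coe_mulRight, ← map_mul, ← Units.val_mul, inv_mul_cancel_right]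
      rw [e2, Equiv.coe_mulRight]
      push_cast
      ring
    rw [Finset.sum_congr rfl e1, Finset.sum_comm]
    apply Finset.sum_congr rfl
    intro x _
    push_cast
    rw [Finset.sum_mul]
  · have h1 := g2 1
    simp only [hN, mul_one] at h1
    have h2 : 0 ≤ ∑ κ ∈ KF, (∑ j ∈ J, c j * g (κ * (y j)⁻¹)) ^ 2 :=
      Finset.sum_nonneg fun _ _ => sq_nonneg _
    rw [← Real.sq_sqrt h2]
    exact pow_le_pow_left₀ (Real.sqrt_nonneg _) h1 2
  · have e1 : ∑ x : (ZMod q)ˣ, ∑ j ∈ J, c j * g (x * (y j)⁻¹) =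
        (∑ j ∈ J, c j) * ∑ x : (ZMod q)ˣ, g x := by
      rw [Finset.sum_comm, Finset.sum_mul]
      apply Finset.sum_congr rfl
      intro j _
      rw [Finset.mul_sum]
      refine Fintype.sum_equiv (Equiv.mulRight (y j)⁻¹) _ _ ?_
      intro x
      rfl
    rw [e1, abs_mul, abs_of_nonneg (Finset.sum_nonneg hc), mul_comm]
    exact mul_le_mul_of_nonneg_right g3 (Finset.sum_nonneg hc)

end Pool.Agent.H.MP_3e6494_nt.A14
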