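import Mathlib
import Pool.Agent.H.MP_3e6494_nt.helper14.Long2
import Pool.Agent.H.MP_3e6494_nt.helper14.DualA

/-!
The mean square of the long part over a subgroup, by Fourier expansion.
-/

open Finset

set_option linter.unusedSectionVars false
set_option linter.unusedVariables false

namespace Pool.Agent.H.MP_3e6494_nt.A14

open Pool.Agent.H.MP_3e6494_nt.DualA (ivc norm_ivc_le norm_ivc_le' interval_expansion mean_square)

variable {q : ℕ} [hq : Fact q.Prime]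

/-- the sum of the Fourier coefficients -/
lemma sum_ivc_le (a ℓ : ℕ) :
    ∑ m ∈ (Finset.univ.erase 0 : Finset (ZMod q)), ‖ivc q a ℓ m‖ ≤ 1 + Real.log q := by
  have hq0 : 0 < q := hq.out.pos
  have h1 : ∑ m ∈ (Finset.univ.erase 0 : Finset (ZMod q)), ‖ivc q a ℓ m‖ ≤
      ∑ m ∈ (Finset.univ.erase 0 : Finset (ZMod q)),
        (1 / 2) * (1 / (m.val : ℝ) + 1 / ((q - m.val : ℕ) : ℝ)) := by
    apply Finset.sum_le_sum
    intro m hm
    exact norm_ivc_le' a ℓ m (Finset.ne_of_mem_erase hm)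
  have h2 : ∀ g : ℕ → ℝ, ∑ m ∈ (Finset.univ.erase 0 : Finset (ZMod q)), g m.val =
      ∑ v ∈ Finset.Icc 1 (q - 1), g v := by
    intro g
    refine Finset.sum_nbij' (fun m => m.val) (fun v => (v : ZMod q)) ?_ ?_ ?_ ?_ ?_
    · intro m hm
      have hm0 := Finset.ne_of_mem_erase hm
      have hv := ZMod.val_lt m
      have hv0 : m.val ≠ 0 := fun h => hm0 ((ZMod.val_eq_zero m).1 h)
      rw [Finset.mem_Icc]
      omega
    · intro v hv
      rw [Finset.mem_Icc] at hv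
      rw [Finset.mem_erase]
      refine ⟨?_, Finset.mem_univ _⟩
      intro h
      rw [ZMod.natCast_eq_zero_iff] at h
      have := Nat.le_of_dvd (by omega) h
      omega
    · intro m _
      exact ZMod.natCast_zmod_val m
    · intro v hv
      rw [Finset.mem_Icc] at hv
      exact ZMod.val_cast_of_lt (by omega)
    · intro m _
      rfl
  have h3 : ∑ m ∈ (Finset.univ.erase 0 : Finset (ZMod q)),
      (1 / 2) * (1 / (m.val : ℝ) + 1 / ((q - m.val : ℕ) : ℝ)) =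
      (1 / 2) * (∑ v ∈ Finset.Icc 1 (q - 1), 1 / (v : ℝ)) +
        (1 / 2) * ∑ v ∈ Finset.Icc 1 (q - 1), 1 / ((q - v : ℕ) : ℝ) := by
    rw [h2 (fun v => (1 / 2) * (1 / (v : ℝ) + 1 / ((q - v : ℕ) : ℝ)))]
    rw [Finset.mul_sum, Finset.mul_sum, ← Finset.sum_add_distrib]
    apply Finset.sum_congr rfl
    intro v _
    ring
  have h4 : ∑ v ∈ Finset.Icc 1 (q - 1), 1 / ((q - v : ℕ) : ℝ) =
      ∑ v ∈ Finset.Icc 1 (q - 1), 1 / (v : ℝ) := by
    refine Finset.sum_nbij' (fun v => q - v) (fun v => q - v) ?_ ?_ ?_ ?_ ?_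
    · intro v hv; rw [Finset.mem_Icc] at *; omega
    · intro v hv; rw [Finset.mem_Icc] at *; omega
    · intro v hv; rw [Finset.mem_Icc] at hv; omega
    · intro v hv; rw [Finset.mem_Icc] at hv; omega
    · intro v _; rfl
  have h5 : ∑ v ∈ Finset.Icc 1 (q - 1), 1 / (v : ℝ) ≤ 1 + Real.log q := by
    have h6 := harmonic_le_one_add_log (q - 1)
    have h7 : ((harmonic (q - 1) : ℚ) : ℝ) = ∑ i ∈ Finset.Icc 1 (q - 1), 1 / (i : ℝ) := by
      rw [harmonic_eq_sum_Icc]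
      push_cast
      apply Finset.sum_congr rfl; intro i _; rw [one_div]
    rw [h7] at h6
    refine h6.trans ?_
    have h8 : Real.log ((q - 1 : ℕ) : ℝ) ≤ Real.log q := by
      rcases Nat.eq_zero_or_pos (q - 1) with h | h
      · rw [h]; simp; exact Real.log_natCast_nonneg q
      · apply Real.log_le_log (by exact_mod_cast h)
        exact_mod_cast Nat.sub_le q 1
    linarith
  rw [h3, h4] at h1
  linarith

open scoped Classical in
/-- **the mean square of the long part** -/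
theorem core_bound (K : Subgroup (ZMod q)ˣ) {β : Type*} (J : Finset β) (c : β → ℝ)
    (hc : ∀ j ∈ J, 0 ≤ c j) (y : β → (ZMod q)ˣ) {a1 a2 : ℝ} (ha1 : 0 ≤ a1) (ha2 : 0 ≤ a2)
    (hpair : ∀ a ℓ : ℕ, ℓ < q →
      ∑ z ∈ ((((Finset.univ.erase 0 : Finset (ZMod q)) ×ˢ J) ×ˢ
          ((Finset.univ.erase 0 : Finset (ZMod q)) ×ˢ J)).filter
          (fun z => z.1.1 * (((y z.1.2)⁻¹ : (ZMod q)ˣ) : ZMod q) =
            z.2.1 * (((y z.2.2)⁻¹ : (ZMod q)ˣ) : ZMod q))),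
        (‖ivc q a ℓ z.1.1‖ * c z.1.2) * (‖ivc q a ℓ z.2.1‖ * c z.2.2) ≤ a1 * ℓ + a2) :
    ∀ v : (ZMod q)ˣ, ∀ a ℓ : ℕ, ℓ < q →
      ∑ κ ∈ (Finset.univ : Finset (ZMod q)ˣ).filter (fun κ => κ ∈ K),
        (∑ j ∈ J, c j * hI q a ℓ (κ * v * (y j)⁻¹)) ^ 2 ≤
      (Real.sqrt ((Nat.card K : ℝ) * a1) * Real.sqrt ℓ + (Real.sqrt ((Nat.card K : ℝ) * a2) +
        Real.sqrt (Real.sqrt q) * ((1 + Real.log q) * ∑ j ∈ J, c j))) ^ 2 := by
  intro v a ℓ hℓ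
  set JJ : Finset (ZMod q × β) := (Finset.univ.erase 0 : Finset (ZMod q)) ×ˢ J with hJJ
  have hms := mean_square K JJ (fun i => ivc q a ℓ i.1 * (c i.2 : ℂ))
    (fun i => i.1 * ((v : ZMod q) * (((y i.2)⁻¹ : (ZMod q)ˣ) : ZMod q)))
  have hcardK : (((Finset.univ : Finset (ZMod q)ˣ).filter (fun κ => κ ∈ K)).card : ℝ) =
      Nat.card K := by
    rw [Nat.card_eq_fintype_card, Fintype.card_subtype]
  -- the left side
  have hleft : ∀ κ : (ZMod q)ˣ, (∑ j ∈ J, c j * hI q a ℓ (κ * v * (y j)⁻¹)) ^ 2 =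
      ‖∑ i ∈ JJ, (ivc q a ℓ i.1 * (c i.2 : ℂ)) * (ZMod.stdAddChar ((κ : ZMod q) *
        (i.1 * ((v : ZMod q) * (((y i.2)⁻¹ : (ZMod q)ˣ) : ZMod q)))) : ℂ)‖ ^ 2 := by
    intro κ
    have e1 : ∑ i ∈ JJ, (ivc q a ℓ i.1 * (c i.2 : ℂ)) * (ZMod.stdAddChar ((κ : ZMod q) *
        (i.1 * ((v : ZMod q) * (((y i.2)⁻¹ : (ZMod q)ˣ) : ZMod q)))) : ℂ) =
        ((∑ j ∈ J, c j * hI q a ℓ (κ * v * (y j)⁻¹) : ℝ) : ℂ) := by
      rw [hJJ, Finset.sum_product_right, Complex.ofReal_sum]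
      apply Finset.sum_congr rfl
      intro j _
      have e2 : ((hI q a ℓ (κ * v * (y j)⁻¹) : ℝ) : ℂ) =
          ∑ m ∈ (Finset.univ.erase 0 : Finset (ZMod q)), ivc q a ℓ m *
            (ZMod.stdAddChar (m * ((κ * v * (y j)⁻¹ : (ZMod q)ˣ) : ZMod q)) : ℂ) := by
        have e3 : (Finset.univ.filter (fun m : ZMod q => m ≠ 0)) = Finset.univ.erase 0 := by
          ext m
          simp
        have e5 := interval_expansion a ℓ ((κ * v * (y j)⁻¹ : (ZMod q)ˣ) : ZMod q)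
        rw [e3] at e5
        unfold hI
        rw [Complex.ofReal_sub, Complex.ofReal_div, Complex.ofReal_natCast, Complex.ofReal_natCast,
          Complex.ofReal_natCast]
        refine Eq.trans ?_ (sub_eq_of_eq_add' e5)
        congr 3
      rw [Complex.ofReal_mul, e2, Finset.mul_sum]
      apply Finset.sum_congr rfl
      intro m _
      have e4 : (κ : ZMod q) * (m * ((v : ZMod q) * (((y j)⁻¹ : (ZMod q)ˣ) : ZMod q))) =
          m * ((κ * v * (y j)⁻¹ : (ZMod q)ˣ) : ZMod q) := by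
        rw [Units.val_mul, Units.val_mul]
        ring
      simp only
      rw [e4]
      ring
    rw [e1, Complex.norm_real, Real.norm_eq_abs, sq_abs]
  rw [Finset.sum_congr rfl (fun κ _ => hleft κ)]
  refine hms.trans ?_
  rw [hcardK]
  -- the right side
  have hvu : IsUnit (v : ZMod q) := v.isUnit
  have hfil : (JJ ×ˢ JJ).filter (fun z => z.1.1 * ((v : ZMod q) *
      (((y z.1.2)⁻¹ : (ZMod q)ˣ) : ZMod q)) = z.2.1 * ((v : ZMod q) *
      (((y z.2.2)⁻¹ : (ZMod q)ˣ) : ZMod q))) =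
      (JJ ×ˢ JJ).filter (fun z => z.1.1 * (((y z.1.2)⁻¹ : (ZMod q)ˣ) : ZMod q) =
            z.2.1 * (((y z.2.2)⁻¹ : (ZMod q)ˣ) : ZMod q)) := by
    apply Finset.filter_congr
    intro z _
    have e1 : ∀ m w : ZMod q, m * ((v : ZMod q) * w) = (v : ZMod q) * (m * w) := by
      intro m w; ring
    rw [e1, e1]
    exact hvu.mul_right_inj
  have h1 : ∑ z ∈ (JJ ×ˢ JJ).filter (fun z => z.1.1 * ((v : ZMod q) *
      (((y z.1.2)⁻¹ : (ZMod q)ˣ) : ZMod q)) = z.2.1 * ((v : ZMod q) *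
      (((y z.2.2)⁻¹ : (ZMod q)ˣ) : ZMod q))),
      ‖ivc q a ℓ z.1.1 * (c z.1.2 : ℂ)‖ * ‖ivc q a ℓ z.2.1 * (c z.2.2 : ℂ)‖ ≤ a1 * ℓ + a2 := by
    rw [hfil]
    refine le_trans (le_of_eq ?_) (hpair a ℓ hℓ)
    apply Finset.sum_congr rfl
    intro z hz
    rw [Finset.mem_filter, Finset.mem_product, hJJ, Finset.mem_product, Finset.mem_product] at hz
    rw [norm_mul, norm_mul, Complex.norm_real, Complex.norm_real,
      Real.norm_of_nonneg (hc _ hz.1.1.2), Real.norm_of_nonneg (hc _ hz.1.2.2)]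
  have hcs : 0 ≤ ∑ j ∈ J, c j := Finset.sum_nonneg hc
  have h2 : ∑ i ∈ JJ, ‖ivc q a ℓ i.1 * (c i.2 : ℂ)‖ ≤ (1 + Real.log q) * ∑ j ∈ J, c j := by
    have e1 : ∑ i ∈ JJ, ‖ivc q a ℓ i.1 * (c i.2 : ℂ)‖ =
        (∑ m ∈ (Finset.univ.erase 0 : Finset (ZMod q)), ‖ivc q a ℓ m‖) * ∑ j ∈ J, c j := by
      rw [hJJ, Finset.sum_product, Finset.sum_mul]
      apply Finset.sum_congr rfl
      intro m _
      rw [Finset.mul_sum]
      apply Finset.sum_congr rfl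
      intro j hj
      rw [norm_mul, Complex.norm_real, Real.norm_of_nonneg (hc j hj)]
    rw [e1]
    exact mul_le_mul_of_nonneg_right (sum_ivc_le a ℓ) hcs
  have hK0 : (0 : ℝ) ≤ Nat.card K := Nat.cast_nonneg _
  have hlog : 0 ≤ 1 + Real.log q := by
    have := Real.log_natCast_nonneg q
    linarith
  have hsq : 0 ≤ Real.sqrt (q : ℝ) := Real.sqrt_nonneg _
  have h3 : (∑ i ∈ JJ, ‖ivc q a ℓ i.1 * (c i.2 : ℂ)‖) ^ 2 ≤
      ((1 + Real.log q) * ∑ j ∈ J, c j) ^ 2 :=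
    pow_le_pow_left₀ (Finset.sum_nonneg fun _ _ => norm_nonneg _) h2 2
  have h4 : (Nat.card K : ℝ) * (∑ z ∈ (JJ ×ˢ JJ).filter (fun z => z.1.1 * ((v : ZMod q) *
      (((y z.1.2)⁻¹ : (ZMod q)ˣ) : ZMod q)) = z.2.1 * ((v : ZMod q) *
      (((y z.2.2)⁻¹ : (ZMod q)ˣ) : ZMod q))),
      ‖ivc q a ℓ z.1.1 * (c z.1.2 : ℂ)‖ * ‖ivc q a ℓ z.2.1 * (c z.2.2 : ℂ)‖) +
      Real.sqrt q * (∑ i ∈ JJ, ‖ivc q a ℓ i.1 * (c i.2 : ℂ)‖) ^ 2 ≤
      (Nat.card K : ℝ) * (a1 * ℓ + a2) +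
        Real.sqrt q * ((1 + Real.log q) * ∑ j ∈ J, c j) ^ 2 :=
    add_le_add (mul_le_mul_of_nonneg_left h1 hK0) (mul_le_mul_of_nonneg_left h3 hsq)
  refine le_trans h4 ?_
  set x1 := Real.sqrt ((Nat.card K : ℝ) * a1) * Real.sqrt ℓ with hx1
  set x2 := Real.sqrt ((Nat.card K : ℝ) * a2) with hx2
  set x3 := Real.sqrt (Real.sqrt q) * ((1 + Real.log q) * ∑ j ∈ J, c j) with hx3
  have e1 : x1 ^ 2 = (Nat.card K : ℝ) * a1 * ℓ := by
    rw [hx1, mul_pow, Real.sq_sqrt (by positivity), Real.sq_sqrt (Nat.cast_nonneg _)]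
  have e2 : x2 ^ 2 = (Nat.card K : ℝ) * a2 := by
    rw [hx2, Real.sq_sqrt (by positivity)]
  have e3 : x3 ^ 2 = Real.sqrt q * ((1 + Real.log q) * ∑ j ∈ J, c j) ^ 2 := by
    rw [hx3, mul_pow, Real.sq_sqrt hsq]
  have p1 : 0 ≤ x1 := by positivity
  have p2 : 0 ≤ x2 := by positivity
  have p3 : 0 ≤ x3 := by positivity
  have e4 : (Nat.card K : ℝ) * (a1 * ℓ + a2) +
      Real.sqrt q * ((1 + Real.log q) * ∑ j ∈ J, c j) ^ 2 = x1 ^ 2 + x2 ^ 2 + x3 ^ 2 := by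
    rw [e1, e2, e3]; ring
  rw [e4]
  nlinarith [mul_nonneg p1 p2, mul_nonneg p1 p3, mul_nonneg p2 p3]

end Pool.Agent.H.MP_3e6494_nt.A14
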