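import Mathlib
import Pool.Agent.H.MP_3e6494_nt.helper14.DP2

/-!
The number of exceptional characters, from second moments over the cosets.
-/

open Finset

set_option linter.unusedSectionVars false
set_option linter.unusedVariables false

namespace Pool.Agent.H.MP_3e6494_nt.A14

open Pool.Agent.H.MP_3e6494_nt.Class Pool.Agent.H.MP_3e6494_nt.T3Res
  Pool.Agent.H.MP_3e6494_nt.T6Par

variable {q : ℕ} [hq : Fact q.Prime] {α : Type*}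

open scoped Classical in
/-- the part of a mean over the coset lying over the kernel -/
noncomputable def rst {τ : Type*} (H : Subgroup (DirichletCharacter ℂ q)) (𝓢 : Finset τ)
    (w : τ → ℝ) (z : τ → (ZMod q)ˣ) (χ₀ : DirichletCharacter ℂ q) : ℂ :=
  ∑ t ∈ 𝓢.filter (fun t => z t ∈ K H), (w t : ℂ) * χ₀ (z t : ZMod q)

open scoped Classical in
lemma rst_second {τ : Type*} (H : Subgroup (DirichletCharacter ℂ q)) (𝓢 : Finset τ)
    (w : τ → ℝ) (z : τ → (ZMod q)ˣ) {v : ℝ}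
    (h : ∑ κ ∈ (Finset.univ : Finset (ZMod q)ˣ).filter (fun κ => κ ∈ K H),
      (∑ t ∈ 𝓢.filter (fun t => z t = κ), w t) ^ 2 ≤ v) :
    ∑ χ₀ ∈ XX q, ‖rst H 𝓢 w z χ₀‖ ^ 2 ≤ q * v := by
  unfold rst
  rw [coset_second]
  have h0 : 0 ≤ ∑ κ ∈ (Finset.univ : Finset (ZMod q)ˣ).filter (fun κ => κ ∈ K H),
      (∑ t ∈ 𝓢.filter (fun t => z t = κ), w t) ^ 2 := Finset.sum_nonneg fun _ _ => sq_nonneg _
  have hXX : ((XX q).card : ℝ) ≤ q := by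
    rw [card_XX]; exact_mod_cast Nat.sub_le _ _
  exact mul_le_mul hXX h h0 (Nat.cast_nonneg _)

open scoped Classical in
/-- main part and rest of a mean over a coset -/
lemma mean_split2 {τ : Type*} (H : Subgroup (DirichletCharacter ℂ q)) (χ₀ : DirichletCharacter ℂ q)
    (𝓣 𝓜 𝓢 : Finset τ) (h𝓜 : 𝓜 ⊆ 𝓣) (h𝓢 : ∀ t, t ∈ 𝓢 ↔ (t ∈ 𝓣 ∧ t ∉ 𝓜)) (w : τ → ℝ)
    (z : τ → (ZMod q)ˣ) (hz : ∀ t ∈ 𝓜, z t = 1) :
    ∑ ψ ∈ mem H, ∑ t ∈ 𝓣, (w t : ℂ) * (χ₀ * ψ) (z t : ZMod q) =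
      ((mem H).card : ℂ) * (((∑ t ∈ 𝓜, w t : ℝ) : ℂ) + rst H 𝓢 w z χ₀) := by
  rw [coset_mean H χ₀ 𝓣 w z]
  congr 1
  have h2 := Finset.sum_filter_add_sum_filter_not (𝓣.filter (fun t => z t ∈ K H))
    (fun t => t ∈ 𝓜) (fun t => (w t : ℂ) * χ₀ (z t : ZMod q))
  rw [← h2]
  congr 1
  · rw [Complex.ofReal_sum]
    have h3 : (𝓣.filter (fun t => z t ∈ K H)).filter (fun t => t ∈ 𝓜) = 𝓜 := by
      ext t
      simp only [Finset.mem_filter]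
      constructor
      · rintro ⟨_, c⟩; exact c
      · intro c; exact ⟨⟨h𝓜 c, by rw [hz t c]; exact (K H).one_mem⟩, c⟩
    rw [h3]
    apply Finset.sum_congr rfl
    intro t ht
    rw [hz t ht, Units.val_one, map_one, mul_one]
  · unfold rst
    apply Finset.sum_congr _ (fun _ _ => rfl)
    ext t
    simp only [Finset.mem_filter, h𝓢 t]
    tauto

lemma norm_RS_sq (S : Finset α) (ρ : α → (ZMod q)ˣ) (f : α → ℝ) (χ : DirichletCharacter ℂ q) :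
    ((‖RS S ρ f χ‖ ^ 2 : ℝ) : ℂ) =
      ∑ t ∈ S ×ˢ S, (((f t.1 * f t.2 : ℝ)) : ℂ) * χ ((ρ t.1 * (ρ t.2)⁻¹ : (ZMod q)ˣ) : ZMod q) := by
  have h3 : (starRingEnd ℂ) (RS S ρ f χ) = ∑ b ∈ S, (f b : ℂ) * χ (((ρ b)⁻¹ : (ZMod q)ˣ) : ZMod q) := by
    unfold RS
    rw [map_sum]
    apply Finset.sum_congr rfl
    intro b _
    rw [map_mul, Complex.conj_ofReal, conj_char]
  have h4 : ((‖RS S ρ f χ‖ ^ 2 : ℝ) : ℂ) = RS S ρ f χ * (starRingEnd ℂ) (RS S ρ f χ) := by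
    rw [Complex.mul_conj, Complex.normSq_eq_norm_sq]
  rw [h4, h3]
  unfold RS
  rw [Finset.sum_mul_sum, Finset.sum_product]
  apply Finset.sum_congr rfl
  intro a _
  apply Finset.sum_congr rfl
  intro b _
  push_cast
  rw [map_mul]
  ring

open scoped Classical in
/-- the mean square of a resonator over a coset -/
lemma mean_sq_le (H : Subgroup (DirichletCharacter ℂ q)) (χ₀ : DirichletCharacter ℂ q)
    (S : Finset α) (ρ : α → (ZMod q)ˣ) (f : α → ℝ) {F : ℝ} (hFS : ∑ a ∈ S, f a ^ 2 = F)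
    (hr : ‖rst H ((S ×ˢ S).filter (fun t => t.1 ≠ t.2)) (fun t => f t.1 * f t.2)
      (fun t => ρ t.1 * (ρ t.2)⁻¹) χ₀‖ ≤ F) :
    ∑ ψ ∈ mem H, ‖RS S ρ f (χ₀ * ψ)‖ ^ 2 ≤ (mem H).card * (2 * F) := by
  set 𝓜 : Finset (α × α) := (S ×ˢ S).filter (fun t => t.1 = t.2) with h𝓜
  have h1 := mean_split2 H χ₀ (S ×ˢ S) 𝓜 ((S ×ˢ S).filter (fun t => t.1 ≠ t.2))
    (Finset.filter_subset _ _) (by
      intro t
      simp only [h𝓜, Finset.mem_filter]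
      tauto) (fun t => f t.1 * f t.2)
    (fun t => ρ t.1 * (ρ t.2)⁻¹) (by
      intro t ht
      rw [h𝓜, Finset.mem_filter] at ht
      rw [ht.2, mul_inv_cancel])
  have h3 : ∑ t ∈ 𝓜, f t.1 * f t.2 = F := by
    rw [h𝓜, Finset.sum_filter, Finset.sum_product, ← hFS]
    apply Finset.sum_congr rfl
    intro a ha
    simp only
    rw [Finset.sum_ite_eq S a (fun b => f a * f b), if_pos ha, sq]
  rw [h3] at h1
  have h4 : ∑ ψ ∈ mem H, ∑ t ∈ S ×ˢ S, (((f t.1 * f t.2 : ℝ)) : ℂ) *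
      (χ₀ * ψ) ((ρ t.1 * (ρ t.2)⁻¹ : (ZMod q)ˣ) : ZMod q) =
      ((∑ ψ ∈ mem H, ‖RS S ρ f (χ₀ * ψ)‖ ^ 2 : ℝ) : ℂ) := by
    rw [Complex.ofReal_sum]
    apply Finset.sum_congr rfl
    intro ψ _
    rw [norm_RS_sq]
  rw [h4] at h1
  set M := ∑ ψ ∈ mem H, ‖RS S ρ f (χ₀ * ψ)‖ ^ 2 with hM
  have hM0 : 0 ≤ M := Finset.sum_nonneg fun _ _ => sq_nonneg _
  have hF0 : 0 ≤ F := by rw [← hFS]; exact Finset.sum_nonneg fun _ _ => sq_nonneg _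
  have h5 : M = ‖((M : ℝ) : ℂ)‖ := by rw [Complex.norm_real, Real.norm_of_nonneg hM0]
  rw [h5, h1, norm_mul]
  have h6 : ‖((mem H).card : ℂ)‖ = ((mem H).card : ℝ) := by simp
  rw [h6]
  apply mul_le_mul_of_nonneg_left _ (Nat.cast_nonneg _)
  refine (norm_add_le _ _).trans ?_
  rw [Complex.norm_real, Real.norm_of_nonneg hF0]
  linarith

open scoped Classical in
/-- **the number of exceptional characters** -/
theorem coset_exc2 (H : Subgroup (DirichletCharacter ℂ q)) (D : Finset ℕ)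
    (hD : ∀ p ∈ D, p.Prime)
    (S T : Finset α) (ρ : α → (ZMod q)ˣ) (f : α → ℝ) (hf : ∀ a, 0 ≤ f a)
    (u : ℕ → (ZMod q)ˣ) (hu : ∀ m : ℕ, m.Coprime q → ((u m : (ZMod q)ˣ) : ZMod q) = (m : ZMod q))
    {F N v vL P : ℝ} (hF : 0 < F) (hFS : ∑ a ∈ S, f a ^ 2 = F) (hFT : ∑ a ∈ T, f a ^ 2 = F)
    (hNS : (S.card : ℝ) ≤ N) (hNT : (T.card : ℝ) ≤ N)
    (X Y : ℕ) (hX : 1 ≤ X)
    (𝓜 : Finset (ℕ × α × α)) (h𝓜 : 𝓜 ⊆ IX q D Y S T) (h𝓜1 : ∀ t ∈ 𝓜, zt u ρ t = 1)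
    (hv1 : ∑ κ ∈ (Finset.univ : Finset (ZMod q)ˣ).filter (fun κ => κ ∈ K H),
      (∑ t ∈ ((S ×ˢ S).filter (fun t => t.1 ≠ t.2)).filter
        (fun t => ρ t.1 * (ρ t.2)⁻¹ = κ), f t.1 * f t.2) ^ 2 ≤ v * F ^ 2)
    (hv2 : ∑ κ ∈ (Finset.univ : Finset (ZMod q)ˣ).filter (fun κ => κ ∈ K H),
      (∑ t ∈ ((T ×ˢ T).filter (fun t => t.1 ≠ t.2)).filter
        (fun t => ρ t.1 * (ρ t.2)⁻¹ = κ), f t.1 * f t.2) ^ 2 ≤ v * F ^ 2)
    (hv3 : ∑ κ ∈ (Finset.univ : Finset (ZMod q)ˣ).filter (fun κ => κ ∈ K H),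
      (∑ t ∈ ((IX q D Y S T).filter (fun t => t ∉ 𝓜)).filter
        (fun t => zt u ρ t = κ), wt f t) ^ 2 ≤ v * F ^ 2)
    (Φ : (ZMod q)ˣ → ℝ)
    (hΦ : ∀ χ : DirichletCharacter ℂ q, χ ≠ 1 → (DP χ D X - DP χ D Y) *
      (RS S ρ f χ * (starRingEnd ℂ) (RS T ρ f χ)) = ∑ x : (ZMod q)ˣ, (Φ x : ℂ) * χ (x : ZMod q))
    (hΦ2 : ∑ κ ∈ (Finset.univ : Finset (ZMod q)ˣ).filter (fun κ => κ ∈ K H), Φ κ ^ 2 ≤ vL * F ^ 2)
    (hΦ1 : |∑ x : (ZMod q)ˣ, Φ x| ≤ P * F)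
    {E : ℝ} (hE : E * F ≤ ∑ t ∈ 𝓜, wt f t)
    {V : ℝ} (hV0 : 0 ≤ V)
    (hEV : 2 * (4 ^ D.card * (V + 2 * Approx.B q / Real.sqrt X)) + 3 ≤ E)
    (𝓑 : Finset (DirichletCharacter ℂ q))
    (h𝓑 : ∀ χ₀ ∈ 𝓑, (∀ ψ ∈ H, χ₀ * ψ ≠ 1 → ‖(χ₀ * ψ).LFunction (1 / 2)‖ ≤ V) ∧
      (χ₀ ∉ H ∨ 2 * Real.sqrt Y * N + P ≤ Nat.card H)) :
    (𝓑.card : ℝ) ≤ q * (3 * v + vL) := by
  set h : ℝ := ((mem H).card : ℝ) with hh
  have hh' : h = Nat.card H := by rw [hh, card_mem]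
  have hhpos : 0 < h := by
    rw [hh]
    have : (mem H).Nonempty := ⟨1, mem_mem.2 H.one_mem⟩
    exact_mod_cast this.card_pos
  have hhn : ‖((mem H).card : ℂ)‖ = h := by
    rw [hh]; simp
  have hN0 : 0 ≤ N := le_trans (Nat.cast_nonneg _) hNS
  have hS0 : 0 ≤ ∑ a ∈ S, f a := Finset.sum_nonneg fun a _ => hf a
  have hT0 : 0 ≤ ∑ a ∈ T, f a := Finset.sum_nonneg fun a _ => hf a
  have hST : (∑ a ∈ S, f a) * (∑ b ∈ T, f b) ≤ N * F := by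
    calc (∑ a ∈ S, f a) * (∑ b ∈ T, f b)
        ≤ (Real.sqrt N * Real.sqrt F) * (Real.sqrt N * Real.sqrt F) := by
          have hSsum := sum_le_sqrt S f hFS hNS
          have hTsum := sum_le_sqrt T f hFT hNT
          gcongr
      _ = (Real.sqrt N * Real.sqrt N) * (Real.sqrt F * Real.sqrt F) := by ring
      _ = N * F := by rw [Real.mul_self_sqrt hN0, Real.mul_self_sqrt hF.le]
  set A := 4 ^ D.card * (V + 2 * Approx.B q / Real.sqrt X) with hA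
  have hA0 : 0 ≤ A := by
    have := Approx.B_nonneg (q := q)
    positivity
  -- the four second moments
  set 𝓣S := (S ×ˢ S).filter (fun t => t.1 ≠ t.2) with h𝓣S
  set 𝓣T := (T ×ˢ T).filter (fun t => t.1 ≠ t.2) with h𝓣T
  set 𝓣3 := (IX q D Y S T).filter (fun t => t ∉ 𝓜) with h𝓣3
  have m1 := rst_second H 𝓣S (fun t => f t.1 * f t.2) (fun t => ρ t.1 * (ρ t.2)⁻¹) hv1
  have m2 := rst_second H 𝓣T (fun t => f t.1 * f t.2) (fun t => ρ t.1 * (ρ t.2)⁻¹) hv2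
  have m3 := rst_second H 𝓣3 (wt f) (zt u ρ) hv3
  have m4 := rst_second H (Finset.univ : Finset (ZMod q)ˣ) Φ id (v := vL * F ^ 2) (by
    refine le_trans (le_of_eq ?_) hΦ2
    apply Finset.sum_congr rfl
    intro κ _
    simp only [id]
    rw [Finset.filter_eq' Finset.univ κ, if_pos (Finset.mem_univ _), Finset.sum_singleton])
  -- the key inequality
  have hlow : ∀ χ₀ ∈ 𝓑, F ^ 2 ≤
      ‖rst H 𝓣S (fun t => f t.1 * f t.2) (fun t => ρ t.1 * (ρ t.2)⁻¹) χ₀‖ ^ 2 +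
      ‖rst H 𝓣T (fun t => f t.1 * f t.2) (fun t => ρ t.1 * (ρ t.2)⁻¹) χ₀‖ ^ 2 +
      ‖rst H 𝓣3 (wt f) (zt u ρ) χ₀‖ ^ 2 +
      ‖rst H (Finset.univ : Finset (ZMod q)ˣ) Φ id χ₀‖ ^ 2 := by
    intro χ₀ hχ₀
    obtain ⟨hL, hprin⟩ := h𝓑 χ₀ hχ₀
    set r1 := rst H 𝓣S (fun t => f t.1 * f t.2) (fun t => ρ t.1 * (ρ t.2)⁻¹) χ₀ with hr1
    set r2 := rst H 𝓣T (fun t => f t.1 * f t.2) (fun t => ρ t.1 * (ρ t.2)⁻¹) χ₀ with hr2
    set r3 := rst H 𝓣3 (wt f) (zt u ρ) χ₀ with hr3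
    set r4 := rst H (Finset.univ : Finset (ZMod q)ˣ) Φ id χ₀ with hr4
    by_contra hcon
    push Not at hcon
    have n1 := sq_nonneg ‖r1‖
    have n2 := sq_nonneg ‖r2‖
    have n3 := sq_nonneg ‖r3‖
    have n4 := sq_nonneg ‖r4‖
    have hlt : ∀ x : ℝ, 0 ≤ x → x ^ 2 < F ^ 2 → x < F := fun x hx h => lt_of_pow_lt_pow_left₀ 2 hF.le h
    have l1 : ‖r1‖ < F := hlt _ (norm_nonneg _) (by linarith)
    have l2 : ‖r2‖ < F := hlt _ (norm_nonneg _) (by linarith)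
    have l3 : ‖r3‖ < F := hlt _ (norm_nonneg _) (by linarith)
    have l4 : ‖r4‖ < F := hlt _ (norm_nonneg _) (by linarith)
    have q1 := mean_sq_le H χ₀ S ρ f hFS l1.le
    have q2 := mean_sq_le H χ₀ T ρ f hFT l2.le
    rw [← hh] at q1 q2
    set W : DirichletCharacter ℂ q → ℂ := fun χ => RS S ρ f χ * (starRingEnd ℂ) (RS T ρ f χ) with hW
    have hWn : ∀ χ, ‖W χ‖ = ‖RS S ρ f χ‖ * ‖RS T ρ f χ‖ := by
      intro χ; rw [hW]; simp only; rw [norm_mul, RCLike.norm_conj]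
    have hWNF : ∀ χ, ‖W χ‖ ≤ N * F := by
      intro χ
      rw [hWn]
      refine le_trans ?_ hST
      exact mul_le_mul (norm_RS_le S ρ f hf _) (norm_RS_le T ρ f hf _) (norm_nonneg _) hS0
    -- the main identity
    have i1 : ∑ ψ ∈ mem H, DP (χ₀ * ψ) D Y * W (χ₀ * ψ) =
        ((mem H).card : ℂ) * (((∑ t ∈ 𝓜, wt f t : ℝ) : ℂ) + r3) := by
      have e1 : ∀ ψ ∈ mem H, DP (χ₀ * ψ) D Y * W (χ₀ * ψ) =
          ∑ t ∈ IX q D Y S T, (wt f t : ℂ) * (χ₀ * ψ) (zt u ρ t : ZMod q) := by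
        intro ψ _
        exact product_sum (χ₀ * ψ) D S T ρ f Y u hu
      rw [Finset.sum_congr rfl e1, mean_split2 H χ₀ (IX q D Y S T) 𝓜 𝓣3 h𝓜
        (fun t => by rw [h𝓣3, Finset.mem_filter]) (wt f) (zt u ρ) h𝓜1]
    have i2 : ∑ ψ ∈ mem H, ∑ x : (ZMod q)ˣ, (Φ x : ℂ) * (χ₀ * ψ) (x : ZMod q) =
        ((mem H).card : ℂ) * r4 := by
      have := coset_mean H χ₀ (Finset.univ : Finset (ZMod q)ˣ) Φ id
      exact this
    -- bound of the mean of DP_Y W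
    have hup : ‖∑ ψ ∈ mem H, DP (χ₀ * ψ) D Y * W (χ₀ * ψ)‖ ≤ (2 * A + 2) * (h * F) := by
      -- the terms
      have hterm : ∀ ψ ∈ mem H, ‖DP (χ₀ * ψ) D Y * W (χ₀ * ψ) +
          ∑ x : (ZMod q)ˣ, (Φ x : ℂ) * (χ₀ * ψ) (x : ZMod q)‖ ≤
          A * ((‖RS S ρ f (χ₀ * ψ)‖ ^ 2 + ‖RS T ρ f (χ₀ * ψ)‖ ^ 2) / 2) +
            (if ψ = χ₀⁻¹ then (2 * Real.sqrt Y * N + P) * F else 0) := by
        intro ψ hψ
        have h4 : 0 ≤ A * ((‖RS S ρ f (χ₀ * ψ)‖ ^ 2 + ‖RS T ρ f (χ₀ * ψ)‖ ^ 2) / 2) := by positivity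
        by_cases h1 : χ₀ * ψ = 1
        · rw [if_pos (eq_inv_of_mul_eq_one_right h1)]
          have h2 : ‖DP (χ₀ * ψ) D Y‖ ≤ 2 * Real.sqrt Y := by
            rw [h1]; exact norm_DP_one D Y
          have h5 : ‖DP (χ₀ * ψ) D Y * W (χ₀ * ψ)‖ ≤ 2 * Real.sqrt Y * (N * F) := by
            rw [norm_mul]
            exact mul_le_mul h2 (hWNF _) (norm_nonneg _) (by positivity)
          have h6 : ‖∑ x : (ZMod q)ˣ, (Φ x : ℂ) * (χ₀ * ψ) (x : ZMod q)‖ ≤ P * F := by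
            rw [h1]
            have e : ∑ x : (ZMod q)ˣ, (Φ x : ℂ) * (1 : DirichletCharacter ℂ q) (x : ZMod q) =
                ((∑ x : (ZMod q)ˣ, Φ x : ℝ) : ℂ) := by
              rw [Complex.ofReal_sum]
              apply Finset.sum_congr rfl
              intro x _
              rw [MulChar.one_apply_coe, mul_one]
            rw [e, Complex.norm_real, Real.norm_eq_abs]
            exact hΦ1
          have h7 := norm_add_le (DP (χ₀ * ψ) D Y * W (χ₀ * ψ))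
            (∑ x : (ZMod q)ˣ, (Φ x : ℂ) * (χ₀ * ψ) (x : ZMod q))
          nlinarith
        · have h2 := norm_DP_le' h1 D hD X hX
          have h3 := hL ψ (mem_mem.1 hψ) h1
          have h4' : ‖DP (χ₀ * ψ) D X‖ ≤ A := by
            refine h2.trans ?_
            rw [hA]
            gcongr
          have e : DP (χ₀ * ψ) D Y * W (χ₀ * ψ) +
              ∑ x : (ZMod q)ˣ, (Φ x : ℂ) * (χ₀ * ψ) (x : ZMod q) = DP (χ₀ * ψ) D X * W (χ₀ * ψ) := by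
            rw [← hΦ _ h1]
            simp only [hW]
            ring
          rw [e, norm_mul]
          have h6 : ‖DP (χ₀ * ψ) D X‖ * ‖W (χ₀ * ψ)‖ ≤
              A * ((‖RS S ρ f (χ₀ * ψ)‖ ^ 2 + ‖RS T ρ f (χ₀ * ψ)‖ ^ 2) / 2) := by
            apply mul_le_mul h4' _ (norm_nonneg _) hA0
            rw [hWn]
            nlinarith [sq_nonneg (‖RS S ρ f (χ₀ * ψ)‖ - ‖RS T ρ f (χ₀ * ψ)‖)]
          have hne : ψ ≠ χ₀⁻¹ := by
            intro he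
            apply h1
            rw [he, mul_inv_cancel]
          rw [if_neg hne]
          linarith
      have hsumle : ‖∑ ψ ∈ mem H, (DP (χ₀ * ψ) D Y * W (χ₀ * ψ) +
          ∑ x : (ZMod q)ˣ, (Φ x : ℂ) * (χ₀ * ψ) (x : ZMod q))‖ ≤ (2 * A + 1) * (h * F) := by
        calc ‖∑ ψ ∈ mem H, (DP (χ₀ * ψ) D Y * W (χ₀ * ψ) +
              ∑ x : (ZMod q)ˣ, (Φ x : ℂ) * (χ₀ * ψ) (x : ZMod q))‖
            ≤ ∑ ψ ∈ mem H, (A * ((‖RS S ρ f (χ₀ * ψ)‖ ^ 2 + ‖RS T ρ f (χ₀ * ψ)‖ ^ 2) / 2) +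
              (if ψ = χ₀⁻¹ then (2 * Real.sqrt Y * N + P) * F else 0)) :=
              norm_sum_le_of_le _ hterm
          _ = A * (((∑ ψ ∈ mem H, ‖RS S ρ f (χ₀ * ψ)‖ ^ 2) +
                (∑ ψ ∈ mem H, ‖RS T ρ f (χ₀ * ψ)‖ ^ 2)) / 2) +
              ∑ ψ ∈ mem H, (if ψ = χ₀⁻¹ then (2 * Real.sqrt Y * N + P) * F else 0) := by
              rw [Finset.sum_add_distrib, ← Finset.mul_sum, ← Finset.sum_div,
                Finset.sum_add_distrib]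
          _ ≤ A * (h * (2 * F)) + 1 * (h * F) := by
              apply add_le_add
              · apply mul_le_mul_of_nonneg_left _ hA0
                linarith
              · rw [Finset.sum_ite_eq']
                split_ifs with hmem
                · rcases hprin with hp | hp
                  · exfalso
                    have h3 := mem_mem.1 hmem
                    exact hp (by simpa using H.inv_mem h3)
                  · rw [← hh'] at hp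
                    calc (2 * Real.sqrt Y * N + P) * F ≤ h * F := mul_le_mul_of_nonneg_right hp hF.le
                      _ = 1 * (h * F) := by ring
                · positivity
          _ = (2 * A + 1) * (h * F) := by ring
      have e2 : ∑ ψ ∈ mem H, DP (χ₀ * ψ) D Y * W (χ₀ * ψ) =
          ∑ ψ ∈ mem H, (DP (χ₀ * ψ) D Y * W (χ₀ * ψ) +
            ∑ x : (ZMod q)ˣ, (Φ x : ℂ) * (χ₀ * ψ) (x : ZMod q)) - ((mem H).card : ℂ) * r4 := by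
        rw [Finset.sum_add_distrib, i2]
        ring
      rw [e2]
      refine (norm_sub_le _ _).trans ?_
      rw [norm_mul, hhn]
      have h8 : h * ‖r4‖ ≤ h * F := mul_le_mul_of_nonneg_left l4.le hhpos.le
      linarith
    rw [i1, norm_mul, hhn] at hup
    set M0 := ∑ t ∈ 𝓜, wt f t with hM0
    have h8 : ‖((M0 : ℝ) : ℂ) + r3‖ ≤ (2 * A + 2) * F := by
      have h9 : h * ‖((M0 : ℝ) : ℂ) + r3‖ ≤ h * ((2 * A + 2) * F) := by
        calc _ ≤ (2 * A + 2) * (h * F) := hup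
          _ = _ := by ring
      exact le_of_mul_le_mul_left h9 hhpos
    have h10 : M0 ≤ ‖((M0 : ℝ) : ℂ) + r3‖ + ‖r3‖ := by
      calc M0 ≤ ‖((M0 : ℝ) : ℂ)‖ := by
            rw [Complex.norm_real]; exact le_abs_self _
        _ = ‖(((M0 : ℝ) : ℂ) + r3) - r3‖ := by congr 1; ring
        _ ≤ _ := norm_sub_le _ _
    have h11 : (2 * A + 3) * F ≤ E * F := mul_le_mul_of_nonneg_right hEV hF.le
    nlinarith
  -- Chebyshev
  have h1 : (𝓑.card : ℝ) * F ^ 2 ≤ q * ((3 * v + vL) * F ^ 2) := by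
    calc (𝓑.card : ℝ) * F ^ 2 = ∑ χ₀ ∈ 𝓑, F ^ 2 := by rw [Finset.sum_const, nsmul_eq_mul]
      _ ≤ ∑ χ₀ ∈ 𝓑, (‖rst H 𝓣S (fun t => f t.1 * f t.2) (fun t => ρ t.1 * (ρ t.2)⁻¹) χ₀‖ ^ 2 +
      ‖rst H 𝓣T (fun t => f t.1 * f t.2) (fun t => ρ t.1 * (ρ t.2)⁻¹) χ₀‖ ^ 2 +
      ‖rst H 𝓣3 (wt f) (zt u ρ) χ₀‖ ^ 2 +
      ‖rst H (Finset.univ : Finset (ZMod q)ˣ) Φ id χ₀‖ ^ 2) := Finset.sum_le_sum hlow
      _ ≤ ∑ χ₀ ∈ XX q, (‖rst H 𝓣S (fun t => f t.1 * f t.2) (fun t => ρ t.1 * (ρ t.2)⁻¹) χ₀‖ ^ 2 +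
      ‖rst H 𝓣T (fun t => f t.1 * f t.2) (fun t => ρ t.1 * (ρ t.2)⁻¹) χ₀‖ ^ 2 +
      ‖rst H 𝓣3 (wt f) (zt u ρ) χ₀‖ ^ 2 +
      ‖rst H (Finset.univ : Finset (ZMod q)ˣ) Φ id χ₀‖ ^ 2) :=
          Finset.sum_le_sum_of_subset_of_nonneg (fun χ _ => mem_XX χ) (fun _ _ _ => by positivity)
      _ ≤ q * (v * F ^ 2) + q * (v * F ^ 2) + q * (v * F ^ 2) + q * (vL * F ^ 2) := by
          rw [Finset.sum_add_distrib, Finset.sum_add_distrib, Finset.sum_add_distrib]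
          linarith
      _ = _ := by ring
  have h2 : (𝓑.card : ℝ) * F ^ 2 ≤ (q * (3 * v + vL)) * F ^ 2 := by
    calc _ ≤ _ := h1
      _ = _ := by ring
  exact le_of_mul_le_mul_right h2 (by positivity)

end Pool.Agent.H.MP_3e6494_nt.A14
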