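import Mathlib
import Pool.Agent.H.MP_3e6494_nt.helper14.Exc2

/-!
The resonance inequality on one coset, from first moments.
-/

open Finset

set_option linter.unusedSectionVars false
set_option linter.unusedVariables false

namespace Pool.Agent.H.MP_3e6494_nt.A14

open Pool.Agent.H.MP_3e6494_nt.Class Pool.Agent.H.MP_3e6494_nt.T3Res
  Pool.Agent.H.MP_3e6494_nt.T6Par

variable {q : ℕ} [hq : Fact q.Prime] {α : Type*}

open scoped Classical in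
lemma norm_rst_le {τ : Type*} (H : Subgroup (DirichletCharacter ℂ q)) (𝓢 : Finset τ)
    (w : τ → ℝ) (hw : ∀ t ∈ 𝓢, 0 ≤ w t) (z : τ → (ZMod q)ˣ) (χ₀ : DirichletCharacter ℂ q) :
    ‖rst H 𝓢 w z χ₀‖ ≤ ∑ t ∈ 𝓢.filter (fun t => z t ∈ K H), w t := by
  unfold rst
  apply norm_sum_le_of_le
  intro t ht
  rw [norm_mul, Complex.norm_real, Real.norm_of_nonneg (hw t (Finset.mem_filter.1 ht).1)]
  have h1 : ‖χ₀ (z t : ZMod q)‖ ≤ 1 := DirichletCharacter.norm_le_one _ _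
  exact mul_le_of_le_one_right (hw t (Finset.mem_filter.1 ht).1) h1

open scoped Classical in
/-- **one coset** -/
theorem coset_one (H : Subgroup (DirichletCharacter ℂ q)) (D : Finset ℕ)
    (hD : ∀ p ∈ D, p.Prime)
    (S T : Finset α) (ρ : α → (ZMod q)ˣ) (f : α → ℝ) (hf : ∀ a, 0 ≤ f a)
    (u : ℕ → (ZMod q)ˣ) (hu : ∀ m : ℕ, m.Coprime q → ((u m : (ZMod q)ˣ) : ZMod q) = (m : ZMod q))
    {F N : ℝ} (hF : 0 < F) (hFS : ∑ a ∈ S, f a ^ 2 = F) (hFT : ∑ a ∈ T, f a ^ 2 = F)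
    (hNS : (S.card : ℝ) ≤ N) (hNT : (T.card : ℝ) ≤ N)
    (X : ℕ) (hX : 1 ≤ X)
    (𝓜 : Finset (ℕ × α × α)) (h𝓜 : 𝓜 ⊆ IX q D X S T) (h𝓜1 : ∀ t ∈ 𝓜, zt u ρ t = 1)
    (hv1 : ∑ t ∈ ((S ×ˢ S).filter (fun t => t.1 ≠ t.2)).filter
        (fun t => ρ t.1 * (ρ t.2)⁻¹ ∈ K H), f t.1 * f t.2 < F)
    (hv2 : ∑ t ∈ ((T ×ˢ T).filter (fun t => t.1 ≠ t.2)).filter
        (fun t => ρ t.1 * (ρ t.2)⁻¹ ∈ K H), f t.1 * f t.2 < F)
    (hv3 : ∑ t ∈ ((IX q D X S T).filter (fun t => t ∉ 𝓜)).filter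
        (fun t => zt u ρ t ∈ K H), wt f t < F)
    {E : ℝ} (hE : E * F ≤ ∑ t ∈ 𝓜, wt f t)
    {V : ℝ} (hV0 : 0 ≤ V)
    (hEV : 2 * (4 ^ D.card * (V + 2 * Approx.B q / Real.sqrt X)) + 3 ≤ E)
    (hH : 2 * Real.sqrt X * N ≤ Nat.card H) (χ₀ : DirichletCharacter ℂ q) :
    ∃ ψ ∈ H, χ₀ * ψ ≠ 1 ∧ V < ‖(χ₀ * ψ).LFunction (1 / 2)‖ := by
  by_contra hcon
  push Not at hcon
  have hL : ∀ ψ ∈ H, χ₀ * ψ ≠ 1 → ‖(χ₀ * ψ).LFunction (1 / 2)‖ ≤ V := hcon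
  set h : ℝ := ((mem H).card : ℝ) with hh
  have hh' : h = Nat.card H := by rw [hh, card_mem]
  have hhpos : 0 < h := by
    rw [hh]
    have : (mem H).Nonempty := ⟨1, mem_mem.2 H.one_mem⟩
    exact_mod_cast this.card_pos
  have hhn : ‖((mem H).card : ℂ)‖ = h := by
    rw [hh]; simp
  have hN0 : 0 ≤ N := le_trans (Nat.cast_nonneg _) hNS
  have hS0 : 0 ≤ ∑ a ∈ S, f a := Finset.sum_nonneg fun a _ => hf a
  have hT0 : 0 ≤ ∑ a ∈ T, f a := Finset.sum_nonneg fun a _ => hf a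
  have hST : (∑ a ∈ S, f a) * (∑ b ∈ T, f b) ≤ N * F := by
    calc (∑ a ∈ S, f a) * (∑ b ∈ T, f b)
        ≤ (Real.sqrt N * Real.sqrt F) * (Real.sqrt N * Real.sqrt F) := by
          have hSsum := sum_le_sqrt S f hFS hNS
          have hTsum := sum_le_sqrt T f hFT hNT
          gcongr
      _ = (Real.sqrt N * Real.sqrt N) * (Real.sqrt F * Real.sqrt F) := by ring
      _ = N * F := by rw [Real.mul_self_sqrt hN0, Real.mul_self_sqrt hF.le]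
  set A := 4 ^ D.card * (V + 2 * Approx.B q / Real.sqrt X) with hA
  have hA0 : 0 ≤ A := by
    have := Approx.B_nonneg (q := q)
    positivity
  set 𝓣S := (S ×ˢ S).filter (fun t => t.1 ≠ t.2) with h𝓣S
  set 𝓣T := (T ×ˢ T).filter (fun t => t.1 ≠ t.2) with h𝓣T
  set 𝓣3 := (IX q D X S T).filter (fun t => t ∉ 𝓜) with h𝓣3
  set r1 := rst H 𝓣S (fun t => f t.1 * f t.2) (fun t => ρ t.1 * (ρ t.2)⁻¹) χ₀ with hr1
  set r2 := rst H 𝓣T (fun t => f t.1 * f t.2) (fun t => ρ t.1 * (ρ t.2)⁻¹) χ₀ with hr2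
  set r3 := rst H 𝓣3 (wt f) (zt u ρ) χ₀ with hr3
  have hwt0 : ∀ t : ℕ × α × α, 0 ≤ wt f t := wt_nonneg hf
  have l1 : ‖r1‖ < F := lt_of_le_of_lt
    (norm_rst_le H 𝓣S _ (fun t _ => mul_nonneg (hf _) (hf _)) _ χ₀) hv1
  have l2 : ‖r2‖ < F := lt_of_le_of_lt
    (norm_rst_le H 𝓣T _ (fun t _ => mul_nonneg (hf _) (hf _)) _ χ₀) hv2
  have l3 : ‖r3‖ < F := lt_of_le_of_lt
    (norm_rst_le H 𝓣3 _ (fun t _ => hwt0 t) _ χ₀) hv3
  have q1 := mean_sq_le H χ₀ S ρ f hFS l1.le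
  have q2 := mean_sq_le H χ₀ T ρ f hFT l2.le
  rw [← hh] at q1 q2
  set W : DirichletCharacter ℂ q → ℂ := fun χ => RS S ρ f χ * (starRingEnd ℂ) (RS T ρ f χ) with hW
  have hWn : ∀ χ, ‖W χ‖ = ‖RS S ρ f χ‖ * ‖RS T ρ f χ‖ := by
    intro χ; rw [hW]; simp only; rw [norm_mul, RCLike.norm_conj]
  have hWNF : ∀ χ, ‖W χ‖ ≤ N * F := by
    intro χ
    rw [hWn]
    refine le_trans ?_ hST
    exact mul_le_mul (norm_RS_le S ρ f hf _) (norm_RS_le T ρ f hf _) (norm_nonneg _) hS0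
  -- the main identity
  have i1 : ∑ ψ ∈ mem H, DP (χ₀ * ψ) D X * W (χ₀ * ψ) =
      ((mem H).card : ℂ) * (((∑ t ∈ 𝓜, wt f t : ℝ) : ℂ) + r3) := by
    have e1 : ∀ ψ ∈ mem H, DP (χ₀ * ψ) D X * W (χ₀ * ψ) =
        ∑ t ∈ IX q D X S T, (wt f t : ℂ) * (χ₀ * ψ) (zt u ρ t : ZMod q) := by
      intro ψ _
      exact product_sum (χ₀ * ψ) D S T ρ f X u hu
    rw [Finset.sum_congr rfl e1, mean_split2 H χ₀ (IX q D X S T) 𝓜 𝓣3 h𝓜
      (fun t => by rw [h𝓣3, Finset.mem_filter]) (wt f) (zt u ρ) h𝓜1]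
  -- bound of the mean of DP_X W
  have hup : ‖∑ ψ ∈ mem H, DP (χ₀ * ψ) D X * W (χ₀ * ψ)‖ ≤ (2 * A + 1) * (h * F) := by
    have hterm : ∀ ψ ∈ mem H, ‖DP (χ₀ * ψ) D X * W (χ₀ * ψ)‖ ≤
        A * ((‖RS S ρ f (χ₀ * ψ)‖ ^ 2 + ‖RS T ρ f (χ₀ * ψ)‖ ^ 2) / 2) +
          (if ψ = χ₀⁻¹ then (2 * Real.sqrt X * N) * F else 0) := by
      intro ψ hψ
      have h4 : 0 ≤ A * ((‖RS S ρ f (χ₀ * ψ)‖ ^ 2 + ‖RS T ρ f (χ₀ * ψ)‖ ^ 2) / 2) := by positivity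
      by_cases h1 : χ₀ * ψ = 1
      · rw [if_pos (eq_inv_of_mul_eq_one_right h1)]
        have h2 : ‖DP (χ₀ * ψ) D X‖ ≤ 2 * Real.sqrt X := by
          rw [h1]; exact norm_DP_one D X
        have h5 : ‖DP (χ₀ * ψ) D X * W (χ₀ * ψ)‖ ≤ 2 * Real.sqrt X * (N * F) := by
          rw [norm_mul]
          exact mul_le_mul h2 (hWNF _) (norm_nonneg _) (by positivity)
        nlinarith
      · have h2 := norm_DP_le' h1 D hD X hX
        have h3 := hL ψ (mem_mem.1 hψ) h1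
        have h4' : ‖DP (χ₀ * ψ) D X‖ ≤ A := by
          refine h2.trans ?_
          rw [hA]
          gcongr
        rw [norm_mul]
        have h6 : ‖DP (χ₀ * ψ) D X‖ * ‖W (χ₀ * ψ)‖ ≤
            A * ((‖RS S ρ f (χ₀ * ψ)‖ ^ 2 + ‖RS T ρ f (χ₀ * ψ)‖ ^ 2) / 2) := by
          apply mul_le_mul h4' _ (norm_nonneg _) hA0
          rw [hWn]
          nlinarith [sq_nonneg (‖RS S ρ f (χ₀ * ψ)‖ - ‖RS T ρ f (χ₀ * ψ)‖)]
        have hne : ψ ≠ χ₀⁻¹ := by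
          intro he
          apply h1
          rw [he, mul_inv_cancel]
        rw [if_neg hne]
        linarith
    calc ‖∑ ψ ∈ mem H, DP (χ₀ * ψ) D X * W (χ₀ * ψ)‖
        ≤ ∑ ψ ∈ mem H, (A * ((‖RS S ρ f (χ₀ * ψ)‖ ^ 2 + ‖RS T ρ f (χ₀ * ψ)‖ ^ 2) / 2) +
          (if ψ = χ₀⁻¹ then (2 * Real.sqrt X * N) * F else 0)) :=
          norm_sum_le_of_le _ hterm
      _ = A * (((∑ ψ ∈ mem H, ‖RS S ρ f (χ₀ * ψ)‖ ^ 2) +
            (∑ ψ ∈ mem H, ‖RS T ρ f (χ₀ * ψ)‖ ^ 2)) / 2) +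
          ∑ ψ ∈ mem H, (if ψ = χ₀⁻¹ then (2 * Real.sqrt X * N) * F else 0) := by
          rw [Finset.sum_add_distrib, ← Finset.mul_sum, ← Finset.sum_div,
            Finset.sum_add_distrib]
      _ ≤ A * (h * (2 * F)) + 1 * (h * F) := by
          apply add_le_add
          · apply mul_le_mul_of_nonneg_left _ hA0
            linarith
          · rw [Finset.sum_ite_eq']
            split_ifs with hmem
            · rw [← hh'] at hH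
              calc (2 * Real.sqrt X * N) * F ≤ h * F := mul_le_mul_of_nonneg_right hH hF.le
                _ = 1 * (h * F) := by ring
            · positivity
      _ = (2 * A + 1) * (h * F) := by ring
  rw [i1, norm_mul, hhn] at hup
  set M0 := ∑ t ∈ 𝓜, wt f t with hM0
  have h8 : ‖((M0 : ℝ) : ℂ) + r3‖ ≤ (2 * A + 1) * F := by
    have h9 : h * ‖((M0 : ℝ) : ℂ) + r3‖ ≤ h * ((2 * A + 1) * F) := by
      calc _ ≤ (2 * A + 1) * (h * F) := hup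
        _ = _ := by ring
    exact le_of_mul_le_mul_left h9 hhpos
  have h10 : M0 ≤ ‖((M0 : ℝ) : ℂ) + r3‖ + ‖r3‖ := by
    calc M0 ≤ ‖((M0 : ℝ) : ℂ)‖ := by
          rw [Complex.norm_real]; exact le_abs_self _
      _ = ‖(((M0 : ℝ) : ℂ) + r3) - r3‖ := by congr 1; ring
      _ ≤ _ := norm_sub_le _ _
  have h11 : (2 * A + 3) * F ≤ E * F := mul_le_mul_of_nonneg_right hEV hF.le
  nlinarith

end Pool.Agent.H.MP_3e6494_nt.A14
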