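import Mathlib
import Pool.Agent.H.MP_3e6494_nt.helper14.Exc2

/-!
Second moments from sums over pairs, and from sums over relations.
-/

open Finset

set_option linter.unusedSectionVars false
set_option linter.unusedVariables false

namespace Pool.Agent.H.MP_3e6494_nt.A14

open Pool.Agent.H.MP_3e6494_nt.Class Pool.Agent.H.MP_3e6494_nt.T3Res
  Pool.Agent.H.MP_3e6494_nt.T6Par

variable {q : ℕ} [hq : Fact q.Prime] {α : Type*}

open scoped Classical in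
/-- a second moment as a sum over pairs -/
lemma second_pairs {τ : Type*} (𝓢 : Finset τ) (w : τ → ℝ) (z : τ → (ZMod q)ˣ)
    (K : Subgroup (ZMod q)ˣ) (R : τ → τ → Prop) {T1 T2 : ℝ}
    (h1 : ∀ 𝒥 : Finset (τ × τ), (∀ p ∈ 𝒥, p.1 ∈ 𝓢 ∧ p.2 ∈ 𝓢 ∧ z p.1 = z p.2 ∧ z p.1 ∈ K ∧
      R p.1 p.2) → ∑ p ∈ 𝒥, w p.1 * w p.2 ≤ T1)
    (h2 : ∀ 𝒥 : Finset (τ × τ), (∀ p ∈ 𝒥, p.1 ∈ 𝓢 ∧ p.2 ∈ 𝓢 ∧ z p.1 = z p.2 ∧ z p.1 ∈ K ∧
      ¬ R p.1 p.2) → ∑ p ∈ 𝒥, w p.1 * w p.2 ≤ T2) :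
    ∑ κ ∈ (Finset.univ : Finset (ZMod q)ˣ).filter (fun κ => κ ∈ K),
      (∑ t ∈ 𝓢.filter (fun t => z t = κ), w t) ^ 2 ≤ T1 + T2 := by
  set 𝒬 : Finset (τ × τ) := (𝓢 ×ˢ 𝓢).filter (fun p => z p.1 = z p.2 ∧ z p.1 ∈ K) with h𝒬
  have e1 : ∑ κ ∈ (Finset.univ : Finset (ZMod q)ˣ).filter (fun κ => κ ∈ K),
      (∑ t ∈ 𝓢.filter (fun t => z t = κ), w t) ^ 2 = ∑ p ∈ 𝒬, w p.1 * w p.2 := by
    have hmaps : ∀ p ∈ 𝒬, z p.1 ∈ (Finset.univ : Finset (ZMod q)ˣ).filter (fun κ => κ ∈ K) := by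
      intro p hp
      rw [h𝒬, Finset.mem_filter] at hp
      rw [Finset.mem_filter]
      exact ⟨Finset.mem_univ _, hp.2.2⟩
    rw [← Finset.sum_fiberwise_of_maps_to hmaps]
    apply Finset.sum_congr rfl
    intro κ hκ
    rw [Finset.mem_filter] at hκ
    rw [sq, Finset.sum_mul_sum, ← Finset.sum_product']
    apply Finset.sum_congr _ (fun _ _ => rfl)
    ext p
    simp only [h𝒬, Finset.mem_filter, Finset.mem_product]
    constructor
    · rintro ⟨⟨a, b⟩, c, d⟩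
      exact ⟨⟨⟨a, c⟩, b.trans d.symm, b ▸ hκ.2⟩, b⟩
    · rintro ⟨⟨⟨a, c⟩, b, d⟩, e⟩
      exact ⟨⟨a, e⟩, c, b.symm.trans e⟩
  rw [e1, ← Finset.sum_filter_add_sum_filter_not 𝒬 (fun p => R p.1 p.2)]
  apply add_le_add
  · apply h1
    intro p hp
    rw [Finset.mem_filter, h𝒬, Finset.mem_filter, Finset.mem_product] at hp
    exact ⟨hp.1.1.1, hp.1.1.2, hp.1.2.1, hp.1.2.2, hp.2⟩
  · apply h2
    intro p hp
    rw [Finset.mem_filter, h𝒬, Finset.mem_filter, Finset.mem_product] at hp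
    exact ⟨hp.1.1.1, hp.1.1.2, hp.1.2.1, hp.1.2.2, hp.2⟩

open scoped Classical in
/-- a second moment bounded by the relations, without the weights of the resonator -/
lemma second_D0 (𝓢 : Finset (ℕ × α × α)) (S1 S2 : Finset α) (ρ : α → (ZMod q)ˣ) (f : α → ℝ)
    (hf : ∀ a, 0 ≤ f a) (u : ℕ → (ZMod q)ˣ)
    (hu : ∀ m : ℕ, m.Coprime q → ((u m : (ZMod q)ˣ) : ZMod q) = (m : ZMod q))
    (K : Subgroup (ZMod q)ˣ) (X : ℕ) {F : ℝ} (hF1 : ∑ a ∈ S1, f a ^ 2 = F)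
    (hF2 : ∑ a ∈ S2, f a ^ 2 = F)
    (h𝓢 : ∀ t ∈ 𝓢, (1 ≤ t.1 ∧ t.1 ≤ X ∧ t.1.Coprime q) ∧ t.2.1 ∈ S1 ∧ t.2.2 ∈ S2) :
    ∑ κ ∈ (Finset.univ : Finset (ZMod q)ˣ).filter (fun κ => κ ∈ K),
      (∑ t ∈ 𝓢.filter (fun t => zt u ρ t = κ), wt f t) ^ 2 ≤
      F ^ 2 * (((X / q + 1 : ℕ) : ℝ) * ∑ t ∈ 𝓢.filter (fun t => zt u ρ t ∈ K), ((t.1 : ℝ)⁻¹)) := by
  set y : (ZMod q)ˣ → α × α → ℝ := fun κ ab =>
    ∑ t ∈ (𝓢.filter (fun t => zt u ρ t = κ)).filter (fun t => t.2 = ab), ((t.1 : ℝ) ^ (-(1 / 2) : ℝ))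
    with hy
  have hone : ∀ κ : (ZMod q)ˣ, (∑ t ∈ 𝓢.filter (fun t => zt u ρ t = κ), wt f t) ^ 2 ≤
      F ^ 2 * (((X / q + 1 : ℕ) : ℝ) * ∑ t ∈ 𝓢.filter (fun t => zt u ρ t = κ), ((t.1 : ℝ)⁻¹)) := by
    intro κ
    have hmaps : ∀ t ∈ 𝓢.filter (fun t => zt u ρ t = κ), t.2 ∈ S1 ×ˢ S2 := by
      intro t ht
      rw [Finset.mem_filter] at ht
      rw [Finset.mem_product]
      exact (h𝓢 t ht.1).2
    have e1 : ∑ t ∈ 𝓢.filter (fun t => zt u ρ t = κ), wt f t =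
        ∑ ab ∈ S1 ×ˢ S2, (f ab.1 * f ab.2) * y κ ab := by
      rw [← Finset.sum_fiberwise_of_maps_to hmaps]
      apply Finset.sum_congr rfl
      intro ab _
      simp only [hy]
      rw [Finset.mul_sum]
      apply Finset.sum_congr rfl
      intro t ht
      rw [Finset.mem_filter] at ht
      unfold wt
      rw [ht.2]
      ring
    have e2 : ∑ ab ∈ S1 ×ˢ S2, (f ab.1 * f ab.2) ^ 2 = F ^ 2 := by
      rw [Finset.sum_product]
      have : ∀ a ∈ S1, ∑ b ∈ S2, (f (a, b).1 * f (a, b).2) ^ 2 = f a ^ 2 * F := by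
        intro a _
        simp only
        rw [← hF2, Finset.mul_sum]
        apply Finset.sum_congr rfl
        intro b _
        ring
      rw [Finset.sum_congr rfl this, ← Finset.sum_mul, hF1, sq]
    rw [e1]
    refine (Finset.sum_mul_sq_le_sq_mul_sq _ _ _).trans ?_
    rw [e2]
    apply mul_le_mul_of_nonneg_left _ (sq_nonneg _)
    have e3 : ∀ ab ∈ S1 ×ˢ S2, y κ ab ^ 2 ≤ ((X / q + 1 : ℕ) : ℝ) *
        ∑ t ∈ (𝓢.filter (fun t => zt u ρ t = κ)).filter (fun t => t.2 = ab), ((t.1 : ℝ)⁻¹) := by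
      intro ab _
      simp only [hy]
      refine (sq_sum_le_card_mul_sum_sq).trans ?_
      have h1 : ((𝓢.filter (fun t => zt u ρ t = κ)).filter (fun t => t.2 = ab)).card ≤ X / q + 1 := by
        refine le_trans ?_
          (T3Cnt.residue_count (((κ * (ρ ab.1 * (ρ ab.2)⁻¹)⁻¹ : (ZMod q)ˣ)) : ZMod q) X)
        apply Finset.card_le_card_of_injOn (fun t => t.1)
        · intro t ht
          rw [Finset.mem_coe, Finset.mem_filter, Finset.mem_filter] at ht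
          obtain ⟨⟨a1, a2⟩, a3⟩ := ht
          obtain ⟨⟨b1, b2, b3⟩, -, -⟩ := h𝓢 t a1
          rw [Finset.mem_coe, Finset.mem_filter, Finset.mem_Icc]
          refine ⟨⟨b1, b2⟩, ?_⟩
          rw [← hu t.1 b3]
          congr 1
          rw [← a2, ← a3]
          unfold zt
          rw [mul_assoc, mul_inv_cancel, mul_one]
        · intro t ht t' ht' h
          rw [Finset.mem_coe, Finset.mem_filter] at ht ht'
          exact Prod.ext h (ht.2.trans ht'.2.symm)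
      have h2 : ∑ t ∈ (𝓢.filter (fun t => zt u ρ t = κ)).filter (fun t => t.2 = ab),
          ((t.1 : ℝ) ^ (-(1 / 2) : ℝ)) ^ 2 =
          ∑ t ∈ (𝓢.filter (fun t => zt u ρ t = κ)).filter (fun t => t.2 = ab), ((t.1 : ℝ)⁻¹) := by
        apply Finset.sum_congr rfl
        intro t _
        rw [← Real.rpow_natCast, ← Real.rpow_mul (Nat.cast_nonneg _)]
        norm_num
        rw [Real.rpow_neg_one]
      rw [h2]
      apply mul_le_mul_of_nonneg_right (by exact_mod_cast h1)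
      exact Finset.sum_nonneg fun t _ => by positivity
    refine (Finset.sum_le_sum e3).trans ?_
    rw [← Finset.mul_sum, Finset.sum_fiberwise_of_maps_to hmaps]
  refine (Finset.sum_le_sum fun κ _ => hone κ).trans ?_
  rw [← Finset.mul_sum, ← Finset.mul_sum]
  apply mul_le_mul_of_nonneg_left _ (sq_nonneg _)
  apply mul_le_mul_of_nonneg_left _ (Nat.cast_nonneg _)
  have hmaps : ∀ t ∈ 𝓢.filter (fun t => zt u ρ t ∈ K),
      zt u ρ t ∈ (Finset.univ : Finset (ZMod q)ˣ).filter (fun κ => κ ∈ K) := by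
    intro t ht
    rw [Finset.mem_filter] at ht
    rw [Finset.mem_filter]
    exact ⟨Finset.mem_univ _, ht.2⟩
  rw [← Finset.sum_fiberwise_of_maps_to hmaps]
  apply Finset.sum_le_sum
  intro κ hκ
  rw [Finset.mem_filter] at hκ
  apply Finset.sum_le_sum_of_subset_of_nonneg
  · intro t ht
    rw [Finset.mem_filter] at ht
    rw [Finset.mem_filter, Finset.mem_filter]
    exact ⟨⟨ht.1, ht.2 ▸ hκ.2⟩, ht.2⟩
  · intro t _ _
    positivity

end Pool.Agent.H.MP_3e6494_nt.A14
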