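import Mathlib
import Pool.Agent.H.MP_3e6494_nt.helper14.Sec
import Pool.Agent.H.MP_3e6494_nt.helper14.EDef
import Pool.Agent.H.MP_3e6494_nt.helper14.One

/-!
The argument for one prime, for resonators with an energy bound.
-/

open Finset Filter

set_option linter.unusedSectionVars false
set_option linter.unusedVariables false

namespace Pool.Agent.H.MP_3e6494_nt.A14

open Pool.Agent.H.MP_3e6494_nt.H14 (ResoE)

open Pool.Agent.H.MP_3e6494_nt.Class Pool.Agent.H.MP_3e6494_nt.T3Cnt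
  Pool.Agent.H.MP_3e6494_nt.T6Par Pool.Agent.H.MP_3e6494_nt.T3Res
open Pool.Agent.H.MP_3e6494_nt.T3Prime (u u_val u_mul u_one)

variable {q : ℕ} [hq : Fact q.Prime]

/-- the numerator of a triple -/
def xt {α : Type*} (nu de : α → ℕ) (t : ℕ × α × α) : ℕ := t.1 * nu t.2.1 * de t.2.2

/-- the denominator of a triple -/
def yt {α : Type*} (nu de : α → ℕ) (t : ℕ × α × α) : ℕ := de t.2.1 * nu t.2.2

/-- the residue of a fraction -/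
noncomputable def rh (q : ℕ) [Fact q.Prime] {α : Type*} (nu de : α → ℕ) (a : α) : (ZMod q)ˣ :=
  u q (nu a) * (u q (de a))⁻¹

/-- the entries of the resonator -/
def inU {r : ℕ} {V G Λ : ℝ} (R : ResoE r V G Λ) (a : R.α) : Prop := a ∈ R.S ∨ a ∈ R.T

/-- an allowed triple -/
def okt {r : ℕ} {V G Λ : ℝ} (q : ℕ) (R : ResoE r V G Λ) (Y : ℕ) (D : Finset ℕ)
    (t : ℕ × R.α × R.α) : Prop :=
  (1 ≤ t.1 ∧ t.1 ≤ Y ∧ t.1.Coprime q) ∧ (inU R t.2.1 ∧ inU R t.2.2) ∧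
    (∀ p ∈ D, ¬ p ∣ xt R.nu R.de t ∧ ¬ p ∣ yt R.nu R.de t) ∧ xt R.nu R.de t ≠ yt R.nu R.de t

open scoped Classical in
/-- the second moments of the terms outside the main term are small -/
def SecE {r : ℕ} {V G Λ : ℝ} (R : ResoE r V G Λ) (K : Subgroup (ZMod q)ˣ) (Y : ℕ) (D : Finset ℕ)
    (v : ℝ) : Prop :=
  ∀ (S1 S2 : Finset R.α) (F : ℝ), (∀ a ∈ S1, inU R a) → (∀ a ∈ S2, inU R a) → 0 < F →
    R.F0 ≤ Λ * F → ∑ a ∈ S1, R.f a ^ 2 = F → ∑ a ∈ S2, R.f a ^ 2 = F →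
    ∀ 𝓢 : Finset (ℕ × R.α × R.α), (∀ t ∈ 𝓢, okt q R Y D t ∧ t.2.1 ∈ S1 ∧ t.2.2 ∈ S2) →
      ∑ κ ∈ (Finset.univ : Finset (ZMod q)ˣ).filter (fun κ => κ ∈ K),
        (∑ t ∈ 𝓢.filter (fun t => zt (u q) (rh q R.nu R.de) t = κ), wt R.f t) ^ 2 ≤ v * F ^ 2

open scoped Classical in
/-- the long part is small -/
def PhiE {r : ℕ} {V G Λ : ℝ} (R : ResoE r V G Λ) (K : Subgroup (ZMod q)ˣ) (X Y : ℕ)
    (D : Finset ℕ) (vL P : ℝ) : Prop :=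
  ∀ (S' T' : Finset R.α) (F : ℝ), S' ⊆ R.S → T' ⊆ R.T → 0 < F →
    R.F0 ≤ Λ * F → ∑ a ∈ S', R.f a ^ 2 = F → ∑ a ∈ T', R.f a ^ 2 = F →
    (∀ a, (a ∈ S' ∨ a ∈ T') → ∀ p ∈ D, ¬ p ∣ R.nu a ∧ ¬ p ∣ R.de a) →
    ∃ Φ : (ZMod q)ˣ → ℝ, (∀ χ : DirichletCharacter ℂ q, χ ≠ 1 → (DP χ D X - DP χ D Y) *
      (RS S' (rh q R.nu R.de) R.f χ * (starRingEnd ℂ) (RS T' (rh q R.nu R.de) R.f χ)) =
        ∑ x : (ZMod q)ˣ, (Φ x : ℂ) * χ (x : ZMod q)) ∧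
      (∑ κ ∈ (Finset.univ : Finset (ZMod q)ˣ).filter (fun κ => κ ∈ K), Φ κ ^ 2 ≤ vL * F ^ 2) ∧
      |∑ x : (ZMod q)ˣ, Φ x| ≤ P * F

lemma copE {r : ℕ} {V G Λ : ℝ} (R : ResoE r V G Λ) (hVq : V ^ 2 < q) {a : R.α} (ha : inU R a) :
    (R.nu a).Coprime q ∧ (R.de a).Coprime q := R.cop a ha q hq.out hVq

/-- the residue of a triple -/
lemma zt_eq {r : ℕ} {V G Λ : ℝ} (R : ResoE r V G Λ) (hVq : V ^ 2 < q) {t : ℕ × R.α × R.α}
    (h1 : t.1.Coprime q) (ha : inU R t.2.1) (hb : inU R t.2.2) :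
    zt (u q) (rh q R.nu R.de) t = u q (xt R.nu R.de t) * (u q (yt R.nu R.de t))⁻¹ := by
  obtain ⟨ca1, ca2⟩ := copE R hVq ha
  obtain ⟨cb1, cb2⟩ := copE R hVq hb
  exact u_frac h1 ca1 ca2 cb1 cb2

lemma xt_cop {r : ℕ} {V G Λ : ℝ} (R : ResoE r V G Λ) (hVq : V ^ 2 < q) {t : ℕ × R.α × R.α}
    (h1 : t.1.Coprime q) (ha : inU R t.2.1) (hb : inU R t.2.2) :
    (xt R.nu R.de t).Coprime q ∧ (yt R.nu R.de t).Coprime q := by
  obtain ⟨ca1, ca2⟩ := copE R hVq ha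
  obtain ⟨cb1, cb2⟩ := copE R hVq hb
  exact ⟨Nat.Coprime.mul_left (Nat.Coprime.mul_left h1 ca1) cb2, Nat.Coprime.mul_left ca2 cb1⟩

/-- no prime of `D` divides the entries -/
lemma not_dvdE {α : Type*} {nu de : α → ℕ} {D : Finset ℕ} (hD : ∀ p ∈ D, p.Prime)
    {t : ℕ × α × α} (h1 : ∀ p ∈ D, ¬ p ∣ t.1) (ha : ∀ p ∈ D, ¬ p ∣ nu t.2.1 ∧ ¬ p ∣ de t.2.1)
    (hb : ∀ p ∈ D, ¬ p ∣ nu t.2.2 ∧ ¬ p ∣ de t.2.2) :
    ∀ p ∈ D, ¬ p ∣ xt nu de t ∧ ¬ p ∣ yt nu de t := by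
  intro p hp
  have hpp := hD p hp
  refine ⟨fun hd => ?_, fun hd => ?_⟩
  · rcases hpp.dvd_mul.1 hd with h | h
    · rcases hpp.dvd_mul.1 h with h' | h'
      · exact h1 p hp h'
      · exact (ha p hp).1 h'
    · exact (hb p hp).2 h
  · rcases hpp.dvd_mul.1 hd with h | h
    · exact (ha p hp).2 h
    · exact (hb p hp).1 h

open scoped Classical in
/-- second moments of the mean squares from second moments of triples -/
lemma sec_pair {r : ℕ} {V G Λ : ℝ} (R : ResoE r V G Λ) (K : Subgroup (ZMod q)ˣ) {Y : ℕ}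
    (hY : 1 ≤ Y) {D : Finset ℕ} (hD : ∀ p ∈ D, p.Prime) {v : ℝ} (hsec : SecE R K Y D v)
    (S' : Finset R.α) {F : ℝ} (hS' : ∀ a ∈ S', inU R a) (hF : 0 < F) (hF0 : R.F0 ≤ Λ * F)
    (hFS : ∑ a ∈ S', R.f a ^ 2 = F)
    (hcop : ∀ a ∈ S', ∀ p ∈ D, ¬ p ∣ R.nu a ∧ ¬ p ∣ R.de a)
    (hinj : ∀ a ∈ S', ∀ b ∈ S', R.nu a * R.de b = R.de a * R.nu b → a = b) :
    ∑ κ ∈ (Finset.univ : Finset (ZMod q)ˣ).filter (fun κ => κ ∈ K),
      (∑ t ∈ ((S' ×ˢ S').filter (fun t => t.1 ≠ t.2)).filter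
        (fun t => rh q R.nu R.de t.1 * (rh q R.nu R.de t.2)⁻¹ = κ), R.f t.1 * R.f t.2) ^ 2
      ≤ v * F ^ 2 := by
  set e : R.α × R.α ↪ ℕ × R.α × R.α := ⟨fun t => (1, t), fun s t h => (Prod.ext_iff.1 h).2⟩ with he
  set A : Finset (R.α × R.α) := (S' ×ˢ S').filter (fun t => t.1 ≠ t.2) with hA
  have h1 := hsec S' S' F hS' hS' hF hF0 hFS hFS (A.map e) (by
    intro t ht
    rw [Finset.mem_map] at ht
    obtain ⟨⟨a, b⟩, hab, rfl⟩ := ht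
    rw [hA, Finset.mem_filter, Finset.mem_product] at hab
    obtain ⟨⟨ha, hb⟩, hne⟩ := hab
    simp only at ha hb hne
    refine ⟨⟨⟨le_rfl, hY, Nat.coprime_one_left q⟩, ⟨hS' a ha, hS' b hb⟩, ?_, ?_⟩, ha, hb⟩
    · exact not_dvdE hD (fun p hp hd => (hD p hp).one_lt.ne' (Nat.dvd_one.1 hd))
        (hcop a ha) (hcop b hb)
    · intro h
      apply hne
      apply hinj a ha b hb
      have h' : 1 * R.nu a * R.de b = R.de a * R.nu b := h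
      rw [one_mul] at h'
      exact h')
  refine le_trans (le_of_eq ?_) h1
  apply Finset.sum_congr rfl
  intro κ _
  congr 1
  rw [Finset.filter_map, Finset.sum_map]
  apply Finset.sum_congr
  · ext t
    simp only [Finset.mem_filter, Function.comp, he, Function.Embedding.coeFn_mk]
    unfold zt
    simp only [u_one, one_mul]
  · intro t _
    simp only [he, Function.Embedding.coeFn_mk]
    unfold wt
    simp

open scoped Classical in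
/-- **one prime** -/
theorem one_E {r : ℕ} {V G Λ : ℝ} (R : ResoE r V G Λ) (hVq : V ^ 2 < q)
    (H : Subgroup (DirichletCharacter ℂ q)) (X Y : ℕ) (hX1 : 1 ≤ X) (hVY : Real.exp (2 * V) ≤ Y)
    (hBX : 2 * Approx.B q / Real.sqrt X ≤ 2)
    (D : Finset ℕ) (hDp : ∀ p ∈ D, p.Prime) (hDr : D.card ≤ r) {v vL P : ℝ} (hP : 0 ≤ P)
    (hsec : SecE R (K H) Y D v) (hΦ : PhiE R (K H) X Y D vL P)
    {VL : ℝ} (hV0 : 0 ≤ VL) (hG : 2 * (4 ^ r * (VL + 2)) + 3 ≤ Real.exp G) :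
    ({χ₀ : DirichletCharacter ℂ q | ∀ ψ ∈ H, χ₀ * ψ ≠ 1 →
        ‖(χ₀ * ψ).LFunction (1 / 2)‖ ≤ VL}.ncard : ℝ) ≤
      q * (3 * v + vL) + (2 * Real.sqrt Y * Real.exp V + P) := by
  set N := Real.exp V with hN
  have hN0 : 0 ≤ N := (Real.exp_pos _).le
  have hY1 : 1 ≤ Y := by
    have h1 : (0 : ℝ) < Y := lt_of_lt_of_le (Real.exp_pos _) hVY
    exact_mod_cast h1
  obtain ⟨S', T', F, 𝒵, hSS, hTT, hF, hF0, hcopD, hFS, hFT, h𝒵, hE⟩ := R.sub D hDp hDr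
  set ρ : R.α → (ZMod q)ˣ := rh q R.nu R.de with hρ
  have hSU : ∀ a ∈ S', inU R a := fun a ha => Or.inl (hSS ha)
  have hTU : ∀ a ∈ T', inU R a := fun a ha => Or.inr (hTT ha)
  obtain ⟨Φ, hΦ0, hΦ2, hΦ1⟩ := hΦ S' T' F hSS hTT hF hF0 hFS hFT hcopD
  have hNS : (S'.card : ℝ) ≤ N := by
    refine le_trans ?_ R.cardS
    exact_mod_cast Finset.card_le_card hSS
  have hNT : (T'.card : ℝ) ≤ N := by
    refine le_trans ?_ R.cardT
    exact_mod_cast Finset.card_le_card hTT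
  have hv1 := sec_pair R (K H) hY1 hDp hsec S' hSU hF hF0 hFS (fun a ha => hcopD a (Or.inl ha))
    (fun a ha b hb => R.injS a (hSS ha) b (hSS hb))
  have hv2 := sec_pair R (K H) hY1 hDp hsec T' hTU hF hF0 hFT (fun a ha => hcopD a (Or.inr ha))
    (fun a ha b hb => R.injT a (hTT ha) b (hTT hb))
  set 𝓜 : Finset (ℕ × R.α × R.α) :=
    (IX q D Y S' T').filter (fun t => xt R.nu R.de t = yt R.nu R.de t) with h𝓜
  have hIX : ∀ t ∈ IX q D Y S' T', ((1 ≤ t.1 ∧ t.1 ≤ Y) ∧ t.1.Coprime q ∧ ∀ p ∈ D, ¬ p ∣ t.1) ∧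
      t.2.1 ∈ S' ∧ t.2.2 ∈ T' := by
    intro t ht
    rw [IX, Finset.mem_product, Finset.mem_product, mem_NN] at ht
    exact ht
  have hv3 : ∑ κ ∈ (Finset.univ : Finset (ZMod q)ˣ).filter (fun κ => κ ∈ K H),
      (∑ t ∈ ((IX q D Y S' T').filter (fun t => t ∉ 𝓜)).filter
        (fun t => zt (u q) ρ t = κ), wt R.f t) ^ 2 ≤ v * F ^ 2 := by
    apply hsec S' T' F hSU hTU hF hF0 hFS hFT
    intro t ht
    rw [Finset.mem_filter] at ht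
    obtain ⟨ht, hn⟩ := ht
    obtain ⟨⟨⟨a1, a2⟩, a3, a4⟩, a5, a6⟩ := hIX t ht
    refine ⟨⟨⟨a1, a2, a3⟩, ⟨hSU _ a5, hTU _ a6⟩, ?_, ?_⟩, a5, a6⟩
    · exact not_dvdE hDp a4 (hcopD _ (Or.inl a5)) (hcopD _ (Or.inr a6))
    · intro h
      apply hn
      rw [h𝓜, Finset.mem_filter]
      exact ⟨ht, h⟩
  have h𝓜1 : ∀ t ∈ 𝓜, zt (u q) ρ t = 1 := by
    intro t ht
    rw [h𝓜, Finset.mem_filter] at ht
    obtain ⟨ht, h⟩ := ht
    obtain ⟨⟨⟨a1, a2⟩, a3, a4⟩, a5, a6⟩ := hIX t ht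
    rw [hρ, zt_eq R hVq a3 (hSU _ a5) (hTU _ a6), h, mul_inv_cancel]
  have hE' : Real.exp G * F ≤ ∑ t ∈ 𝓜, wt R.f t := by
    refine hE.trans ?_
    have hsub : 𝒵 ⊆ 𝓜 := by
      intro z hz
      obtain ⟨z1, z2, z3, z4, z5, z6⟩ := h𝒵 z hz
      obtain ⟨ca1, ca2⟩ := copE R hVq (hSU _ z3)
      obtain ⟨cb1, cb2⟩ := copE R hVq (hTU _ z4)
      have hc : z.1.Coprime q := by
        have h1 : (R.de z.2.1 * R.nu z.2.2).Coprime q := Nat.Coprime.mul_left ca2 cb1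
        apply Nat.Coprime.coprime_dvd_left _ h1
        rw [← z5, mul_assoc]
        exact dvd_mul_right _ _
      rw [h𝓜, Finset.mem_filter, IX, Finset.mem_product, Finset.mem_product, mem_NN]
      refine ⟨⟨⟨⟨z1, ?_⟩, hc, z6⟩, z3, z4⟩, z5⟩
      have h1 : (z.1 : ℝ) ≤ Y := z2.trans hVY
      exact_mod_cast h1
    exact Finset.sum_le_sum_of_subset_of_nonneg hsub (fun t _ _ => wt_nonneg R.f_nonneg t)
  have hEV : 2 * (4 ^ D.card * (VL + 2 * Approx.B q / Real.sqrt X)) + 3 ≤ Real.exp G := by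
    refine le_trans ?_ hG
    have h2 := Approx.B_nonneg (q := q)
    have h3 : (4 : ℝ) ^ D.card ≤ 4 ^ r := pow_le_pow_right₀ (by norm_num) hDr
    have h4 : 0 ≤ VL + 2 * Approx.B q / Real.sqrt X := by positivity
    have h5 : (4 : ℝ) ^ D.card * (VL + 2 * Approx.B q / Real.sqrt X) ≤ 4 ^ r * (VL + 2) := by
      apply mul_le_mul h3 _ h4 (by positivity)
      linarith
    linarith
  -- the exceptional characters
  set 𝒮 : Set (DirichletCharacter ℂ q) := {χ₀ : DirichletCharacter ℂ q | ∀ ψ ∈ H, χ₀ * ψ ≠ 1 →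
        ‖(χ₀ * ψ).LFunction (1 / 2)‖ ≤ VL} with h𝒮
  have hfin : 𝒮.Finite := Set.Finite.subset (XX q).finite_toSet (fun χ _ => mem_XX χ)
  rw [Set.ncard_eq_toFinset_card 𝒮 hfin]
  have hmain := fun (𝓑 : Finset (DirichletCharacter ℂ q)) h𝓑 =>
    coset_exc2 H D hDp S' T' ρ R.f R.f_nonneg (u q) (fun m hm => u_val hm) hF hFS hFT hNS hNT
      X Y hX1 𝓜 (Finset.filter_subset _ _) h𝓜1 hv1 hv2 hv3 Φ hΦ0 hΦ2 hΦ1 hE' hV0 hEV 𝓑 h𝓑
  have hXX : 0 ≤ 2 * Real.sqrt Y * N + P := by positivity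
  rcases le_or_gt (2 * Real.sqrt Y * N + P) (Nat.card H : ℝ) with hc | hc
  · have h1 := hmain hfin.toFinset (by
      intro χ₀ hχ₀
      rw [Set.Finite.mem_toFinset] at hχ₀
      exact ⟨hχ₀, Or.inr hc⟩)
    linarith
  · have h1 := hmain (hfin.toFinset.filter (fun χ₀ => χ₀ ∉ H)) (by
      intro χ₀ hχ₀
      rw [Finset.mem_filter, Set.Finite.mem_toFinset] at hχ₀
      exact ⟨hχ₀.1, Or.inl hχ₀.2⟩)
    have h2 : hfin.toFinset.card ≤ (hfin.toFinset.filter (fun χ₀ => χ₀ ∉ H)).card + (mem H).card := by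
      have h3 := Finset.card_filter_add_card_filter_not (s := hfin.toFinset) (fun χ₀ => χ₀ ∉ H)
      have h4 : (hfin.toFinset.filter (fun χ₀ => ¬ χ₀ ∉ H)).card ≤ (mem H).card := by
        apply Finset.card_le_card
        intro χ₀ hχ₀
        rw [Finset.mem_filter, not_not] at hχ₀
        exact mem_mem.2 hχ₀.2
      omega
    have h5 : ((mem H).card : ℝ) ≤ 2 * Real.sqrt Y * N + P := by
      rw [card_mem]; exact hc.le
    have h6 : (hfin.toFinset.card : ℝ) ≤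
        ((hfin.toFinset.filter (fun χ₀ => χ₀ ∉ H)).card : ℝ) + ((mem H).card : ℝ) := by
      exact_mod_cast h2
    linarith

end Pool.Agent.H.MP_3e6494_nt.A14
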