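import Mathlib
import Pool.Agent.H.MP_3e6494_nt.helper14.One2
import Pool.Agent.H.MP_3e6494_nt.helper14.Lev14
import Pool.Agent.H.MP_3e6494_nt.h26t.FamW
import Pool.Agent.H.MP_3e6494_nt.h26t.Diag

/-!
One dyadic level, for resonators with an energy bound.
-/

open Finset Filter

set_option linter.unusedSectionVars false
set_option linter.unusedVariables false

namespace Pool.Agent.H.MP_3e6494_nt.A14

open Pool.Agent.H.MP_3e6494_nt.H14 (ResoE gw)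

open Pool.Agent.H.MP_3e6494_nt.Class Pool.Agent.H.MP_3e6494_nt.T3Cnt
  Pool.Agent.H.MP_3e6494_nt.T6Par Pool.Agent.H.MP_3e6494_nt.T3Res
  Pool.Agent.H.MP_3e6494_nt.T3Exc
open Pool.Agent.H.MP_3e6494_nt.T3Prime (u u_val u_mul u_one)

section

variable {r : ℕ} {V G Λ : ℝ} (R : ResoE r V G Λ)

open scoped Classical in
/-- the entries of the resonator -/
noncomputable def UU : Finset R.α := R.S ∪ R.T

lemma mem_UU {a : R.α} : a ∈ UU R ↔ inU R a := by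
  classical
  unfold UU inU
  simp only [Finset.mem_union]

/-- the triples -/
noncomputable def tri (Y : ℕ) : Finset (ℕ × R.α × R.α) := (Finset.Icc 1 Y) ×ˢ (UU R ×ˢ UU R)

lemma mem_tri {Y : ℕ} {t : ℕ × R.α × R.α} :
    t ∈ tri R Y ↔ (1 ≤ t.1 ∧ t.1 ≤ Y) ∧ inU R t.2.1 ∧ inU R t.2.2 := by
  unfold tri
  rw [Finset.mem_product, Finset.mem_product, Finset.mem_Icc, mem_UU, mem_UU]

lemma card_UU : ((UU R).card : ℝ) ≤ 2 * Real.exp V := by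
  classical
  have h1 : (UU R).card ≤ R.S.card + R.T.card := by
    unfold UU
    exact Finset.card_union_le _ _
  have h2 : ((UU R).card : ℝ) ≤ R.S.card + R.T.card := by exact_mod_cast h1
  linarith [R.cardS, R.cardT]

lemma sum_UU_le (h : R.α → ℝ) (hh : ∀ a, 0 ≤ h a) :
    ∑ a ∈ UU R, h a ≤ ∑ a ∈ R.S, h a + ∑ a ∈ R.T, h a := by
  classical
  have h1 := Finset.sum_union_inter (s₁ := R.S) (s₂ := R.T) (f := h)
  have h2 : 0 ≤ ∑ a ∈ R.S ∩ R.T, h a := Finset.sum_nonneg fun a _ => hh a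
  have e : ∑ a ∈ UU R, h a = ∑ a ∈ R.S ∪ R.T, h a := by
    apply Finset.sum_congr _ (fun _ _ => rfl)
    ext a
    rw [mem_UU, Finset.mem_union]
    rfl
  linarith

lemma sum_UU_sq : (∑ a ∈ UU R, R.f a) ^ 2 ≤ 4 * Real.exp V * R.F0 := by
  have h0 := sum_UU_le R R.f R.f_nonneg
  have hU0 : 0 ≤ ∑ a ∈ UU R, R.f a := Finset.sum_nonneg fun a _ => R.f_nonneg a
  have hF0 := R.F0_pos
  have hone : ∀ A : Finset R.α, (A.card : ℝ) ≤ Real.exp V → ∑ a ∈ A, R.f a ^ 2 ≤ R.F0 →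
      (∑ a ∈ A, R.f a) ^ 2 ≤ Real.exp V * R.F0 := by
    intro A h1 h2
    refine (sq_sum_le_card_mul_sum_sq).trans ?_
    exact mul_le_mul h1 h2 (Finset.sum_nonneg fun _ _ => sq_nonneg _) (Real.exp_pos _).le
  have h1 := hone R.S R.cardS R.sumS
  have h2 := hone R.T R.cardT R.sumT
  set x := ∑ a ∈ R.S, R.f a
  set y := ∑ a ∈ R.T, R.f a
  have h3 : (∑ a ∈ UU R, R.f a) ^ 2 ≤ (x + y) ^ 2 := pow_le_pow_left₀ hU0 h0 2
  nlinarith [sq_nonneg (x - y)]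

/-- the energy over all entries -/
lemma energy_UU : ∑ a ∈ UU R, ∑ b ∈ UU R, ∑ a' ∈ UU R, ∑ b' ∈ UU R,
    (R.f a * R.f b * R.f a' * R.f b') * gw R.nu R.de a b a' b' ≤ 16 * (Λ * R.F0 ^ 2) := by
  set g : R.α → R.α → R.α → R.α → ℝ := fun a b a' b' =>
    (R.f a * R.f b * R.f a' * R.f b') * gw R.nu R.de a b a' b' with hg
  have hg0 : ∀ a b a' b', 0 ≤ g a b a' b' := by
    intro a b a' b'
    have := R.f_nonneg
    have h1 : 0 ≤ gw R.nu R.de a b a' b' := by unfold gw; positivity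
    exact mul_nonneg (mul_nonneg (mul_nonneg (mul_nonneg (this a) (this b)) (this a')) (this b')) h1
  have hs : ∀ A : Finset R.α, ∀ h : R.α → ℝ, (∀ a, 0 ≤ h a) → 0 ≤ ∑ a ∈ A, h a :=
    fun A h hh => Finset.sum_nonneg fun a _ => hh a
  have l4 : ∀ A B A' : Finset R.α, (A = R.S ∨ A = R.T) → (B = R.S ∨ B = R.T) →
      (A' = R.S ∨ A' = R.T) →
      ∑ a ∈ A, ∑ b ∈ B, ∑ a' ∈ A', ∑ b' ∈ UU R, g a b a' b' ≤ 2 * (Λ * R.F0 ^ 2) := by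
    intro A B A' hA hB hA'
    have e1 := R.energy A B A' R.S hA hB hA' (Or.inl rfl)
    have e2 := R.energy A B A' R.T hA hB hA' (Or.inr rfl)
    have h1 : ∑ a ∈ A, ∑ b ∈ B, ∑ a' ∈ A', ∑ b' ∈ UU R, g a b a' b' ≤
        ∑ a ∈ A, ∑ b ∈ B, ∑ a' ∈ A', (∑ b' ∈ R.S, g a b a' b' + ∑ b' ∈ R.T, g a b a' b') := by
      apply Finset.sum_le_sum; intro a _
      apply Finset.sum_le_sum; intro b _
      apply Finset.sum_le_sum; intro a' _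
      exact sum_UU_le R _ (fun b' => hg0 a b a' b')
    simp only [Finset.sum_add_distrib] at h1
    linarith
  have l3 : ∀ A B : Finset R.α, (A = R.S ∨ A = R.T) → (B = R.S ∨ B = R.T) →
      ∑ a ∈ A, ∑ b ∈ B, ∑ a' ∈ UU R, ∑ b' ∈ UU R, g a b a' b' ≤ 4 * (Λ * R.F0 ^ 2) := by
    intro A B hA hB
    have e1 := l4 A B R.S hA hB (Or.inl rfl)
    have e2 := l4 A B R.T hA hB (Or.inr rfl)
    have h1 : ∑ a ∈ A, ∑ b ∈ B, ∑ a' ∈ UU R, ∑ b' ∈ UU R, g a b a' b' ≤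
        ∑ a ∈ A, ∑ b ∈ B, (∑ a' ∈ R.S, ∑ b' ∈ UU R, g a b a' b' +
          ∑ a' ∈ R.T, ∑ b' ∈ UU R, g a b a' b') := by
      apply Finset.sum_le_sum; intro a _
      apply Finset.sum_le_sum; intro b _
      exact sum_UU_le R _ (fun a' => hs _ _ (fun b' => hg0 a b a' b'))
    simp only [Finset.sum_add_distrib] at h1
    linarith
  have l2 : ∀ A : Finset R.α, (A = R.S ∨ A = R.T) →
      ∑ a ∈ A, ∑ b ∈ UU R, ∑ a' ∈ UU R, ∑ b' ∈ UU R, g a b a' b' ≤ 8 * (Λ * R.F0 ^ 2) := by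
    intro A hA
    have e1 := l3 A R.S hA (Or.inl rfl)
    have e2 := l3 A R.T hA (Or.inr rfl)
    have h1 : ∑ a ∈ A, ∑ b ∈ UU R, ∑ a' ∈ UU R, ∑ b' ∈ UU R, g a b a' b' ≤
        ∑ a ∈ A, (∑ b ∈ R.S, ∑ a' ∈ UU R, ∑ b' ∈ UU R, g a b a' b' +
          ∑ b ∈ R.T, ∑ a' ∈ UU R, ∑ b' ∈ UU R, g a b a' b') := by
      apply Finset.sum_le_sum; intro a _
      exact sum_UU_le R _ (fun b => hs _ _ (fun a' => hs _ _ (fun b' => hg0 a b a' b')))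
    simp only [Finset.sum_add_distrib] at h1
    linarith
  have e1 := l2 R.S (Or.inl rfl)
  have e2 := l2 R.T (Or.inr rfl)
  have h1 := sum_UU_le R (fun a => ∑ b ∈ UU R, ∑ a' ∈ UU R, ∑ b' ∈ UU R, g a b a' b')
    (fun a => hs _ _ (fun b => hs _ _ (fun a' => hs _ _ (fun b' => hg0 a b a' b'))))
  linarith

/-- pairs of triples with the same fraction -/
lemma diag_UU (M : ℕ) (c : ℕ → ℝ) (hc0 : ∀ m, 0 ≤ c m)
    (hc : ∀ m n, 1 ≤ m → m ≤ n → c n ≤ c m)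
    (𝒥 : Finset ((ℕ × R.α × R.α) × (ℕ × R.α × R.α)))
    (h𝒥 : ∀ z ∈ 𝒥, z.1 ∈ tri R M ∧ z.2 ∈ tri R M ∧
      xt R.nu R.de z.1 * yt R.nu R.de z.2 = xt R.nu R.de z.2 * yt R.nu R.de z.1) :
    ∑ z ∈ 𝒥, (c z.1.1 * (R.f z.1.2.1 * R.f z.1.2.2)) * (c z.2.1 * (R.f z.2.2.1 * R.f z.2.2.2)) ≤
      16 * (Λ * R.F0 ^ 2) * ∑ m ∈ Finset.Icc 1 M, c m ^ 2 := by
  classical
  apply h26t.diag_sum (UU R) R.nu R.de R.f R.f_nonneg
    (fun a ha => R.pos a ((mem_UU R).1 ha)) M c hc0 hc (16 * (Λ * R.F0 ^ 2)) (energy_UU R) 𝒥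
  intro z hz
  obtain ⟨h1, h2, h3⟩ := h𝒥 z hz
  rw [mem_tri] at h1 h2
  exact ⟨⟨Finset.mem_Icc.2 h1.1, Finset.mem_Icc.2 h2.1⟩,
    ⟨(mem_UU R).2 h1.2.1, (mem_UU R).2 h1.2.2, (mem_UU R).2 h2.2.1, (mem_UU R).2 h2.2.2⟩, h3⟩

lemma sum_tri (Y : ℕ) (c : ℕ → ℝ) :
    ∑ t ∈ tri R Y, c t.1 * (R.f t.2.1 * R.f t.2.2) =
      (∑ n ∈ Finset.Icc 1 Y, c n) * (∑ a ∈ UU R, R.f a) ^ 2 := by
  unfold tri
  rw [Finset.sum_product, Finset.sum_mul]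
  apply Finset.sum_congr rfl
  intro n _
  rw [sq, Finset.sum_mul_sum, Finset.mul_sum, Finset.sum_product]
  apply Finset.sum_congr rfl
  intro a _
  rw [Finset.mul_sum]

end

/-- the harmonic sum -/
lemma harm_le (Y : ℕ) : ∑ n ∈ Finset.Icc 1 Y, ((n : ℝ)⁻¹) ≤ 1 + Real.log Y := by
  have h5 := harmonic_le_one_add_log Y
  have h6 : ((harmonic Y : ℚ) : ℝ) = ∑ i ∈ Finset.Icc 1 Y, ((i : ℝ)⁻¹) := by
    rw [harmonic_eq_sum_Icc]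
    push_cast
    rfl
  rw [h6] at h5
  exact h5

lemma sq_rpow_half (n : ℕ) : ((n : ℝ) ^ (-(1 / 2) : ℝ)) ^ 2 = ((n : ℝ)⁻¹) := by
  rw [← Real.rpow_natCast, ← Real.rpow_mul (Nat.cast_nonneg _)]
  norm_num
  rw [Real.rpow_neg_one]

lemma sum_half_le (Y : ℕ) : ∑ n ∈ Finset.Icc 1 Y, ((n : ℝ) ^ (-(1 / 2) : ℝ)) ≤ 2 * Real.sqrt Y := by
  induction Y with
  | zero => simp
  | succ X ih =>
    rw [Finset.sum_Icc_succ_top (by omega)]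
    have h2 : (((X + 1 : ℕ) : ℝ)) ^ (-(1 / 2) : ℝ) = 1 / Real.sqrt ((X + 1 : ℕ) : ℝ) := by
      rw [Real.rpow_neg (by positivity), ← Real.sqrt_eq_rpow, one_div]
    rw [h2]
    have hs0 : 0 ≤ Real.sqrt X := Real.sqrt_nonneg _
    have hs1 : 0 < Real.sqrt ((X + 1 : ℕ) : ℝ) := Real.sqrt_pos.2 (by positivity)
    have e0 : Real.sqrt X * Real.sqrt X = X := Real.mul_self_sqrt (Nat.cast_nonneg _)
    have e1 : Real.sqrt ((X + 1 : ℕ) : ℝ) * Real.sqrt ((X + 1 : ℕ) : ℝ) = X + 1 := by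
      rw [Real.mul_self_sqrt (by positivity)]; push_cast; ring
    have hle : Real.sqrt X ≤ Real.sqrt ((X + 1 : ℕ) : ℝ) :=
      Real.sqrt_le_sqrt (by push_cast; linarith)
    have h3 : 1 / Real.sqrt ((X + 1 : ℕ) : ℝ) ≤
        2 * (Real.sqrt ((X + 1 : ℕ) : ℝ) - Real.sqrt X) := by
      rw [div_le_iff₀ hs1]
      nlinarith
    linarith

/-- the size of the entries -/
lemma entries {r : ℕ} {ν ε : ℝ} {k : ℕ} {G Λ : ℝ} (hε : 0 < ε) (hεν : 32 * ε ≤ ν) (hν : ν ≤ 1)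
    (hk : 1 ≤ k) (R : ResoE r (Vk ν ε k) G Λ) {Y : ℕ} (hY : Y ≤ 2 ^ (3 * k)) :
    ∀ t ∈ tri R Y, (xt R.nu R.de t ≠ 0 ∧ yt R.nu R.de t ≠ 0) ∧
      xt R.nu R.de t ≤ 2 ^ (7 * k ^ 2) ∧ yt R.nu R.de t ≤ 2 ^ (7 * k ^ 2) := by
  intro t ht
  rw [mem_tri] at ht
  obtain ⟨⟨m1, m2⟩, ha, hb⟩ := ht
  obtain ⟨pa1, pa2⟩ := R.pos _ ha
  obtain ⟨pb1, pb2⟩ := R.pos _ hb
  obtain ⟨sa1, sa2⟩ := R.size _ ha
  obtain ⟨sb1, sb2⟩ := R.size _ hb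
  have hV0 := Vk_nonneg (k := k) hε hεν
  have hVle := Vk_le (k := k) hε hεν hν
  have hM : ⌊(Vk ν ε k) ^ 2⌋₊ ≤ k ^ 2 := by
    apply Nat.floor_le_of_le
    push_cast
    exact pow_le_pow_left₀ hV0 hVle 2
  have h4 : (4 : ℕ) ^ ⌊(Vk ν ε k) ^ 2⌋₊ ≤ 4 ^ (k ^ 2) := Nat.pow_le_pow_right (by norm_num) hM
  have e4 : (4 : ℕ) ^ (k ^ 2) * 4 ^ (k ^ 2) = 2 ^ (4 * k ^ 2) := by
    rw [show (4 : ℕ) = 2 ^ 2 by norm_num, ← pow_mul, ← pow_add]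
    congr 1; ring
  have hprod : ∀ x y : ℕ, x ≤ 4 ^ ⌊(Vk ν ε k) ^ 2⌋₊ → y ≤ 4 ^ ⌊(Vk ν ε k) ^ 2⌋₊ →
      x * y ≤ 2 ^ (4 * k ^ 2) := by
    intro x y hx hy
    rw [← e4]
    exact Nat.mul_le_mul (hx.trans h4) (hy.trans h4)
  unfold xt yt
  refine ⟨⟨?_, ?_⟩, ?_, ?_⟩
  · have : 0 < t.1 * R.nu t.2.1 * R.de t.2.2 := Nat.mul_pos (Nat.mul_pos m1 pa1) pb2
    exact this.ne'
  · exact (Nat.mul_pos pa2 pb1).ne'
  · calc t.1 * R.nu t.2.1 * R.de t.2.2 = t.1 * (R.nu t.2.1 * R.de t.2.2) := mul_assoc _ _ _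
      _ ≤ 2 ^ (3 * k) * 2 ^ (4 * k ^ 2) := Nat.mul_le_mul (m2.trans hY) (hprod _ _ sa1 sb2)
      _ = 2 ^ (3 * k + 4 * k ^ 2) := (pow_add _ _ _).symm
      _ ≤ 2 ^ (7 * k ^ 2) := by
          apply Nat.pow_le_pow_right (by norm_num)
          nlinarith
  · refine (hprod _ _ sa2 sb1).trans ?_
    apply Nat.pow_le_pow_right (by norm_num)
    nlinarith

/-- second moments from the relations and the collisions -/
theorem secE_of {q : ℕ} [hq : Fact q.Prime] {r : ℕ} {V G Λ : ℝ} (R : ResoE r V G Λ)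
    (hΛ : 0 ≤ Λ) (hVq : V ^ 2 < q) (K : Subgroup (ZMod q)ˣ) (Y : ℕ) (D : Finset ℕ) {t1 t2 : ℝ}
    (ht1 : 0 ≤ t1) (ht2 : 0 ≤ t2)
    (hA : ∀ 𝒥 : Finset ((ℕ × R.α × R.α) × (ℕ × R.α × R.α)), (∀ z ∈ 𝒥,
      (okt q R Y D z.1 ∧ okt q R Y D z.2) ∧
      xt R.nu R.de z.1 * yt R.nu R.de z.2 = xt R.nu R.de z.2 * yt R.nu R.de z.1 ∧
      u q (xt R.nu R.de z.1) * (u q (yt R.nu R.de z.1))⁻¹ ∈ K) →
      ∑ z ∈ 𝒥, wt R.f z.1 * wt R.f z.2 ≤ t1 * R.F0 ^ 2)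
    (hB : ∀ 𝒥 : Finset ((ℕ × R.α × R.α) × (ℕ × R.α × R.α)), (∀ z ∈ 𝒥,
      (okt q R Y D z.1 ∧ okt q R Y D z.2) ∧
      xt R.nu R.de z.1 * yt R.nu R.de z.2 ≠ xt R.nu R.de z.2 * yt R.nu R.de z.1 ∧
      ((xt R.nu R.de z.1 * yt R.nu R.de z.2 : ℕ) : ZMod q) =
        ((xt R.nu R.de z.2 * yt R.nu R.de z.1 : ℕ) : ZMod q)) →
      ∑ z ∈ 𝒥, wt R.f z.1 * wt R.f z.2 ≤ t2 * R.F0 ^ 2) :
    SecE R K Y D ((t1 + t2) * Λ ^ 2) := by
  classical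
  intro S1 S2 F hS1 hS2 hF hF0 hF1 hF2 𝓢 h𝓢
  have h1 := second_pairs 𝓢 (wt R.f) (zt (u q) (rh q R.nu R.de)) K
    (fun s t => xt R.nu R.de s * yt R.nu R.de t = xt R.nu R.de t * yt R.nu R.de s)
    (T1 := t1 * R.F0 ^ 2) (T2 := t2 * R.F0 ^ 2)
    (by
      intro 𝒥 h𝒥
      apply hA
      intro z hz
      obtain ⟨a1, a2, a3, a4, a5⟩ := h𝒥 z hz
      obtain ⟨b1, -, -⟩ := h𝓢 _ a1
      obtain ⟨b2, -, -⟩ := h𝓢 _ a2
      refine ⟨⟨b1, b2⟩, a5, ?_⟩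
      rw [zt_eq R hVq b1.1.2.2 b1.2.1.1 b1.2.1.2] at a4
      exact a4)
    (by
      intro 𝒥 h𝒥
      apply hB
      intro z hz
      obtain ⟨a1, a2, a3, a4, a5⟩ := h𝒥 z hz
      obtain ⟨b1, -, -⟩ := h𝓢 _ a1
      obtain ⟨b2, -, -⟩ := h𝓢 _ a2
      refine ⟨⟨b1, b2⟩, a5, ?_⟩
      rw [zt_eq R hVq b1.1.2.2 b1.2.1.1 b1.2.1.2, zt_eq R hVq b2.1.2.2 b2.2.1.1 b2.2.1.2] at a3
      obtain ⟨c1, c2⟩ := xt_cop R hVq b1.1.2.2 b1.2.1.1 b1.2.1.2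
      obtain ⟨c3, c4⟩ := xt_cop R hVq b2.1.2.2 b2.2.1.1 b2.2.1.2
      have e1 : u q (xt R.nu R.de z.1) * u q (yt R.nu R.de z.2) =
          u q (xt R.nu R.de z.2) * u q (yt R.nu R.de z.1) := by
        rw [mul_inv_eq_iff_eq_mul] at a3
        rw [a3]
        calc u q (xt R.nu R.de z.2) * (u q (yt R.nu R.de z.2))⁻¹ * u q (yt R.nu R.de z.1) *
              u q (yt R.nu R.de z.2)
            = u q (xt R.nu R.de z.2) * u q (yt R.nu R.de z.1) *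
              ((u q (yt R.nu R.de z.2))⁻¹ * u q (yt R.nu R.de z.2)) := by
              simp only [mul_comm, mul_left_comm, mul_assoc]
          _ = _ := by rw [inv_mul_cancel, mul_one]
      rw [← u_mul c1 c4, ← u_mul c3 c2] at e1
      rw [← u_val (Nat.Coprime.mul_left c1 c4), ← u_val (Nat.Coprime.mul_left c3 c2), e1])
  refine h1.trans ?_
  have h2 : R.F0 ^ 2 ≤ (Λ * F) ^ 2 := pow_le_pow_left₀ R.F0_pos.le hF0 2
  calc t1 * R.F0 ^ 2 + t2 * R.F0 ^ 2 = (t1 + t2) * R.F0 ^ 2 := by ring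
    _ ≤ (t1 + t2) * (Λ * F) ^ 2 := mul_le_mul_of_nonneg_left h2 (by positivity)
    _ = _ := by ring

/-- **one level, second moments by relations and collisions** -/
theorem secE_level {r : ℕ} {κ ν ε : ℝ} {k : ℕ} {G Λ : ℝ} (hr : 1 ≤ r) (hκ0 : 0 ≤ κ) (hκ1 : κ ≤ 1)
    (hε : 0 < ε) (hεν : 32 * ε ≤ ν) (hν : ν ≤ 1) (hk : 1 ≤ k) (hΛ : 0 ≤ Λ)
    (R : ResoE r (Vk ν ε k) G Λ) (Y : ℕ) (hY1 : 1 ≤ Y) (hY : Y ≤ 2 ^ (3 * k)) {t1 t2 : ℝ}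
    (ht1 : 0 < t1) (ht2 : 0 < t2) :
    ∃ 𝒮 : Finset ℕ, (𝒮.card : ℝ) ≤
        (16 * Λ * (1 + Real.log Y) / t1) ^ r * (r * ((7 * k ^ 2 : ℕ) : ℝ) * (4 * 3 ^ r)) *
          ((2 : ℝ) ^ k) ^ (κ * (1 + 1 / r)) +
        64 * Y * Real.exp (Vk ν ε k) ^ 2 / t2 * (2 * ((7 * k ^ 2 : ℕ) : ℝ) + 1) ∧
      ∀ (q : ℕ) [Fact q.Prime], q < 2 ^ (k + 1) → (Vk ν ε k) ^ 2 < q → q ∉ 𝒮 →
      ∀ K : Subgroup (ZMod q)ˣ, ((Nat.card K : ℕ) : ℝ) ≤ (q : ℝ) ^ κ →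
        ∃ D : Finset ℕ, D.card < r ∧ (∀ p ∈ D, p.Prime) ∧
          SecE R K Y D ((t1 + t2) * Λ ^ 2) := by
  classical
  set x := xt R.nu R.de with hx
  set y := yt R.nu R.de with hy
  have hent := entries hε hεν hν hk R hY
  have hF0 := R.F0_pos
  set I2 : Finset ((ℕ × R.α × R.α) × (ℕ × R.α × R.α)) :=
    (tri R Y ×ˢ tri R Y).filter (fun z => x z.1 * y z.2 = x z.2 * y z.1) with hI2
  have hwt0 : ∀ t : ℕ × R.α × R.α, 0 ≤ wt R.f t := wt_nonneg R.f_nonneg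
  obtain ⟨𝒮₁, hc₁, h₁⟩ := h26t.famw_level κ hκ0 hκ1 r k hr I2 (fun z => x z.1) (fun z => y z.1)
    (fun z => wt R.f z.1 * wt R.f z.2) (7 * k ^ 2)
    (fun z _ => mul_nonneg (hwt0 _) (hwt0 _))
    (fun z hz => hent _ (Finset.mem_product.1 (Finset.mem_filter.1 hz).1).1)
    (t1 * R.F0 ^ 2) (by positivity)
  obtain ⟨𝒮₂, hc₂, h₂⟩ := h26t.coll_level (tri R Y) x y (wt R.f) (7 * k ^ 2)
    (fun t _ => hwt0 t) hent (t2 * R.F0 ^ 2) (by positivity)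
  refine ⟨𝒮₁ ∪ 𝒮₂, ?_, ?_⟩
  · have h3 : ((𝒮₁ ∪ 𝒮₂).card : ℝ) ≤ 𝒮₁.card + 𝒮₂.card := by
      exact_mod_cast Finset.card_union_le _ _
    refine h3.trans (add_le_add (hc₁.trans ?_) (hc₂.trans ?_))
    · have h4 : ∑ z ∈ I2, wt R.f z.1 * wt R.f z.2 ≤ 16 * (Λ * R.F0 ^ 2) * (1 + Real.log Y) := by
        have h5 := diag_UU R Y (fun n => (n : ℝ) ^ (-(1 / 2) : ℝ)) (fun n => by positivity)
          (fun m n hm hmn => by
            have hm0 : (0 : ℝ) < m := by exact_mod_cast hm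
            have : (m : ℝ) ≤ n := by exact_mod_cast hmn
            exact Real.rpow_le_rpow_of_nonpos hm0 this (by norm_num)) I2 (by
            intro z hz
            rw [hI2, Finset.mem_filter, Finset.mem_product] at hz
            exact ⟨hz.1.1, hz.1.2, hz.2⟩)
        refine h5.trans ?_
        have h6 : ∑ m ∈ Finset.Icc 1 Y, ((m : ℝ) ^ (-(1 / 2) : ℝ)) ^ 2 ≤ 1 + Real.log Y := by
          refine le_trans (le_of_eq ?_) (harm_le Y)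
          exact Finset.sum_congr rfl fun n _ => sq_rpow_half n
        exact mul_le_mul_of_nonneg_left h6 (by positivity)
      have h7 : (∑ z ∈ I2, wt R.f z.1 * wt R.f z.2) / (t1 * R.F0 ^ 2) ≤
          16 * Λ * (1 + Real.log Y) / t1 := by
        rw [div_le_div_iff₀ (by positivity) ht1]
        calc (∑ z ∈ I2, wt R.f z.1 * wt R.f z.2) * t1
            ≤ (16 * (Λ * R.F0 ^ 2) * (1 + Real.log Y)) * t1 :=
              mul_le_mul_of_nonneg_right h4 ht1.le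
          _ = _ := by ring
      have h8 : 0 ≤ (∑ z ∈ I2, wt R.f z.1 * wt R.f z.2) / (t1 * R.F0 ^ 2) := by
        apply div_nonneg _ (by positivity)
        exact Finset.sum_nonneg fun z _ => mul_nonneg (hwt0 _) (hwt0 _)
      gcongr
    · have h4 : ∑ t ∈ tri R Y, wt R.f t ≤ 2 * Real.sqrt Y * (4 * Real.exp (Vk ν ε k) * R.F0) := by
        have h5 := sum_tri R Y (fun n => (n : ℝ) ^ (-(1 / 2) : ℝ))
        have h6 : ∑ t ∈ tri R Y, wt R.f t =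
            (∑ n ∈ Finset.Icc 1 Y, ((n : ℝ) ^ (-(1 / 2) : ℝ))) * (∑ a ∈ UU R, R.f a) ^ 2 := h5
        rw [h6]
        exact mul_le_mul (sum_half_le Y) (sum_UU_sq R) (sq_nonneg _) (by positivity)
      have h5 : 0 ≤ ∑ t ∈ tri R Y, wt R.f t := Finset.sum_nonneg fun t _ => hwt0 t
      have h6 : (∑ t ∈ tri R Y, wt R.f t) ^ 2 / (t2 * R.F0 ^ 2) ≤
          64 * Y * Real.exp (Vk ν ε k) ^ 2 / t2 := by
        rw [div_le_div_iff₀ (by positivity) ht2]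
        have h7 := pow_le_pow_left₀ h5 h4 2
        have e : (2 * Real.sqrt Y * (4 * Real.exp (Vk ν ε k) * R.F0)) ^ 2 =
            64 * Y * Real.exp (Vk ν ε k) ^ 2 * R.F0 ^ 2 := by
          rw [mul_pow, mul_pow, Real.sq_sqrt (Nat.cast_nonneg _)]
          ring
        rw [e] at h7
        calc (∑ t ∈ tri R Y, wt R.f t) ^ 2 * t2
            ≤ (64 * Y * Real.exp (Vk ν ε k) ^ 2 * R.F0 ^ 2) * t2 :=
              mul_le_mul_of_nonneg_right h7 ht2.le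
          _ = _ := by ring
      exact mul_le_mul_of_nonneg_right h6 (by positivity)
  · intro q _ hqk hVq hq K hK
    have hqp : q.Prime := Fact.out
    rw [Finset.mem_union, not_or] at hq
    obtain ⟨D, hDr, hDp, hD⟩ := h₁ q hqk hq.1 K hK
    refine ⟨D, hDr, hDp, ?_⟩
    have htri : ∀ t, okt q R Y D t → t ∈ tri R Y := by
      intro t ht
      rw [mem_tri]
      exact ⟨⟨ht.1.1, ht.1.2.1⟩, ht.2.1⟩
    apply secE_of R hΛ hVq K Y D ht1.le ht2.le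
    · intro 𝒥 h𝒥
      refine (hD 𝒥 ?_).le
      intro z hz
      obtain ⟨⟨a1, a2⟩, a3, a4⟩ := h𝒥 z hz
      obtain ⟨c1, c2⟩ := xt_cop R hVq a1.1.2.2 a1.2.1.1 a1.2.1.2
      refine ⟨?_, c1, c2, a4, ?_, a1.2.2.2⟩
      · rw [hI2, Finset.mem_filter, Finset.mem_product]
        exact ⟨⟨htri _ a1, htri _ a2⟩, a3⟩
      · intro p hp
        obtain ⟨n1, n2⟩ := a1.2.2.1 p hp
        show (xt R.nu R.de z.1).factorization p = (yt R.nu R.de z.1).factorization p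
        rw [Nat.factorization_eq_zero_of_not_dvd n1, Nat.factorization_eq_zero_of_not_dvd n2]
    · intro 𝒥 h𝒥
      refine (h₂ q hqp hq.2 𝒥 ?_).le
      intro z hz
      obtain ⟨⟨a1, a2⟩, a3, a4⟩ := h𝒥 z hz
      exact ⟨htri _ a1, htri _ a2, a3, a4⟩

end Pool.Agent.H.MP_3e6494_nt.A14
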