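import Mathlib
import Pool.Agent.H.MP_3e6494_nt.helper14.LevE

/-!
Collisions in the dual family at one dyadic level.
-/

open Finset Filter

set_option linter.unusedSectionVars false
set_option linter.unusedVariables false

namespace Pool.Agent.H.MP_3e6494_nt.A14

open Pool.Agent.H.MP_3e6494_nt.H14 (ResoE gw)

open Pool.Agent.H.MP_3e6494_nt.Class Pool.Agent.H.MP_3e6494_nt.T3Cnt
  Pool.Agent.H.MP_3e6494_nt.T6Par Pool.Agent.H.MP_3e6494_nt.T3Res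
  Pool.Agent.H.MP_3e6494_nt.T3Exc
open Pool.Agent.H.MP_3e6494_nt.T3Prime (u u_val u_mul u_one)

/-- the sum of the squares of the majorant of the Fourier coefficients -/
lemma min_sq_sum (a : ℝ) (ha : 0 ≤ a) (M : ℕ) :
    ∑ m ∈ Finset.Icc 1 M, (min a (1 / (m : ℝ))) ^ 2 ≤ 4 * a := by
  rcases eq_or_lt_of_le ha with h0 | h0
  · rw [← h0]
    have : ∀ m ∈ Finset.Icc 1 M, (min (0 : ℝ) (1 / (m : ℝ))) ^ 2 = 0 := by
      intro m _
      rw [min_eq_left (by positivity)]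
      norm_num
    rw [Finset.sum_congr rfl this]
    simp
  set b : ℝ := 1 / a with hb
  have hb0 : 0 < b := by positivity
  have hab : a = 1 / b := by rw [hb]; field_simp
  have key : ∀ M : ℕ, ∑ m ∈ Finset.Icc 1 M, (min a (1 / (m : ℝ))) ^ 2 ≤
      4 * (1 / b - 1 / ((M : ℝ) + b)) := by
    intro M
    induction M with
    | zero => simp
    | succ n ih =>
      rw [Finset.sum_Icc_succ_top (by omega)]
      have hn : (0 : ℝ) ≤ n := Nat.cast_nonneg n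
      have h1 : (min a (1 / ((n + 1 : ℕ) : ℝ))) ^ 2 ≤
          4 * (1 / ((n : ℝ) + b) - 1 / (((n + 1 : ℕ) : ℝ) + b)) := by
        have hn1 : (0 : ℝ) < ((n + 1 : ℕ) : ℝ) := by positivity
        have e : 4 * (1 / ((n : ℝ) + b) - 1 / (((n + 1 : ℕ) : ℝ) + b)) =
            4 / (((n : ℝ) + b) * (((n + 1 : ℕ) : ℝ) + b)) := by
          push_cast
          have p1 : (n : ℝ) + b ≠ 0 := by positivity
          have p2 : (n : ℝ) + 1 + b ≠ 0 := by positivity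
          field_simp
          ring
        rw [e]
        have h2 : ((n : ℝ) + b) * (((n + 1 : ℕ) : ℝ) + b) ≤ (((n + 1 : ℕ) : ℝ) + b) ^ 2 := by
          push_cast
          nlinarith
        rcases le_total b ((n + 1 : ℕ) : ℝ) with h | h
        · have h3 : min a (1 / ((n + 1 : ℕ) : ℝ)) ≤ 1 / ((n + 1 : ℕ) : ℝ) := min_le_right _ _
          have h4 : 0 ≤ min a (1 / ((n + 1 : ℕ) : ℝ)) := le_min ha (by positivity)
          calc (min a (1 / ((n + 1 : ℕ) : ℝ))) ^ 2 ≤ (1 / ((n + 1 : ℕ) : ℝ)) ^ 2 :=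
                pow_le_pow_left₀ h4 h3 2
            _ = 4 / (4 * ((n + 1 : ℕ) : ℝ) ^ 2) := by field_simp
            _ ≤ 4 / (((n : ℝ) + b) * (((n + 1 : ℕ) : ℝ) + b)) := by
                apply div_le_div_of_nonneg_left (by norm_num) (by positivity)
                nlinarith
        · have h3 : min a (1 / ((n + 1 : ℕ) : ℝ)) ≤ 1 / b := by
            rw [← hab]; exact min_le_left _ _
          have h4 : 0 ≤ min a (1 / ((n + 1 : ℕ) : ℝ)) := le_min ha (by positivity)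
          calc (min a (1 / ((n + 1 : ℕ) : ℝ))) ^ 2 ≤ (1 / b) ^ 2 :=
                pow_le_pow_left₀ h4 h3 2
            _ = 4 / (4 * b ^ 2) := by field_simp
            _ ≤ 4 / (((n : ℝ) + b) * (((n + 1 : ℕ) : ℝ) + b)) := by
                apply div_le_div_of_nonneg_left (by norm_num) (by positivity)
                nlinarith
      linarith
  have h1 := key M
  have h2 : 0 ≤ 1 / ((M : ℝ) + b) := by positivity
  rw [hab]
  rw [hab] at h1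
  linarith

/-- the weight of a triple in the dual family -/
noncomputable def wd {α : Type*} (f : α → ℝ) (t : ℕ × α × α) : ℝ :=
  (1 / (t.1 : ℝ)) * (f t.2.1 * f t.2.2)

/-- no collisions in the dual family -/
def DualE {r : ℕ} {V G Λ : ℝ} (q : ℕ) (R : ResoE r V G Λ) (M : ℕ) (t3 : ℝ) : Prop :=
  (∀ 𝒥 : Finset ((ℕ × R.α × R.α) × (ℕ × R.α × R.α)), (∀ z ∈ 𝒥,
      z.1 ∈ tri R M ∧ z.2 ∈ tri R M ∧
      xt R.nu R.de z.1 * yt R.nu R.de z.2 ≠ xt R.nu R.de z.2 * yt R.nu R.de z.1 ∧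
      ((xt R.nu R.de z.1 * yt R.nu R.de z.2 : ℕ) : ZMod q) =
        ((xt R.nu R.de z.2 * yt R.nu R.de z.1 : ℕ) : ZMod q)) →
      ∑ z ∈ 𝒥, wd R.f z.1 * wd R.f z.2 ≤ t3 * R.F0 ^ 2) ∧
  (∀ 𝒥 : Finset ((ℕ × R.α × R.α) × (ℕ × R.α × R.α)), (∀ z ∈ 𝒥,
      z.1 ∈ tri R M ∧ z.2 ∈ tri R M ∧
      ((xt R.nu R.de z.1 * yt R.nu R.de z.2 + xt R.nu R.de z.2 * yt R.nu R.de z.1 : ℕ) :
        ZMod q) = 0) →
      ∑ z ∈ 𝒥, wd R.f z.1 * wd R.f z.2 ≤ t3 * R.F0 ^ 2)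

/-- **the dual family at one level** -/
theorem dual_level {r : ℕ} {ν ε : ℝ} {k : ℕ} {G Λ : ℝ}
    (hε : 0 < ε) (hεν : 32 * ε ≤ ν) (hν : ν ≤ 1) (hk : 1 ≤ k)
    (R : ResoE r (Vk ν ε k) G Λ) {t3 : ℝ} (ht3 : 0 < t3) :
    ∃ 𝒮 : Finset ℕ, (𝒮.card : ℝ) ≤
        32 * (1 + (k : ℝ)) ^ 2 * Real.exp (Vk ν ε k) ^ 2 / t3 * (2 * ((7 * k ^ 2 : ℕ) : ℝ) + 1) ∧
      ∀ q : ℕ, q.Prime → q ∉ 𝒮 → DualE q R (2 ^ k) t3 := by
  classical
  have hent := entries hε hεν hν hk R (Y := 2 ^ k) (Nat.pow_le_pow_right (by norm_num) (by omega))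
  have hF0 := R.F0_pos
  have hwd0 : ∀ t ∈ tri R (2 ^ k), 0 ≤ wd R.f t := by
    intro t _
    unfold wd
    exact mul_nonneg (by positivity) (mul_nonneg (R.f_nonneg _) (R.f_nonneg _))
  obtain ⟨𝒮₁, hc₁, h₁⟩ := h26t.coll_level (tri R (2 ^ k)) (xt R.nu R.de) (yt R.nu R.de) (wd R.f)
    (7 * k ^ 2) hwd0 hent (t3 * R.F0 ^ 2) (by positivity)
  obtain ⟨𝒮₂, hc₂, h₂⟩ := h26t.coll_level_add (tri R (2 ^ k)) (xt R.nu R.de) (yt R.nu R.de)
    (wd R.f) (7 * k ^ 2) hwd0 hent (t3 * R.F0 ^ 2) (by positivity)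
  have hsum : (∑ t ∈ tri R (2 ^ k), wd R.f t) ^ 2 / (t3 * R.F0 ^ 2) ≤
      16 * (1 + (k : ℝ)) ^ 2 * Real.exp (Vk ν ε k) ^ 2 / t3 := by
    have h4 : ∑ t ∈ tri R (2 ^ k), wd R.f t ≤
        (1 + (k : ℝ)) * (4 * Real.exp (Vk ν ε k) * R.F0) := by
      have h5 := sum_tri R (2 ^ k) (fun n => 1 / (n : ℝ))
      have h6 : ∑ t ∈ tri R (2 ^ k), wd R.f t =
          (∑ n ∈ (Finset.Icc 1 (2 ^ k) : Finset ℕ), 1 / (n : ℝ)) * (∑ a ∈ UU R, R.f a) ^ 2 := h5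
      rw [h6]
      apply mul_le_mul _ (sum_UU_sq R) (sq_nonneg _) (by positivity)
      have h7 := harm_le (2 ^ k)
      have h8 : Real.log ((2 ^ k : ℕ) : ℝ) ≤ k := by
        push_cast
        rw [Real.log_pow]
        have : Real.log 2 < 1 := by linarith [Real.log_two_lt_d9]
        have hk0 : (0 : ℝ) ≤ k := Nat.cast_nonneg k
        nlinarith
      have h9 : ∑ n ∈ (Finset.Icc 1 (2 ^ k) : Finset ℕ), 1 / (n : ℝ) =
          ∑ n ∈ (Finset.Icc 1 (2 ^ k) : Finset ℕ), ((n : ℝ)⁻¹) :=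
        Finset.sum_congr rfl fun n _ => one_div _
      rw [h9]
      linarith
    have h5 : 0 ≤ ∑ t ∈ tri R (2 ^ k), wd R.f t := Finset.sum_nonneg hwd0
    rw [div_le_div_iff₀ (by positivity) ht3]
    have h7 := pow_le_pow_left₀ h5 h4 2
    calc (∑ t ∈ tri R (2 ^ k), wd R.f t) ^ 2 * t3
        ≤ ((1 + (k : ℝ)) * (4 * Real.exp (Vk ν ε k) * R.F0)) ^ 2 * t3 :=
          mul_le_mul_of_nonneg_right h7 ht3.le
      _ = _ := by ring
  refine ⟨𝒮₁ ∪ 𝒮₂, ?_, ?_⟩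
  · have h3 : ((𝒮₁ ∪ 𝒮₂).card : ℝ) ≤ 𝒮₁.card + 𝒮₂.card := by
      exact_mod_cast Finset.card_union_le _ _
    have h4 := mul_le_mul_of_nonneg_right hsum
      (show (0 : ℝ) ≤ 2 * ((7 * k ^ 2 : ℕ) : ℝ) + 1 by positivity)
    have e : 32 * (1 + (k : ℝ)) ^ 2 * Real.exp (Vk ν ε k) ^ 2 / t3 *
        (2 * ((7 * k ^ 2 : ℕ) : ℝ) + 1) =
        16 * (1 + (k : ℝ)) ^ 2 * Real.exp (Vk ν ε k) ^ 2 / t3 * (2 * ((7 * k ^ 2 : ℕ) : ℝ) + 1) +
        16 * (1 + (k : ℝ)) ^ 2 * Real.exp (Vk ν ε k) ^ 2 / t3 * (2 * ((7 * k ^ 2 : ℕ) : ℝ) + 1) := by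
      ring
    rw [e]
    exact h3.trans (add_le_add (hc₁.trans h4) (hc₂.trans h4))
  · intro q hqp hq
    rw [Finset.mem_union, not_or] at hq
    exact ⟨fun 𝒥 h𝒥 => (h₁ q hqp hq.1 𝒥 h𝒥).le, fun 𝒥 h𝒥 => (h₂ q hqp hq.2 𝒥 h𝒥).le⟩

end Pool.Agent.H.MP_3e6494_nt.A14
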