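import Pool.Agent.H.MP_3e6494_nt.helper15.Esym

/-!
Upper and lower bounds for the elementary symmetric sums (helper50).
-/

open Finset

set_option autoImplicit false
set_option linter.unusedVariables false

namespace Pool.Agent.H.MP_3e6494_nt.H14

open Pool.Agent.H.MP_3e6494_nt.H15

lemma ee_zero (Q : Finset ℕ) : ee Q 0 = 1 := by
  simp [ee]

lemma ee_step_le (Q : Finset ℕ) (j : ℕ) :
    ((j : ℝ) + 1) * ee Q (j + 1) ≤ ee Q j * ∑ p ∈ Q, 1 / (p : ℝ) := by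
  rw [ee, ee, Finset.mul_sum, double_count Q j (fun a => 1 / ((∏ p ∈ a, p : ℕ) : ℝ)), Finset.sum_mul]
  apply Finset.sum_le_sum
  intro a ha
  rw [Finset.mem_powersetCard] at ha
  have h1 : ∀ p ∈ Q \ a, 1 / ((∏ p ∈ insert p a, p : ℕ) : ℝ) =
      (1 / ((∏ p ∈ a, p : ℕ) : ℝ)) * (1 / (p : ℝ)) := by
    intro p hp
    rw [Finset.mem_sdiff] at hp
    rw [Finset.prod_insert hp.2]
    push_cast
    rw [one_div_mul_one_div_rev]
  rw [Finset.sum_congr rfl h1, ← Finset.mul_sum]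
  apply mul_le_mul_of_nonneg_left _ (by positivity)
  exact Finset.sum_le_sum_of_subset_of_nonneg Finset.sdiff_subset fun p _ _ => by positivity

lemma ee_le (Q : Finset ℕ) (j : ℕ) :
    (j.factorial : ℝ) * ee Q j ≤ (∑ p ∈ Q, 1 / (p : ℝ)) ^ j := by
  induction j with
  | zero => simp [ee_zero]
  | succ j ih =>
    have hs : 0 ≤ ∑ p ∈ Q, 1 / (p : ℝ) := Finset.sum_nonneg fun p _ => by positivity
    have h1 := ee_step_le Q j
    have hf : (0 : ℝ) < j.factorial := by exact_mod_cast j.factorial_pos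
    calc ((j + 1).factorial : ℝ) * ee Q (j + 1) = j.factorial * (((j : ℝ) + 1) * ee Q (j + 1)) := by
          rw [Nat.factorial_succ]; push_cast; ring
      _ ≤ j.factorial * (ee Q j * ∑ p ∈ Q, 1 / (p : ℝ)) := by gcongr
      _ = (j.factorial * ee Q j) * ∑ p ∈ Q, 1 / (p : ℝ) := by ring
      _ ≤ (∑ p ∈ Q, 1 / (p : ℝ)) ^ j * ∑ p ∈ Q, 1 / (p : ℝ) := by gcongr
      _ = _ := by rw [pow_succ]

lemma le_ee (Q : Finset ℕ) (w : ℝ) (hw0 : 0 ≤ w) (hw : ∀ p ∈ Q, 1 / (p : ℝ) ≤ w) (σ : ℝ)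
    (hσ0 : 0 ≤ σ) (j : ℕ) (hσ : σ ≤ (∑ p ∈ Q, 1 / (p : ℝ)) - j * w) :
    σ ^ j ≤ (j.factorial : ℝ) * ee Q j := by
  induction j with
  | zero => simp [ee_zero]
  | succ j ih =>
    push_cast at hσ
    have hσj : σ ≤ (∑ p ∈ Q, 1 / (p : ℝ)) - j * w := by nlinarith
    have h1 := ee_step Q w hw j
    have h2 := ee_nonneg Q j
    have hf : (0 : ℝ) < j.factorial := by exact_mod_cast j.factorial_pos
    calc σ ^ (j + 1) = σ ^ j * σ := pow_succ _ _
      _ ≤ (j.factorial * ee Q j) * σ := by gcongr; exact ih hσj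
      _ ≤ (j.factorial * ee Q j) * ((∑ p ∈ Q, 1 / (p : ℝ)) - j * w) := by gcongr
      _ = j.factorial * (ee Q j * ((∑ p ∈ Q, 1 / (p : ℝ)) - j * w)) := by ring
      _ ≤ j.factorial * (((j : ℝ) + 1) * ee Q (j + 1)) := by gcongr
      _ = _ := by rw [Nat.factorial_succ]; push_cast; ring

/-- upper bound -/
theorem ES_le (P : Finset ℕ) (j j' : ℕ) :
    (j.factorial * j'.factorial : ℝ) * ES P j j' ≤ (∑ p ∈ P, 1 / (p : ℝ)) ^ (j + j') := by
  have hs : 0 ≤ ∑ p ∈ P, 1 / (p : ℝ) := Finset.sum_nonneg fun p _ => by positivity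
  have hf : (0 : ℝ) < j.factorial := by exact_mod_cast j.factorial_pos
  have hf' : (0 : ℝ) < j'.factorial := by exact_mod_cast j'.factorial_pos
  have h1 : (j'.factorial : ℝ) * ES P j j' ≤ ee P j * (∑ p ∈ P, 1 / (p : ℝ)) ^ j' := by
    rw [ES_eq, Finset.mul_sum, ee, Finset.sum_mul]
    refine Finset.sum_le_sum fun b hb => ?_
    rw [Finset.mem_powersetCard] at hb
    have h2 := ee_le (P \ b) j'
    have h3 : (∑ p ∈ P \ b, 1 / (p : ℝ)) ^ j' ≤ (∑ p ∈ P, 1 / (p : ℝ)) ^ j' := by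
      refine pow_le_pow_left₀ (Finset.sum_nonneg fun p _ => by positivity) ?_ _
      exact Finset.sum_le_sum_of_subset_of_nonneg Finset.sdiff_subset fun p _ _ => by positivity
    calc (j'.factorial : ℝ) * (1 / ((∏ p ∈ b, p : ℕ) : ℝ) * ee (P \ b) j') =
        1 / ((∏ p ∈ b, p : ℕ) : ℝ) * (j'.factorial * ee (P \ b) j') := by ring
      _ ≤ 1 / ((∏ p ∈ b, p : ℕ) : ℝ) * (∑ p ∈ P, 1 / (p : ℝ)) ^ j' := by
          apply mul_le_mul_of_nonneg_left (h2.trans h3) (by positivity)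
  calc (j.factorial * j'.factorial : ℝ) * ES P j j' = j.factorial * (j'.factorial * ES P j j') := by
        ring
    _ ≤ j.factorial * (ee P j * (∑ p ∈ P, 1 / (p : ℝ)) ^ j') := by gcongr
    _ = (j.factorial * ee P j) * (∑ p ∈ P, 1 / (p : ℝ)) ^ j' := by ring
    _ ≤ (∑ p ∈ P, 1 / (p : ℝ)) ^ j * (∑ p ∈ P, 1 / (p : ℝ)) ^ j' := by
        gcongr
        exact ee_le P j
    _ = _ := by rw [pow_add]

/-- lower bound -/
theorem le_ES (P : Finset ℕ) (w : ℝ) (hw0 : 0 ≤ w) (hw : ∀ p ∈ P, 1 / (p : ℝ) ≤ w) (σ : ℝ)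
    (hσ0 : 0 ≤ σ) (j j' : ℕ) (hσ : σ ≤ (∑ p ∈ P, 1 / (p : ℝ)) - (j + j') * w) :
    σ ^ (j + j') ≤ (j.factorial * j'.factorial : ℝ) * ES P j j' := by
  have hf : (0 : ℝ) < j.factorial := by exact_mod_cast j.factorial_pos
  have hf' : (0 : ℝ) < j'.factorial := by exact_mod_cast j'.factorial_pos
  have hjw : 0 ≤ (j : ℝ) * w := by positivity
  have hjw' : 0 ≤ (j' : ℝ) * w := by positivity
  have h1 : ee P j * σ ^ j' ≤ (j'.factorial : ℝ) * ES P j j' := by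
    rw [ES_eq, Finset.mul_sum, ee, Finset.sum_mul]
    refine Finset.sum_le_sum fun b hb => ?_
    rw [Finset.mem_powersetCard] at hb
    have h2 : σ ^ j' ≤ (j'.factorial : ℝ) * ee (P \ b) j' := by
      refine le_ee (P \ b) w hw0 (fun p hp => hw p (Finset.mem_sdiff.mp hp).1) σ hσ0 j' ?_
      rw [Finset.sum_sdiff_eq_sub hb.1]
      have h3 : ∑ p ∈ b, 1 / (p : ℝ) ≤ j * w := by
        rw [← hb.2, ← nsmul_eq_mul]
        exact Finset.sum_le_card_nsmul _ _ _ fun p hp => hw p (hb.1 hp)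
      linarith
    calc 1 / ((∏ p ∈ b, p : ℕ) : ℝ) * σ ^ j' ≤
        1 / ((∏ p ∈ b, p : ℕ) : ℝ) * (j'.factorial * ee (P \ b) j') := by
          apply mul_le_mul_of_nonneg_left h2 (by positivity)
      _ = _ := by ring
  calc σ ^ (j + j') = σ ^ j * σ ^ j' := pow_add _ _ _
    _ ≤ (j.factorial * ee P j) * σ ^ j' := by
        gcongr
        exact le_ee P w hw0 hw σ hσ0 j (by linarith)
    _ = j.factorial * (ee P j * σ ^ j') := by ring
    _ ≤ j.factorial * (j'.factorial * ES P j j') := by gcongr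
    _ = _ := by ring

/-- `j! j'! ≤ (j + j')^(j + j')` -/
lemma fact_mul_le (j j' : ℕ) : (j.factorial * j'.factorial : ℝ) ≤ ((j + j' : ℕ) : ℝ) ^ (j + j') := by
  have h1 : j.factorial * j'.factorial ≤ (j + j').factorial :=
    Nat.le_of_dvd (Nat.factorial_pos _) (Nat.factorial_mul_factorial_dvd_factorial_add j j')
  have h2 : (j + j').factorial ≤ (j + j') ^ (j + j') := Nat.factorial_le_pow _
  exact_mod_cast h1.trans h2

end Pool.Agent.H.MP_3e6494_nt.H14
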