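import Pool.Agent.H.MP_3e6494_nt.helper14.EDef
import Pool.Agent.H.MP_3e6494_nt.helper50.T3Fam

/-!
The energy of the two-sided resonator (helper50).
-/

open Finset

set_option autoImplicit false
set_option linter.unusedSectionVars false
set_option linter.unusedVariables false

namespace Pool.Agent.H.MP_3e6494_nt.H14

open Pool.Agent.H.MP_3e6494_nt.H15
open Pool.Agent.H.MP_3e6494_nt.T3Fam

section

variable {ι : Type} [Fintype ι] [DecidableEq ι]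

/-- all primes of all blocks -/
def UU (P : ι → Finset ℕ) : Finset (Σ _ : ι, ℕ) := (Finset.univ : Finset ι).sigma P

lemma mem_UU {P : ι → Finset ℕ} {u : Σ _ : ι, ℕ} : u ∈ UU P ↔ u.2 ∈ P u.1 := by
  unfold UU
  rw [Finset.mem_sigma]
  simp

/-- the code of a state -/
def cd (x : ι → Finset ℕ × Finset ℕ) (u : Σ _ : ι, ℕ) : Fin 3 :=
  if u.2 ∈ (x u.1).1 then 1 else if u.2 ∈ (x u.1).2 then 2 else 0

/-- zero or not -/
def nz (i : Fin 3) : ℕ := if i = 0 then 0 else 1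

/-- indicator -/
def ind (T : Finset ℕ) (p : ℕ) : ℕ := if p ∈ T then 1 else 0

lemma nz_cd {P : ι → Finset ℕ} {j j' : ι → ℕ} {x : ι → Finset ℕ × Finset ℕ} (hx : x ∈ FS P j j')
    (u : Σ _ : ι, ℕ) : nz (cd x u) = ind (x u.1).1 u.2 + ind (x u.1).2 u.2 := by
  rw [mem_FS] at hx
  unfold cd nz ind
  by_cases h1 : u.2 ∈ (x u.1).1
  · have h2 : u.2 ∉ (x u.1).2 := Finset.disjoint_left.1 (hx u.1).2.2 h1
    simp [h1, h2]
  · by_cases h2 : u.2 ∈ (x u.1).2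
    · simp [h1, h2]
    · simp [h1, h2]

lemma sum_ind {T P : Finset ℕ} (h : T ⊆ P) : ∑ p ∈ P, ind T p = T.card := by
  unfold ind
  rw [Finset.sum_ite_mem, Finset.inter_eq_right.2 h, Finset.sum_const, smul_eq_mul, mul_one]

lemma sum_nz {P : ι → Finset ℕ} {j j' : ι → ℕ} {x : ι → Finset ℕ × Finset ℕ} (hx : x ∈ FS P j j')
    (k : ι) : ∑ p ∈ P k, nz (cd x ⟨k, p⟩) = j k + j' k := by
  have h1 : ∀ p ∈ P k, nz (cd x ⟨k, p⟩) = ind (x k).1 p + ind (x k).2 p := fun p _ => nz_cd hx _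
  rw [Finset.sum_congr rfl h1, Finset.sum_add_distrib]
  rw [mem_FS] at hx
  rw [sum_ind (hx k).1.1, sum_ind (hx k).2.1.1, (hx k).1.2, (hx k).2.1.2]

lemma cd_inj {P : ι → Finset ℕ} {j j' : ι → ℕ} {x y : ι → Finset ℕ × Finset ℕ}
    (hx : x ∈ FS P j j') (hy : y ∈ FS P j j') (h : ∀ u ∈ UU P, cd x u = cd y u) : x = y := by
  have key : ∀ (x y : ι → Finset ℕ × Finset ℕ), x ∈ FS P j j' → y ∈ FS P j j' →
      (∀ u ∈ UU P, cd x u = cd y u) → ∀ k, (x k).1 ⊆ (y k).1 ∧ (x k).2 ⊆ (y k).2 := by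
    intro x y hx hy h k
    rw [mem_FS] at hx hy
    constructor
    · intro p hp
      have hu : (⟨k, p⟩ : Σ _ : ι, ℕ) ∈ UU P := mem_UU.2 ((hx k).1.1 hp)
      have h1 := h _ hu
      unfold cd at h1
      rw [if_pos hp] at h1
      by_contra h2
      rw [if_neg h2] at h1
      split_ifs at h1 <;> simp at h1
    · intro p hp
      have hu : (⟨k, p⟩ : Σ _ : ι, ℕ) ∈ UU P := mem_UU.2 ((hx k).2.1.1 hp)
      have h1 := h _ hu
      unfold cd at h1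
      rw [if_neg (Finset.disjoint_right.1 (hx k).2.2 hp), if_pos hp] at h1
      by_contra h2
      rw [if_neg (c := p ∈ (y k).2) h2] at h1
      split_ifs at h1 <;> simp at h1
  funext k
  have h1 := key x y hx hy h k
  have h2 := key y x hy hx (fun u hu => (h u hu).symm) k
  exact Prod.ext (Finset.Subset.antisymm h1.1 h2.1) (Finset.Subset.antisymm h1.2 h2.2)

/-- four codes -/
abbrev C4 : Type := Fin 3 × Fin 3 × Fin 3 × Fin 3

/-- number of nonzero codes -/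
def N4 (c : C4) : ℕ := nz c.1 + nz c.2.1 + nz c.2.2.1 + nz c.2.2.2

/-- the code of four states -/
def cd4 (q : (ι → Finset ℕ × Finset ℕ) × (ι → Finset ℕ × Finset ℕ) × (ι → Finset ℕ × Finset ℕ) ×
    (ι → Finset ℕ × Finset ℕ)) (u : Σ _ : ι, ℕ) : C4 :=
  (cd q.1 u, cd q.2.1 u, cd q.2.2.1 u, cd q.2.2.2 u)

/-- the local factor -/
lemma local_sum (l q : ℝ) : ∑ c : C4, l ^ N4 c * q ^ ((N4 c + 1) / 2) =
    1 + 8 * l * q + 24 * l ^ 2 * q + 32 * l ^ 3 * q ^ 2 + 16 * l ^ 4 * q ^ 2 := by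
  simp only [Fintype.sum_prod_type, Fin.sum_univ_three, N4, nz]
  simp
  ring

lemma local_le {l p : ℝ} (hl : 1 ≤ l) (hp : 0 < p) :
    ∑ c : C4, l ^ N4 c * (1 / p) ^ ((N4 c + 1) / 2) ≤
      Real.exp (32 * l ^ 2 * (1 / p) + 48 * l ^ 4 * (1 / p) ^ 2) := by
  rw [local_sum]
  have hq : 0 < 1 / p := by positivity
  have h1 := Real.add_one_le_exp (32 * l ^ 2 * (1 / p) + 48 * l ^ 4 * (1 / p) ^ 2)
  have h2 : l ≤ l ^ 2 := by nlinarith
  have h3 : l ^ 3 ≤ l ^ 4 := by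
    have : 0 ≤ l ^ 3 := by positivity
    nlinarith
  have h4 : 8 * l * (1 / p) ≤ 8 * l ^ 2 * (1 / p) := by gcongr
  have h5 : 32 * l ^ 3 * (1 / p) ^ 2 ≤ 32 * l ^ 4 * (1 / p) ^ 2 := by gcongr
  linarith


/-- numerator of the product -/
def numX (q : (ι → Finset ℕ × Finset ℕ) × (ι → Finset ℕ × Finset ℕ) × (ι → Finset ℕ × Finset ℕ) ×
    (ι → Finset ℕ × Finset ℕ)) : ℕ := nu q.1 * de q.2.1 * (de q.2.2.1 * nu q.2.2.2)

/-- denominator of the product -/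
def denY (q : (ι → Finset ℕ × Finset ℕ) × (ι → Finset ℕ × Finset ℕ) × (ι → Finset ℕ × Finset ℕ) ×
    (ι → Finset ℕ × Finset ℕ)) : ℕ := de q.1 * nu q.2.1 * (nu q.2.2.1 * de q.2.2.2)

lemma pow_ind_dvd (T : ι → Finset ℕ) (k : ι) (p : ℕ) : p ^ ind (T k) p ∣ Phi T := by
  unfold ind
  split_ifs with h
  · rw [pow_one]
    exact (Finset.dvd_prod_of_mem (fun p => p) h).trans
      (Finset.dvd_prod_of_mem (fun k => ∏ p ∈ T k, p) (Finset.mem_univ k))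
  · rw [pow_zero]
    exact one_dvd _

section

variable {P : ι → Finset ℕ} {j1 j1' j2 j2' j3 j3' j4 j4' : ι → ℕ}
  {q : (ι → Finset ℕ × Finset ℕ) × (ι → Finset ℕ × Finset ℕ) × (ι → Finset ℕ × Finset ℕ) ×
    (ι → Finset ℕ × Finset ℕ)}

lemma pow_dvd_lcm (h1 : q.1 ∈ FS P j1 j1') (h2 : q.2.1 ∈ FS P j2 j2') (h3 : q.2.2.1 ∈ FS P j3 j3')
    (h4 : q.2.2.2 ∈ FS P j4 j4') (u : Σ _ : ι, ℕ) :
    u.2 ^ ((N4 (cd4 q u) + 1) / 2) ∣ Nat.lcm (numX q) (denY q) := by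
  have hN : N4 (cd4 q u) = (ind (q.1 u.1).1 u.2 + ind (q.2.1 u.1).2 u.2 +
      (ind (q.2.2.1 u.1).2 u.2 + ind (q.2.2.2 u.1).1 u.2)) +
      (ind (q.1 u.1).2 u.2 + ind (q.2.1 u.1).1 u.2 +
      (ind (q.2.2.1 u.1).1 u.2 + ind (q.2.2.2 u.1).2 u.2)) := by
    unfold N4 cd4
    simp only
    rw [nz_cd h1, nz_cd h2, nz_cd h3, nz_cd h4]
    ring
  have hX : u.2 ^ (ind (q.1 u.1).1 u.2 + ind (q.2.1 u.1).2 u.2 +
      (ind (q.2.2.1 u.1).2 u.2 + ind (q.2.2.2 u.1).1 u.2)) ∣ numX q := by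
    rw [pow_add, pow_add, pow_add]
    exact mul_dvd_mul (mul_dvd_mul (pow_ind_dvd (fun k => (q.1 k).1) u.1 u.2)
      (pow_ind_dvd (fun k => (q.2.1 k).2) u.1 u.2))
      (mul_dvd_mul (pow_ind_dvd (fun k => (q.2.2.1 k).2) u.1 u.2)
        (pow_ind_dvd (fun k => (q.2.2.2 k).1) u.1 u.2))
  have hY : u.2 ^ (ind (q.1 u.1).2 u.2 + ind (q.2.1 u.1).1 u.2 +
      (ind (q.2.2.1 u.1).1 u.2 + ind (q.2.2.2 u.1).2 u.2)) ∣ denY q := by
    rw [pow_add, pow_add, pow_add]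
    exact mul_dvd_mul (mul_dvd_mul (pow_ind_dvd (fun k => (q.1 k).2) u.1 u.2)
      (pow_ind_dvd (fun k => (q.2.1 k).1) u.1 u.2))
      (mul_dvd_mul (pow_ind_dvd (fun k => (q.2.2.1 k).1) u.1 u.2)
        (pow_ind_dvd (fun k => (q.2.2.2 k).2) u.1 u.2))
  rw [hN]
  set x := ind (q.1 u.1).1 u.2 + ind (q.2.1 u.1).2 u.2 +
      (ind (q.2.2.1 u.1).2 u.2 + ind (q.2.2.2 u.1).1 u.2) with hx
  set y := ind (q.1 u.1).2 u.2 + ind (q.2.1 u.1).1 u.2 +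
      (ind (q.2.2.1 u.1).1 u.2 + ind (q.2.2.2 u.1).2 u.2) with hy
  rcases le_total x y with h | h
  · exact (pow_dvd_pow u.2 (by omega)).trans (hY.trans (Nat.dvd_lcm_right _ _))
  · exact (pow_dvd_pow u.2 (by omega)).trans (hX.trans (Nat.dvd_lcm_left _ _))

lemma prod_dvd_lcm (hP : ∀ k, ∀ p ∈ P k, p.Prime) (hdisj : ∀ k l, k ≠ l → Disjoint (P k) (P l))
    (h1 : q.1 ∈ FS P j1 j1') (h2 : q.2.1 ∈ FS P j2 j2') (h3 : q.2.2.1 ∈ FS P j3 j3')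
    (h4 : q.2.2.2 ∈ FS P j4 j4') :
    ∏ u ∈ UU P, u.2 ^ ((N4 (cd4 q u) + 1) / 2) ∣ Nat.lcm (numX q) (denY q) := by
  refine Finset.prod_dvd_of_isRelPrime ?_ fun u _ => pow_dvd_lcm h1 h2 h3 h4 u
  intro u hu v hv huv
  have hu' := mem_UU.1 (Finset.mem_coe.1 hu)
  have hv' := mem_UU.1 (Finset.mem_coe.1 hv)
  have hpu := hP _ _ hu'
  have hpv := hP _ _ hv'
  show IsRelPrime _ _
  rw [← Nat.coprime_iff_isRelPrime]
  refine Nat.Coprime.pow _ _ ((Nat.coprime_primes hpu hpv).2 ?_)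
  intro he
  apply huv
  have hk : u.1 = v.1 := by
    by_contra hne
    exact Finset.disjoint_left.1 (hdisj _ _ hne) hu' (he ▸ hv')
  obtain ⟨k, p⟩ := u
  obtain ⟨k', p'⟩ := v
  simp only at hk he
  subst hk
  subst he
  rfl

lemma numX_pos (hP : ∀ k, ∀ p ∈ P k, p.Prime)
    (h1 : q.1 ∈ FS P j1 j1') (h2 : q.2.1 ∈ FS P j2 j2') (h3 : q.2.2.1 ∈ FS P j3 j3')
    (h4 : q.2.2.2 ∈ FS P j4 j4') : 0 < numX q := by
  rw [mem_FS] at h1 h2 h3 h4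
  exact Nat.mul_pos (Nat.mul_pos (Phi_pos hP fun k => (h1 k).1.1) (Phi_pos hP fun k => (h2 k).2.1.1))
    (Nat.mul_pos (Phi_pos hP fun k => (h3 k).2.1.1) (Phi_pos hP fun k => (h4 k).1.1))

lemma denY_pos (hP : ∀ k, ∀ p ∈ P k, p.Prime)
    (h1 : q.1 ∈ FS P j1 j1') (h2 : q.2.1 ∈ FS P j2 j2') (h3 : q.2.2.1 ∈ FS P j3 j3')
    (h4 : q.2.2.2 ∈ FS P j4 j4') : 0 < denY q := by
  rw [mem_FS] at h1 h2 h3 h4
  exact Nat.mul_pos (Nat.mul_pos (Phi_pos hP fun k => (h1 k).2.1.1) (Phi_pos hP fun k => (h2 k).1.1))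
    (Nat.mul_pos (Phi_pos hP fun k => (h3 k).1.1) (Phi_pos hP fun k => (h4 k).2.1.1))

lemma term_eq (hX : 0 < numX q) (hY : 0 < denY q) :
    (ff q.1 * ff q.2.1 * ff q.2.2.1 * ff q.2.2.2) * gw nu de q.1 q.2.1 q.2.2.1 q.2.2.2 =
      1 / (Nat.lcm (numX q) (denY q) : ℝ) := by
  have hXr : (0 : ℝ) < numX q := by exact_mod_cast hX
  have hYr : (0 : ℝ) < denY q := by exact_mod_cast hY
  have e1 : ff q.1 * ff q.2.1 * ff q.2.2.1 * ff q.2.2.2 =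
      1 / Real.sqrt ((numX q : ℝ) * (denY q : ℝ)) := by
    unfold ff
    rw [one_div_mul_one_div, one_div_mul_one_div, one_div_mul_one_div,
      ← Real.sqrt_mul (by positivity), ← Real.sqrt_mul (by positivity),
      ← Real.sqrt_mul (by positivity)]
    congr 2
    unfold numX denY
    push_cast
    ring
  have e2 : gw nu de q.1 q.2.1 q.2.2.1 q.2.2.2 =
      (Nat.gcd (numX q) (denY q) : ℝ) / Real.sqrt ((numX q : ℝ) * (denY q : ℝ)) := rfl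
  have e3 : (Nat.gcd (numX q) (denY q) : ℝ) * (Nat.lcm (numX q) (denY q) : ℝ) =
      (numX q : ℝ) * (denY q : ℝ) := by exact_mod_cast Nat.gcd_mul_lcm _ _
  have hl : (0 : ℝ) < (Nat.lcm (numX q) (denY q) : ℝ) := by exact_mod_cast Nat.lcm_pos hX hY
  rw [e1, e2, div_mul_div_comm, one_mul, Real.mul_self_sqrt (by positivity), div_eq_div_iff
    (by positivity) (by positivity), one_mul]
  exact e3

lemma term_le (hP : ∀ k, ∀ p ∈ P k, p.Prime) (hdisj : ∀ k l, k ≠ l → Disjoint (P k) (P l))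
    (h1 : q.1 ∈ FS P j1 j1') (h2 : q.2.1 ∈ FS P j2 j2') (h3 : q.2.2.1 ∈ FS P j3 j3')
    (h4 : q.2.2.2 ∈ FS P j4 j4') :
    (ff q.1 * ff q.2.1 * ff q.2.2.1 * ff q.2.2.2) * gw nu de q.1 q.2.1 q.2.2.1 q.2.2.2 ≤
      ∏ u ∈ UU P, (1 / (u.2 : ℝ)) ^ ((N4 (cd4 q u) + 1) / 2) := by
  have hX := numX_pos hP h1 h2 h3 h4
  have hY := denY_pos hP h1 h2 h3 h4
  rw [term_eq hX hY]
  have h5 := Nat.le_of_dvd (Nat.lcm_pos hX hY) (prod_dvd_lcm hP hdisj h1 h2 h3 h4)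
  have h6 : ((∏ u ∈ UU P, u.2 ^ ((N4 (cd4 q u) + 1) / 2) : ℕ) : ℝ) ≤
      (Nat.lcm (numX q) (denY q) : ℝ) := by exact_mod_cast h5
  have h7 : (0 : ℝ) < ((∏ u ∈ UU P, u.2 ^ ((N4 (cd4 q u) + 1) / 2) : ℕ) : ℝ) := by
    have : 0 < ∏ u ∈ UU P, u.2 ^ ((N4 (cd4 q u) + 1) / 2) :=
      Finset.prod_pos fun u hu => pow_pos (hP _ _ (mem_UU.1 hu)).pos _
    exact_mod_cast this
  calc 1 / (Nat.lcm (numX q) (denY q) : ℝ) ≤
      1 / ((∏ u ∈ UU P, u.2 ^ ((N4 (cd4 q u) + 1) / 2) : ℕ) : ℝ) := one_div_le_one_div_of_le h7 h6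
    _ = _ := by
      push_cast
      rw [one_div, ← Finset.prod_inv_distrib]
      refine Finset.prod_congr rfl fun u _ => ?_
      rw [one_div, inv_pow]

end


/-- the sum over the codes of four states is at most the product of the local sums -/
lemma sum_code_le {P : ι → Finset ℕ} {j1 j1' j2 j2' j3 j3' j4 j4' : ι → ℕ}
    (Wt : (Σ _ : ι, ℕ) → C4 → ℝ) (hW : ∀ u c, 0 ≤ Wt u c) :
    ∑ q ∈ FS P j1 j1' ×ˢ (FS P j2 j2' ×ˢ (FS P j3 j3' ×ˢ FS P j4 j4')),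
      ∏ u ∈ UU P, Wt u (cd4 q u) ≤ ∏ u ∈ UU P, ∑ c : C4, Wt u c := by
  classical
  have h1 : ∏ u ∈ UU P, ∑ c : C4, Wt u c =
      ∑ g : (UU P → C4), ∏ u : UU P, Wt u (g u) := by
    rw [← Finset.prod_coe_sort (UU P) (fun u => ∑ c : C4, Wt u c), Finset.prod_univ_sum,
      Fintype.piFinset_univ]
  rw [h1]
  let E : ((ι → Finset ℕ × Finset ℕ) × (ι → Finset ℕ × Finset ℕ) × (ι → Finset ℕ × Finset ℕ) ×
    (ι → Finset ℕ × Finset ℕ)) → (UU P → C4) := fun q u => cd4 q u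
  have hinj : Set.InjOn E (FS P j1 j1' ×ˢ (FS P j2 j2' ×ˢ (FS P j3 j3' ×ˢ FS P j4 j4')) :
      Finset _) := by
    intro q hq r hr hqr
    have hq' := Finset.mem_coe.1 hq
    have hr' := Finset.mem_coe.1 hr
    rw [Finset.mem_product, Finset.mem_product, Finset.mem_product] at hq' hr'
    obtain ⟨a1, a2, a3, a4⟩ := hq'
    obtain ⟨b1, b2, b3, b4⟩ := hr'
    have key : ∀ u ∈ UU P, cd4 q u = cd4 r u := fun u hu => congrFun hqr ⟨u, hu⟩
    have e1 : q.1 = r.1 := cd_inj a1 b1 fun u hu => congrArg (fun c : C4 => c.1) (key u hu)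
    have e2 : q.2.1 = r.2.1 := cd_inj a2 b2 fun u hu => congrArg (fun c : C4 => c.2.1) (key u hu)
    have e3 : q.2.2.1 = r.2.2.1 :=
      cd_inj a3 b3 fun u hu => congrArg (fun c : C4 => c.2.2.1) (key u hu)
    have e4 : q.2.2.2 = r.2.2.2 :=
      cd_inj a4 b4 fun u hu => congrArg (fun c : C4 => c.2.2.2) (key u hu)
    exact Prod.ext e1 (Prod.ext e2 (Prod.ext e3 e4))
  have h2 : ∀ q, ∏ u ∈ UU P, Wt u (cd4 q u) = ∏ u : UU P, Wt u (E q u) := fun q =>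
    (Finset.prod_coe_sort (UU P) (fun u => Wt u (cd4 q u))).symm
  rw [Finset.sum_congr rfl fun q _ => h2 q,
    ← Finset.sum_image (f := fun g : (UU P → C4) => ∏ u : UU P, Wt u (g u)) hinj]
  exact Finset.sum_le_sum_of_subset_of_nonneg (Finset.subset_univ _) fun g _ _ =>
    Finset.prod_nonneg fun u _ => hW _ _

/-- **The energy bound.** -/
theorem energy_le {P : ι → Finset ℕ} (hP : ∀ k, ∀ p ∈ P k, p.Prime)
    (hdisj : ∀ k l, k ≠ l → Disjoint (P k) (P l))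
    {j1 j1' j2 j2' j3 j3' j4 j4' L : ι → ℕ} (hj1 : ∀ k, j1 k + j1' k = L k)
    (hj2 : ∀ k, j2 k + j2' k = L k) (hj3 : ∀ k, j3 k + j3' k = L k) (hj4 : ∀ k, j4 k + j4' k = L k)
    (hL : ∀ k, 1 ≤ L k) (w : ι → ℝ) (hw : ∀ k, ∀ p ∈ P k, 1 / (p : ℝ) ≤ w k) (σP : ι → ℝ)
    (hσP : ∀ k, σP k = ∑ p ∈ P k, 1 / (p : ℝ)) (hLw : ∀ k, (L k : ℝ) * w k ≤ σP k)
    (hpos : ∀ k, 0 < σP k) (hσL : ∀ k, σP k ≤ L k) :
    ∑ a ∈ FS P j1 j1', ∑ b ∈ FS P j2 j2', ∑ a' ∈ FS P j3 j3', ∑ b' ∈ FS P j4 j4',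
      (ff a * ff b * ff a' * ff b') * gw nu de a b a' b' ≤
      ∏ k, ((σP k / L k) ^ (2 * L k) * Real.exp (80 * L k)) := by
  have hLr : ∀ k, (0 : ℝ) < L k := fun k => by exact_mod_cast hL k
  -- the Rankin parameters
  let lam : ι → ℝ := fun k => Real.sqrt (L k / σP k)
  have hlam1 : ∀ k, 1 ≤ lam k := fun k => by
    show 1 ≤ Real.sqrt _
    rw [Real.one_le_sqrt, le_div_iff₀ (hpos k), one_mul]
    exact hσL k
  have hlam0 : ∀ k, 0 < lam k := fun k => lt_of_lt_of_le one_pos (hlam1 k)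
  have hlam2 : ∀ k, lam k ^ 2 = L k / σP k := fun k =>
    Real.sq_sqrt (div_nonneg (hLr k).le (hpos k).le)
  let Wt : (Σ _ : ι, ℕ) → C4 → ℝ := fun u c =>
    lam u.1 ^ N4 c * (1 / (u.2 : ℝ)) ^ ((N4 c + 1) / 2)
  have hW : ∀ u c, 0 ≤ Wt u c := fun u c => by
    have := (hlam0 u.1).le
    show 0 ≤ lam u.1 ^ N4 c * (1 / (u.2 : ℝ)) ^ ((N4 c + 1) / 2)
    positivity
  have e0 : ∑ a ∈ FS P j1 j1', ∑ b ∈ FS P j2 j2', ∑ a' ∈ FS P j3 j3', ∑ b' ∈ FS P j4 j4',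
      (ff a * ff b * ff a' * ff b') * gw nu de a b a' b' =
      ∑ q ∈ FS P j1 j1' ×ˢ (FS P j2 j2' ×ˢ (FS P j3 j3' ×ˢ FS P j4 j4')),
        (ff q.1 * ff q.2.1 * ff q.2.2.1 * ff q.2.2.2) * gw nu de q.1 q.2.1 q.2.2.1 q.2.2.2 := by
    rw [Finset.sum_product]
    refine Finset.sum_congr rfl fun a _ => ?_
    rw [Finset.sum_product]
    refine Finset.sum_congr rfl fun b _ => ?_
    rw [Finset.sum_product]
  rw [e0]
  have hcount : ∀ q ∈ FS P j1 j1' ×ˢ (FS P j2 j2' ×ˢ (FS P j3 j3' ×ˢ FS P j4 j4')),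
      ∏ u ∈ UU P, lam u.1 ^ N4 (cd4 q u) = ∏ k, lam k ^ (4 * L k) := by
    intro q hq
    rw [Finset.mem_product, Finset.mem_product, Finset.mem_product] at hq
    obtain ⟨a1, a2, a3, a4⟩ := hq
    unfold UU
    rw [Finset.prod_sigma]
    refine Finset.prod_congr rfl fun k _ => ?_
    show ∏ p ∈ P k, lam k ^ N4 (cd4 q ⟨k, p⟩) = lam k ^ (4 * L k)
    rw [Finset.prod_pow_eq_pow_sum]
    congr 1
    have : ∀ p ∈ P k, N4 (cd4 q ⟨k, p⟩) = nz (cd q.1 ⟨k, p⟩) + nz (cd q.2.1 ⟨k, p⟩) +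
        nz (cd q.2.2.1 ⟨k, p⟩) + nz (cd q.2.2.2 ⟨k, p⟩) := fun p _ => rfl
    rw [Finset.sum_congr rfl this, Finset.sum_add_distrib, Finset.sum_add_distrib,
      Finset.sum_add_distrib, sum_nz a1, sum_nz a2, sum_nz a3, sum_nz a4, hj1, hj2, hj3, hj4]
    ring
  have hΛpos : 0 < ∏ k, lam k ^ (4 * L k) := Finset.prod_pos fun k _ => pow_pos (hlam0 k) _
  have h1 : ∑ q ∈ FS P j1 j1' ×ˢ (FS P j2 j2' ×ˢ (FS P j3 j3' ×ˢ FS P j4 j4')),
      (ff q.1 * ff q.2.1 * ff q.2.2.1 * ff q.2.2.2) * gw nu de q.1 q.2.1 q.2.2.1 q.2.2.2 ≤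
      (∏ k, lam k ^ (4 * L k))⁻¹ *
        ∑ q ∈ FS P j1 j1' ×ˢ (FS P j2 j2' ×ˢ (FS P j3 j3' ×ˢ FS P j4 j4')),
          ∏ u ∈ UU P, Wt u (cd4 q u) := by
    rw [Finset.mul_sum]
    refine Finset.sum_le_sum fun q hq => ?_
    have hq' := hq
    rw [Finset.mem_product, Finset.mem_product, Finset.mem_product] at hq'
    obtain ⟨a1, a2, a3, a4⟩ := hq'
    refine (term_le hP hdisj a1 a2 a3 a4).trans (le_of_eq ?_)
    have h2 : ∏ u ∈ UU P, Wt u (cd4 q u) = (∏ k, lam k ^ (4 * L k)) *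
        ∏ u ∈ UU P, (1 / (u.2 : ℝ)) ^ ((N4 (cd4 q u) + 1) / 2) := by
      rw [← hcount q hq, ← Finset.prod_mul_distrib]
    rw [h2, ← mul_assoc, inv_mul_cancel₀ hΛpos.ne', one_mul]
  refine h1.trans ?_
  have h3 : ∏ u ∈ UU P, ∑ c : C4, Wt u c ≤ ∏ k, Real.exp (80 * L k) := by
    unfold UU
    rw [Finset.prod_sigma]
    refine Finset.prod_le_prod (fun k _ => Finset.prod_nonneg fun p _ =>
      Finset.sum_nonneg fun c _ => hW _ _) fun k _ => ?_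
    calc ∏ p ∈ P k, ∑ c : C4, Wt ⟨k, p⟩ c ≤
        ∏ p ∈ P k, Real.exp (32 * lam k ^ 2 * (1 / (p : ℝ)) + 48 * lam k ^ 4 * (1 / (p : ℝ)) ^ 2) :=
          Finset.prod_le_prod (fun p _ => Finset.sum_nonneg fun c _ => hW _ _) fun p hp =>
            local_le (hlam1 k) (by exact_mod_cast (hP k p hp).pos)
      _ = Real.exp (32 * lam k ^ 2 * (∑ p ∈ P k, 1 / (p : ℝ)) +
          48 * lam k ^ 4 * ∑ p ∈ P k, (1 / (p : ℝ)) ^ 2) := by
            rw [← Real.exp_sum, Finset.sum_add_distrib, Finset.mul_sum, Finset.mul_sum]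
      _ ≤ Real.exp (80 * L k) := by
            refine Real.exp_le_exp.2 ?_
            have h4 : ∑ p ∈ P k, (1 / (p : ℝ)) ^ 2 ≤ w k * σP k := by
              rw [hσP k, Finset.mul_sum]
              refine Finset.sum_le_sum fun p hp => ?_
              rw [sq]
              exact mul_le_mul_of_nonneg_right (hw k p hp) (by positivity)
            have h5 : lam k ^ 4 = (L k / σP k) ^ 2 := by
              rw [← hlam2 k]; ring
            rw [← hσP k, h5, hlam2 k]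
            have hs := hpos k
            have h6 : 32 * (L k / σP k) * σP k = 32 * L k := by field_simp
            have h7 : 48 * ((L k : ℝ) / σP k) ^ 2 * ∑ p ∈ P k, (1 / (p : ℝ)) ^ 2 ≤ 48 * L k := by
              calc 48 * ((L k : ℝ) / σP k) ^ 2 * ∑ p ∈ P k, (1 / (p : ℝ)) ^ 2 ≤
                  48 * ((L k : ℝ) / σP k) ^ 2 * (w k * σP k) := by gcongr
                _ = 48 * (L k / σP k) * (L k * w k) := by field_simp
                _ ≤ 48 * (L k / σP k) * σP k := by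
                    have := hLw k
                    have h8 : (0 : ℝ) ≤ 48 * (L k / σP k) :=
                      mul_nonneg (by norm_num) (div_nonneg (hLr k).le hs.le)
                    exact mul_le_mul_of_nonneg_left this h8
                _ = 48 * L k := by field_simp
            linarith
  calc (∏ k, lam k ^ (4 * L k))⁻¹ *
        ∑ q ∈ FS P j1 j1' ×ˢ (FS P j2 j2' ×ˢ (FS P j3 j3' ×ˢ FS P j4 j4')),
          ∏ u ∈ UU P, Wt u (cd4 q u) ≤ (∏ k, lam k ^ (4 * L k))⁻¹ * ∏ k, Real.exp (80 * L k) :=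
        mul_le_mul_of_nonneg_left ((sum_code_le Wt hW).trans h3) (inv_nonneg.2 hΛpos.le)
    _ = ∏ k, ((σP k / L k) ^ (2 * L k) * Real.exp (80 * L k)) := by
        rw [Finset.prod_mul_distrib, ← Finset.prod_inv_distrib]
        congr 1
        refine Finset.prod_congr rfl fun k _ => ?_
        have h9 : 4 * L k = 2 * (2 * L k) := by ring
        rw [h9, pow_mul, hlam2 k, ← inv_pow, inv_div]

end

end Pool.Agent.H.MP_3e6494_nt.H14
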