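import Mathlib

/-!
The size of an exceptional set built from dyadic levels.
-/

open Finset Filter

set_option linter.unusedVariables false

namespace Pool.Agent.H.MP_3e6494_nt.A14

theorem exc_total (bad : ℕ → ℕ → Prop) (s s' : ℝ) (hs : 0 ≤ s) (hss : s < s') (k₀ : ℕ)
    (hlev : ∀ k, k₀ ≤ k → ∃ 𝒮 : Finset ℕ, (∀ q : ℕ, q.Prime → bad k q → q ∈ 𝒮) ∧
      (𝒮.card : ℝ) ≤ ((2 : ℝ) ^ k) ^ s) :
    ∃ x₀ : ℕ, ∀ x : ℕ, x₀ ≤ x →
      (({q : ℕ | q.Prime ∧ k₀ ≤ Nat.log 2 q ∧ bad (Nat.log 2 q) q} ∩ Set.Icc 1 x).ncard : ℝ) ≤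
        (x : ℝ) ^ s' := by
  classical
  have hev : ∀ᶠ x : ℝ in atTop, (Real.log x / Real.log 2 + 1) ≤ x ^ (s' - s) ∧ 1 ≤ x := by
    have h1 : ∀ᶠ x : ℝ in atTop, Real.log x / Real.log 2 + 1 ≤ 4 * Real.log x := by
      filter_upwards [Real.tendsto_log_atTop.eventually_ge_atTop (1 : ℝ)] with x hx
      have h2 : (1 / 2 : ℝ) ≤ Real.log 2 := by linarith [Real.log_two_gt_d9]
      have h3 : Real.log x / Real.log 2 ≤ 2 * Real.log x := by
        rw [div_le_iff₀ (by linarith)]; nlinarith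
      linarith
    have h2 := (isLittleO_log_rpow_atTop (r := s' - s) (by linarith)).bound
      (show (0 : ℝ) < 1 / 4 by norm_num)
    filter_upwards [h1, h2, Real.tendsto_log_atTop.eventually_ge_atTop (1 : ℝ),
      eventually_ge_atTop (1 : ℝ)] with x a1 a2 a3 a4
    refine ⟨?_, a4⟩
    rw [Real.norm_of_nonneg (by linarith), Real.norm_of_nonneg (by positivity)] at a2
    linarith
  obtain ⟨x₁, hx₁⟩ := eventually_atTop.1 hev
  refine ⟨⌈x₁⌉₊, fun x hx => ?_⟩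
  have hxr : x₁ ≤ (x : ℝ) := (Nat.le_ceil _).trans (by exact_mod_cast hx)
  obtain ⟨hb1, hb2⟩ := hx₁ x hxr
  have hx1 : 1 ≤ x := by exact_mod_cast hb2
  have hx0 : (0 : ℝ) < x := by linarith
  choose! 𝒮 h𝒮 using hlev
  set K := Nat.log 2 x with hK
  have hsub : {q : ℕ | q.Prime ∧ k₀ ≤ Nat.log 2 q ∧ bad (Nat.log 2 q) q} ∩ Set.Icc 1 x ⊆
      (((Finset.Icc k₀ K).biUnion 𝒮 : Finset ℕ) : Set ℕ) := by
    rintro q ⟨⟨hq, hk, hbad⟩, hq1, hqx⟩
    rw [Finset.mem_coe, Finset.mem_biUnion]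
    refine ⟨Nat.log 2 q, Finset.mem_Icc.2 ⟨hk, Nat.log_mono_right hqx⟩, ?_⟩
    exact (h𝒮 _ hk).1 q hq hbad
  have h1 : (({q : ℕ | q.Prime ∧ k₀ ≤ Nat.log 2 q ∧ bad (Nat.log 2 q) q} ∩ Set.Icc 1 x).ncard : ℝ)
      ≤ (((Finset.Icc k₀ K).biUnion 𝒮).card : ℝ) := by
    have := Set.ncard_le_ncard hsub (Finset.finite_toSet _)
    rw [Set.ncard_coe_finset] at this
    exact_mod_cast this
  refine h1.trans ?_
  have h2 : (((Finset.Icc k₀ K).biUnion 𝒮).card : ℝ) ≤ ∑ k ∈ Finset.Icc k₀ K, ((𝒮 k).card : ℝ) := by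
    exact_mod_cast Finset.card_biUnion_le
  refine h2.trans ?_
  have hQx : ((2 : ℝ) ^ K) ≤ x := by
    exact_mod_cast Nat.pow_log_le_self 2 (by omega : x ≠ 0)
  have hKle : (K : ℝ) ≤ Real.log x / Real.log 2 := by
    rw [le_div_iff₀ (Real.log_pos (by norm_num)), ← Real.log_pow]
    exact Real.log_le_log (by positivity) hQx
  calc ∑ k ∈ Finset.Icc k₀ K, ((𝒮 k).card : ℝ)
      ≤ ∑ k ∈ Finset.Icc k₀ K, (x : ℝ) ^ s := by
        apply Finset.sum_le_sum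
        intro k hk
        rw [Finset.mem_Icc] at hk
        refine (h𝒮 k hk.1).2.trans ?_
        have h3 : ((2 : ℝ) ^ k) ≤ x := (pow_le_pow_right₀ (by norm_num) hk.2).trans hQx
        gcongr
    _ = ((Finset.Icc k₀ K).card : ℝ) * (x : ℝ) ^ s := by
        rw [Finset.sum_const, nsmul_eq_mul]
    _ ≤ ((K : ℝ) + 1) * (x : ℝ) ^ s := by
        have h3 : ((Finset.Icc k₀ K).card : ℝ) ≤ (K : ℝ) + 1 := by
          rw [Nat.card_Icc]
          have : K + 1 - k₀ ≤ K + 1 := Nat.sub_le _ _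
          exact_mod_cast this
        gcongr
    _ ≤ (Real.log x / Real.log 2 + 1) * (x : ℝ) ^ s := by gcongr
    _ ≤ (x : ℝ) ^ (s' - s) * (x : ℝ) ^ s := by gcongr
    _ = (x : ℝ) ^ s' := by
        rw [← Real.rpow_add hx0]; congr 1; ring

end Pool.Agent.H.MP_3e6494_nt.A14
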