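import Mathlib
import Pool.Agent.H.MP_3e6494_nt.helper14.Lev14

/-!
Numerics at one prime.
-/

open Finset Filter

set_option linter.unusedSectionVars false
set_option linter.unusedVariables false

namespace Pool.Agent.H.MP_3e6494_nt.A14

open Pool.Agent.H.MP_3e6494_nt.H14 (ResoR)

open Pool.Agent.H.MP_3e6494_nt.T3Exc

variable {r : ℕ} {κ ν ε : ℝ} {k : ℕ} {q : ℕ} [hq : Fact q.Prime]

lemma one_add_log_le (hk : Nat.log 2 q = k) : 1 + Real.log q ≤ (k : ℝ) + 2 := by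
  have hq0 : (0 : ℝ) < q := by exact_mod_cast hq.out.pos
  have h1 := T3Prime.q_lt q
  have h2 := Real.log_le_log hq0 h1
  rw [Real.log_pow, hk] at h2
  push_cast at h2
  have hl21 : Real.log 2 < 1 := by linarith [Real.log_two_lt_d9]
  have hl2 : 0 < Real.log 2 := Real.log_pos (by norm_num)
  have hk0 : (0 : ℝ) ≤ k := Nat.cast_nonneg _
  nlinarith

lemma len_le (hk : Nat.log 2 q = k) : (Final.len q : ℝ) ≤ q * ((k : ℝ) + 2) ^ 2 + 1 := by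
  have h0 := Final.log_nonneg' (q := q)
  have h1 : (Final.len q : ℝ) < (q : ℝ) * (1 + Real.log q) ^ 2 + 1 :=
    Nat.ceil_lt_add_one (by positivity)
  have h2 := one_add_log_le hk
  have h3 : (1 + Real.log q) ^ 2 ≤ ((k : ℝ) + 2) ^ 2 := pow_le_pow_left₀ (by linarith) h2 2
  have hq0 : (0 : ℝ) ≤ q := Nat.cast_nonneg _
  nlinarith

lemma len_div_le (hk : Nat.log 2 q = k) :
    ((Final.len q / q + 1 : ℕ) : ℝ) ≤ ((k : ℝ) + 2) ^ 2 + 3 := by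
  have hq0 : (0 : ℝ) < q := by exact_mod_cast hq.out.pos
  have hq1 : (1 : ℝ) ≤ q := by exact_mod_cast hq.out.one_lt.le
  have h1 := len_le hk
  have h2 : ((Final.len q / q : ℕ) : ℝ) ≤ (Final.len q : ℝ) / q := Nat.cast_div_le
  have h3 : (Final.len q : ℝ) / q ≤ ((k : ℝ) + 2) ^ 2 + 1 := by
    rw [div_le_iff₀ hq0]
    nlinarith
  push_cast
  linarith

/-- numerics of the number of exceptional characters -/
theorem num_one (hε : 0 < ε) (hεν : 32 * ε ≤ ν) (hν : ν < 1 / 4)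
    (h : Cnd r κ ν ε k) (hk : Nat.log 2 q = k) :
    q * (Real.exp (Vk ν ε k) ^ 2 * (((Final.len q / q + 1 : ℕ) : ℝ) *
      (4 * (((3 * k : ℕ) : ℝ) + 1) * (((((3 * k : ℕ) : ℝ) + 1) ^ (r - 1) + 1) / (Zq ν k) +
        ((2 : ℝ) ^ k) ^ (-(2 * ν - ε)))))) +
      2 * Real.sqrt (Final.len q) * Real.exp (Vk ν ε k) ≤ (q : ℝ) ^ (1 - ε / 4) := by
  have hq0 : (0 : ℝ) < q := by exact_mod_cast hq.out.pos
  have hq1 : (1 : ℝ) ≤ q := by exact_mod_cast hq.out.one_lt.le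
  have hk1 := h.k1
  set Q : ℝ := (2 : ℝ) ^ k with hQ
  have hQ1 : 1 ≤ Q := one_le_pow₀ (by norm_num)
  have hQ0 : 0 < Q := by linarith
  have hQ2 : 2 ≤ Q := by
    calc (2 : ℝ) = 2 ^ 1 := by norm_num
      _ ≤ 2 ^ k := pow_le_pow_right₀ (by norm_num) hk1
  have hQq : Q ≤ q := by
    have := T3Prime.Q_le (q := q) hq.out.ne_zero
    rw [hk] at this; exact this
  have hqQ : (q : ℝ) ≤ Q ^ (2 : ℝ) := by
    have h1 := T3Prime.q_lt q
    rw [hk, pow_succ, ← hQ] at h1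
    have e : Q ^ (2 : ℝ) = Q * Q := by
      rw [show (2 : ℝ) = ((2 : ℕ) : ℝ) by norm_num, Real.rpow_natCast, sq]
    rw [e]
    nlinarith
  have hkr : (1 : ℝ) ≤ k := by exact_mod_cast hk1
  rw [exp_Vk]
  set L : ℝ := (3 * (k : ℝ) + 1) ^ (r - 1) + 1 with hL
  have hL0 : 0 < L := by rw [hL]; positivity
  have hcast : (((3 * k : ℕ) : ℝ) + 1) = 3 * (k : ℝ) + 1 := by push_cast; ring
  rw [hcast]
  -- the reciprocal of Z
  set y : ℝ := Q ^ (2 * ν) with hy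
  have hy0 : 0 < y := by rw [hy]; positivity
  have hy2 : 2 ≤ y := by
    have := h.c2
    rw [← hQ, ← hy] at this
    nlinarith
  have hZ : y / 2 ≤ (Zq ν k : ℝ) := by
    have h1 : y < (Zq ν k : ℝ) + 1 := Nat.lt_floor_add_one _
    linarith
  have hZ0 : (0 : ℝ) < Zq ν k := by linarith
  have hyinv : y⁻¹ = Q ^ (-(2 * ν)) := by rw [hy, Real.rpow_neg hQ0.le]
  have hZi : L / (Zq ν k) ≤ (2 * L) * Q ^ (-(2 * ν - ε)) := by
    have h1 : L / (Zq ν k : ℝ) ≤ L / (y / 2) := div_le_div_of_nonneg_left hL0.le (by positivity) hZ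
    have h2 : L / (y / 2) = (2 * L) * Q ^ (-(2 * ν)) := by
      rw [← hyinv]; field_simp
    have h3 : Q ^ (-(2 * ν)) ≤ Q ^ (-(2 * ν - ε)) :=
      Real.rpow_le_rpow_of_exponent_le hQ1 (by linarith)
    calc L / (Zq ν k : ℝ) ≤ (2 * L) * Q ^ (-(2 * ν)) := by rw [← h2]; exact h1
      _ ≤ _ := mul_le_mul_of_nonneg_left h3 (by positivity)
  -- first part
  have hpart1 : q * ((Q ^ (ν - ε)) ^ 2 * (((Final.len q / q + 1 : ℕ) : ℝ) *
      (4 * (3 * (k : ℝ) + 1) * (L / (Zq ν k) + Q ^ (-(2 * ν - ε)))))) ≤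
      (1 / 2) * (q : ℝ) ^ (1 - ε / 4) := by
    have h1 := len_div_le (q := q) hk
    have h2 : q * ((Q ^ (ν - ε)) ^ 2 * (((Final.len q / q + 1 : ℕ) : ℝ) *
      (4 * (3 * (k : ℝ) + 1) * (L / (Zq ν k) + Q ^ (-(2 * ν - ε)))))) ≤
        q * ((Q ^ (ν - ε)) ^ 2 * ((((k : ℝ) + 2) ^ 2 + 3) *
      (4 * (3 * (k : ℝ) + 1) * ((2 * L) * Q ^ (-(2 * ν - ε)) + Q ^ (-(2 * ν - ε)))))) := by
      gcongr
    refine h2.trans ?_
    have e1 : (Q ^ (ν - ε)) ^ 2 * Q ^ (-(2 * ν - ε)) = Q ^ (-ε) := by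
      rw [← Real.rpow_natCast, ← Real.rpow_mul hQ0.le, ← Real.rpow_add hQ0]
      congr 1; push_cast; ring
    have e2 : q * ((Q ^ (ν - ε)) ^ 2 * ((((k : ℝ) + 2) ^ 2 + 3) *
      (4 * (3 * (k : ℝ) + 1) * ((2 * L) * Q ^ (-(2 * ν - ε)) + Q ^ (-(2 * ν - ε)))))) =
        q * (((((k : ℝ) + 2) ^ 2 + 3) * (4 * (3 * (k : ℝ) + 1) * (2 * L + 1))) *
          ((Q ^ (ν - ε)) ^ 2 * Q ^ (-(2 * ν - ε)))) := by ring
    rw [e2, e1]
    have h3 := h.c4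
    rw [← hQ, ← hL] at h3
    have h4 : (((((k : ℝ) + 2) ^ 2 + 3) * (4 * (3 * (k : ℝ) + 1) * (2 * L + 1))) * Q ^ (-ε)) ≤
        (1 / 2) * Q ^ (-(ε / 2)) := by
      have h5 : ((((k : ℝ) + 2) ^ 2 + 3) * (4 * (3 * (k : ℝ) + 1) * (2 * L + 1))) ≤
          (1 / 2) * Q ^ (ε / 2) := by linarith
      calc _ ≤ ((1 / 2) * Q ^ (ε / 2)) * Q ^ (-ε) := by gcongr
        _ = (1 / 2) * (Q ^ (ε / 2) * Q ^ (-ε)) := by ring
        _ = _ := by
            rw [← Real.rpow_add hQ0]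
            congr 2; ring
    have h6 : Q ^ (-(ε / 2)) ≤ (q : ℝ) ^ (-(ε / 4)) := by
      rw [Real.rpow_neg hQ0.le, Real.rpow_neg hq0.le]
      apply inv_anti₀ (by positivity)
      calc (q : ℝ) ^ (ε / 4) ≤ (Q ^ (2 : ℝ)) ^ (ε / 4) :=
            Real.rpow_le_rpow hq0.le hqQ (by positivity)
        _ = Q ^ (ε / 2) := by
            rw [← Real.rpow_mul hQ0.le]
            congr 1; ring
    calc q * (((((k : ℝ) + 2) ^ 2 + 3) * (4 * (3 * (k : ℝ) + 1) * (2 * L + 1))) * Q ^ (-ε))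
        ≤ q * ((1 / 2) * Q ^ (-(ε / 2))) := by gcongr
      _ ≤ q * ((1 / 2) * (q : ℝ) ^ (-(ε / 4))) := by gcongr
      _ = (1 / 2) * ((q : ℝ) ^ (1 : ℝ) * (q : ℝ) ^ (-(ε / 4))) := by rw [Real.rpow_one]; ring
      _ = (1 / 2) * (q : ℝ) ^ (1 - ε / 4) := by
          rw [← Real.rpow_add hq0]
          congr 2
  -- second part
  have hpart2 : 2 * Real.sqrt (Final.len q) * Q ^ (ν - ε) ≤ (1 / 2) * (q : ℝ) ^ (1 - ε / 4) := by
    have h1 := Final.sqrt_len_le (q := q)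
    have h2 := one_add_log_le (q := q) hk
    have h0 := Final.log_nonneg' (q := q)
    have h3 : Q ^ (ν - ε) ≤ (q : ℝ) ^ (1 / 4 : ℝ) := by
      calc Q ^ (ν - ε) ≤ Q ^ (1 / 4 : ℝ) := Real.rpow_le_rpow_of_exponent_le hQ1 (by linarith)
        _ ≤ _ := Real.rpow_le_rpow hQ0.le hQq (by norm_num)
    have h4 : 6 * ((k : ℝ) + 2) ≤ (q : ℝ) ^ (1 / 8 : ℝ) := by
      refine h.c5.trans ?_
      exact Real.rpow_le_rpow (by positivity) hQq (by norm_num)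
    have hsq : Real.sqrt q = (q : ℝ) ^ (1 / 2 : ℝ) := Real.sqrt_eq_rpow _
    calc 2 * Real.sqrt (Final.len q) * Q ^ (ν - ε)
        ≤ 2 * ((3 / 2) * (Real.sqrt q * (1 + Real.log q))) * (q : ℝ) ^ (1 / 4 : ℝ) := by gcongr
      _ ≤ 2 * ((3 / 2) * (Real.sqrt q * ((k : ℝ) + 2))) * (q : ℝ) ^ (1 / 4 : ℝ) := by gcongr
      _ = (1 / 2) * ((6 * ((k : ℝ) + 2)) * ((q : ℝ) ^ (1 / 2 : ℝ) * (q : ℝ) ^ (1 / 4 : ℝ))) := by
          rw [hsq]; ring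
      _ ≤ (1 / 2) * ((q : ℝ) ^ (1 / 8 : ℝ) * ((q : ℝ) ^ (1 / 2 : ℝ) * (q : ℝ) ^ (1 / 4 : ℝ))) := by
          gcongr
      _ = (1 / 2) * (q : ℝ) ^ (1 / 8 + (1 / 2 + 1 / 4) : ℝ) := by
          rw [← Real.rpow_add hq0, ← Real.rpow_add hq0]
      _ ≤ (1 / 2) * (q : ℝ) ^ (1 - ε / 4) := by
          apply mul_le_mul_of_nonneg_left _ (by norm_num)
          apply Real.rpow_le_rpow_of_exponent_le hq1
          linarith
  have hfinal : q * ((Q ^ (ν - ε)) ^ 2 * (((Final.len q / q + 1 : ℕ) : ℝ) *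
      (4 * (3 * (k : ℝ) + 1) * (L / (Zq ν k) + Q ^ (-(2 * ν - ε)))))) +
      2 * Real.sqrt (Final.len q) * Q ^ (ν - ε) ≤ (q : ℝ) ^ (1 - ε / 4) := by
    linarith
  exact hfinal

end Pool.Agent.H.MP_3e6494_nt.A14
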