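import Mathlib
import Pool.Agent.H.MP_3e6494_nt.helper14.Num14

/-!
The level theorem: all primes of a dyadic interval outside a small set.
-/

open Finset Filter

set_option linter.unusedSectionVars false
set_option linter.unusedVariables false

namespace Pool.Agent.H.MP_3e6494_nt.A14

open Pool.Agent.H.MP_3e6494_nt.H14 (ResoR)

open Pool.Agent.H.MP_3e6494_nt.Class Pool.Agent.H.MP_3e6494_nt.T3Cnt
  Pool.Agent.H.MP_3e6494_nt.T3Exc
open Pool.Agent.H.MP_3e6494_nt.h26t (pivots_level tail_level)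
open Pool.Agent.H.MP_3e6494_nt.T3Prime (u u_val u_mul u_one index_le q_lt Q_le)

theorem level {r : ℕ} {κ ν ε : ℝ} {k : ℕ} (hr : 1 ≤ r) (hκ0 : 0 ≤ κ) (hκ1 : κ ≤ 1) (hν0 : 0 < ν)
    (hε : 0 < ε) (hεν : 32 * ε ≤ ν) (hs : κ * (1 + 1 / r) + 4 * r * ν < 1)
    (h : Cnd r κ ν ε k) {G : ℝ} (R : ResoR r (Vk ν ε k) G) :
    ∃ 𝒮 : Finset ℕ, (𝒮.card : ℝ) ≤ ((2 : ℝ) ^ k) ^ (κ * (1 + 1 / r) + 4 * r * ν - ε) ∧
      ∀ (q : ℕ) [Fact q.Prime], Nat.log 2 q = k → q ∉ 𝒮 →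
      ∀ H : Subgroup (DirichletCharacter ℂ q), (q : ℝ) ^ (1 - κ) ≤ Nat.card H →
      ∀ VL : ℝ, 0 ≤ VL → 4 ^ r * (VL + 2) + 2 ≤ Real.exp G →
      ({χ₀ : DirichletCharacter ℂ q | ∀ ψ ∈ H, χ₀ * ψ ≠ 1 →
        ‖(χ₀ * ψ).LFunction (1 / 2)‖ ≤ VL}.ncard : ℝ) ≤ (q : ℝ) ^ (1 - ε / 4) := by
  classical
  have hr1 : (1 : ℝ) ≤ r := by exact_mod_cast hr
  have hν : ν < 1 / 4 := by
    have h1 : 0 ≤ κ * (1 + 1 / r) := by positivity
    nlinarith
  obtain ⟨𝒮₁, hc₁, h₁⟩ := pivots_level κ hκ0 hκ1 r k hr (Phi R (Zq ν k)) (5 * k ^ 2)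
    (Phi_entries hε hεν hν.le h.k1 R)
  obtain ⟨𝒮₂, hc₂, h₂⟩ := tail_level κ (2 * ν - ε) hκ0 hκ1 (by linarith) r k (3 * k) hr
  refine ⟨𝒮₁ ∪ 𝒮₂, ?_, ?_⟩
  · have h3 : ((𝒮₁ ∪ 𝒮₂).card : ℝ) ≤ 𝒮₁.card + 𝒮₂.card := by
      exact_mod_cast Finset.card_union_le _ _
    refine h3.trans (le_trans (add_le_add ?_ hc₂) h.c0)
    refine hc₁.trans ?_
    have h4 := card_Phi R (Zq ν k)
    gcongr
  intro q _ hk hq H hH VL hVL hG
  have hqp : q.Prime := Fact.out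
  have hq0 : (0 : ℝ) < q := by exact_mod_cast hqp.pos
  have hq1 : (1 : ℝ) ≤ q := by exact_mod_cast hqp.one_lt.le
  rw [Finset.mem_union, not_or] at hq
  set Q : ℝ := (2 : ℝ) ^ k with hQ
  have hQ1 : 1 ≤ Q := one_le_pow₀ (by norm_num)
  have hQ0 : 0 < Q := by linarith
  have hQ2 : 2 ≤ Q := by
    calc (2 : ℝ) = 2 ^ 1 := by norm_num
      _ ≤ 2 ^ k := pow_le_pow_right₀ (by norm_num) h.k1
  have hQq : Q ≤ q := by
    have := Q_le (q := q) hqp.ne_zero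
    rw [hk] at this; exact this
  have hqk : q < 2 ^ (k + 1) := by
    rw [← hk]; exact Nat.lt_pow_succ_log_self (by norm_num) q
  have hkr : (1 : ℝ) ≤ k := by exact_mod_cast h.k1
  have hV0 := Vk_nonneg (k := k) hε hεν
  have hVle := Vk_le (k := k) hε hεν (by linarith)
  have hV2 : (Vk ν ε k) ^ 2 ≤ (k : ℝ) ^ 2 := pow_le_pow_left₀ hV0 hVle 2
  have hVq : (Vk ν ε k) ^ 2 < q := by
    have h1 := h.c1
    nlinarith
  have hKc := index_le (κ := κ) H hH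
  -- the length
  have hlenq : (q : ℝ) ≤ Final.len q := Final.q_le_len
  have hlen3 : Final.len q ≤ 2 ^ (3 * k) := by
    have h1 := len_le (q := q) hk
    have h2 : (q : ℝ) ≤ 2 * Q := by
      have := q_lt q
      rw [hk, pow_succ, ← hQ] at this
      linarith
    have h3 := h.c1
    have h4 : (Final.len q : ℝ) ≤ Q * Q * Q := by
      have h5 : ((k : ℝ) + 2) ^ 2 ≤ Q - 3 := by linarith
      have h6 : (q : ℝ) * ((k : ℝ) + 2) ^ 2 ≤ (2 * Q) * (Q - 3) := by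
        apply mul_le_mul h2 h5 (by positivity) (by positivity)
      nlinarith
    have e : Q * Q * Q = (2 : ℝ) ^ (3 * k) := by
      rw [hQ, ← pow_add, ← pow_add]
      congr 1; ring
    rw [e] at h4
    exact_mod_cast h4
  -- Z
  set y : ℝ := Q ^ (2 * ν) with hy
  have hZfl : (Zq ν k : ℝ) ≤ y := Nat.floor_le (by positivity)
  have hZlt : y < (Zq ν k : ℝ) + 1 := Nat.lt_floor_add_one _
  have hc2 := h.c2
  rw [← hQ, ← hy] at hc2
  have hk2Z : (k : ℝ) ^ 2 < Zq ν k := by linarith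
  have hZ1 : 1 ≤ Zq ν k := by
    have : (0 : ℝ) < Zq ν k := by nlinarith
    exact_mod_cast this
  have hZV : Real.exp (2 * Vk ν ε k) ≤ Zq ν k := by
    have e : Real.exp (2 * Vk ν ε k) = Q ^ (2 * ν - 2 * ε) := by
      rw [two_mul, Real.exp_add, exp_Vk, ← hQ, ← Real.rpow_add hQ0]
      congr 1; ring
    rw [e]
    have h1 := h.c3
    rw [← hQ, ← hy] at h1
    linarith
  have hyQ : y ≤ Q := by
    calc y ≤ Q ^ (1 : ℝ) := Real.rpow_le_rpow_of_exponent_le hQ1 (by linarith)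
      _ = Q := Real.rpow_one _
  have hZq : Zq ν k ≤ q := by
    have : (Zq ν k : ℝ) ≤ q := by linarith
    exact_mod_cast this
  have hqlen : q ≤ Final.len q := by exact_mod_cast hlenq
  -- coprimality of the family
  have hcop : ∀ m : ℕ, m ∈ Finset.Icc 1 (Zq ν k) → ∀ a b : R.α, (a ∈ R.S ∨ a ∈ R.T) →
      (b ∈ R.S ∨ b ∈ R.T) → m.Coprime q →
      (m * R.nu a * R.de b).Coprime q ∧ (R.de a * R.nu b).Coprime q := by
    intro m hm a b ha hb hmc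
    obtain ⟨ca1, ca2⟩ := R.cop a ha q hqp hVq
    obtain ⟨cb1, cb2⟩ := R.cop b hb q hqp hVq
    exact ⟨Nat.Coprime.mul_left (Nat.Coprime.mul_left hmc ca1) cb2, Nat.Coprime.mul_left ca2 cb1⟩
  obtain ⟨D, hDr, hDp, hDpiv⟩ := h₁ q hqk hq.1 (K H) hKc
  have hDprime : ∀ p ∈ D, p.Prime := fun p hp => (hDp p hp).1
  -- the size of the deleted primes
  have hDle : ∀ p ∈ D, p ≤ Zq ν k := by
    intro p hp
    obtain ⟨hpp, z, hz, -, -, hdvd⟩ := hDp p hp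
    obtain ⟨m, a, b, ⟨m1, m2⟩, ha, hb, rfl⟩ := mem_Phi.1 hz
    by_contra hlt
    push Not at hlt
    have hVp : (Vk ν ε k) ^ 2 < p := by
      have : (Zq ν k : ℝ) < p := by exact_mod_cast hlt
      linarith
    obtain ⟨ca1, ca2⟩ := R.cop a ha p hpp hVp
    obtain ⟨cb1, cb2⟩ := R.cop b hb p hpp hVp
    have hnd : ∀ n : ℕ, n.Coprime p → ¬ p ∣ n := fun n hn hd =>
      (Nat.Prime.coprime_iff_not_dvd hpp).1 hn.symm hd
    rcases hdvd with hd | hd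
    · rcases hpp.dvd_mul.1 hd with h1 | h1
      · rcases hpp.dvd_mul.1 h1 with h2 | h2
        · have := Nat.le_of_dvd m1 h2
          omega
        · exact hnd _ ca1 h2
      · exact hnd _ cb2 h1
    · rcases hpp.dvd_mul.1 hd with h1 | h1
      · exact hnd _ ca2 h1
      · exact hnd _ cb1 h1
  have hDX : ∏ p ∈ D, p ≤ Final.len q := by
    have h3 : ∏ p ∈ D, p ≤ (Zq ν k) ^ D.card := by
      apply Finset.prod_le_pow_card
      exact hDle
    have h4 : (Zq ν k) ^ D.card ≤ (Zq ν k) ^ r := Nat.pow_le_pow_right hZ1 hDr.le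
    have h5 : ((Zq ν k : ℝ)) ^ r ≤ q := by
      calc ((Zq ν k : ℝ)) ^ r ≤ y ^ r := pow_le_pow_left₀ (Nat.cast_nonneg _) hZfl r
        _ = Q ^ (2 * ν * r) := by
            rw [hy, ← Real.rpow_natCast, ← Real.rpow_mul hQ0.le]
        _ ≤ Q ^ (1 : ℝ) := by
            apply Real.rpow_le_rpow_of_exponent_le hQ1
            have h1 : 0 ≤ κ * (1 + 1 / r) := by positivity
            nlinarith
        _ = Q := Real.rpow_one _
        _ ≤ q := hQq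
    have h6 : (Zq ν k) ^ r ≤ q := by exact_mod_cast h5
    exact h3.trans (h4.trans (h6.trans hqlen))
  have hdel : ∀ m ∈ Finset.Icc 1 (Zq ν k), m.Coprime q → ∀ a b : R.α, (a ∈ R.S ∨ a ∈ R.T) →
      (b ∈ R.S ∨ b ∈ R.T) →
      u q (m * R.nu a * R.de b) * (u q (R.de a * R.nu b))⁻¹ ∈ K H →
      (∀ p ∈ D, ¬ p ∣ m * R.nu a * R.de b ∧ ¬ p ∣ R.de a * R.nu b) →
      m * R.nu a * R.de b = R.de a * R.nu b := by
    intro m hm hmc a b ha hb hk' hnd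
    obtain ⟨c1, c2⟩ := hcop m hm a b ha hb hmc
    have hz : ((m * R.nu a * R.de b, R.de a * R.nu b) : ℕ × ℕ) ∈ Phi R (Zq ν k) :=
      mem_Phi.2 ⟨m, a, b, Finset.mem_Icc.1 hm, ha, hb, rfl⟩
    refine hDpiv _ hz c1 c2 hk' ?_
    intro p hp
    obtain ⟨n1, n2⟩ := hnd p hp
    show (m * R.nu a * R.de b).factorization p = (R.de a * R.nu b).factorization p
    rw [Nat.factorization_eq_zero_of_not_dvd n1, Nat.factorization_eq_zero_of_not_dvd n2]
  have hτ := fun c => h₂ q hqk hq.2 (K H) hKc c (Final.len q) (Zq ν k) hlen3 hZ1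
  have hmain := one_prime R hVq H (Zq ν k) hZ1 hZV (hZq.trans hqlen) D hDprime hDr.le hDX hdel
    hτ hVL hG
  exact hmain.trans (num_one hε hεν hν h hk)

end Pool.Agent.H.MP_3e6494_nt.A14
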