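import Pool.Agent.H.MP_3e6494_nt.helper14.ResoRDef
import Pool.Agent.H.MP_3e6494_nt.helper50.T3Fam

/-!
The two-sided combinatorial resonator, robust under the removal of up to `r` primes.
-/

open Finset

set_option autoImplicit false
set_option linter.unusedSectionVars false
set_option linter.unusedVariables false

namespace Pool.Agent.H.MP_3e6494_nt.H14

open Pool.Agent.H.MP_3e6494_nt.H15
open Pool.Agent.H.MP_3e6494_nt.T3Fam

section

variable {ι : Type} [Fintype ι] [DecidableEq ι]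

lemma FS_mono {P P' : ι → Finset ℕ} (h : ∀ k, P' k ⊆ P k) (j j' : ι → ℕ) :
    FS P' j j' ⊆ FS P j j' := by
  intro x hx
  rw [mem_FS] at hx ⊢
  intro k
  exact ⟨⟨(hx k).1.1.trans (h k), (hx k).1.2⟩, ⟨(hx k).2.1.1.trans (h k), (hx k).2.1.2⟩, (hx k).2.2⟩

lemma not_dvd_Phi {P : ι → Finset ℕ} (hP : ∀ k, ∀ p ∈ P k, p.Prime) {T : ι → Finset ℕ}
    (hT : ∀ k, T k ⊆ P k) {p : ℕ} (hp : p.Prime) (hpP : ∀ k, p ∉ P k) : ¬ p ∣ Phi T := by
  intro h
  unfold Phi at h
  rw [Prime.dvd_finset_prod_iff hp.prime] at h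
  obtain ⟨k, _, hk⟩ := h
  rw [Prime.dvd_finset_prod_iff hp.prime] at hk
  obtain ⟨q, hq, hpq⟩ := hk
  have hqp := hP k q (hT k hq)
  rw [Nat.prime_dvd_prime_iff_eq hp hqp] at hpq
  rw [hpq] at hpP
  exact hpP k (hT k hq)

end

theorem resoR_of_blocks {r : ℕ} {V G : ℝ} (hV1 : 1 ≤ V) (bl : BlocksR r V G) :
    Nonempty (ResoR r V G) := by
  classical
  let ι := bl.I
  have e1 : ∀ (f : ℕ → ℝ), ∏ k : ι, f k = ∏ k ∈ bl.I, f k := fun f => Finset.prod_coe_sort bl.I f
  have e2 : ∀ (f : ℕ → ℕ), ∏ k : ι, f k = ∏ k ∈ bl.I, f k := fun f => Finset.prod_coe_sort bl.I f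
  let P : ι → Finset ℕ := fun k => bl.P k
  let J : ι → ℕ := fun k => bl.J k
  let i : ι → ℕ := fun k => bl.i k
  have hP : ∀ k : ι, ∀ p ∈ P k, p.Prime := fun k p hp => bl.prime k k.2 p hp
  have hdisj : ∀ k l : ι, k ≠ l → Disjoint (P k) (P l) :=
    fun k l hkl => bl.disj k k.2 l l.2 (fun h => hkl (Subtype.ext h))
  have hJ : ∀ k : ι, 2 * J k ≤ (P k).card := fun k => bl.card k k.2
  have hPV : ∀ k : ι, ∀ p ∈ P k, (p : ℝ) ≤ V ^ 2 := by
    intro k p hp
    have h1 := bl.leY k k.2 p hp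
    have h2 := bl.Ysmall k k.2
    have h3 : (p : ℝ) ≤ bl.Y k := by exact_mod_cast h1
    linarith
  have hPM : ∀ k : ι, ∀ p ∈ P k, p ≤ ⌊V ^ 2⌋₊ := fun k p hp => Nat.le_floor (hPV k p hp)
  set N := ∏ k ∈ bl.I, ((bl.P k).card.choose (bl.J k) : ℝ) ^ 2 with hN
  have hNle : N ≤ Real.exp (V - 3) := by
    have hpos : ∀ k ∈ bl.I, (0 : ℝ) < ((bl.P k).card.choose (bl.J k) : ℝ) := by
      intro k hk
      have := bl.card k hk
      exact_mod_cast Nat.choose_pos (by omega)
    have hNpos : 0 < N := Finset.prod_pos fun k hk => by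
      have := hpos k hk
      positivity
    rw [← Real.log_le_iff_le_exp hNpos, hN, Real.log_prod]
    · calc ∑ k ∈ bl.I, Real.log (((bl.P k).card.choose (bl.J k) : ℝ) ^ 2) =
          ∑ k ∈ bl.I, 2 * Real.log ((bl.P k).card.choose (bl.J k)) := by
            apply Finset.sum_congr rfl
            intro k _
            rw [Real.log_pow]
            push_cast
            rfl
        _ ≤ V - 3 := bl.size
    · intro k hk
      have := hpos k hk
      positivity
  have hNV : N ≤ Real.exp V := hNle.trans (Real.exp_le_exp.2 (by linarith))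
  set g := ∏ k ∈ bl.I, (Real.exp (2 * bl.i k) / (2 * (Real.exp 1 * bl.i k) ^ 2)) with hg
  have hgexp : Real.exp G ≤ g := by
    have h1 : g = Real.exp (∑ k ∈ bl.I, (2 * (bl.i k : ℝ) - Real.log (2 * (Real.exp 1 * bl.i k) ^ 2))) := by
      rw [Real.exp_sum, hg]
      apply Finset.prod_congr rfl
      intro k hk
      have hi' : (0 : ℝ) < bl.i k := by
        have := bl.i1 k hk
        exact_mod_cast (by omega : 0 < bl.i k)
      rw [Real.exp_sub, Real.exp_log (by positivity)]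
    rw [h1]
    exact Real.exp_le_exp.mpr bl.gain
  have hlen : (((∏ k : ι, bl.Y k ^ bl.i k) * (∏ k : ι, bl.Y k ^ bl.i k) : ℕ) : ℝ) ≤ Real.exp (2 * V) := by
    rw [e2 (fun k => bl.Y k ^ bl.i k)]
    have hpos : (0 : ℝ) < ((∏ k ∈ bl.I, bl.Y k ^ bl.i k : ℕ) : ℝ) := by
      have : 0 < ∏ k ∈ bl.I, bl.Y k ^ bl.i k :=
        Finset.prod_pos fun k hk => pow_pos (bl.Ypos k hk) _
      exact_mod_cast this
    have hlog : Real.log (((∏ k ∈ bl.I, bl.Y k ^ bl.i k : ℕ) : ℝ)) =
        ∑ k ∈ bl.I, (bl.i k : ℝ) * Real.log (bl.Y k) := by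
      push_cast
      rw [Real.log_prod]
      · apply Finset.sum_congr rfl
        intro k _
        rw [Real.log_pow]
      · intro k hk
        have : (0 : ℝ) < bl.Y k := by exact_mod_cast bl.Ypos k hk
        positivity
    rw [Nat.cast_mul, ← Real.log_le_iff_le_exp (by positivity), Real.log_mul hpos.ne' hpos.ne',
      hlog]
    have := bl.length
    linarith
  have c1 : ((FS P (fun k => J k - i k) J).card : ℝ) ≤ Real.exp V := by
    refine (card_FS_le2 P J i hJ).trans ?_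
    rw [e1 (fun k => ((bl.P k).card.choose (bl.J k) : ℝ) ^ 2)]
    exact hNV
  have c2 : ((FS P J (fun k => J k - i k)).card : ℝ) ≤ Real.exp V := by
    refine (card_FS_le1 P J i hJ).trans ?_
    rw [e1 (fun k => ((bl.P k).card.choose (bl.J k) : ℝ) ^ 2)]
    exact hNV
  have hsub : ∀ x : ι → Finset ℕ × Finset ℕ,
      (x ∈ FS P (fun k => J k - i k) J ∨ x ∈ FS P J (fun k => J k - i k)) →
      (∀ k, (x k).1 ⊆ P k) ∧ (∀ k, (x k).2 ⊆ P k) := by
    intro x hx
    rcases hx with hx | hx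
    · rw [mem_FS] at hx
      exact ⟨fun k => (hx k).1.1, fun k => (hx k).2.1.1⟩
    · rw [mem_FS] at hx
      exact ⟨fun k => (hx k).1.1, fun k => (hx k).2.1.1⟩
  refine ⟨{
    α := ι → Finset ℕ × Finset ℕ
    S := FS P (fun k => J k - i k) J
    T := FS P J (fun k => J k - i k)
    nu := nu
    de := de
    f := ff
    f_nonneg := ff_nonneg
    cardS := c1
    cardT := c2
    pos := fun a ha => ⟨Phi_pos hP (hsub a ha).1, Phi_pos hP (hsub a ha).2⟩
    size := fun a ha => ⟨Phi_le_four hP hdisj _ hPM (hsub a ha).1,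
      Phi_le_four hP hdisj _ hPM (hsub a ha).2⟩
    cop := ?_
    injS := fun a ha b hb h => frac_inj hP hdisj ha hb h
    injT := fun a ha b hb h => frac_inj hP hdisj ha hb h
    sub := ?_ }⟩
  · intro a ha q hq hVq
    have hPq : ∀ k : ι, ∀ p ∈ P k, p < q := by
      intro k p hp
      have := (hPV k p hp).trans_lt hVq
      exact_mod_cast this
    exact ⟨Phi_coprime hP hq hPq (hsub a ha).1, Phi_coprime hP hq hPq (hsub a ha).2⟩
  intro D hD hDr
  -- the blocks without the primes of D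
  let P' : ι → Finset ℕ := fun k => P k \ D
  let PP : ℕ → Finset ℕ := fun k => bl.P k \ D
  have hP'P : ∀ k, P' k ⊆ P k := fun k => Finset.sdiff_subset
  have hP' : ∀ k : ι, ∀ p ∈ P' k, p.Prime := fun k p hp => hP k p (hP'P k hp)
  have hdisj' : ∀ k l : ι, k ≠ l → Disjoint (P' k) (P' l) := fun k l hkl =>
    Finset.disjoint_of_subset_left (hP'P k) (Finset.disjoint_of_subset_right (hP'P l) (hdisj k l hkl))
  have hDP' : ∀ p ∈ D, ∀ k, p ∉ P' k := by
    intro p hp k hk
    exact (Finset.mem_sdiff.mp hk).2 hp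
  set E1 := ∏ k ∈ bl.I, ES (PP k) (bl.J k) (bl.J k - bl.i k) with hE1
  have hcardPP : ∀ k ∈ bl.I, 2 * bl.J k ≤ (PP k).card := by
    intro k hk
    have h1 := bl.cardr k hk
    have h2 := Finset.le_card_sdiff D (bl.P k)
    have h3 : (PP k).card = (bl.P k \ D).card := rfl
    omega
  have hE1pos : 0 < E1 := by
    apply Finset.prod_pos
    intro k hk
    apply ES_pos _ (fun p hp => bl.prime k hk p (Finset.sdiff_subset hp))
    have := hcardPP k hk
    have h3 : (PP k).card = (bl.P k \ D).card := rfl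
    omega
  have hσ' : ∀ k ∈ bl.I, bl.σ ≤ (∑ p ∈ PP k, 1 / (p : ℝ)) - 2 * bl.J k * bl.w k := by
    intro k hk
    have h1 := bl.hsr k hk
    have h2 : (∑ p ∈ bl.P k, 1 / (p : ℝ)) ≤ (∑ p ∈ PP k, 1 / (p : ℝ)) + r * bl.w k := by
      have h3 : (∑ p ∈ bl.P k, 1 / (p : ℝ)) =
          (∑ p ∈ PP k, 1 / (p : ℝ)) + ∑ p ∈ bl.P k ∩ D, 1 / (p : ℝ) := by
        rw [← Finset.sum_sdiff (s₁ := bl.P k ∩ D) (s₂ := bl.P k) Finset.inter_subset_left,
          Finset.sdiff_inter_self_left]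
      rw [h3]
      have hw : (bl.P k ∩ D).card ≤ r := (Finset.card_le_card Finset.inter_subset_right).trans hDr
      have h4 : ∑ p ∈ bl.P k ∩ D, 1 / (p : ℝ) ≤ ((bl.P k ∩ D).card : ℝ) * bl.w k := by
        rw [← nsmul_eq_mul]
        apply Finset.sum_le_card_nsmul
        intro p hp
        exact bl.lew k hk p (Finset.mem_inter.mp hp).1
      rcases Nat.eq_zero_or_pos (bl.P k ∩ D).card with h0 | h0
      · have h5 : bl.P k ∩ D = ∅ := Finset.card_eq_zero.mp h0
        rw [h5]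
        have hw0 : 0 ≤ (r : ℝ) * bl.w k := by
          by_cases hr : r = 0
          · have hr' : (r : ℝ) = 0 := by exact_mod_cast hr
            simp [hr']
          · have hne : (bl.P k).Nonempty := by
              rw [← Finset.card_pos]
              have := bl.cardr k hk
              omega
            obtain ⟨p, hp⟩ := hne
            have h6 := bl.lew k hk p hp
            have h7 : (0 : ℝ) ≤ 1 / (p : ℝ) := by positivity
            have : 0 ≤ bl.w k := h7.trans h6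
            positivity
        simpa using hw0
      · obtain ⟨p, hp⟩ := Finset.card_pos.mp h0
        have h6 := bl.lew k hk p (Finset.mem_inter.mp hp).1
        have h7 : (0 : ℝ) ≤ 1 / (p : ℝ) := by positivity
        have h8 : 0 ≤ bl.w k := h7.trans h6
        have h9 : (((bl.P k ∩ D).card : ℕ) : ℝ) ≤ r := by exact_mod_cast hw
        have h10 : ((bl.P k ∩ D).card : ℝ) * bl.w k ≤ r * bl.w k :=
          mul_le_mul_of_nonneg_right h9 h8
        linarith
    linarith
  have hgain : ∏ k ∈ bl.I, (Real.exp (2 * bl.i k) / (2 * (Real.exp 1 * bl.i k) ^ 2) *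
      ES (PP k) (bl.J k) (bl.J k - bl.i k)) ≤
      (∏ k ∈ bl.I, ((bl.J k).choose (bl.i k) : ℝ) ^ 2) * ∏ k ∈ bl.I, ES (PP k) (bl.J k) (bl.J k) := by
    rw [← Finset.prod_mul_distrib]
    apply Finset.prod_le_prod
    · intro k hk
      exact mul_nonneg (by positivity) (ES_nonneg' _ _ _)
    · intro k hk
      exact block_gain2 (PP k) (bl.w k) (fun p hp => bl.lew k hk p (Finset.sdiff_subset hp))
        (bl.J k) (bl.i k) (bl.i1 k hk) bl.σ bl.σ0 bl.σ1 (hσ' k hk) (bl.hi k hk)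
  rw [Finset.prod_mul_distrib] at hgain
  have s1 : ∑ s ∈ FS P' (fun k => J k - i k) J, ff s ^ 2 = E1 := by
    rw [sum_ff_sq, hE1, ← e1 (fun k => ES (PP k) (bl.J k) (bl.J k - bl.i k))]
    exact Finset.prod_congr rfl fun k _ => ES_comm _ _ _
  have s2 : ∑ s ∈ FS P' J (fun k => J k - i k), ff s ^ 2 = E1 := by
    rw [sum_ff_sq, hE1, ← e1 (fun k => ES (PP k) (bl.J k) (bl.J k - bl.i k))]
  have hsub' : ∀ x : ι → Finset ℕ × Finset ℕ,
      (x ∈ FS P' (fun k => J k - i k) J ∨ x ∈ FS P' J (fun k => J k - i k)) →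
      (∀ k, (x k).1 ⊆ P' k) ∧ (∀ k, (x k).2 ⊆ P' k) := by
    intro x hx
    rcases hx with hx | hx
    · rw [mem_FS] at hx
      exact ⟨fun k => (hx k).1.1, fun k => (hx k).2.1.1⟩
    · rw [mem_FS] at hx
      exact ⟨fun k => (hx k).1.1, fun k => (hx k).2.1.1⟩
  refine ⟨FS P' (fun k => J k - i k) J, FS P' J (fun k => J k - i k), E1,
    (ZZ P' J i).image tri, FS_mono hP'P _ _, FS_mono hP'P _ _, hE1pos, ?_, s1, s2, ?_, ?_⟩
  · intro a ha p hp
    exact ⟨not_dvd_Phi hP' (hsub' a ha).1 (hD p hp) (hDP' p hp),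
      not_dvd_Phi hP' (hsub' a ha).2 (hD p hp) (hDP' p hp)⟩
  · intro ω hω
    rw [Finset.mem_image] at hω
    obtain ⟨⟨x, y⟩, hz, rfl⟩ := hω
    rw [mem_ZZ] at hz
    obtain ⟨hx, hy⟩ := hz
    simp only at hx hy
    have hx0 := mem_FS.mp hx
    have hy0 := mem_YY.mp hy
    have l3 : 0 < nu y := Phi_pos hP' fun k => (hy0 k).1.1.trans (hx0 k).1.1
    have l4 : 0 < de y := Phi_pos hP' fun k => (hy0 k).2.1.trans (hx0 k).2.1.1
    refine ⟨?_, ?_, src_mem hx hy, tgt_mem hx hy, ?_, ?_⟩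
    · simp only [tri]
      exact Nat.mul_pos l3 l4
    · simp only [tri]
      refine le_trans ?_ hlen
      have l1 : nu y ≤ ∏ k : ι, bl.Y k ^ bl.i k := by
        apply Phi_le (Y := fun k : ι => bl.Y k) (i := fun k : ι => bl.i k)
        · intro k p hp
          exact bl.leY k k.2 p (hP'P k ((hx0 k).1.1 ((hy0 k).1.1 hp)))
        · intro k
          exact (hy0 k).1.2
      have l2 : de y ≤ ∏ k : ι, bl.Y k ^ bl.i k := by
        apply Phi_le (Y := fun k : ι => bl.Y k) (i := fun k : ι => bl.i k)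
        · intro k p hp
          exact bl.leY k k.2 p (hP'P k ((hx0 k).2.1.1 ((hy0 k).2.1 hp)))
        · intro k
          exact (hy0 k).2.2
      exact_mod_cast Nat.mul_le_mul l1 l2
    · simp only [tri]
      have e1 : nu (tgt x y) = nu x := rfl
      have e2 : de (src x y) = de x := rfl
      rw [e1, e2]
      have e3 := nu_src hx hy
      have e4 := de_tgt hx hy
      rw [← e3]
      conv_rhs => rw [← e4]
      ring
    · intro p hp hdvd
      simp only [tri] at hdvd
      rcases (hD p hp).dvd_mul.mp hdvd with h | h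
      · exact not_dvd_Phi hP' (fun k => (hy0 k).1.1.trans (hx0 k).1.1) (hD p hp) (hDP' p hp) h
      · exact not_dvd_Phi hP' (fun k => (hy0 k).2.1.trans (hx0 k).2.1.1) (hD p hp) (hDP' p hp) h
  · rw [tri_sum hP' hdisj' J i]
    have a1 := e1 (fun k => ((bl.J k).choose (bl.i k) : ℝ) ^ 2)
    have a2 := e1 (fun k => ES (PP k) (bl.J k) (bl.J k))
    calc Real.exp G * E1 ≤ g * E1 := mul_le_mul_of_nonneg_right hgexp hE1pos.le
      _ ≤ _ := hgain
      _ = _ := by rw [← a1, ← a2]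

end Pool.Agent.H.MP_3e6494_nt.H14
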