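import Mathlib
import Pool.Agent.H.MP_3e6494_nt.helper14.CndEv
import Pool.Agent.H.MP_3e6494_nt.helper14.LevB
import Pool.Agent.H.MP_3e6494_nt.helper14.Exc
import Pool.Agent.H.MP_3e6494_nt.helper14.BlocksR
import Pool.Agent.H.MP_3e6494_nt.helper14.ResoR
import Pool.Agent.H.MP_3e6494_nt.helper50.T3Gain
import Pool.Agent.H.MP_3e6494_nt.helper15.Mertens

/-!
Large central values in almost all cosets of all subgroups, for almost all primes.
-/

open Finset Filter Topology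

set_option linter.unusedVariables false

namespace Pool.Agent.H.MP_3e6494_nt.A14

open Pool.Agent.H.MP_3e6494_nt.T3Exc Pool.Agent.H.MP_3e6494_nt.H15 Pool.Agent.H.MP_3e6494_nt.H14

theorem small_case (κ ν ε₀ : ℝ) (r : ℕ) (hr : 1 ≤ r) (hκ : 0 ≤ κ) (hκ1 : κ ≤ 1) (hν : 0 < ν)
    (hs : κ * (1 + 1 / r) + 4 * r * ν < 1) (hε₀ : 0 < ε₀) (hε₀ν : ε₀ ≤ Real.sqrt (2 * ν) / 2) :
    ∃ (δ : ℝ) (E : Set ℕ) (x₀ : ℕ), 0 < δ ∧
      (∀ x : ℕ, x₀ ≤ x →
        ((E ∩ Set.Icc 1 x).ncard : ℝ) ≤ (x : ℝ) ^ (κ * (1 + 1 / r) + 4 * r * ν)) ∧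
      ∀ (q : ℕ) [Fact q.Prime], x₀ ≤ q → q ∉ E →
        ∀ H : Subgroup (DirichletCharacter ℂ q), (q : ℝ) ^ (1 - κ) ≤ Nat.card H →
          ({χ₀ : DirichletCharacter ℂ q | ∀ χ : DirichletCharacter ℂ q, χ₀⁻¹ * χ ∈ H → χ ≠ 1 →
            ‖DirichletCharacter.LFunction χ (1 / 2)‖ <
            Real.exp ((Real.sqrt (2 * ν) - ε₀) *
              Real.sqrt (Real.log q * Real.log (Real.log (Real.log q)) /
                Real.log (Real.log q)))}.ncard : ℝ) ≤ (q : ℝ) ^ (1 - δ) := by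
  have hr1 : (1 : ℝ) ≤ r := by exact_mod_cast hr
  have hκr : 0 ≤ κ * (1 + 1 / r) := by positivity
  have hν4 : ν < 1 / 4 := by nlinarith
  have hsν : 0 < Real.sqrt (2 * ν) := Real.sqrt_pos.2 (by linarith)
  have hsν1 : Real.sqrt (2 * ν) ≤ 1 := by
    rw [Real.sqrt_le_left (by norm_num)]
    linarith
  have hsq : Real.sqrt (2 * ν) * Real.sqrt (2 * ν) = 2 * ν := Real.mul_self_sqrt (by linarith)
  set ε : ℝ := ε₀ * Real.sqrt (2 * ν) / 32 with hε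
  have hε0 : 0 < ε := by positivity
  have hεν16 : 32 * ε ≤ ν := by
    rw [hε]
    nlinarith
  have hεν : ε < ν := by linarith
  set θ : ℝ := ν - 2 * ε with hθ
  have hθ0 : 0 < θ := by rw [hθ]; linarith
  have hsθ : Real.sqrt (2 * ν) - ε₀ / 4 ≤ Real.sqrt (2 * θ) := by
    apply Real.le_sqrt_of_sq_le
    rw [hθ, hε]
    nlinarith [Real.sqrt_nonneg (2 * ν)]
  obtain ⟨ε', hε'0, hε'1, hgain⟩ := T3Gain.gain_ge θ (ε₀ / 2) hθ0 (by positivity)
  obtain ⟨C0, hC0⟩ := mertens_lower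
  have hbl := exists_blocksR r C0 hC0 ε' hε'0
  -- the families
  set G : ℕ → ℝ := fun k => (Real.sqrt 2 - ε') * Real.sqrt (T3Exc.Vk ν ε k *
    Real.log (Real.log (T3Exc.Vk ν ε k)) / Real.log (T3Exc.Vk ν ε k)) + 1 with hG
  have hVt : Tendsto (fun k : ℕ => T3Exc.Vk ν ε k) atTop atTop := by
    unfold T3Exc.Vk
    apply Tendsto.const_mul_atTop (by linarith)
    exact Tendsto.atTop_mul_const (Real.log_pos (by norm_num)) tendsto_natCast_atTop_atTop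
  have hev := ((hVt.eventually hbl).and (hVt.eventually_ge_atTop 1)).and
    (cnd_eventually r κ ν ε hr hκ hκ1 hν hε0 hεν16 hs)
  obtain ⟨k₁, hk₁⟩ := eventually_atTop.1 hev
  set k₀ := max k₁ 1 with hk₀
  have hlev : ∀ k, k₀ ≤ k → ∃ 𝒮 : Finset ℕ,
      (𝒮.card : ℝ) ≤ ((2 : ℝ) ^ k) ^ (κ * (1 + 1 / r) + 4 * r * ν - ε) ∧
      ∀ (q : ℕ) [Fact q.Prime], Nat.log 2 q = k → q ∉ 𝒮 →
      ∀ H : Subgroup (DirichletCharacter ℂ q), (q : ℝ) ^ (1 - κ) ≤ Nat.card H →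
      ∀ VL : ℝ, 0 ≤ VL → 4 ^ r * (VL + 2) + 2 ≤ Real.exp (G k) →
      ({χ₀ : DirichletCharacter ℂ q | ∀ ψ ∈ H, χ₀ * ψ ≠ 1 →
        ‖(χ₀ * ψ).LFunction (1 / 2)‖ ≤ VL}.ncard : ℝ) ≤ (q : ℝ) ^ (1 - ε / 4) := by
    intro k hk
    obtain ⟨⟨⟨bl⟩, hV1⟩, hcnd⟩ := hk₁ k ((le_max_left _ _).trans hk)
    obtain ⟨R⟩ := resoR_of_blocks hV1 bl
    exact level hr hκ hκ1 hν hε0 hεν16 hs hcnd R
  choose! 𝒮 h𝒮 using hlev
  obtain ⟨x₁, hx₁⟩ := exc_total (fun k q => q ∈ 𝒮 k) (κ * (1 + 1 / r) + 4 * r * ν - ε)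
    (κ * (1 + 1 / r) + 4 * r * ν) (by nlinarith) (by linarith) k₀
    (fun k hk => ⟨𝒮 k, fun q _ h => h, (h𝒮 k hk).1⟩)
  -- the largeness conditions
  have ht : Tendsto (fun q : ℕ => (q : ℝ)) atTop atTop := tendsto_natCast_atTop_atTop
  have htl : Tendsto (fun q : ℕ => Real.log (q : ℝ)) atTop atTop :=
    Real.tendsto_log_atTop.comp ht
  set M : ℝ := 1 + (4 / ε₀) * Real.log (3 * 4 ^ r + 2) with hM
  have hM1 : 1 ≤ M := by
    rw [hM]
    have h1 : 0 ≤ Real.log (3 * 4 ^ r + 2) := by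
      apply Real.log_nonneg
      have : (0 : ℝ) < 4 ^ r := by positivity
      linarith
    have : 0 ≤ (4 / ε₀) * Real.log (3 * 4 ^ r + 2) := by positivity
    linarith
  set δ' : ℝ := (4000 / M) ^ 2 with hδ'
  have hδ'0 : 0 < δ' := by rw [hδ']; positivity
  have hbig := (htl.eventually hgain).and ((htl.eventually (Final.cond_eventually δ' hδ'0)).and
      ((htl.eventually_ge_atTop (1 / ε)).and (eventually_ge_atTop (2 ^ k₀))))
  obtain ⟨x₂, hx₂⟩ := eventually_atTop.1 hbig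
  refine ⟨ε / 4, {q : ℕ | q.Prime ∧ k₀ ≤ Nat.log 2 q ∧ q ∈ 𝒮 (Nat.log 2 q)}, max x₁ x₂,
    by positivity, fun x hx => hx₁ x ((le_max_left _ _).trans hx), ?_⟩
  intro q _ hq hqE H hH
  obtain ⟨hg, ⟨-, -, -, hS, -⟩, hl, hpow⟩ := hx₂ q ((le_max_right _ _).trans hq)
  have hqp : q.Prime := Fact.out
  have hq0 : (0 : ℝ) < q := by exact_mod_cast hqp.pos
  set k := Nat.log 2 q with hk
  have hkk₀ : k₀ ≤ k := by
    rw [hk]
    exact Nat.le_log_of_pow_le (by norm_num) hpow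
  have hnb : q ∉ 𝒮 k := fun hbad => hqE ⟨hqp, hkk₀, hbad⟩
  set S : ℝ := Real.sqrt (Real.log q * Real.log (Real.log (Real.log q)) / Real.log (Real.log q))
    with hSdef
  set G' : ℝ := (Real.sqrt 2 - ε') * Real.sqrt (T3Exc.Vk ν ε k *
    Real.log (Real.log (T3Exc.Vk ν ε k)) / Real.log (T3Exc.Vk ν ε k)) with hG'
  have hMS : M ≤ S := by
    have h1 : 4000 / Real.sqrt δ' = M := by
      rw [hδ', Real.sqrt_sq (by positivity)]
      field_simp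
    rw [h1] at hS
    exact Real.le_sqrt_of_sq_le hS
  have hSpos : 0 ≤ S := Real.sqrt_nonneg _
  have hVθ : θ * Real.log q ≤ T3Exc.Vk ν ε k := by
    have h1 : Real.log q - Real.log 2 ≤ k * Real.log 2 := by
      have h2 := T3Prime.q_lt q
      have h3 := Real.log_le_log hq0 h2
      rw [Real.log_pow] at h3
      push_cast at h3
      rw [← hk] at h3
      linarith
    have h2 : Real.log 2 < 1 := by linarith [Real.log_two_lt_d9]
    have h2' : 0 < Real.log 2 := Real.log_pos (by norm_num)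
    have h3 : 1 ≤ ε * Real.log q := by
      rw [div_le_iff₀ hε0] at hl
      linarith
    unfold T3Exc.Vk
    have h4 : (ν - ε) * (Real.log q - Real.log 2) ≤ (ν - ε) * (k * Real.log 2) :=
      mul_le_mul_of_nonneg_left h1 (by linarith)
    have h5 : (ν - ε) * Real.log 2 ≤ 1 := by nlinarith
    rw [hθ]
    nlinarith
  have hgq : (Real.sqrt (2 * θ) - ε₀ / 2) * S ≤ G' := hg _ hVθ
  have hG'1 : (Real.sqrt (2 * ν) - ε₀) * S + (ε₀ / 4) * S ≤ G' := by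
    refine le_trans ?_ hgq
    have : (Real.sqrt (2 * ν) - ε₀) * S + (ε₀ / 4) * S =
        (Real.sqrt (2 * ν) - 3 * ε₀ / 4) * S := by ring
    rw [this]
    apply mul_le_mul_of_nonneg_right _ hSpos
    linarith
  set VL : ℝ := Real.exp ((Real.sqrt (2 * ν) - ε₀) * S) with hVL
  have hVL1 : 1 ≤ VL := by
    rw [hVL]
    apply Real.one_le_exp
    apply mul_nonneg _ hSpos
    linarith
  have hcond : 4 ^ r * (VL + 2) + 2 ≤ Real.exp (G k) := by
    have h4r : (0 : ℝ) < 4 ^ r := by positivity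
    have h1 : (3 * 4 ^ r + 2 : ℝ) ≤ Real.exp ((ε₀ / 4) * S) := by
      rw [← Real.log_le_iff_le_exp (by positivity)]
      have h2 : (4 / ε₀) * Real.log (3 * 4 ^ r + 2) ≤ S := by linarith
      calc Real.log (3 * 4 ^ r + 2) = (ε₀ / 4) * ((4 / ε₀) * Real.log (3 * 4 ^ r + 2)) := by
            field_simp
        _ ≤ (ε₀ / 4) * S := mul_le_mul_of_nonneg_left h2 (by positivity)
    have h2 : VL * Real.exp ((ε₀ / 4) * S) ≤ Real.exp (G k) := by
      rw [hVL, ← Real.exp_add]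
      apply Real.exp_le_exp.2
      have : G k = G' + 1 := rfl
      rw [this]
      linarith
    have h3 : VL * (3 * 4 ^ r + 2) ≤ VL * Real.exp ((ε₀ / 4) * S) :=
      mul_le_mul_of_nonneg_left h1 (by linarith)
    nlinarith
  have hmain := (h𝒮 k hkk₀).2 q rfl hnb H hH VL (by linarith) hcond
  refine le_trans ?_ hmain
  have hsub : {χ₀ : DirichletCharacter ℂ q | ∀ χ : DirichletCharacter ℂ q, χ₀⁻¹ * χ ∈ H → χ ≠ 1 →
            ‖DirichletCharacter.LFunction χ (1 / 2)‖ < VL} ⊆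
      {χ₀ : DirichletCharacter ℂ q | ∀ ψ ∈ H, χ₀ * ψ ≠ 1 →
        ‖(χ₀ * ψ).LFunction (1 / 2)‖ ≤ VL} := by
    intro χ₀ hχ₀ ψ hψ hne
    exact (hχ₀ (χ₀ * ψ) (by rw [inv_mul_cancel_left]; exact hψ) hne).le
  have hfin : {χ₀ : DirichletCharacter ℂ q | ∀ ψ ∈ H, χ₀ * ψ ≠ 1 →
        ‖(χ₀ * ψ).LFunction (1 / 2)‖ ≤ VL}.Finite :=
    Set.Finite.subset (T6Par.XX q).finite_toSet (fun χ _ => T6Par.mem_XX χ)
  exact_mod_cast Set.ncard_le_ncard hsub hfin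

end Pool.Agent.H.MP_3e6494_nt.A14
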