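import Mathlib
import Pool.Agent.H.MP_3e6494_nt.helper14.EDef

/-!
Definitions: the final statement with a constant, existence of resonators.
-/

open Finset Filter Topology

namespace Pool.Agent.H.MP_3e6494_nt.A14

open Pool.Agent.H.MP_3e6494_nt.H15 Pool.Agent.H.MP_3e6494_nt.H14

/-- the statement with the constant `c` for subgroups of order at least `q ^ θ` -/
def Reg (θ c : ℝ) : Prop := ∀ ε : ℝ, 0 < ε →
  ∃ (δ : ℝ) (E : Set ℕ) (x₀ : ℕ), 0 < δ ∧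
    (∀ x : ℕ, x₀ ≤ x → ((E ∩ Set.Icc 1 x).ncard : ℝ) ≤ (x : ℝ) ^ (1 - δ)) ∧
    ∀ (q : ℕ) [Fact q.Prime], x₀ ≤ q → q ∉ E →
      ∀ H : Subgroup (DirichletCharacter ℂ q), (q : ℝ) ^ θ ≤ Nat.card H →
        ({χ₀ : DirichletCharacter ℂ q | ∀ χ : DirichletCharacter ℂ q, χ₀⁻¹ * χ ∈ H → χ ≠ 1 →
          ‖DirichletCharacter.LFunction χ (1 / 2)‖ <
          Real.exp ((c - ε) * Real.sqrt (Real.log q * Real.log (Real.log (Real.log q)) /
            Real.log (Real.log q)))}.ncard : ℝ) ≤ (q : ℝ) ^ (1 - δ)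

/-- the resonators exist -/
def ResEx (r : ℕ) : Prop := ∀ ε' δ₀ : ℝ, 0 < ε' → 0 < δ₀ → ∀ᶠ V : ℝ in atTop,
  Nonempty (ResoE r V ((Real.sqrt 2 - ε') * Real.sqrt (V * Real.log (Real.log V) / Real.log V) + 1)
    (Real.exp (δ₀ * V)))

end Pool.Agent.H.MP_3e6494_nt.A14
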