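import Mathlib
import Pool.Agent.H.MP_3e6494_nt.helper14.CndEv
import Pool.Agent.H.MP_3e6494_nt.helper14.Exc
import Pool.Agent.H.MP_3e6494_nt.helper14.RegDef
import Pool.Agent.H.MP_3e6494_nt.helper50.T3Gain
import Pool.Agent.H.MP_3e6494_nt.helper15.Mertens

/-!
From the dyadic levels to the final statement.
-/

open Finset Filter Topology

set_option linter.unusedVariables false

namespace Pool.Agent.H.MP_3e6494_nt.A14

open Pool.Agent.H.MP_3e6494_nt.T3Exc Pool.Agent.H.MP_3e6494_nt.H15 Pool.Agent.H.MP_3e6494_nt.H14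

/-- the statement at the level `k` -/
def LevE (r : ℕ) (θ ν ε δ₀ δ₁ δ₂ : ℝ) (k : ℕ) : Prop :=
  ∀ G : ℝ, ResoE r (Vk ν ε k) G (Real.exp (δ₀ * Vk ν ε k)) →
    ∃ 𝒮 : Finset ℕ, (𝒮.card : ℝ) ≤ ((2 : ℝ) ^ k) ^ (1 - δ₁) ∧
      ∀ (q : ℕ) [Fact q.Prime], Nat.log 2 q = k → q ∉ 𝒮 →
      ∀ H : Subgroup (DirichletCharacter ℂ q), (q : ℝ) ^ θ ≤ Nat.card H →
      ∀ VL : ℝ, 0 ≤ VL → 2 * (4 ^ r * (VL + 2)) + 3 ≤ Real.exp G →
      ({χ₀ : DirichletCharacter ℂ q | ∀ ψ ∈ H, χ₀ * ψ ≠ 1 →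
        ‖(χ₀ * ψ).LFunction (1 / 2)‖ ≤ VL}.ncard : ℝ) ≤ (q : ℝ) ^ (1 - δ₂)

lemma fe_a {e s ν : ℝ} (h : e ≤ s / 2) (hs : 0 < s) (hq : s * s = 2 * ν) :
    32 * (e * s / 32) ≤ ν := by nlinarith

lemma fe_b {e s ν : ℝ} (he : 0 < e) (h : e ≤ s / 2) (hs : 0 < s) (hq : s * s = 2 * ν) :
    (s - e / 4) ^ 2 ≤ 2 * (ν - 2 * (e * s / 32)) := by nlinarith

lemma fe_c {a l : ℝ} (h : a ≤ 1) (hl : 0 < l) (hl1 : l < 1) : a * l ≤ 1 := by nlinarith

lemma fe_d {ν ε L l w : ℝ} (h4 : (ν - ε) * (L - l) ≤ (ν - ε) * w) (h5 : (ν - ε) * l ≤ 1)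
    (h3 : 1 ≤ ε * L) : (ν - 2 * ε) * L ≤ (ν - ε) * w := by nlinarith

lemma fe_e {a V E1 E2 : ℝ} (ha : 0 < a) (hV : 1 ≤ V) (h3 : V * (6 * a + 3) ≤ V * E1)
    (h2 : V * E1 ≤ E2) : 2 * (a * (V + 2)) + 3 ≤ E2 := by nlinarith

theorem reg_of_levels (r : ℕ) (θ ν : ℝ) (hν : 0 < ν) (hν1 : ν ≤ 1 / 2) (hres : ResEx r)
    (hlev : ∀ ε : ℝ, 0 < ε → 32 * ε ≤ ν → ∃ δ₀ δ₁ δ₂ : ℝ, 0 < δ₀ ∧ 0 < δ₁ ∧ δ₁ < 1 ∧ 0 < δ₂ ∧
      ∀ᶠ k : ℕ in atTop, LevE r θ ν ε δ₀ δ₁ δ₂ k) : Reg θ (Real.sqrt (2 * ν)) := by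
  have hsν : 0 < Real.sqrt (2 * ν) := Real.sqrt_pos.2 (by linarith)
  have hsν1 : Real.sqrt (2 * ν) ≤ 1 := by
    rw [Real.sqrt_le_left (by norm_num)]
    linarith
  have hsq : Real.sqrt (2 * ν) * Real.sqrt (2 * ν) = 2 * ν := Real.mul_self_sqrt (by linarith)
  -- it is enough to treat small `ε₀`
  suffices hsmall : ∀ ε₀ : ℝ, 0 < ε₀ → ε₀ ≤ Real.sqrt (2 * ν) / 2 →
      ∃ (δ : ℝ) (E : Set ℕ) (x₀ : ℕ), 0 < δ ∧
      (∀ x : ℕ, x₀ ≤ x → ((E ∩ Set.Icc 1 x).ncard : ℝ) ≤ (x : ℝ) ^ (1 - δ)) ∧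
      ∀ (q : ℕ) [Fact q.Prime], x₀ ≤ q → q ∉ E →
        ∀ H : Subgroup (DirichletCharacter ℂ q), (q : ℝ) ^ θ ≤ Nat.card H →
          ({χ₀ : DirichletCharacter ℂ q | ∀ χ : DirichletCharacter ℂ q, χ₀⁻¹ * χ ∈ H → χ ≠ 1 →
            ‖DirichletCharacter.LFunction χ (1 / 2)‖ <
            Real.exp ((Real.sqrt (2 * ν) - ε₀) *
              Real.sqrt (Real.log q * Real.log (Real.log (Real.log q)) /
                Real.log (Real.log q)))}.ncard : ℝ) ≤ (q : ℝ) ^ (1 - δ) by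
    intro ε₀ hε₀
    obtain ⟨δ, E, x₀, h1, h2, h3⟩ := hsmall (min ε₀ (Real.sqrt (2 * ν) / 2))
      (lt_min hε₀ (by positivity)) (min_le_right _ _)
    refine ⟨δ, E, x₀, h1, h2, fun q _ hq hqE H hH => le_trans ?_ (h3 q hq hqE H hH)⟩
    have hsub : {χ₀ : DirichletCharacter ℂ q | ∀ χ : DirichletCharacter ℂ q, χ₀⁻¹ * χ ∈ H → χ ≠ 1 →
            ‖DirichletCharacter.LFunction χ (1 / 2)‖ <
            Real.exp ((Real.sqrt (2 * ν) - ε₀) *
              Real.sqrt (Real.log q * Real.log (Real.log (Real.log q)) /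
                Real.log (Real.log q)))} ⊆
        {χ₀ : DirichletCharacter ℂ q | ∀ χ : DirichletCharacter ℂ q, χ₀⁻¹ * χ ∈ H → χ ≠ 1 →
            ‖DirichletCharacter.LFunction χ (1 / 2)‖ <
            Real.exp ((Real.sqrt (2 * ν) - min ε₀ (Real.sqrt (2 * ν) / 2)) *
              Real.sqrt (Real.log q * Real.log (Real.log (Real.log q)) /
                Real.log (Real.log q)))} := by
      intro χ₀ hχ₀ χ hχ hne
      refine (hχ₀ χ hχ hne).trans_le ?_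
      apply Real.exp_le_exp.2
      apply mul_le_mul_of_nonneg_right _ (Real.sqrt_nonneg _)
      have := min_le_left ε₀ (Real.sqrt (2 * ν) / 2)
      linarith
    have hfin : {χ₀ : DirichletCharacter ℂ q | ∀ χ : DirichletCharacter ℂ q, χ₀⁻¹ * χ ∈ H → χ ≠ 1 →
            ‖DirichletCharacter.LFunction χ (1 / 2)‖ <
            Real.exp ((Real.sqrt (2 * ν) - min ε₀ (Real.sqrt (2 * ν) / 2)) *
              Real.sqrt (Real.log q * Real.log (Real.log (Real.log q)) /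
                Real.log (Real.log q)))}.Finite :=
      Set.Finite.subset (T6Par.XX q).finite_toSet (fun χ _ => T6Par.mem_XX χ)
    exact_mod_cast Set.ncard_le_ncard hsub hfin
  intro ε₀ hε₀ hε₀ν
  set ε : ℝ := ε₀ * Real.sqrt (2 * ν) / 32 with hε
  have hε0 : 0 < ε := by positivity
  have hεν16 : 32 * ε ≤ ν := by
    rw [hε]
    exact fe_a hε₀ν hsν hsq
  have hεν : ε < ν := by linarith
  set θ' : ℝ := ν - 2 * ε with hθ
  have hθ0 : 0 < θ' := by rw [hθ]; linarith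
  have hsθ : Real.sqrt (2 * ν) - ε₀ / 4 ≤ Real.sqrt (2 * θ') := by
    apply Real.le_sqrt_of_sq_le
    rw [hθ, hε]
    exact fe_b hε₀ hε₀ν hsν hsq
  obtain ⟨ε', hε'0, hε'1, hgain⟩ := T3Gain.gain_ge θ' (ε₀ / 2) hθ0 (by positivity)
  obtain ⟨δ₀, δ₁, δ₂, hδ₀, hδ₁, hδ₁1, hδ₂, hlevk⟩ := hlev ε hε0 hεν16
  have hbl := hres ε' δ₀ hε'0 hδ₀
  -- the families
  set G : ℕ → ℝ := fun k => (Real.sqrt 2 - ε') * Real.sqrt (T3Exc.Vk ν ε k *
    Real.log (Real.log (T3Exc.Vk ν ε k)) / Real.log (T3Exc.Vk ν ε k)) + 1 with hG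
  have hVt : Tendsto (fun k : ℕ => T3Exc.Vk ν ε k) atTop atTop := by
    unfold T3Exc.Vk
    apply Tendsto.const_mul_atTop (by linarith)
    exact Tendsto.atTop_mul_const (Real.log_pos (by norm_num)) tendsto_natCast_atTop_atTop
  have hev := (hVt.eventually hbl).and hlevk
  obtain ⟨k₁, hk₁⟩ := eventually_atTop.1 hev
  set k₀ := max k₁ 1 with hk₀
  have hlev' : ∀ k, k₀ ≤ k → ∃ 𝒮 : Finset ℕ,
      (𝒮.card : ℝ) ≤ ((2 : ℝ) ^ k) ^ (1 - δ₁) ∧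
      ∀ (q : ℕ) [Fact q.Prime], Nat.log 2 q = k → q ∉ 𝒮 →
      ∀ H : Subgroup (DirichletCharacter ℂ q), (q : ℝ) ^ θ ≤ Nat.card H →
      ∀ VL : ℝ, 0 ≤ VL → 2 * (4 ^ r * (VL + 2)) + 3 ≤ Real.exp (G k) →
      ({χ₀ : DirichletCharacter ℂ q | ∀ ψ ∈ H, χ₀ * ψ ≠ 1 →
        ‖(χ₀ * ψ).LFunction (1 / 2)‖ ≤ VL}.ncard : ℝ) ≤ (q : ℝ) ^ (1 - δ₂) := by
    intro k hk
    obtain ⟨⟨R⟩, hL⟩ := hk₁ k ((le_max_left _ _).trans hk)
    exact hL (G k) R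
  choose! 𝒮 h𝒮 using hlev'
  obtain ⟨x₁, hx₁⟩ := exc_total (fun k q => q ∈ 𝒮 k) (1 - δ₁) (1 - δ₁ / 2) (by linarith)
    (by linarith) k₀ (fun k hk => ⟨𝒮 k, fun q _ h => h, (h𝒮 k hk).1⟩)
  -- the largeness conditions
  have ht : Tendsto (fun q : ℕ => (q : ℝ)) atTop atTop := tendsto_natCast_atTop_atTop
  have htl : Tendsto (fun q : ℕ => Real.log (q : ℝ)) atTop atTop :=
    Real.tendsto_log_atTop.comp ht
  set C1 : ℝ := 6 * 4 ^ r + 3 with hC1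
  have hC11 : 1 ≤ C1 := by
    have : (0 : ℝ) < 4 ^ r := by positivity
    linarith
  set M : ℝ := 1 + (4 / ε₀) * Real.log C1 with hM
  have hM1 : 1 ≤ M := by
    rw [hM]
    have h1 : 0 ≤ Real.log C1 := Real.log_nonneg hC11
    have : 0 ≤ (4 / ε₀) * Real.log C1 := by positivity
    linarith
  set δ' : ℝ := (4000 / M) ^ 2 with hδ'
  have hδ'0 : 0 < δ' := by rw [hδ']; positivity
  have hbig := (htl.eventually hgain).and ((htl.eventually (Final.cond_eventually δ' hδ'0)).and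
      ((htl.eventually_ge_atTop (1 / ε)).and (eventually_ge_atTop (2 ^ k₀))))
  obtain ⟨x₂, hx₂⟩ := eventually_atTop.1 hbig
  have hδmin : 0 < min δ₂ (δ₁ / 2) := lt_min hδ₂ (by positivity)
  refine ⟨min δ₂ (δ₁ / 2), {q : ℕ | q.Prime ∧ k₀ ≤ Nat.log 2 q ∧ q ∈ 𝒮 (Nat.log 2 q)},
    max (max x₁ x₂) 1, hδmin, fun x hx => ?_, ?_⟩
  · have h1 := hx₁ x ((le_max_left x₁ x₂).trans ((le_max_left _ _).trans hx))
    refine h1.trans ?_
    have hx1 : (1 : ℝ) ≤ x := by exact_mod_cast (le_max_right _ _).trans hx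
    apply Real.rpow_le_rpow_of_exponent_le hx1
    have := min_le_right δ₂ (δ₁ / 2)
    linarith
  intro q _ hq hqE H hH
  obtain ⟨hg, ⟨-, -, -, hS, -⟩, hl, hpow⟩ := hx₂ q ((le_max_right x₁ x₂).trans
    ((le_max_left _ _).trans hq))
  have hqp : q.Prime := Fact.out
  have hq0 : (0 : ℝ) < q := by exact_mod_cast hqp.pos
  have hq1 : (1 : ℝ) ≤ q := by exact_mod_cast hqp.one_lt.le
  set k := Nat.log 2 q with hk
  have hkk₀ : k₀ ≤ k := by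
    rw [hk]
    exact Nat.le_log_of_pow_le (by norm_num) hpow
  have hnb : q ∉ 𝒮 k := fun hbad => hqE ⟨hqp, hkk₀, hbad⟩
  set S : ℝ := Real.sqrt (Real.log q * Real.log (Real.log (Real.log q)) / Real.log (Real.log q))
    with hSdef
  set G' : ℝ := (Real.sqrt 2 - ε') * Real.sqrt (T3Exc.Vk ν ε k *
    Real.log (Real.log (T3Exc.Vk ν ε k)) / Real.log (T3Exc.Vk ν ε k)) with hG'
  have hMS : M ≤ S := by
    have h1 : 4000 / Real.sqrt δ' = M := by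
      rw [hδ', Real.sqrt_sq (by positivity)]
      field_simp
    rw [h1] at hS
    exact Real.le_sqrt_of_sq_le hS
  have hSpos : 0 ≤ S := Real.sqrt_nonneg _
  have hVθ : θ' * Real.log q ≤ T3Exc.Vk ν ε k := by
    have h1 : Real.log q - Real.log 2 ≤ k * Real.log 2 := by
      have h2 := T3Prime.q_lt q
      have h3 := Real.log_le_log hq0 h2
      rw [Real.log_pow] at h3
      push_cast at h3
      rw [← hk] at h3
      linarith
    have h2 : Real.log 2 < 1 := by linarith [Real.log_two_lt_d9]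
    have h2' : 0 < Real.log 2 := Real.log_pos (by norm_num)
    have h3 : 1 ≤ ε * Real.log q := by
      rw [div_le_iff₀ hε0] at hl
      linarith
    unfold T3Exc.Vk
    have h4 : (ν - ε) * (Real.log q - Real.log 2) ≤ (ν - ε) * (k * Real.log 2) :=
      mul_le_mul_of_nonneg_left h1 (by linarith)
    have h5 : (ν - ε) * Real.log 2 ≤ 1 := fe_c (by linarith) h2' h2
    rw [hθ]
    exact fe_d h4 h5 h3
  have hgq : (Real.sqrt (2 * θ') - ε₀ / 2) * S ≤ G' := hg _ hVθ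
  have hG'1 : (Real.sqrt (2 * ν) - ε₀) * S + (ε₀ / 4) * S ≤ G' := by
    refine le_trans ?_ hgq
    have : (Real.sqrt (2 * ν) - ε₀) * S + (ε₀ / 4) * S =
        (Real.sqrt (2 * ν) - 3 * ε₀ / 4) * S := by ring
    rw [this]
    apply mul_le_mul_of_nonneg_right _ hSpos
    linarith
  set VL : ℝ := Real.exp ((Real.sqrt (2 * ν) - ε₀) * S) with hVL
  have hVL1 : 1 ≤ VL := by
    rw [hVL]
    apply Real.one_le_exp
    apply mul_nonneg _ hSpos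
    linarith
  have hcond : 2 * (4 ^ r * (VL + 2)) + 3 ≤ Real.exp (G k) := by
    have h4r : (0 : ℝ) < 4 ^ r := by positivity
    have h1 : C1 ≤ Real.exp ((ε₀ / 4) * S) := by
      rw [← Real.log_le_iff_le_exp (by positivity)]
      have h2 : (4 / ε₀) * Real.log C1 ≤ S := by linarith
      calc Real.log C1 = (ε₀ / 4) * ((4 / ε₀) * Real.log C1) := by
            field_simp
        _ ≤ (ε₀ / 4) * S := mul_le_mul_of_nonneg_left h2 (by positivity)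
    have h2 : VL * Real.exp ((ε₀ / 4) * S) ≤ Real.exp (G k) := by
      rw [hVL, ← Real.exp_add]
      apply Real.exp_le_exp.2
      have : G k = G' + 1 := rfl
      rw [this]
      linarith
    have h3 : VL * C1 ≤ VL * Real.exp ((ε₀ / 4) * S) :=
      mul_le_mul_of_nonneg_left h1 (by linarith)
    rw [hC1] at h3
    exact fe_e h4r hVL1 h3 h2
  have hmain := (h𝒮 k hkk₀).2 q rfl hnb H hH VL (by linarith) hcond
  have hmain' : ({χ₀ : DirichletCharacter ℂ q | ∀ ψ ∈ H, χ₀ * ψ ≠ 1 →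
        ‖(χ₀ * ψ).LFunction (1 / 2)‖ ≤ VL}.ncard : ℝ) ≤ (q : ℝ) ^ (1 - min δ₂ (δ₁ / 2)) := by
    refine hmain.trans ?_
    apply Real.rpow_le_rpow_of_exponent_le hq1
    have := min_le_left δ₂ (δ₁ / 2)
    linarith
  refine le_trans ?_ hmain'
  have hsub : {χ₀ : DirichletCharacter ℂ q | ∀ χ : DirichletCharacter ℂ q, χ₀⁻¹ * χ ∈ H → χ ≠ 1 →
            ‖DirichletCharacter.LFunction χ (1 / 2)‖ < VL} ⊆
      {χ₀ : DirichletCharacter ℂ q | ∀ ψ ∈ H, χ₀ * ψ ≠ 1 →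
        ‖(χ₀ * ψ).LFunction (1 / 2)‖ ≤ VL} := by
    intro χ₀ hχ₀ ψ hψ hne
    exact (hχ₀ (χ₀ * ψ) (by rw [inv_mul_cancel_left]; exact hψ) hne).le
  have hfin : {χ₀ : DirichletCharacter ℂ q | ∀ ψ ∈ H, χ₀ * ψ ≠ 1 →
        ‖(χ₀ * ψ).LFunction (1 / 2)‖ ≤ VL}.Finite :=
    Set.Finite.subset (T6Par.XX q).finite_toSet (fun χ _ => T6Par.mem_XX χ)
  exact_mod_cast Set.ncard_le_ncard hsub hfin

/-- the larger of two constants -/
theorem reg_max {θ c d : ℝ} (h1 : Reg θ c) (h2 : Reg θ d) : Reg θ (max c d) := by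
  rcases le_total c d with h | h
  · rw [max_eq_right h]; exact h2
  · rw [max_eq_left h]; exact h1

end Pool.Agent.H.MP_3e6494_nt.A14
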