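import Mathlib
import Pool.Agent.H.MP_3e6494_nt.helper14.CosetOne
import Pool.Agent.H.MP_3e6494_nt.helper14.LevE

/-!
One dyadic level, for every coset: first moments.
-/

open Finset Filter Topology

set_option linter.unusedSectionVars false
set_option linter.unusedVariables false

namespace Pool.Agent.H.MP_3e6494_nt.A14

open Pool.Agent.H.MP_3e6494_nt.H14 (ResoE)

open Pool.Agent.H.MP_3e6494_nt.Class Pool.Agent.H.MP_3e6494_nt.T3Cnt
  Pool.Agent.H.MP_3e6494_nt.T6Par Pool.Agent.H.MP_3e6494_nt.T3Res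
  Pool.Agent.H.MP_3e6494_nt.T3Exc
open Pool.Agent.H.MP_3e6494_nt.T3Prime (u u_val u_mul u_one index_le q_lt Q_le)

lemma range_half (m : ℕ) : ∑ j ∈ Finset.range m, (((j + 1 : ℕ) : ℝ) ^ (-(1 / 2) : ℝ)) =
    ∑ n ∈ Finset.Icc 1 m, ((n : ℝ) ^ (-(1 / 2) : ℝ)) := by
  induction m with
  | zero => simp
  | succ m ih => rw [Finset.sum_range_succ, Finset.sum_Icc_succ_top (by omega), ih]

/-- the inverse square roots in a residue class, beyond `Y` -/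
lemma residue_half {q : ℕ} [hq : Fact q.Prime] (x : ZMod q) {X Y : ℕ} (hY : 1 ≤ Y) :
    ∑ n ∈ (Finset.Ioc Y X).filter (fun n : ℕ => (n : ZMod q) = x), ((n : ℝ) ^ (-(1 / 2) : ℝ)) ≤
      1 / Real.sqrt Y + 2 * Real.sqrt X / q := by
  classical
  have hq0 : (0 : ℝ) < q := by exact_mod_cast hq.out.pos
  have hY0 : (0 : ℝ) < Y := by exact_mod_cast hY
  set A := (Finset.Ioc Y X).filter (fun n : ℕ => (n : ZMod q) = x) with hA
  rcases A.eq_empty_or_nonempty with h | h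
  · rw [h, Finset.sum_empty]
    positivity
  set n0 := A.min' h with hn0
  have hn0A : n0 ∈ A := Finset.min'_mem _ _
  have hn0' := hn0A
  rw [hA, Finset.mem_filter, Finset.mem_Ioc] at hn0'
  have hsub : A ⊆ (Finset.range (X / q + 1)).image (fun j => n0 + q * j) := by
    intro n hn
    have hle : n0 ≤ n := Finset.min'_le _ _ hn
    rw [hA, Finset.mem_filter, Finset.mem_Ioc] at hn
    have h1 : (n0 : ZMod q) = (n : ZMod q) := hn0'.2.trans hn.2.symm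
    rw [ZMod.natCast_eq_natCast_iff] at h1
    obtain ⟨j, hj⟩ := (Nat.modEq_iff_dvd' hle).1 h1
    rw [Finset.mem_image]
    refine ⟨j, ?_, by omega⟩
    rw [Finset.mem_range]
    have h2 : q * j ≤ X := by omega
    have h3 : j ≤ X / q := by
      rw [Nat.le_div_iff_mul_le hq.out.pos, mul_comm]
      exact h2
    omega
  have hinj : Set.InjOn (fun j => n0 + q * j) (Finset.range (X / q + 1) : Finset ℕ) := by
    intro i _ j _ hij
    simp only at hij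
    have : q * i = q * j := by omega
    exact Nat.eq_of_mul_eq_mul_left hq.out.pos this
  have h1 : ∑ n ∈ A, ((n : ℝ) ^ (-(1 / 2) : ℝ)) ≤
      ∑ j ∈ Finset.range (X / q + 1), (((n0 + q * j : ℕ) : ℝ) ^ (-(1 / 2) : ℝ)) := by
    refine (Finset.sum_le_sum_of_subset_of_nonneg hsub (fun n _ _ => by positivity)).trans ?_
    rw [Finset.sum_image hinj]
  refine h1.trans ?_
  rw [Finset.sum_range_succ', add_comm]
  apply add_le_add
  · rw [mul_zero, add_zero]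
    have h2 : ((n0 : ℝ)) ^ (-(1 / 2) : ℝ) ≤ (Y : ℝ) ^ (-(1 / 2) : ℝ) :=
      Real.rpow_le_rpow_of_nonpos hY0 (by exact_mod_cast hn0'.1.1.le) (by norm_num)
    refine h2.trans (le_of_eq ?_)
    rw [Real.rpow_neg hY0.le, ← Real.sqrt_eq_rpow, one_div]
  · have hqs : (q : ℝ) ^ (-(1 / 2) : ℝ) = 1 / Real.sqrt q := by
      rw [Real.rpow_neg hq0.le, ← Real.sqrt_eq_rpow, one_div]
    have h2 : ∀ j ∈ Finset.range (X / q), (((n0 + q * (j + 1) : ℕ) : ℝ) ^ (-(1 / 2) : ℝ)) ≤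
        1 / Real.sqrt q * (((j + 1 : ℕ) : ℝ) ^ (-(1 / 2) : ℝ)) := by
      intro j _
      rw [← hqs, ← Real.mul_rpow hq0.le (Nat.cast_nonneg _)]
      apply Real.rpow_le_rpow_of_nonpos (by positivity) _ (by norm_num)
      push_cast
      have : (0 : ℝ) ≤ n0 := Nat.cast_nonneg _
      linarith
    refine (Finset.sum_le_sum h2).trans ?_
    rw [← Finset.mul_sum, range_half]
    have h3 := sum_half_le (X / q)
    have h4 : Real.sqrt ((X / q : ℕ) : ℝ) ≤ Real.sqrt X / Real.sqrt q := by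
      rw [← Real.sqrt_div (Nat.cast_nonneg _)]
      exact Real.sqrt_le_sqrt Nat.cast_div_le
    have hs : 0 < Real.sqrt (q : ℝ) := Real.sqrt_pos.2 hq0
    calc 1 / Real.sqrt q * ∑ n ∈ Finset.Icc 1 (X / q), ((n : ℝ) ^ (-(1 / 2) : ℝ))
        ≤ 1 / Real.sqrt q * (2 * (Real.sqrt X / Real.sqrt q)) := by
          apply mul_le_mul_of_nonneg_left _ (by positivity)
          linarith
      _ = 2 * Real.sqrt X / (Real.sqrt q * Real.sqrt q) := by
          field_simp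
      _ = 2 * Real.sqrt X / q := by rw [Real.mul_self_sqrt hq0.le]

open scoped Classical in
/-- the first moment of the long part -/
lemma tail_first {q : ℕ} [hq : Fact q.Prime] {r : ℕ} {V G Λ : ℝ} (R : ResoE r V G Λ)
    (K : Subgroup (ZMod q)ˣ) {X Y : ℕ} (hY : 1 ≤ Y) (𝓢 : Finset (ℕ × R.α × R.α))
    (h𝓢 : ∀ t ∈ 𝓢, (Y < t.1 ∧ t.1 ≤ X ∧ t.1.Coprime q) ∧ (inU R t.2.1 ∧ inU R t.2.2) ∧
      zt (u q) (rh q R.nu R.de) t ∈ K) :
    ∑ t ∈ 𝓢, wt R.f t ≤ (Nat.card K : ℝ) * (1 / Real.sqrt Y + 2 * Real.sqrt X / q) *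
      (4 * Real.exp V * R.F0) := by
  set ρ : R.α → (ZMod q)ˣ := rh q R.nu R.de with hρ
  set C := 1 / Real.sqrt (Y : ℝ) + 2 * Real.sqrt X / q with hC
  have hC0 : 0 ≤ C := by positivity
  have hf := R.f_nonneg
  have hmaps : ∀ t ∈ 𝓢, (t.2, zt (u q) ρ t) ∈ (UU R ×ˢ UU R) ×ˢ
      ((Finset.univ : Finset (ZMod q)ˣ).filter (fun κ => κ ∈ K)) := by
    intro t ht
    obtain ⟨-, d, e⟩ := h𝓢 t ht
    rw [Finset.mem_product, Finset.mem_product, Finset.mem_filter, mem_UU, mem_UU]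
    exact ⟨d, Finset.mem_univ _, e⟩
  rw [← Finset.sum_fiberwise_of_maps_to hmaps]
  have hone : ∀ p ∈ (UU R ×ˢ UU R) ×ˢ ((Finset.univ : Finset (ZMod q)ˣ).filter (fun κ => κ ∈ K)),
      ∑ t ∈ 𝓢.filter (fun t => (t.2, zt (u q) ρ t) = p), wt R.f t ≤
        (R.f p.1.1 * R.f p.1.2) * C := by
    intro p _
    set B := 𝓢.filter (fun t => (t.2, zt (u q) ρ t) = p) with hB
    have hinj : Set.InjOn (fun t : ℕ × R.α × R.α => t.1) (B : Set (ℕ × R.α × R.α)) := by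
      intro t ht t' ht' h
      rw [Finset.mem_coe, hB, Finset.mem_filter] at ht ht'
      have h1 : t.2 = t'.2 := (Prod.ext_iff.1 (ht.2.trans ht'.2.symm)).1
      exact Prod.ext h h1
    have e1 : ∑ t ∈ B, wt R.f t = (R.f p.1.1 * R.f p.1.2) *
        ∑ t ∈ B, ((t.1 : ℝ) ^ (-(1 / 2) : ℝ)) := by
      rw [Finset.mul_sum]
      apply Finset.sum_congr rfl
      intro t ht
      rw [hB, Finset.mem_filter] at ht
      have h1 : t.2 = p.1 := (Prod.ext_iff.1 ht.2).1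
      unfold wt
      rw [h1]
      ring
    rw [e1]
    apply mul_le_mul_of_nonneg_left _ (mul_nonneg (hf _) (hf _))
    rw [← Finset.sum_image (f := fun n : ℕ => ((n : ℝ) ^ (-(1 / 2) : ℝ))) hinj]
    refine le_trans ?_ (residue_half
      (((p.2 * (ρ p.1.1 * (ρ p.1.2)⁻¹)⁻¹ : (ZMod q)ˣ)) : ZMod q) (X := X) hY)
    apply Finset.sum_le_sum_of_subset_of_nonneg
    · intro n hn
      rw [Finset.mem_image] at hn
      obtain ⟨t, ht, rfl⟩ := hn
      rw [hB, Finset.mem_filter] at ht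
      obtain ⟨a1, a3⟩ := ht
      obtain ⟨⟨a, b, c⟩, d, e⟩ := h𝓢 t a1
      rw [Finset.mem_filter, Finset.mem_Ioc]
      refine ⟨⟨a, b⟩, ?_⟩
      rw [← u_val c]
      congr 1
      rw [← a3]
      unfold zt
      simp only
      rw [mul_assoc, mul_inv_cancel, mul_one]
    · intro n _ _
      positivity
  refine (Finset.sum_le_sum hone).trans ?_
  have h3 : Nat.card K = ((Finset.univ : Finset (ZMod q)ˣ).filter (fun k => k ∈ K)).card :=
    Nat.subtype_card _ (by intro k; simp)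
  have e2 : ∑ p ∈ (UU R ×ˢ UU R) ×ˢ ((Finset.univ : Finset (ZMod q)ˣ).filter (fun κ => κ ∈ K)),
      (R.f p.1.1 * R.f p.1.2) * C = (Nat.card K : ℝ) * C * (∑ a ∈ UU R, R.f a) ^ 2 := by
    rw [Finset.sum_product]
    simp only [Finset.sum_const, nsmul_eq_mul]
    rw [← Finset.mul_sum, ← Finset.sum_mul, ← h3, sq, Finset.sum_mul_sum, ← Finset.sum_product']
    ring
  rw [e2]
  exact mul_le_mul_of_nonneg_left (sum_UU_sq R) (by positivity)

/-- the first moments of the terms outside the main term are small -/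
def FstE {q : ℕ} [Fact q.Prime] {r : ℕ} {V G Λ : ℝ} (R : ResoE r V G Λ)
    (K : Subgroup (ZMod q)ˣ) (X : ℕ) (s : ℝ) : Prop :=
  ∀ 𝓢 : Finset (ℕ × R.α × R.α), (∀ t ∈ 𝓢, okt q R X ∅ t ∧ zt (u q) (rh q R.nu R.de) t ∈ K) →
    ∑ t ∈ 𝓢, wt R.f t ≤ s * R.F0

/-- **one level, first moments** -/
theorem fst_level {κ ν ε : ℝ} {k : ℕ} {G Λ : ℝ} (hκ0 : 0 ≤ κ) (hκ1 : κ ≤ 1)
    (hε : 0 < ε) (hεν : 32 * ε ≤ ν) (hν : ν ≤ 1) (hk : 1 ≤ k)
    (R : ResoE 1 (Vk ν ε k) G Λ) (Y : ℕ) (hY1 : 1 ≤ Y) (hY : Y ≤ 2 ^ (3 * k)) {t0 : ℝ}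
    (ht0 : 0 < t0) :
    ∃ 𝒮 : Finset ℕ, (𝒮.card : ℝ) ≤
        (2 * Real.sqrt Y * (4 * Real.exp (Vk ν ε k)) / t0) *
          (((7 * k ^ 2 : ℕ) : ℝ) * 12) * ((2 : ℝ) ^ k) ^ (2 * κ) ∧
      ∀ (q : ℕ) [Fact q.Prime], q < 2 ^ (k + 1) → (Vk ν ε k) ^ 2 < q → q ∉ 𝒮 →
      ∀ K : Subgroup (ZMod q)ˣ, ((Nat.card K : ℕ) : ℝ) ≤ (q : ℝ) ^ κ →
        ∀ X : ℕ, FstE R K X (t0 + (Nat.card K : ℝ) *
          (1 / Real.sqrt Y + 2 * Real.sqrt X / q) * (4 * Real.exp (Vk ν ε k))) := by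
  classical
  have hF0 := R.F0_pos
  have hwt0 : ∀ t : ℕ × R.α × R.α, 0 ≤ wt R.f t := wt_nonneg R.f_nonneg
  have hent := entries hε hεν hν hk R hY
  obtain ⟨𝒮₁, hc₁, h₁⟩ := h26t.famw_level κ hκ0 hκ1 1 k le_rfl (tri R Y) (xt R.nu R.de)
    (yt R.nu R.de) (wt R.f) (7 * k ^ 2) (fun t _ => hwt0 t) hent (t0 * R.F0) (by positivity)
  refine ⟨𝒮₁, ?_, ?_⟩
  · refine hc₁.trans ?_
    have h4 : ∑ t ∈ tri R Y, wt R.f t ≤ 2 * Real.sqrt Y * (4 * Real.exp (Vk ν ε k) * R.F0) := by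
      have h5 := sum_tri R Y (fun n => (n : ℝ) ^ (-(1 / 2) : ℝ))
      have h6 : ∑ t ∈ tri R Y, wt R.f t =
          (∑ n ∈ Finset.Icc 1 Y, ((n : ℝ) ^ (-(1 / 2) : ℝ))) * (∑ a ∈ UU R, R.f a) ^ 2 := h5
      rw [h6]
      exact mul_le_mul (sum_half_le Y) (sum_UU_sq R) (sq_nonneg _) (by positivity)
    have h5 : (∑ t ∈ tri R Y, wt R.f t) / (t0 * R.F0) ≤
        2 * Real.sqrt Y * (4 * Real.exp (Vk ν ε k)) / t0 := by
      rw [div_le_div_iff₀ (by positivity) ht0]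
      calc (∑ t ∈ tri R Y, wt R.f t) * t0
          ≤ (2 * Real.sqrt Y * (4 * Real.exp (Vk ν ε k) * R.F0)) * t0 :=
            mul_le_mul_of_nonneg_right h4 ht0.le
        _ = _ := by ring
    have e1 : κ * (1 + 1 / ((1 : ℕ) : ℝ)) = 2 * κ := by push_cast; ring
    rw [e1, pow_one]
    have e2 : (((1 : ℕ) : ℝ) * ((7 * k ^ 2 : ℕ) : ℝ) * (4 * 3 ^ 1)) =
        ((7 * k ^ 2 : ℕ) : ℝ) * 12 := by
      push_cast; ring
    rw [e2]
    gcongr
  · intro q _ hqk hVq hq K hK X 𝓢 h𝓢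
    obtain ⟨P, hPr, hPp, hP⟩ := h₁ q hqk hq K hK
    have hP0 : P = ∅ := by
      rw [← Finset.card_eq_zero]
      omega
    subst hP0
    rw [← Finset.sum_filter_add_sum_filter_not 𝓢 (fun t => t.1 ≤ Y), add_mul]
    apply add_le_add
    · refine (hP _ ?_).le
      intro t ht
      rw [Finset.mem_filter] at ht
      obtain ⟨ht, hty⟩ := ht
      obtain ⟨a1, hz⟩ := h𝓢 t ht
      obtain ⟨c1, c2⟩ := xt_cop R hVq a1.1.2.2 a1.2.1.1 a1.2.1.2
      rw [zt_eq R hVq a1.1.2.2 a1.2.1.1 a1.2.1.2] at hz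
      refine ⟨?_, c1, c2, hz, ?_, a1.2.2.2⟩
      · rw [mem_tri]
        exact ⟨⟨a1.1.1, hty⟩, a1.2.1⟩
      · intro p hp
        exact absurd hp (Finset.notMem_empty p)
    · have h1 := tail_first R K (X := X) hY1 (𝓢.filter (fun t => ¬ t.1 ≤ Y)) (by
        intro t ht
        rw [Finset.mem_filter] at ht
        obtain ⟨ht, hty⟩ := ht
        obtain ⟨a1, hz⟩ := h𝓢 t ht
        exact ⟨⟨by omega, a1.1.2.1, a1.1.2.2⟩, a1.2.1, hz⟩)
      refine h1.trans (le_of_eq ?_)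
      ring

open scoped Classical in
/-- **one prime, every coset** -/
theorem one_all {q : ℕ} [hq : Fact q.Prime] {r : ℕ} {V G Λ : ℝ} (R : ResoE r V G Λ)
    (hVq : V ^ 2 < q)
    (H : Subgroup (DirichletCharacter ℂ q)) (X : ℕ) (hX1 : 1 ≤ X) (hVX : Real.exp (2 * V) ≤ X)
    (hBX : 2 * Approx.B q / Real.sqrt X ≤ 2) {s : ℝ} (hs0 : 0 ≤ s) (hs : s * Λ < 1)
    (hfst : FstE R (K H) X s)
    {VL : ℝ} (hV0 : 0 ≤ VL) (hG : 2 * (VL + 2) + 3 ≤ Real.exp G)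
    (hH : 2 * Real.sqrt X * Real.exp V ≤ Nat.card H) (χ₀ : DirichletCharacter ℂ q) :
    ∃ ψ ∈ H, χ₀ * ψ ≠ 1 ∧ VL < ‖(χ₀ * ψ).LFunction (1 / 2)‖ := by
  set N := Real.exp V with hN
  obtain ⟨S', T', F, 𝒵, hSS, hTT, hF, hF0, -, hFS, hFT, h𝒵, hE⟩ := R.sub ∅
    (fun p hp => absurd hp (Finset.notMem_empty p)) (by simp)
  set ρ : R.α → (ZMod q)ˣ := rh q R.nu R.de with hρ
  have hSU : ∀ a ∈ S', inU R a := fun a ha => Or.inl (hSS ha)
  have hTU : ∀ a ∈ T', inU R a := fun a ha => Or.inr (hTT ha)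
  have hNS : (S'.card : ℝ) ≤ N := by
    refine le_trans ?_ R.cardS
    exact_mod_cast Finset.card_le_card hSS
  have hNT : (T'.card : ℝ) ≤ N := by
    refine le_trans ?_ R.cardT
    exact_mod_cast Finset.card_le_card hTT
  have hsF : s * R.F0 < F := by
    calc s * R.F0 ≤ s * (Λ * F) := mul_le_mul_of_nonneg_left hF0 hs0
      _ = (s * Λ) * F := by ring
      _ < 1 * F := mul_lt_mul_of_pos_right hs hF
      _ = F := one_mul F
  have hpair : ∀ A : Finset R.α, (∀ a ∈ A, inU R a) →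
      (∀ a ∈ A, ∀ b ∈ A, R.nu a * R.de b = R.de a * R.nu b → a = b) →
      ∑ t ∈ ((A ×ˢ A).filter (fun t => t.1 ≠ t.2)).filter
        (fun t => ρ t.1 * (ρ t.2)⁻¹ ∈ K H), R.f t.1 * R.f t.2 < F := by
    intro A hA hinj
    refine lt_of_le_of_lt ?_ hsF
    set e : R.α × R.α ↪ ℕ × R.α × R.α := ⟨fun t => (1, t), fun s t h => (Prod.ext_iff.1 h).2⟩ with he
    set B := ((A ×ˢ A).filter (fun t => t.1 ≠ t.2)).filter
        (fun t => ρ t.1 * (ρ t.2)⁻¹ ∈ K H) with hB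
    have h1 := hfst (B.map e) (by
      intro t ht
      rw [Finset.mem_map] at ht
      obtain ⟨⟨a, b⟩, hab, rfl⟩ := ht
      rw [hB, Finset.mem_filter, Finset.mem_filter, Finset.mem_product] at hab
      obtain ⟨⟨⟨ha, hb⟩, hne⟩, hk⟩ := hab
      simp only at ha hb hne hk
      refine ⟨⟨⟨le_rfl, hX1, Nat.coprime_one_left q⟩, ⟨hA a ha, hA b hb⟩, ?_, ?_⟩, ?_⟩
      · intro p hp
        exact absurd hp (Finset.notMem_empty p)
      · intro h
        apply hne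
        apply hinj a ha b hb
        have h' : 1 * R.nu a * R.de b = R.de a * R.nu b := h
        rw [one_mul] at h'
        exact h'
      · show zt (u q) ρ (1, (a, b)) ∈ K H
        unfold zt
        simp only [u_one, one_mul]
        exact hk)
    refine le_trans (le_of_eq ?_) h1
    rw [Finset.sum_map]
    apply Finset.sum_congr rfl
    intro t _
    show R.f t.1 * R.f t.2 = (((1 : ℕ) : ℝ) ^ (-(1 / 2) : ℝ)) * (R.f t.1 * R.f t.2)
    rw [Nat.cast_one, Real.one_rpow, one_mul]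
  have hv1 := hpair S' hSU (fun a ha b hb => R.injS a (hSS ha) b (hSS hb))
  have hv2 := hpair T' hTU (fun a ha b hb => R.injT a (hTT ha) b (hTT hb))
  set 𝓜 : Finset (ℕ × R.α × R.α) :=
    (IX q ∅ X S' T').filter (fun t => xt R.nu R.de t = yt R.nu R.de t) with h𝓜
  have hIX : ∀ t ∈ IX q ∅ X S' T', ((1 ≤ t.1 ∧ t.1 ≤ X) ∧ t.1.Coprime q) ∧
      t.2.1 ∈ S' ∧ t.2.2 ∈ T' := by
    intro t ht
    rw [IX, Finset.mem_product, Finset.mem_product, mem_NN] at ht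
    exact ⟨⟨ht.1.1, ht.1.2.1⟩, ht.2⟩
  have hv3 : ∑ t ∈ ((IX q ∅ X S' T').filter (fun t => t ∉ 𝓜)).filter
        (fun t => zt (u q) ρ t ∈ K H), wt R.f t < F := by
    refine lt_of_le_of_lt ?_ hsF
    apply hfst
    intro t ht
    rw [Finset.mem_filter, Finset.mem_filter] at ht
    obtain ⟨⟨ht, hn⟩, hz⟩ := ht
    obtain ⟨⟨⟨a1, a2⟩, a3⟩, a5, a6⟩ := hIX t ht
    refine ⟨⟨⟨a1, a2, a3⟩, ⟨hSU _ a5, hTU _ a6⟩, ?_, ?_⟩, hz⟩
    · intro p hp
      exact absurd hp (Finset.notMem_empty p)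
    · intro h
      apply hn
      rw [h𝓜, Finset.mem_filter]
      exact ⟨ht, h⟩
  have h𝓜1 : ∀ t ∈ 𝓜, zt (u q) ρ t = 1 := by
    intro t ht
    rw [h𝓜, Finset.mem_filter] at ht
    obtain ⟨ht, h⟩ := ht
    obtain ⟨⟨⟨a1, a2⟩, a3⟩, a5, a6⟩ := hIX t ht
    rw [hρ, zt_eq R hVq a3 (hSU _ a5) (hTU _ a6), h, mul_inv_cancel]
  have hE' : Real.exp G * F ≤ ∑ t ∈ 𝓜, wt R.f t := by
    refine hE.trans ?_
    have hsub : 𝒵 ⊆ 𝓜 := by
      intro z hz
      obtain ⟨z1, z2, z3, z4, z5, z6⟩ := h𝒵 z hz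
      obtain ⟨ca1, ca2⟩ := copE R hVq (hSU _ z3)
      obtain ⟨cb1, cb2⟩ := copE R hVq (hTU _ z4)
      have hc : z.1.Coprime q := by
        have h1 : (R.de z.2.1 * R.nu z.2.2).Coprime q := Nat.Coprime.mul_left ca2 cb1
        apply Nat.Coprime.coprime_dvd_left _ h1
        rw [← z5, mul_assoc]
        exact dvd_mul_right _ _
      rw [h𝓜, Finset.mem_filter, IX, Finset.mem_product, Finset.mem_product, mem_NN]
      refine ⟨⟨⟨⟨z1, ?_⟩, hc, z6⟩, z3, z4⟩, z5⟩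
      have h1 : (z.1 : ℝ) ≤ X := z2.trans hVX
      exact_mod_cast h1
    exact Finset.sum_le_sum_of_subset_of_nonneg hsub (fun t _ _ => wt_nonneg R.f_nonneg t)
  have hEV : 2 * (4 ^ (∅ : Finset ℕ).card * (VL + 2 * Approx.B q / Real.sqrt X)) + 3 ≤
      Real.exp G := by
    refine le_trans ?_ hG
    rw [Finset.card_empty, pow_zero, one_mul]
    linarith
  exact coset_one H ∅ (fun p hp => absurd hp (Finset.notMem_empty p)) S' T' ρ R.f R.f_nonneg (u q)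
    (fun m hm => u_val hm) hF hFS hFT hNS hNT X hX1 𝓜 (Finset.filter_subset _ _) h𝓜1 hv1 hv2 hv3
    hE' hV0 hEV hH χ₀

end Pool.Agent.H.MP_3e6494_nt.A14
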