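import Mathlib
import Pool.Agent.H.MP_3e6494_nt.helper14.CndEv

/-!
Numerics for the regime of all subgroups of order at least `q ^ θ`.
-/

open Finset Filter Topology

set_option linter.unusedSectionVars false
set_option linter.unusedVariables false

namespace Pool.Agent.H.MP_3e6494_nt.A14

/-- the numerical conditions -/
structure Cnd3 (r : ℕ) (θ ε γ : ℝ) (k : ℕ) : Prop where
  k1 : 1 ≤ k
  c1 : ((k : ℝ) + 2) ^ 2 + 3 ≤ 2 ^ k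
  a1 : (16 ^ r * 28 * r * 3 ^ r) * ((k : ℝ) + 2) ^ (r + 2) ≤ ((2 : ℝ) ^ k) ^ (θ / 8)
  a2 : 960 * ((k : ℝ) + 2) ^ 2 ≤ ((2 : ℝ) ^ k) ^ (ε / 2)
  a3 : 480 * ((k : ℝ) + 2) ^ 4 ≤ ((2 : ℝ) ^ k) ^ (1 / 8 : ℝ)
  a4 : 3 ≤ ((2 : ℝ) ^ k) ^ (γ / 2)
  a5 : 2 ≤ ((2 : ℝ) ^ k) ^ (1 / 4 : ℝ)
  a6 : (2 * (4 ^ r * 1687)) * ((k : ℝ) + 2) ^ 2 ≤ ((2 : ℝ) ^ k) ^ (γ / 4)
  a7 : 2 * (2 + 2 ^ r) ≤ ((2 : ℝ) ^ k) ^ (1 / 4 : ℝ)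

theorem cnd3_eventually (r : ℕ) (θ ε γ : ℝ) (hθ : 0 < θ) (hε : 0 < ε) (hγ : 0 < γ) :
    ∀ᶠ k : ℕ in atTop, Cnd3 r θ ε γ k := by
  filter_upwards [eventually_ge_atTop 1, poly_le 4 (by norm_num) 2 1 one_pos,
    poly_le (16 ^ r * 28 * r * 3 ^ r) (by positivity) (r + 2) (θ / 8) (by positivity),
    poly_le 960 (by norm_num) 2 (ε / 2) (by positivity),
    poly_le 480 (by norm_num) 4 (1 / 8) (by norm_num),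
    poly_le 3 (by norm_num) 0 (γ / 2) (by positivity),
    poly_le 2 (by norm_num) 0 (1 / 4) (by norm_num),
    poly_le (2 * (4 ^ r * 1687)) (by positivity) 2 (γ / 4) (by positivity),
    poly_le (2 * (2 + 2 ^ r)) (by positivity) 0 (1 / 4) (by norm_num)]
    with k b0 b1 b2 b3 b4 b5 b6 b7 b8
  rw [pow_zero, mul_one] at b5 b6 b8
  rw [Real.rpow_one] at b1
  have hk : (1 : ℝ) ≤ k := by exact_mod_cast b0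
  exact ⟨b0, by nlinarith, b2, b3, b4, b5, b6, b7, b8⟩

section

variable {Q L : ℝ}

lemma mono3 (hQ1 : 1 ≤ Q) {s t : ℝ} (hst : s ≤ t) : Q ^ s ≤ Q ^ t :=
  Real.rpow_le_rpow_of_exponent_le hQ1 hst

lemma num_a (hQ1 : 1 ≤ Q) (hL : 1 ≤ L) {Λ ly k7 θ κ γ : ℝ} {r : ℕ} (hr : 1 ≤ r) (hΛ0 : 0 ≤ Λ)
    (hΛ : Λ ≤ Q ^ (γ / 16)) (hly0 : 0 ≤ ly) (hly : ly ≤ L) (hk0 : 0 ≤ k7) (hk7 : k7 ≤ 7 * L ^ 2)
    (ha : (16 ^ r * 28 * r * 3 ^ r) * L ^ (r + 2) ≤ Q ^ (θ / 8))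
    (hrθ : κ * (1 + 1 / r) ≤ 1 - θ / 2) (hγ0 : 0 < γ) (hγr : γ * (16 * r) ≤ θ)
    (hγθ : 16 * γ ≤ θ) :
    (16 * Λ * ly / Q ^ (-γ)) ^ r * (r * k7 * (4 * 3 ^ r)) * Q ^ (κ * (1 + 1 / r)) ≤
      Q ^ (1 - 3 / 2 * γ) := by
  have hQ0 : 0 < Q := by linarith
  have hQe : ∀ s : ℝ, 0 < Q ^ s := fun s => Real.rpow_pos_of_pos hQ0 s
  have e1 : 16 * Λ * ly / Q ^ (-γ) ≤ 16 * L * Q ^ (γ / 16 + γ) := by
    rw [Real.rpow_neg hQ0.le, div_inv_eq_mul]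
    calc 16 * Λ * ly * Q ^ γ ≤ 16 * Q ^ (γ / 16) * L * Q ^ γ := by gcongr
      _ = 16 * L * (Q ^ (γ / 16) * Q ^ γ) := by ring
      _ = _ := by rw [← Real.rpow_add hQ0]
  have e0 : 0 ≤ 16 * Λ * ly / Q ^ (-γ) := by positivity
  have e2 : (γ / 16 + γ) * r ≤ θ / 8 := by
    have : (γ / 16 + γ) * r = 17 / 256 * (γ * (16 * r)) := by ring
    rw [this]
    linarith
  calc (16 * Λ * ly / Q ^ (-γ)) ^ r * (r * k7 * (4 * 3 ^ r)) * Q ^ (κ * (1 + 1 / r))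
      ≤ (16 * L * Q ^ (γ / 16 + γ)) ^ r * (r * (7 * L ^ 2) * (4 * 3 ^ r)) *
        Q ^ (κ * (1 + 1 / r)) := by gcongr
    _ = (16 ^ r * 28 * r * 3 ^ r) * L ^ (r + 2) * ((Q ^ (γ / 16 + γ)) ^ r *
        Q ^ (κ * (1 + 1 / r))) := by
        rw [mul_pow, mul_pow, pow_add]; ring
    _ = (16 ^ r * 28 * r * 3 ^ r) * L ^ (r + 2) *
        Q ^ ((γ / 16 + γ) * r + κ * (1 + 1 / r)) := by
        rw [← Real.rpow_natCast (Q ^ (γ / 16 + γ)) r, ← Real.rpow_mul hQ0.le,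
          ← Real.rpow_add hQ0]
    _ ≤ Q ^ (θ / 8) * Q ^ (θ / 8 + (1 - θ / 2)) := by
        apply mul_le_mul ha _ (hQe _).le (hQe _).le
        exact mono3 hQ1 (by linarith)
    _ = Q ^ (θ / 8 + (θ / 8 + (1 - θ / 2))) := by rw [← Real.rpow_add hQ0]
    _ ≤ Q ^ (1 - 3 / 2 * γ) := mono3 hQ1 (by linarith)

lemma num_b (hQ1 : 1 ≤ Q) (hL : 1 ≤ L) {Y N k14 ε γ a n : ℝ} (hY0 : 0 ≤ Y) (hY : Y ≤ Q ^ a)
    (hN : N = Q ^ n) (hk0 : 0 ≤ k14) (hk14 : k14 ≤ 15 * L ^ 2)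
    (ha : 960 * L ^ 2 ≤ Q ^ (ε / 2)) (hsum : ε / 2 + (a + 2 * n + ε) ≤ 1 - 3 / 2 * γ) :
    64 * Y * N ^ 2 / Q ^ (-ε) * k14 ≤ Q ^ (1 - 3 / 2 * γ) := by
  have hQ0 : 0 < Q := by linarith
  have hQe : ∀ s : ℝ, 0 < Q ^ s := fun s => Real.rpow_pos_of_pos hQ0 s
  have e1 : 64 * Y * N ^ 2 / Q ^ (-ε) ≤ 64 * Q ^ (a + 2 * n + ε) := by
    rw [Real.rpow_neg hQ0.le, div_inv_eq_mul, hN]
    calc 64 * Y * (Q ^ n) ^ 2 * Q ^ ε ≤ 64 * Q ^ a * (Q ^ n) ^ 2 * Q ^ ε := by gcongr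
      _ = 64 * (Q ^ a * (Q ^ n) ^ 2 * Q ^ ε) := by ring
      _ = _ := by
          rw [← Real.rpow_natCast (Q ^ n) 2, ← Real.rpow_mul hQ0.le,
            ← Real.rpow_add hQ0, ← Real.rpow_add hQ0]
          congr 2; push_cast; ring
  calc 64 * Y * N ^ 2 / Q ^ (-ε) * k14 ≤ (64 * Q ^ (a + 2 * n + ε)) * (15 * L ^ 2) := by gcongr
    _ = (960 * L ^ 2) * Q ^ (a + 2 * n + ε) := by ring
    _ ≤ Q ^ (ε / 2) * Q ^ (a + 2 * n + ε) := mul_le_mul_of_nonneg_right ha (hQe _).le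
    _ = Q ^ (ε / 2 + (a + 2 * n + ε)) := by rw [← Real.rpow_add hQ0]
    _ ≤ _ := mono3 hQ1 hsum

lemma num_c (hQ1 : 1 ≤ Q) (hL : 1 ≤ L) {N k14 k1 γ n : ℝ} (hk10 : 0 ≤ k1) (hk1 : k1 ≤ L)
    (hN : N = Q ^ n) (hk0 : 0 ≤ k14) (hk14 : k14 ≤ 15 * L ^ 2)
    (ha : 480 * L ^ 4 ≤ Q ^ (1 / 8 : ℝ)) (hsum : 1 / 8 + (2 * n + 1 / 2) ≤ 1 - 3 / 2 * γ) :
    32 * k1 ^ 2 * N ^ 2 / Q ^ (-(1 / 2) : ℝ) * k14 ≤ Q ^ (1 - 3 / 2 * γ) := by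
  have hQ0 : 0 < Q := by linarith
  have hQe : ∀ s : ℝ, 0 < Q ^ s := fun s => Real.rpow_pos_of_pos hQ0 s
  have e1 : 32 * k1 ^ 2 * N ^ 2 / Q ^ (-(1 / 2) : ℝ) ≤ 32 * L ^ 2 * Q ^ (2 * n + 1 / 2) := by
    rw [Real.rpow_neg hQ0.le, div_inv_eq_mul, hN]
    calc 32 * k1 ^ 2 * (Q ^ n) ^ 2 * Q ^ (1 / 2 : ℝ)
        ≤ 32 * L ^ 2 * (Q ^ n) ^ 2 * Q ^ (1 / 2 : ℝ) := by gcongr
      _ = 32 * L ^ 2 * ((Q ^ n) ^ 2 * Q ^ (1 / 2 : ℝ)) := by ring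
      _ = _ := by
          rw [← Real.rpow_natCast (Q ^ n) 2, ← Real.rpow_mul hQ0.le, ← Real.rpow_add hQ0]
          congr 2; push_cast; ring
  calc 32 * k1 ^ 2 * N ^ 2 / Q ^ (-(1 / 2) : ℝ) * k14
      ≤ (32 * L ^ 2 * Q ^ (2 * n + 1 / 2)) * (15 * L ^ 2) := by gcongr
    _ = (480 * L ^ 4) * Q ^ (2 * n + 1 / 2) := by ring
    _ ≤ Q ^ (1 / 8 : ℝ) * Q ^ (2 * n + 1 / 2) := mul_le_mul_of_nonneg_right ha (hQe _).le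
    _ = Q ^ (1 / 8 + (2 * n + 1 / 2)) := by rw [← Real.rpow_add hQ0]
    _ ≤ _ := mono3 hQ1 hsum

lemma num_s1 (hQ1 : 1 ≤ Q) {q Kc Λ θ κ γ : ℝ} (hQq : Q ≤ q) (hKc0 : 0 ≤ Kc) (hKc : Kc ≤ q ^ κ)
    (hκ : κ = 1 - θ) (hθ : 0 < θ) (hΛ0 : 0 ≤ Λ) (hΛ : Λ ≤ Q ^ (γ / 16)) :
    Real.sqrt (Kc * (128 * Λ / q)) ≤ 12 * Q ^ ((γ / 16 - θ) / 2) := by
  have hQ0 : 0 < Q := by linarith
  have hq0 : 0 < q := by linarith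
  have hQe : ∀ s : ℝ, 0 < Q ^ s := fun s => Real.rpow_pos_of_pos hQ0 s
  have hKq : Kc / q ≤ Q ^ (-θ) := by
    rw [div_le_iff₀ hq0]
    calc Kc ≤ q ^ κ := hKc
      _ = q ^ (-θ) * q := by
          rw [hκ, show (1 : ℝ) - θ = -θ + 1 by ring, Real.rpow_add hq0, Real.rpow_one]
      _ ≤ Q ^ (-θ) * q := by
          apply mul_le_mul_of_nonneg_right _ hq0.le
          exact Real.rpow_le_rpow_of_nonpos hQ0 hQq (by linarith)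
  apply Real.sqrt_le_iff.2
  refine ⟨by positivity, ?_⟩
  calc Kc * (128 * Λ / q) = 128 * Λ * (Kc / q) := by ring
    _ ≤ 128 * Q ^ (γ / 16) * Q ^ (-θ) := by gcongr
    _ = 128 * Q ^ (γ / 16 - θ) := by
        rw [mul_assoc, ← Real.rpow_add hQ0]
        congr 2
    _ ≤ (12 * Q ^ ((γ / 16 - θ) / 2)) ^ 2 := by
        rw [mul_pow, ← Real.rpow_natCast (Q ^ ((γ / 16 - θ) / 2)) 2, ← Real.rpow_mul hQ0.le]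
        have e : (γ / 16 - θ) / 2 * ((2 : ℕ) : ℝ) = γ / 16 - θ := by push_cast; ring
        rw [e]
        have := hQe (γ / 16 - θ)
        linarith

lemma num_s2 (hQ1 : 1 ≤ Q) {q Kc κ : ℝ} (hq0 : 0 < q) (hqQ : q ≤ 2 * Q) (hKc0 : 0 ≤ Kc)
    (hKc : Kc ≤ q ^ κ) (hκ0 : 0 ≤ κ) (hκ1 : κ ≤ 1) :
    Real.sqrt (Kc * (4 * Q ^ (-(1 / 2) : ℝ))) ≤ 3 * Q ^ (κ / 2 - 1 / 4) := by
  have hQ0 : 0 < Q := by linarith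
  have hQe : ∀ s : ℝ, 0 < Q ^ s := fun s => Real.rpow_pos_of_pos hQ0 s
  apply Real.sqrt_le_iff.2
  refine ⟨by positivity, ?_⟩
  have e1 : Kc ≤ 2 * Q ^ κ := by
    calc Kc ≤ q ^ κ := hKc
      _ ≤ (2 * Q) ^ κ := Real.rpow_le_rpow hq0.le hqQ hκ0
      _ = 2 ^ κ * Q ^ κ := Real.mul_rpow (by norm_num) hQ0.le
      _ ≤ 2 ^ (1 : ℝ) * Q ^ κ := by
          apply mul_le_mul_of_nonneg_right _ (hQe _).le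
          exact Real.rpow_le_rpow_of_exponent_le (by norm_num) hκ1
      _ = 2 * Q ^ κ := by rw [Real.rpow_one]
  calc Kc * (4 * Q ^ (-(1 / 2) : ℝ)) ≤ (2 * Q ^ κ) * (4 * Q ^ (-(1 / 2) : ℝ)) := by gcongr
    _ = 8 * (Q ^ κ * Q ^ (-(1 / 2) : ℝ)) := by ring
    _ = 8 * Q ^ (κ + -(1 / 2)) := by rw [← Real.rpow_add hQ0]
    _ ≤ (3 * Q ^ (κ / 2 - 1 / 4)) ^ 2 := by
        rw [mul_pow, ← Real.rpow_natCast (Q ^ (κ / 2 - 1 / 4)) 2, ← Real.rpow_mul hQ0.le]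
        have e : (κ / 2 - 1 / 4) * ((2 : ℕ) : ℝ) = κ + -(1 / 2) := by push_cast; ring
        rw [e]
        have := hQe (κ + -(1 / 2))
        linarith

lemma num_s3 (hQ1 : 1 ≤ Q) {q : ℝ} (hq0 : 0 < q) (hqQ : q ≤ 2 * Q) :
    Real.sqrt (Real.sqrt q) ≤ 2 * Q ^ (1 / 4 : ℝ) := by
  have hQ0 : 0 < Q := by linarith
  apply Real.sqrt_le_iff.2
  refine ⟨by positivity, ?_⟩
  apply Real.sqrt_le_iff.2
  refine ⟨by positivity, ?_⟩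
  have e : ((2 * Q ^ (1 / 4 : ℝ)) ^ 2) ^ 2 = 16 * Q := by
    rw [← pow_mul, mul_pow, ← Real.rpow_natCast (Q ^ (1 / 4 : ℝ)) (2 * 2), ← Real.rpow_mul hQ0.le]
    norm_num
  rw [e]; linarith

/-- the base of the bound for the long part -/
lemma num_base (hQ1 : 1 ≤ Q) (hL : 1 ≤ L) {s1 s2 s3 Λ lx lq N aw0 dd θ κ ε γ : ℝ} {r : ℕ}
    (h1 : s1 ≤ 12 * Q ^ ((γ / 16 - θ) / 2)) (h2 : s2 ≤ 3 * Q ^ (κ / 2 - 1 / 4))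
    (h3 : s3 ≤ 2 * Q ^ (1 / 4 : ℝ)) (hs1 : 0 ≤ s1) (hs2 : 0 ≤ s2) (hs3 : 0 ≤ s3)
    (hΛ0 : 0 ≤ Λ) (hΛ : Λ ≤ Q ^ (γ / 16)) (hlx0 : 0 ≤ lx) (hlx : lx ≤ 3 * L) (hlq0 : 0 ≤ lq)
    (hlq : lq ≤ L) (hN : N = Q ^ (1 / 8 - ε)) (haw0 : 0 ≤ aw0)
    (haw : aw0 ≤ Q ^ (-(3 / 4 - ε) / 2)) (hdd0 : 0 ≤ dd) (hdd : dd ≤ 2 ^ r)
    (hγ0 : 0 < γ) (hγε : γ ≤ ε) (hγθ : 16 * γ ≤ θ) (hκ1 : κ ≤ 1) (hε : 32 * ε ≤ 1 / 8) :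
    0 ≤ dd * (s1 * Λ * lx + (s2 * Λ + s3 * (lq * N)) * aw0) ∧
    dd * (s1 * Λ * lx + (s2 * Λ + s3 * (lq * N)) * aw0) ≤ 2 ^ r * (41 * L * Q ^ (-(γ / 4))) := by
  have hQ0 : 0 < Q := by linarith
  have hQe : ∀ s : ℝ, 0 < Q ^ s := fun s => Real.rpow_pos_of_pos hQ0 s
  have hN0 : 0 ≤ N := by rw [hN]; exact (hQe _).le
  refine ⟨by positivity, ?_⟩
  have b1 : s1 * Λ * lx ≤ 36 * L * Q ^ (-(γ / 4)) := by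
    calc s1 * Λ * lx ≤ (12 * Q ^ ((γ / 16 - θ) / 2)) * Q ^ (γ / 16) * (3 * L) := by gcongr
      _ = 36 * L * (Q ^ ((γ / 16 - θ) / 2) * Q ^ (γ / 16)) := by ring
      _ = 36 * L * Q ^ ((γ / 16 - θ) / 2 + γ / 16) := by rw [← Real.rpow_add hQ0]
      _ ≤ 36 * L * Q ^ (-(γ / 4)) := by
          apply mul_le_mul_of_nonneg_left _ (by positivity)
          exact mono3 hQ1 (by linarith)
  have b2 : s2 * Λ * aw0 ≤ 3 * Q ^ (-(γ / 4)) := by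
    calc s2 * Λ * aw0 ≤ (3 * Q ^ (κ / 2 - 1 / 4)) * Q ^ (γ / 16) * Q ^ (-(3 / 4 - ε) / 2) := by
          gcongr
      _ = 3 * (Q ^ (κ / 2 - 1 / 4) * Q ^ (γ / 16) * Q ^ (-(3 / 4 - ε) / 2)) := by ring
      _ = 3 * Q ^ (κ / 2 - 1 / 4 + γ / 16 + -(3 / 4 - ε) / 2) := by
          rw [← Real.rpow_add hQ0, ← Real.rpow_add hQ0]
      _ ≤ 3 * Q ^ (-(γ / 4)) := by
          apply mul_le_mul_of_nonneg_left _ (by norm_num)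
          exact mono3 hQ1 (by linarith)
  have b3 : s3 * (lq * N) * aw0 ≤ 2 * L * Q ^ (-(γ / 4)) := by
    rw [hN]
    calc s3 * (lq * Q ^ (1 / 8 - ε)) * aw0
        ≤ (2 * Q ^ (1 / 4 : ℝ)) * (L * Q ^ (1 / 8 - ε)) * Q ^ (-(3 / 4 - ε) / 2) := by gcongr
      _ = 2 * L * (Q ^ (1 / 4 : ℝ) * Q ^ (1 / 8 - ε) * Q ^ (-(3 / 4 - ε) / 2)) := by ring
      _ = 2 * L * Q ^ (1 / 4 + (1 / 8 - ε) + -(3 / 4 - ε) / 2) := by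
          rw [← Real.rpow_add hQ0, ← Real.rpow_add hQ0]
      _ ≤ 2 * L * Q ^ (-(γ / 4)) := by
          apply mul_le_mul_of_nonneg_left _ (by positivity)
          exact mono3 hQ1 (by linarith)
  have b4 : s1 * Λ * lx + (s2 * Λ + s3 * (lq * N)) * aw0 ≤ 41 * L * Q ^ (-(γ / 4)) := by
    have p := hQe (-(γ / 4))
    have p3 : 3 * Q ^ (-(γ / 4)) ≤ 3 * L * Q ^ (-(γ / 4)) := by
      apply mul_le_mul_of_nonneg_right _ p.le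
      linarith
    calc s1 * Λ * lx + (s2 * Λ + s3 * (lq * N)) * aw0 =
          s1 * Λ * lx + s2 * Λ * aw0 + s3 * (lq * N) * aw0 := by ring
      _ ≤ 36 * L * Q ^ (-(γ / 4)) + 3 * L * Q ^ (-(γ / 4)) + 2 * L * Q ^ (-(γ / 4)) := by linarith
      _ = 41 * L * Q ^ (-(γ / 4)) := by ring
  have b5 : 0 ≤ 41 * L * Q ^ (-(γ / 4)) := by positivity
  calc dd * (s1 * Λ * lx + (s2 * Λ + s3 * (lq * N)) * aw0)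
      ≤ dd * (41 * L * Q ^ (-(γ / 4))) := mul_le_mul_of_nonneg_left b4 hdd0
    _ ≤ _ := mul_le_mul_of_nonneg_right hdd b5

lemma num_v (hQ1 : 1 ≤ Q) {Λ ε γ : ℝ} (hΛ0 : 0 ≤ Λ) (hΛ : Λ ≤ Q ^ (γ / 16)) (hγ0 : 0 < γ)
    (hγε : γ ≤ ε) : 3 * ((Q ^ (-γ) + Q ^ (-ε)) * Λ ^ 2) ≤ 6 * Q ^ (-(γ / 2)) := by
  have hQ0 : 0 < Q := by linarith
  have hQe : ∀ s : ℝ, 0 < Q ^ s := fun s => Real.rpow_pos_of_pos hQ0 s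
  have e1 : Q ^ (-ε) ≤ Q ^ (-γ) := mono3 hQ1 (by linarith)
  have e2 := hQe (-γ)
  have e3 := hQe (-ε)
  calc 3 * ((Q ^ (-γ) + Q ^ (-ε)) * Λ ^ 2) ≤ 3 * ((Q ^ (-γ) + Q ^ (-γ)) * (Q ^ (γ / 16)) ^ 2) := by
        gcongr
    _ = 6 * (Q ^ (-γ) * (Q ^ (γ / 16)) ^ 2) := by ring
    _ = 6 * Q ^ (-γ + γ / 16 * (2 : ℕ)) := by
        rw [← Real.rpow_natCast (Q ^ (γ / 16)) 2, ← Real.rpow_mul hQ0.le, ← Real.rpow_add hQ0]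
    _ ≤ 6 * Q ^ (-(γ / 2)) := by
        apply mul_le_mul_of_nonneg_left _ (by norm_num)
        apply mono3 hQ1
        push_cast
        linarith

/-- the first part of the final bound -/
lemma num_part1 (hQ2 : 2 ≤ Q) (hL : 1 ≤ L) {q v3 b γ : ℝ} {r : ℕ} (hQq : Q ≤ q) (hqQ : q ≤ 2 * Q)
    (hγ0 : 0 < γ) (hv : v3 ≤ 6 * Q ^ (-(γ / 2))) (hb0 : 0 ≤ b)
    (hb : b ≤ 2 ^ r * (41 * L * Q ^ (-(γ / 4))))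
    (h6 : (2 * (4 ^ r * 1687)) * L ^ 2 ≤ Q ^ (γ / 4)) :
    q * (v3 + b ^ 2) ≤ (1 / 2) * q ^ (1 - γ / 8) := by
  have hQ1 : 1 ≤ Q := by linarith
  have hQ0 : 0 < Q := by linarith
  have hq0 : 0 < q := by linarith
  have hQe : ∀ s : ℝ, 0 < Q ^ s := fun s => Real.rpow_pos_of_pos hQ0 s
  have hvL := pow_le_pow_left₀ hb0 hb 2
  have hvL2 : (2 ^ r * (41 * L * Q ^ (-(γ / 4)))) ^ 2 = 4 ^ r * 1681 * L ^ 2 * Q ^ (-(γ / 2)) := by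
    have e1 : (Q ^ (-(γ / 4))) ^ 2 = Q ^ (-(γ / 2)) := by
      rw [← Real.rpow_natCast (Q ^ (-(γ / 4))) 2, ← Real.rpow_mul hQ0.le]
      congr 1; push_cast; ring
    have e2 : ((2 : ℝ) ^ r) ^ 2 = 4 ^ r := by
      rw [← pow_mul, mul_comm, pow_mul]; norm_num
    rw [mul_pow, mul_pow, mul_pow, e1, e2]
    ring
  rw [hvL2] at hvL
  have hQq2 : q ≤ Q ^ (2 : ℝ) := by
    have e : Q ^ (2 : ℝ) = Q * Q := by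
      rw [show (2 : ℝ) = ((2 : ℕ) : ℝ) by norm_num, Real.rpow_natCast, sq]
    rw [e]
    nlinarith
  have e1 : v3 + b ^ 2 ≤ (4 ^ r * 1687) * L ^ 2 * Q ^ (-(γ / 2)) := by
    have p := hQe (-(γ / 2))
    have p4 : (1 : ℝ) ≤ 4 ^ r := one_le_pow₀ (by norm_num)
    have pL : 1 ≤ L ^ 2 := one_le_pow₀ hL
    have p5 : 6 * Q ^ (-(γ / 2)) ≤ 4 ^ r * 6 * L ^ 2 * Q ^ (-(γ / 2)) := by
      apply mul_le_mul_of_nonneg_right _ p.le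
      nlinarith
    calc v3 + b ^ 2 ≤ 6 * Q ^ (-(γ / 2)) + 4 ^ r * 1681 * L ^ 2 * Q ^ (-(γ / 2)) :=
          add_le_add hv hvL
      _ ≤ 4 ^ r * 6 * L ^ 2 * Q ^ (-(γ / 2)) + 4 ^ r * 1681 * L ^ 2 * Q ^ (-(γ / 2)) := by
          linarith
      _ = _ := by ring
  have e2 : (4 ^ r * 1687) * L ^ 2 * Q ^ (-(γ / 2)) ≤ (1 / 2) * Q ^ (-(γ / 4)) := by
    calc (4 ^ r * 1687) * L ^ 2 * Q ^ (-(γ / 2))
        = (1 / 2) * ((2 * (4 ^ r * 1687)) * L ^ 2) * Q ^ (-(γ / 2)) := by ring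
      _ ≤ (1 / 2) * Q ^ (γ / 4) * Q ^ (-(γ / 2)) := by gcongr
      _ = (1 / 2) * (Q ^ (γ / 4) * Q ^ (-(γ / 2))) := by ring
      _ = _ := by
          rw [← Real.rpow_add hQ0]
          congr 2; ring
  have e3 : Q ^ (-(γ / 4)) ≤ q ^ (-(γ / 8)) := by
    rw [Real.rpow_neg hQ0.le, Real.rpow_neg hq0.le]
    apply inv_anti₀ (by positivity)
    calc q ^ (γ / 8) ≤ (Q ^ (2 : ℝ)) ^ (γ / 8) :=
          Real.rpow_le_rpow hq0.le hQq2 (by positivity)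
      _ = Q ^ (γ / 4) := by
          rw [← Real.rpow_mul hQ0.le]
          congr 1; ring
  calc q * (v3 + b ^ 2) ≤ q * ((1 / 2) * q ^ (-(γ / 8))) := by
        apply mul_le_mul_of_nonneg_left _ hq0.le
        linarith
    _ = (1 / 2) * (q ^ (1 : ℝ) * q ^ (-(γ / 8))) := by rw [Real.rpow_one]; ring
    _ = (1 / 2) * q ^ (1 - γ / 8) := by
        rw [← Real.rpow_add hq0]
        congr 2

/-- the second part of the final bound -/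
lemma num_part2 (hQ1 : 1 ≤ Q) {q sY N dd ε γ : ℝ} {r : ℕ} (hQq : Q ≤ q) (hsY0 : 0 ≤ sY)
    (hsY : sY ≤ Q ^ (3 / 8 : ℝ)) (hN0 : 0 ≤ N) (hN : N ≤ Q ^ (1 / 8 : ℝ)) (hdd0 : 0 ≤ dd)
    (hdd : dd ≤ 2 ^ r) (h7 : 2 * (2 + 2 ^ r) ≤ Q ^ (1 / 4 : ℝ)) (hγ1 : γ ≤ 1) :
    2 * sY * N + dd * N ≤ (1 / 2) * q ^ (1 - γ / 8) := by
  have hQ0 : 0 < Q := by linarith
  have hq1 : 1 ≤ q := by linarith
  have hQe : ∀ s : ℝ, 0 < Q ^ s := fun s => Real.rpow_pos_of_pos hQ0 s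
  calc 2 * sY * N + dd * N
      ≤ 2 * Q ^ (3 / 8 : ℝ) * Q ^ (1 / 8 : ℝ) + 2 ^ r * Q ^ (1 / 8 : ℝ) := by gcongr
    _ = 2 * (Q ^ (3 / 8 : ℝ) * Q ^ (1 / 8 : ℝ)) + 2 ^ r * Q ^ (1 / 8 : ℝ) := by ring
    _ = 2 * Q ^ (1 / 2 : ℝ) + 2 ^ r * Q ^ (1 / 8 : ℝ) := by
        rw [← Real.rpow_add hQ0]; norm_num
    _ ≤ 2 * Q ^ (1 / 2 : ℝ) + 2 ^ r * Q ^ (1 / 2 : ℝ) := by
        have := mono3 hQ1 (s := 1 / 8) (t := 1 / 2) (by norm_num)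
        gcongr
    _ = (1 / 2) * (2 * (2 + 2 ^ r)) * Q ^ (1 / 2 : ℝ) := by ring
    _ ≤ (1 / 2) * Q ^ (1 / 4 : ℝ) * Q ^ (1 / 2 : ℝ) := by gcongr
    _ = (1 / 2) * Q ^ (3 / 4 : ℝ) := by
        rw [mul_assoc, ← Real.rpow_add hQ0]; norm_num
    _ ≤ (1 / 2) * q ^ (3 / 4 : ℝ) := by
        apply mul_le_mul_of_nonneg_left _ (by norm_num)
        exact Real.rpow_le_rpow hQ0.le hQq (by norm_num)
    _ ≤ (1 / 2) * q ^ (1 - γ / 8) := by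
        apply mul_le_mul_of_nonneg_left _ (by norm_num)
        apply Real.rpow_le_rpow_of_exponent_le hq1
        linarith

end

end Pool.Agent.H.MP_3e6494_nt.A14
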