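import Mathlib
import Pool.Agent.H.MP_3e6494_nt.helper14.DualLev
import Pool.Agent.H.MP_3e6494_nt.helper14.Core
import Pool.Agent.H.MP_3e6494_nt.h26t.FoldB

/-!
The long part by Fourier expansion.
-/

open Finset Filter

set_option linter.unusedSectionVars false
set_option linter.unusedVariables false

namespace Pool.Agent.H.MP_3e6494_nt.A14

open Pool.Agent.H.MP_3e6494_nt.H14 (ResoE gw)

open Pool.Agent.H.MP_3e6494_nt.Class Pool.Agent.H.MP_3e6494_nt.T3Cnt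
  Pool.Agent.H.MP_3e6494_nt.T6Par Pool.Agent.H.MP_3e6494_nt.T3Res
  Pool.Agent.H.MP_3e6494_nt.T3Exc
open Pool.Agent.H.MP_3e6494_nt.T3Prime (u u_val u_mul u_one)
open Pool.Agent.H.MP_3e6494_nt.DualA (ivc norm_ivc_le norm_ivc_le')

variable {q : ℕ} [hq : Fact q.Prime]

/-- the residue of a triple as a fraction -/
lemma zt_mul {r : ℕ} {V G Λ : ℝ} (R : ResoE r V G Λ) (hVq : V ^ 2 < q) {t : ℕ × R.α × R.α}
    (h1 : t.1.Coprime q) (ha : inU R t.2.1) (hb : inU R t.2.2) :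
    ((t.1 : ℕ) : ZMod q) * ((rh q R.nu R.de t.2.1 * (rh q R.nu R.de t.2.2)⁻¹ : (ZMod q)ˣ) : ZMod q) *
      ((yt R.nu R.de t : ℕ) : ZMod q) = ((xt R.nu R.de t : ℕ) : ZMod q) := by
  obtain ⟨c1, c2⟩ := xt_cop R hVq h1 ha hb
  have h2 := zt_eq R hVq h1 ha hb
  unfold zt at h2
  rw [← u_val h1, ← Units.val_mul, h2, Units.val_mul, u_val c1, mul_assoc, ← u_val c2,
    ← Units.val_mul, inv_mul_cancel, Units.val_one, mul_one]

lemma cross {r : ℕ} {V G Λ : ℝ} (R : ResoE r V G Λ) (hVq : V ^ 2 < q) {t t' : ℕ × R.α × R.α}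
    (h1 : t.1.Coprime q) (ha : inU R t.2.1) (hb : inU R t.2.2)
    (h1' : t'.1.Coprime q) (ha' : inU R t'.2.1) (hb' : inU R t'.2.2) {s : ZMod q}
    (h : ((t.1 : ℕ) : ZMod q) * ((rh q R.nu R.de t.2.1 * (rh q R.nu R.de t.2.2)⁻¹ : (ZMod q)ˣ) :
      ZMod q) = s * (((t'.1 : ℕ) : ZMod q) *
      ((rh q R.nu R.de t'.2.1 * (rh q R.nu R.de t'.2.2)⁻¹ : (ZMod q)ˣ) : ZMod q))) :
    ((xt R.nu R.de t * yt R.nu R.de t' : ℕ) : ZMod q) =
      s * ((xt R.nu R.de t' * yt R.nu R.de t : ℕ) : ZMod q) := by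
  rw [Nat.cast_mul, Nat.cast_mul, ← zt_mul R hVq h1 ha hb, ← zt_mul R hVq h1' ha' hb', h]
  ring

/-- the pairs in the dual sum -/
lemma dual_sum_bound {k : ℕ} {r : ℕ} {V G Λ : ℝ} (R : ResoE r V G Λ) (hΛ : 0 ≤ Λ)
    (hVq : V ^ 2 < q) (hq3 : 3 ≤ q) (hqk : q < 2 ^ (k + 1)) {t3 : ℝ} (ht3 : 0 ≤ t3) (hd : DualE q R (2 ^ k) t3)
    (S' T' : Finset R.α) (hS : ∀ a ∈ S', inU R a) (hT : ∀ a ∈ T', inU R a) (a ℓ : ℕ) (hℓ : ℓ < q) :
    ∑ z ∈ ((((Finset.univ.erase 0 : Finset (ZMod q)) ×ˢ (S' ×ˢ T')) ×ˢ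
          ((Finset.univ.erase 0 : Finset (ZMod q)) ×ˢ (S' ×ˢ T'))).filter
          (fun z => z.1.1 * (((rh q R.nu R.de z.1.2.1 * (rh q R.nu R.de z.1.2.2)⁻¹)⁻¹ :
            (ZMod q)ˣ) : ZMod q) =
            z.2.1 * (((rh q R.nu R.de z.2.2.1 * (rh q R.nu R.de z.2.2.2)⁻¹)⁻¹ : (ZMod q)ˣ) :
              ZMod q))),
        (‖ivc q a ℓ z.1.1‖ * (R.f z.1.2.1 * R.f z.1.2.2)) *
          (‖ivc q a ℓ z.2.1‖ * (R.f z.2.2.1 * R.f z.2.2.2)) ≤
      (128 * Λ / q * R.F0 ^ 2) * ℓ + 4 * t3 * R.F0 ^ 2 := by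
  classical
  have hq0 : (0 : ℝ) < q := by exact_mod_cast hq.out.pos
  set c : ℕ → ℝ := fun m => min ((ℓ : ℝ) / q) (1 / (m : ℝ)) with hc
  have hc0 : ∀ m, 0 ≤ c m := fun m => le_min (by positivity) (by positivity)
  have hcm : ∀ m n, 1 ≤ m → m ≤ n → c n ≤ c m := by
    intro m n hm hmn
    have hm0 : (0 : ℝ) < m := by exact_mod_cast hm
    have h2 : (m : ℝ) ≤ n := by exact_mod_cast hmn
    exact min_le_min le_rfl (one_div_le_one_div_of_le hm0 h2)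
  have hc2 := min_sq_sum ((ℓ : ℝ) / q) (by positivity) (2 ^ k)
  have hF0 := R.F0_pos
  have hcoef : ∀ m : ZMod q, m ≠ 0 → ‖ivc q a ℓ m‖ ≤ c (min m.val (q - m.val)) := by
    intro m hm
    apply le_min (norm_ivc_le a ℓ m)
    refine (norm_ivc_le' a ℓ m hm).trans ?_
    have hv : m.val < q := ZMod.val_lt m
    have hv0 : 0 < m.val := by
      rcases Nat.eq_zero_or_pos m.val with h | h
      · exact absurd ((ZMod.val_eq_zero m).1 h) hm
      · exact h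
    have hmin : 0 < min m.val (q - m.val) := lt_min hv0 (by omega)
    have hmin' : (0 : ℝ) < ((min m.val (q - m.val) : ℕ) : ℝ) := by exact_mod_cast hmin
    have h1 : 1 / (m.val : ℝ) ≤ 1 / ((min m.val (q - m.val) : ℕ) : ℝ) := by
      apply one_div_le_one_div_of_le hmin'
      exact_mod_cast min_le_left _ _
    have h2 : 1 / ((q - m.val : ℕ) : ℝ) ≤ 1 / ((min m.val (q - m.val) : ℕ) : ℝ) := by
      apply one_div_le_one_div_of_le hmin'
      exact_mod_cast min_le_right _ _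
    linarith
  have hcop : ∀ μ : ℕ, μ ∈ Finset.Icc 1 ((q - 1) / 2) → μ.Coprime q ∧ 1 ≤ μ ∧ μ ≤ 2 ^ k := by
    intro μ hμ
    rw [Finset.mem_Icc] at hμ
    have h2 : 2 ^ (k + 1) = 2 * 2 ^ k := by rw [pow_succ]; ring
    have hμq : μ < q := by omega
    refine ⟨?_, hμ.1, by omega⟩
    rw [Nat.coprime_comm, hq.out.coprime_iff_not_dvd]
    intro hdvd
    have := Nat.le_of_dvd (by omega) hdvd
    omega
  have hmain := h26t.dual_pairs hq3 S' T' (rh q R.nu R.de) R.f R.f_nonneg c hc0 (ivc q a ℓ) hcoef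
    (T1 := (64 * Λ / q * ℓ + t3) * R.F0 ^ 2) (T2 := t3 * R.F0 ^ 2)
    (by
      intro 𝒥 h𝒥
      have hsplit := Finset.sum_filter_add_sum_filter_not 𝒥
        (fun z => xt R.nu R.de z.1 * yt R.nu R.de z.2 = xt R.nu R.de z.2 * yt R.nu R.de z.1)
        (fun z => (c z.1.1 * (R.f z.1.2.1 * R.f z.1.2.2)) *
          (c z.2.1 * (R.f z.2.2.1 * R.f z.2.2.2)))
      rw [← hsplit]
      have htri : ∀ z ∈ 𝒥, z.1 ∈ tri R (2 ^ k) ∧ z.2 ∈ tri R (2 ^ k) := by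
        intro z hz
        obtain ⟨⟨m1, m2⟩, ⟨a1, a2, a3, a4⟩, -⟩ := h𝒥 z hz
        obtain ⟨-, p1, p2⟩ := hcop _ m1
        obtain ⟨-, p3, p4⟩ := hcop _ m2
        rw [mem_tri, mem_tri]
        exact ⟨⟨⟨p1, p2⟩, hT _ a1, hS _ a2⟩, ⟨⟨p3, p4⟩, hT _ a3, hS _ a4⟩⟩
      have h1 := diag_UU R (2 ^ k) c hc0 hcm (𝒥.filter (fun z =>
        xt R.nu R.de z.1 * yt R.nu R.de z.2 = xt R.nu R.de z.2 * yt R.nu R.de z.1)) (by
          intro z hz
          rw [Finset.mem_filter] at hz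
          exact ⟨(htri z hz.1).1, (htri z hz.1).2, hz.2⟩)
      have h2 : ∑ z ∈ 𝒥.filter (fun z => ¬ xt R.nu R.de z.1 * yt R.nu R.de z.2 =
          xt R.nu R.de z.2 * yt R.nu R.de z.1), (c z.1.1 * (R.f z.1.2.1 * R.f z.1.2.2)) *
          (c z.2.1 * (R.f z.2.2.1 * R.f z.2.2.2)) ≤ t3 * R.F0 ^ 2 := by
        refine le_trans ?_ (hd.1 (𝒥.filter (fun z => ¬ xt R.nu R.de z.1 * yt R.nu R.de z.2 =
          xt R.nu R.de z.2 * yt R.nu R.de z.1)) ?_)
        · apply Finset.sum_le_sum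
          intro z _
          unfold wd
          have f1 := mul_nonneg (R.f_nonneg z.1.2.1) (R.f_nonneg z.1.2.2)
          have f2 := mul_nonneg (R.f_nonneg z.2.2.1) (R.f_nonneg z.2.2.2)
          have g1 : c z.1.1 ≤ 1 / (z.1.1 : ℝ) := min_le_right _ _
          have g2 : c z.2.1 ≤ 1 / (z.2.1 : ℝ) := min_le_right _ _
          exact mul_le_mul (mul_le_mul_of_nonneg_right g1 f1) (mul_le_mul_of_nonneg_right g2 f2)
            (mul_nonneg (hc0 _) f2) (mul_nonneg (by positivity) f1)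
        · intro z hz
          rw [Finset.mem_filter] at hz
          obtain ⟨hz, hne⟩ := hz
          obtain ⟨⟨m1, m2⟩, ⟨a1, a2, a3, a4⟩, hrel⟩ := h𝒥 z hz
          refine ⟨(htri z hz).1, (htri z hz).2, hne, ?_⟩
          have := cross R hVq (t := z.1) (t' := z.2) (s := 1) (hcop _ m1).1 (hT _ a1) (hS _ a2)
            (hcop _ m2).1 (hT _ a3) (hS _ a4) (by rw [one_mul]; exact hrel)
          rw [one_mul] at this
          exact this
      have h3 : 16 * (Λ * R.F0 ^ 2) * ∑ m ∈ Finset.Icc 1 (2 ^ k), c m ^ 2 ≤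
          16 * (Λ * R.F0 ^ 2) * (4 * ((ℓ : ℝ) / q)) :=
        mul_le_mul_of_nonneg_left hc2 (by positivity)
      calc _ ≤ 16 * (Λ * R.F0 ^ 2) * (4 * ((ℓ : ℝ) / q)) + t3 * R.F0 ^ 2 :=
            add_le_add (h1.trans h3) h2
        _ = _ := by ring)
    (by
      intro 𝒥 h𝒥
      refine le_trans ?_ (hd.2 𝒥 ?_)
      · apply Finset.sum_le_sum
        intro z _
        unfold wd
        have f1 := mul_nonneg (R.f_nonneg z.1.2.1) (R.f_nonneg z.1.2.2)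
        have f2 := mul_nonneg (R.f_nonneg z.2.2.1) (R.f_nonneg z.2.2.2)
        have g1 : c z.1.1 ≤ 1 / (z.1.1 : ℝ) := min_le_right _ _
        have g2 : c z.2.1 ≤ 1 / (z.2.1 : ℝ) := min_le_right _ _
        exact mul_le_mul (mul_le_mul_of_nonneg_right g1 f1) (mul_le_mul_of_nonneg_right g2 f2)
          (mul_nonneg (hc0 _) f2) (mul_nonneg (by positivity) f1)
      · intro z hz
        obtain ⟨⟨m1, m2⟩, ⟨a1, a2, a3, a4⟩, hrel⟩ := h𝒥 z hz
        obtain ⟨-, p1, p2⟩ := hcop _ m1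
        obtain ⟨-, p3, p4⟩ := hcop _ m2
        rw [mem_tri, mem_tri]
        refine ⟨⟨⟨p1, p2⟩, hT _ a1, hS _ a2⟩, ⟨⟨p3, p4⟩, hT _ a3, hS _ a4⟩, ?_⟩
        have := cross R hVq (t := z.1) (t' := z.2) (s := -1) (hcop _ m1).1 (hT _ a1) (hS _ a2)
            (hcop _ m2).1 (hT _ a3) (hS _ a4) (by rw [neg_one_mul]; exact hrel)
        rw [Nat.cast_add, this]
        ring)
    _ rfl
  refine hmain.trans (le_of_eq ?_)
  ring

/-- **the long part by Fourier expansion** -/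
theorem phiE_dual {k : ℕ} {r : ℕ} {V G Λ : ℝ} (R : ResoE r V G Λ) (hΛ : 0 ≤ Λ)
    (hVq : V ^ 2 < q) (hq3 : 3 ≤ q) (hqk : q < 2 ^ (k + 1)) {t3 : ℝ} (ht3 : 0 ≤ t3) (hd : DualE q R (2 ^ k) t3)
    (K : Subgroup (ZMod q)ˣ) (X Y : ℕ) (hYX : Y ≤ X) (D : Finset ℕ) (hD : ∀ p ∈ D, p.Prime) :
    PhiE R K X Y D
      ((2 ^ D.card * (Real.sqrt ((Nat.card K : ℝ) * (128 * Λ / q)) * Λ * (2 + Real.log X) +
        (Real.sqrt ((Nat.card K : ℝ) * (4 * t3)) * Λ +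
          Real.sqrt (Real.sqrt q) * ((1 + Real.log q) * Real.exp V)) * aw (Y + 1))) ^ 2)
      (2 ^ D.card * Real.exp V) := by
  classical
  intro S' T' F hS' hT' hF hF0 hFS hFT _
  set ρ : R.α → (ZMod q)ˣ := rh q R.nu R.de with hρ
  have hF00 := R.F0_pos
  have hq0 : (0 : ℝ) < q := by exact_mod_cast hq.out.pos
  have hN0 : 0 ≤ Real.exp V := (Real.exp_pos _).le
  have hlog : 0 ≤ 1 + Real.log q := by
    have := Real.log_natCast_nonneg q
    linarith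
  have hlogX : 0 ≤ Real.log X := Real.log_natCast_nonneg X
  have hNS : (S'.card : ℝ) ≤ Real.exp V := by
    refine le_trans ?_ R.cardS
    exact_mod_cast Finset.card_le_card hS'
  have hNT : (T'.card : ℝ) ≤ Real.exp V := by
    refine le_trans ?_ R.cardT
    exact_mod_cast Finset.card_le_card hT'
  set J : Finset (R.α × R.α) := S' ×ˢ T' with hJ
  set c : R.α × R.α → ℝ := fun j => R.f j.1 * R.f j.2 with hc
  have hc0 : ∀ j ∈ J, 0 ≤ c j := fun j _ => mul_nonneg (R.f_nonneg _) (R.f_nonneg _)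
  have hcs0 : 0 ≤ ∑ j ∈ J, c j := Finset.sum_nonneg hc0
  have hcs : ∑ j ∈ J, c j ≤ Real.exp V * F := by
    have e : ∑ j ∈ J, c j = (∑ a ∈ S', R.f a) * (∑ b ∈ T', R.f b) := by
      rw [Finset.sum_mul_sum, hJ, Finset.sum_product]
    rw [e]
    calc (∑ a ∈ S', R.f a) * (∑ b ∈ T', R.f b)
        ≤ (Real.sqrt (Real.exp V) * Real.sqrt F) * (Real.sqrt (Real.exp V) * Real.sqrt F) := by
          have hSsum := sum_le_sqrt S' R.f hFS hNS
          have hTsum := sum_le_sqrt T' R.f hFT hNT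
          have := Finset.sum_nonneg (s := T') (fun b _ => R.f_nonneg b)
          gcongr
      _ = (Real.sqrt (Real.exp V) * Real.sqrt (Real.exp V)) * (Real.sqrt F * Real.sqrt F) := by ring
      _ = Real.exp V * F := by rw [Real.mul_self_sqrt hN0, Real.mul_self_sqrt hF.le]
  have hcore := core_bound K J c hc0 (fun j => ρ j.1 * (ρ j.2)⁻¹)
    (a1 := 128 * Λ / q * R.F0 ^ 2) (a2 := 4 * t3 * R.F0 ^ 2) (by positivity) (by positivity)
    (by
      intro a ℓ hℓ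
      exact dual_sum_bound R hΛ hVq hq3 hqk ht3 hd S' T' (fun a ha => Or.inl (hS' ha))
        (fun a ha => Or.inr (hT' ha)) a ℓ hℓ)
  set A0 : ℝ := Real.sqrt ((Nat.card K : ℝ) * (128 * Λ / q * R.F0 ^ 2)) with hA0
  set B0 : ℝ := Real.sqrt ((Nat.card K : ℝ) * (4 * t3 * R.F0 ^ 2)) +
        Real.sqrt (Real.sqrt q) * ((1 + Real.log q) * ∑ j ∈ J, c j) with hB0
  have hA00 : 0 ≤ A0 := Real.sqrt_nonneg _
  have hB00 : 0 ≤ B0 := by positivity
  obtain ⟨Φ, h1, h2, h3⟩ := Phi_exists K J c hc0 (fun j => ρ j.1 * (ρ j.2)⁻¹) hA00 hB00 (X₀ := X)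
    hcore D hD Y X hYX le_rfl
  refine ⟨Φ, ?_, ?_, ?_⟩
  · intro χ hχ
    rw [← h1 χ hχ]
    congr 1
    unfold RS
    rw [map_sum, Finset.sum_mul_sum, hJ, Finset.sum_product]
    apply Finset.sum_congr rfl
    intro a _
    apply Finset.sum_congr rfl
    intro b _
    rw [map_mul, Complex.conj_ofReal, conj_char, hc]
    simp only
    rw [Units.val_mul, map_mul]
    push_cast
    ring
  · refine h2.trans ?_
    have haw := aw_nonneg (Y + 1)
    have e1 : A0 = Real.sqrt ((Nat.card K : ℝ) * (128 * Λ / q)) * R.F0 := by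
      rw [hA0, ← mul_assoc, Real.sqrt_mul (by positivity), Real.sqrt_sq hF00.le]
    have e2 : Real.sqrt ((Nat.card K : ℝ) * (4 * t3 * R.F0 ^ 2)) =
        Real.sqrt ((Nat.card K : ℝ) * (4 * t3)) * R.F0 := by
      rw [← mul_assoc, Real.sqrt_mul (by positivity), Real.sqrt_sq hF00.le]
    have i1 : A0 ≤ Real.sqrt ((Nat.card K : ℝ) * (128 * Λ / q)) * (Λ * F) := by
      rw [e1]
      exact mul_le_mul_of_nonneg_left hF0 (Real.sqrt_nonneg _)
    have i2 : B0 ≤ Real.sqrt ((Nat.card K : ℝ) * (4 * t3)) * (Λ * F) +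
        Real.sqrt (Real.sqrt q) * ((1 + Real.log q) * (Real.exp V * F)) := by
      rw [hB0, e2]
      gcongr
    have i3 : 2 ^ D.card * (A0 * (2 + Real.log X) + B0 * aw (Y + 1)) ≤
        (2 ^ D.card * (Real.sqrt ((Nat.card K : ℝ) * (128 * Λ / q)) * Λ * (2 + Real.log X) +
        (Real.sqrt ((Nat.card K : ℝ) * (4 * t3)) * Λ +
          Real.sqrt (Real.sqrt q) * ((1 + Real.log q) * Real.exp V)) * aw (Y + 1))) * F := by
      calc 2 ^ D.card * (A0 * (2 + Real.log X) + B0 * aw (Y + 1))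
          ≤ 2 ^ D.card * ((Real.sqrt ((Nat.card K : ℝ) * (128 * Λ / q)) * (Λ * F)) *
              (2 + Real.log X) + (Real.sqrt ((Nat.card K : ℝ) * (4 * t3)) * (Λ * F) +
              Real.sqrt (Real.sqrt q) * ((1 + Real.log q) * (Real.exp V * F))) * aw (Y + 1)) := by
            gcongr
        _ = _ := by ring
    have i4 : 0 ≤ 2 ^ D.card * (A0 * (2 + Real.log X) + B0 * aw (Y + 1)) := by positivity
    calc (2 ^ D.card * (A0 * (2 + Real.log X) + B0 * aw (Y + 1))) ^ 2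
        ≤ ((2 ^ D.card * (Real.sqrt ((Nat.card K : ℝ) * (128 * Λ / q)) * Λ * (2 + Real.log X) +
        (Real.sqrt ((Nat.card K : ℝ) * (4 * t3)) * Λ +
          Real.sqrt (Real.sqrt q) * ((1 + Real.log q) * Real.exp V)) * aw (Y + 1))) * F) ^ 2 :=
          pow_le_pow_left₀ i4 i3 2
      _ = _ := by rw [mul_pow]
  · refine h3.trans ?_
    calc 2 ^ D.card * ∑ j ∈ J, c j ≤ 2 ^ D.card * (Real.exp V * F) := by gcongr
      _ = _ := by ring

end Pool.Agent.H.MP_3e6494_nt.A14
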