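import Pool.Agent.H.MP_3e6494_nt.helper14.One2

/-!
The long part by the trivial count (helper50).
-/

open Finset Filter

set_option linter.unusedSectionVars false
set_option linter.unusedVariables false

namespace Pool.Agent.H.MP_3e6494_nt.A14

open Pool.Agent.H.MP_3e6494_nt.H14 (ResoE)

open Pool.Agent.H.MP_3e6494_nt.Class Pool.Agent.H.MP_3e6494_nt.T3Cnt
  Pool.Agent.H.MP_3e6494_nt.T6Par Pool.Agent.H.MP_3e6494_nt.T3Res
open Pool.Agent.H.MP_3e6494_nt.T3Prime (u u_val u_mul u_one)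

variable {q : ℕ} [hq : Fact q.Prime]

/-- the reciprocals in a residue class, beyond `Y` -/
lemma residue_inv (x : ZMod q) {X Y : ℕ} (hY : 1 ≤ Y) (hYX : Y ≤ X) :
    ∑ n ∈ (Finset.Ioc Y X).filter (fun n : ℕ => (n : ZMod q) = x), ((n : ℝ)⁻¹) ≤
      1 / Y + (1 + Real.log X) / q := by
  classical
  have hq0 : (0 : ℝ) < q := by exact_mod_cast hq.out.pos
  have hY0 : (0 : ℝ) < Y := by exact_mod_cast hY
  have hlog : 0 ≤ Real.log X := Real.log_natCast_nonneg X
  set A := (Finset.Ioc Y X).filter (fun n : ℕ => (n : ZMod q) = x) with hA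
  rcases A.eq_empty_or_nonempty with h | h
  · rw [h, Finset.sum_empty]
    positivity
  set n0 := A.min' h with hn0
  have hn0A : n0 ∈ A := Finset.min'_mem _ _
  have hn0' := hn0A
  rw [hA, Finset.mem_filter, Finset.mem_Ioc] at hn0'
  have hsub : A ⊆ (Finset.range (X + 1)).image (fun j => n0 + q * j) := by
    intro n hn
    have hle : n0 ≤ n := Finset.min'_le _ _ hn
    rw [hA, Finset.mem_filter, Finset.mem_Ioc] at hn
    have h1 : (n0 : ZMod q) = (n : ZMod q) := hn0'.2.trans hn.2.symm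
    rw [ZMod.natCast_eq_natCast_iff] at h1
    obtain ⟨j, hj⟩ := (Nat.modEq_iff_dvd' hle).1 h1
    rw [Finset.mem_image]
    refine ⟨j, ?_, by omega⟩
    rw [Finset.mem_range]
    have h2 : j ≤ q * j := Nat.le_mul_of_pos_left _ hq.out.pos
    omega
  have hinj : Set.InjOn (fun j => n0 + q * j) (Finset.range (X + 1) : Finset ℕ) := by
    intro i _ j _ hij
    simp only at hij
    have : q * i = q * j := by omega
    exact Nat.eq_of_mul_eq_mul_left hq.out.pos this
  have h1 : ∑ n ∈ A, ((n : ℝ)⁻¹) ≤ ∑ j ∈ Finset.range (X + 1), (((n0 + q * j : ℕ) : ℝ)⁻¹) := by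
    refine (Finset.sum_le_sum_of_subset_of_nonneg hsub (fun n _ _ => by positivity)).trans ?_
    rw [Finset.sum_image hinj]
  refine h1.trans ?_
  rw [Finset.sum_range_succ', add_comm]
  apply add_le_add
  · rw [mul_zero, add_zero, ← one_div]
    apply one_div_le_one_div_of_le hY0
    exact_mod_cast hn0'.1.1.le
  · have h2 : ∀ j ∈ Finset.range X, (((n0 + q * (j + 1) : ℕ) : ℝ)⁻¹) ≤ 1 / q * (1 / ((j : ℝ) + 1)) := by
      intro j _
      rw [one_div_mul_one_div, ← one_div]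
      apply one_div_le_one_div_of_le (by positivity)
      push_cast
      have : (0 : ℝ) ≤ n0 := Nat.cast_nonneg _
      linarith
    refine (Finset.sum_le_sum h2).trans ?_
    rw [← Finset.mul_sum]
    have h3 : ∑ j ∈ Finset.range X, (1 / ((j : ℝ) + 1)) ≤ 1 + Real.log X := by
      have h5 := harmonic_le_one_add_log X
      have h6 : ((harmonic X : ℚ) : ℝ) = ∑ j ∈ Finset.range X, (1 / ((j : ℝ) + 1)) := by
        unfold harmonic
        push_cast
        apply Finset.sum_congr rfl; intro i _; rw [one_div]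
      rw [← h6]; exact h5
    calc 1 / (q : ℝ) * ∑ j ∈ Finset.range X, (1 / ((j : ℝ) + 1)) ≤ 1 / q * (1 + Real.log X) :=
          mul_le_mul_of_nonneg_left h3 (by positivity)
      _ = (1 + Real.log X) / q := by ring

lemma sum_rpow_le (X : ℕ) : ∑ n ∈ Finset.Icc 1 X, ((n : ℝ) ^ (-(1 / 2) : ℝ)) ≤ 2 * Real.sqrt X := by
  induction X with
  | zero => simp
  | succ X ih =>
    rw [Finset.sum_Icc_succ_top (by omega)]
    have h2 : (((X + 1 : ℕ) : ℝ)) ^ (-(1 / 2) : ℝ) = 1 / Real.sqrt ((X + 1 : ℕ) : ℝ) := by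
      rw [Real.rpow_neg (by positivity), ← Real.sqrt_eq_rpow, one_div]
    rw [h2]
    have hs0 : 0 ≤ Real.sqrt X := Real.sqrt_nonneg _
    have hs1 : 0 < Real.sqrt ((X + 1 : ℕ) : ℝ) := Real.sqrt_pos.2 (by positivity)
    have e0 : Real.sqrt X * Real.sqrt X = X := Real.mul_self_sqrt (Nat.cast_nonneg _)
    have e1 : Real.sqrt ((X + 1 : ℕ) : ℝ) * Real.sqrt ((X + 1 : ℕ) : ℝ) = X + 1 := by
      rw [Real.mul_self_sqrt (by positivity)]; push_cast; ring
    have hle : Real.sqrt X ≤ Real.sqrt ((X + 1 : ℕ) : ℝ) :=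
      Real.sqrt_le_sqrt (by push_cast; linarith)
    have h3 : 1 / Real.sqrt ((X + 1 : ℕ) : ℝ) ≤
        2 * (Real.sqrt ((X + 1 : ℕ) : ℝ) - Real.sqrt X) := by
      rw [div_le_iff₀ hs1]
      nlinarith
    linarith

open scoped Classical in
theorem phiE_tail {r : ℕ} {V G Λ : ℝ} (R : ResoE r V G Λ) (hVq : V ^ 2 < q)
    (K : Subgroup (ZMod q)ˣ) (X Y : ℕ) (hYX : Y ≤ X) (hY : 1 ≤ Y) (D : Finset ℕ)
    (hD : ∀ p ∈ D, p.Prime) :
    PhiE R K X Y D (((X / q + 1 : ℕ) : ℝ) * ((Nat.card K : ℝ) * (1 / Y + (1 + Real.log X) / q)) *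
      Real.exp V ^ 2) (2 * Real.sqrt X * Real.exp V) := by
  intro S' T' F hS' hT' hF hF0 hFS hFT hcop
  set ρ : R.α → (ZMod q)ˣ := rh q R.nu R.de with hρ
  set N := Real.exp V with hN
  have hN0 : 0 ≤ N := (Real.exp_pos _).le
  have hNS : (S'.card : ℝ) ≤ N := by
    refine le_trans ?_ R.cardS
    exact_mod_cast Finset.card_le_card hS'
  have hNT : (T'.card : ℝ) ≤ N := by
    refine le_trans ?_ R.cardT
    exact_mod_cast Finset.card_le_card hT'
  set 𝓢 : Finset (ℕ × R.α × R.α) := (IX q D X S' T').filter (fun t => Y < t.1) with h𝓢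
  have hmem : ∀ t ∈ 𝓢, ((1 ≤ t.1 ∧ t.1 ≤ X) ∧ t.1.Coprime q ∧ ∀ p ∈ D, ¬ p ∣ t.1) ∧
      (t.2.1 ∈ S' ∧ t.2.2 ∈ T') ∧ Y < t.1 := by
    intro t ht
    rw [h𝓢, Finset.mem_filter, Finset.mem_product, Finset.mem_product, mem_NN] at ht
    exact ⟨ht.1.1, ht.1.2, ht.2⟩
  refine ⟨fun x => ∑ t ∈ 𝓢.filter (fun t => zt (u q) ρ t = x), wt R.f t, ?_, ?_, ?_⟩
  · intro χ _
    rw [sub_mul]
    have e1 := product_sum χ D S' T' ρ R.f X (u q) (fun m hm => u_val hm)
    have e2 := product_sum χ D S' T' ρ R.f Y (u q) (fun m hm => u_val hm)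
    have e3 : DP χ D X * (RS S' ρ R.f χ * (starRingEnd ℂ) (RS T' ρ R.f χ)) =
        ∑ t ∈ IX q D X S' T', (wt R.f t : ℂ) * χ (zt (u q) ρ t : ZMod q) := e1
    have e4 : DP χ D Y * (RS S' ρ R.f χ * (starRingEnd ℂ) (RS T' ρ R.f χ)) =
        ∑ t ∈ IX q D Y S' T', (wt R.f t : ℂ) * χ (zt (u q) ρ t : ZMod q) := e2
    rw [e3, e4]
    have e5 : IX q D Y S' T' = (IX q D X S' T').filter (fun t => ¬ Y < t.1) := by
      ext t
      simp only [Finset.mem_filter, Finset.mem_product, mem_NN]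
      constructor
      · rintro ⟨⟨⟨a, b⟩, c⟩, d⟩
        exact ⟨⟨⟨⟨a, b.trans hYX⟩, c⟩, d⟩, by omega⟩
      · rintro ⟨⟨⟨⟨a, b⟩, c⟩, d⟩, e⟩
        exact ⟨⟨⟨a, by omega⟩, c⟩, d⟩
    rw [e5]
    have e6 := Finset.sum_filter_add_sum_filter_not (IX q D X S' T') (fun t => Y < t.1)
      (fun t => (wt R.f t : ℂ) * χ (zt (u q) ρ t : ZMod q))
    rw [← e6, add_sub_cancel_right, ← h𝓢]
    rw [← Finset.sum_fiberwise 𝓢 (fun t => zt (u q) ρ t)]
    apply Finset.sum_congr rfl
    intro x _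
    rw [Complex.ofReal_sum, Finset.sum_mul]
    apply Finset.sum_congr rfl
    intro t ht
    rw [(Finset.mem_filter.1 ht).2]
  · refine (second_D0 𝓢 S' T' ρ R.f R.f_nonneg (u q) (fun m hm => u_val hm) K X hFS hFT ?_).trans ?_
    · intro t ht
      obtain ⟨⟨a, b, c⟩, d, e⟩ := hmem t ht
      exact ⟨⟨a.1, a.2, b⟩, d⟩
    · have hcnt : ∑ t ∈ 𝓢.filter (fun t => zt (u q) ρ t ∈ K), ((t.1 : ℝ)⁻¹) ≤
          N * N * ((Nat.card K : ℝ) * (1 / Y + (1 + Real.log X) / q)) := by
        set C := (1 / (Y : ℝ) + (1 + Real.log X) / q) with hC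
        have hC0 : 0 ≤ C := by
          have hlog : 0 ≤ Real.log X := Real.log_natCast_nonneg X
          positivity
        have hmaps : ∀ t ∈ 𝓢.filter (fun t => zt (u q) ρ t ∈ K),
            (t.2, zt (u q) ρ t) ∈ (S' ×ˢ T') ×ˢ
              ((Finset.univ : Finset (ZMod q)ˣ).filter (fun κ => κ ∈ K)) := by
          intro t ht
          rw [Finset.mem_filter] at ht
          obtain ⟨-, d, -⟩ := hmem t ht.1
          rw [Finset.mem_product, Finset.mem_product, Finset.mem_filter]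
          exact ⟨d, Finset.mem_univ _, ht.2⟩
        rw [← Finset.sum_fiberwise_of_maps_to hmaps]
        have hone : ∀ p ∈ (S' ×ˢ T') ×ˢ ((Finset.univ : Finset (ZMod q)ˣ).filter (fun κ => κ ∈ K)),
            ∑ t ∈ (𝓢.filter (fun t => zt (u q) ρ t ∈ K)).filter
              (fun t => (t.2, zt (u q) ρ t) = p), ((t.1 : ℝ)⁻¹) ≤ C := by
          intro p _
          refine le_trans ?_ (residue_inv
            (((p.2 * (ρ p.1.1 * (ρ p.1.2)⁻¹)⁻¹ : (ZMod q)ˣ)) : ZMod q) hY hYX)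
          set B := (𝓢.filter (fun t => zt (u q) ρ t ∈ K)).filter
              (fun t => (t.2, zt (u q) ρ t) = p) with hB
          have hinj : Set.InjOn (fun t : ℕ × R.α × R.α => t.1) (B : Set (ℕ × R.α × R.α)) := by
            intro t ht t' ht' h
            rw [Finset.mem_coe, hB, Finset.mem_filter] at ht ht'
            have h1 : t.2 = t'.2 := (Prod.ext_iff.1 (ht.2.trans ht'.2.symm)).1
            exact Prod.ext h h1
          rw [← Finset.sum_image (f := fun n : ℕ => ((n : ℝ)⁻¹)) hinj]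
          apply Finset.sum_le_sum_of_subset_of_nonneg
          · intro n hn
            rw [Finset.mem_image] at hn
            obtain ⟨t, ht, rfl⟩ := hn
            rw [hB, Finset.mem_filter, Finset.mem_filter] at ht
            obtain ⟨⟨a1, a2⟩, a3⟩ := ht
            obtain ⟨⟨a, b, c⟩, d, e⟩ := hmem t a1
            rw [Finset.mem_filter, Finset.mem_Ioc]
            refine ⟨⟨e, a.2⟩, ?_⟩
            rw [← u_val b]
            congr 1
            rw [← a3]
            unfold zt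
            simp only
            rw [mul_assoc, mul_inv_cancel, mul_one]
          · intro n _ _
            positivity
        refine (Finset.sum_le_sum hone).trans ?_
        rw [Finset.sum_const, nsmul_eq_mul, Finset.card_product, Finset.card_product]
        have h3 : Nat.card K = ((Finset.univ : Finset (ZMod q)ˣ).filter (fun k => k ∈ K)).card :=
          Nat.subtype_card _ (by intro k; simp)
        rw [← h3]
        push_cast
        calc (S'.card : ℝ) * T'.card * (Nat.card K : ℝ) * C ≤ N * N * (Nat.card K : ℝ) * C := by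
              gcongr
          _ = N * N * ((Nat.card K : ℝ) * C) := by ring
      calc F ^ 2 * (((X / q + 1 : ℕ) : ℝ) * ∑ t ∈ 𝓢.filter (fun t => zt (u q) ρ t ∈ K), ((t.1 : ℝ)⁻¹))
          ≤ F ^ 2 * (((X / q + 1 : ℕ) : ℝ) *
            (N * N * ((Nat.card K : ℝ) * (1 / Y + (1 + Real.log X) / q)))) := by
            gcongr
        _ = ((X / q + 1 : ℕ) : ℝ) * ((Nat.card K : ℝ) * (1 / Y + (1 + Real.log X) / q)) *
              N ^ 2 * F ^ 2 := by ring
  · have e1 : ∑ x : (ZMod q)ˣ, ∑ t ∈ 𝓢.filter (fun t => zt (u q) ρ t = x), wt R.f t =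
        ∑ t ∈ 𝓢, wt R.f t := Finset.sum_fiberwise 𝓢 (fun t => zt (u q) ρ t) (wt R.f)
    rw [e1, abs_of_nonneg (Finset.sum_nonneg fun t _ => wt_nonneg R.f_nonneg t)]
    have hS0 : 0 ≤ ∑ a ∈ S', R.f a := Finset.sum_nonneg fun a _ => R.f_nonneg a
    have hT0 : 0 ≤ ∑ a ∈ T', R.f a := Finset.sum_nonneg fun a _ => R.f_nonneg a
    have hST : (∑ a ∈ S', R.f a) * (∑ b ∈ T', R.f b) ≤ N * F := by
      calc (∑ a ∈ S', R.f a) * (∑ b ∈ T', R.f b)
          ≤ (Real.sqrt N * Real.sqrt F) * (Real.sqrt N * Real.sqrt F) := by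
            have hSsum := sum_le_sqrt S' R.f hFS hNS
            have hTsum := sum_le_sqrt T' R.f hFT hNT
            gcongr
        _ = (Real.sqrt N * Real.sqrt N) * (Real.sqrt F * Real.sqrt F) := by ring
        _ = N * F := by rw [Real.mul_self_sqrt hN0, Real.mul_self_sqrt hF.le]
    calc ∑ t ∈ 𝓢, wt R.f t ≤ ∑ t ∈ (Finset.Icc 1 X) ×ˢ (S' ×ˢ T'), wt R.f t := by
          apply Finset.sum_le_sum_of_subset_of_nonneg
          · intro t ht
            obtain ⟨⟨a, b, c⟩, d, e⟩ := hmem t ht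
            rw [Finset.mem_product, Finset.mem_product, Finset.mem_Icc]
            exact ⟨a, d⟩
          · intro t _ _
            exact wt_nonneg R.f_nonneg t
      _ = (∑ n ∈ Finset.Icc 1 X, ((n : ℝ) ^ (-(1 / 2) : ℝ))) *
            ((∑ a ∈ S', R.f a) * (∑ b ∈ T', R.f b)) := by
          rw [Finset.sum_mul_sum S' T', ← Finset.sum_product', Finset.sum_mul_sum,
            ← Finset.sum_product']
          rfl
      _ ≤ (2 * Real.sqrt X) * (N * F) := by
          apply mul_le_mul (sum_rpow_le X) hST (mul_nonneg hS0 hT0) (by positivity)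
      _ = 2 * Real.sqrt X * N * F := by ring

end Pool.Agent.H.MP_3e6494_nt.A14
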