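import Pool.Agent.H.MP_3e6494_nt.helper14.ResoR
import Pool.Agent.H.MP_3e6494_nt.helper14.Energy
import Pool.Agent.H.MP_3e6494_nt.helper14.ESb

/-!
The two-sided resonator with an energy bound (helper50).
-/

open Finset

set_option autoImplicit false
set_option linter.unusedSectionVars false
set_option linter.unusedVariables false

namespace Pool.Agent.H.MP_3e6494_nt.H14

open Pool.Agent.H.MP_3e6494_nt.H15
open Pool.Agent.H.MP_3e6494_nt.T3Fam

theorem resoE_of_blocks {r : ℕ} {V G δ : ℝ} (hV1 : 1 ≤ V) (bl : BlocksE r V G δ) :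
    Nonempty (ResoE r V G (Real.exp (δ * V))) := by
  classical
  let ι := bl.I
  have e1 : ∀ (f : ℕ → ℝ), ∏ k : ι, f k = ∏ k ∈ bl.I, f k := fun f => Finset.prod_coe_sort bl.I f
  have e2 : ∀ (f : ℕ → ℕ), ∏ k : ι, f k = ∏ k ∈ bl.I, f k := fun f => Finset.prod_coe_sort bl.I f
  let P : ι → Finset ℕ := fun k => bl.P k
  let J : ι → ℕ := fun k => bl.J k
  let i : ι → ℕ := fun k => bl.i k
  have hP : ∀ k : ι, ∀ p ∈ P k, p.Prime := fun k p hp => bl.prime k k.2 p hp
  have hdisj : ∀ k l : ι, k ≠ l → Disjoint (P k) (P l) :=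
    fun k l hkl => bl.disj k k.2 l l.2 (fun h => hkl (Subtype.ext h))
  have hJ : ∀ k : ι, 2 * J k ≤ (P k).card := fun k => bl.card k k.2
  -- numerical facts about the blocks
  have hiJ4 : ∀ k ∈ bl.I, 4 * (bl.i k : ℝ) ≤ bl.J k := by
    intro k hk
    have h1 := bl.hi k hk
    have h2 : (1 : ℝ) ≤ bl.i k := by exact_mod_cast bl.i1 k hk
    have h3 := bl.σ1
    have h4 : (0 : ℝ) ≤ bl.J k := Nat.cast_nonneg _
    nlinarith
  have hiJ : ∀ k ∈ bl.I, bl.i k ≤ bl.J k := by
    intro k hk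
    have h1 := hiJ4 k hk
    have h2 : (0 : ℝ) ≤ bl.i k := Nat.cast_nonneg _
    have : (bl.i k : ℝ) ≤ bl.J k := by linarith
    exact_mod_cast this
  have hJ1 : ∀ k ∈ bl.I, 1 ≤ bl.J k := fun k hk => (bl.i1 k hk).trans (hiJ k hk)
  have hw0 : ∀ k ∈ bl.I, 0 ≤ bl.w k := by
    intro k hk
    have hne : (bl.P k).Nonempty := by
      rw [← Finset.card_pos]
      have := bl.cardr k hk
      have := hJ1 k hk
      omega
    obtain ⟨p, hp⟩ := hne
    exact le_trans (by positivity) (bl.lew k hk p hp)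
  set sg : ℕ → ℝ := fun k => ∑ p ∈ bl.P k, 1 / (p : ℝ) with hsg
  set L : ℕ → ℕ := fun k => 2 * bl.J k - bl.i k with hLdef
  have hL1 : ∀ k ∈ bl.I, 1 ≤ L k := by
    intro k hk
    have := hiJ k hk
    have := hJ1 k hk
    show 1 ≤ 2 * bl.J k - bl.i k
    omega
  have hLJ : ∀ k, L k ≤ 2 * bl.J k := fun k => Nat.sub_le _ _
  have hsgpos : ∀ k ∈ bl.I, 0 < sg k := by
    intro k hk
    have h1 := bl.hσ k hk
    have h2 := bl.σpos
    have h3 := hw0 k hk
    have h4 : 0 ≤ 2 * (bl.J k : ℝ) * bl.w k := by positivity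
    show 0 < ∑ p ∈ bl.P k, 1 / (p : ℝ)
    linarith
  have hLw : ∀ k ∈ bl.I, (L k : ℝ) * bl.w k ≤ sg k := by
    intro k hk
    have h1 := bl.hσ k hk
    have h2 := bl.σpos
    have h3 := hw0 k hk
    have h4 : (L k : ℝ) ≤ 2 * bl.J k := by exact_mod_cast hLJ k
    have h5 : (L k : ℝ) * bl.w k ≤ 2 * bl.J k * bl.w k := mul_le_mul_of_nonneg_right h4 h3
    show (L k : ℝ) * bl.w k ≤ ∑ p ∈ bl.P k, 1 / (p : ℝ)
    linarith
  have hsgL : ∀ k ∈ bl.I, sg k ≤ L k := by
    intro k hk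
    refine (bl.hJ k hk).trans ?_
    have := hiJ k hk
    have : bl.J k ≤ L k := by
      show bl.J k ≤ 2 * bl.J k - bl.i k
      omega
    exact_mod_cast this
  have hσpos := bl.σpos
  have hRpos : 0 < bl.R := lt_of_lt_of_le one_pos bl.R1
  have hlogR : 0 ≤ Real.log bl.R := Real.log_nonneg bl.R1
  -- F0
  have hF0pos : 0 < ∏ k ∈ bl.I, ES (bl.P k) (bl.J k) (bl.J k - bl.i k) := by
    apply Finset.prod_pos
    intro k hk
    apply ES_pos _ (fun p hp => bl.prime k hk p hp)
    have := bl.card k hk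
    omega
  have hsumT : ∑ s ∈ FS P J (fun k => J k - i k), ff s ^ 2 =
      ∏ k ∈ bl.I, ES (bl.P k) (bl.J k) (bl.J k - bl.i k) := by
    rw [sum_ff_sq, ← e1 (fun k => ES (bl.P k) (bl.J k) (bl.J k - bl.i k))]
  have hsumS : ∑ s ∈ FS P (fun k => J k - i k) J, ff s ^ 2 =
      ∏ k ∈ bl.I, ES (bl.P k) (bl.J k) (bl.J k - bl.i k) := by
    rw [sum_ff_sq, ← e1 (fun k => ES (bl.P k) (bl.J k) (bl.J k - bl.i k))]
    exact Finset.prod_congr rfl fun k _ => ES_comm _ _ _
  have hsumL : ∀ k ∈ bl.I, bl.J k + (bl.J k - bl.i k) = L k := by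
    intro k hk
    have := hiJ k hk
    show bl.J k + (bl.J k - bl.i k) = 2 * bl.J k - bl.i k
    omega
  have hfac : ∀ k, (0 : ℝ) < ((bl.J k).factorial * (bl.J k - bl.i k).factorial : ℝ) := by
    intro k
    have h1 : (0 : ℝ) < (bl.J k).factorial := by exact_mod_cast (bl.J k).factorial_pos
    have h2 : (0 : ℝ) < (bl.J k - bl.i k).factorial := by
      exact_mod_cast (bl.J k - bl.i k).factorial_pos
    positivity
  -- the lower bound for F0
  have hF0low : ∀ k ∈ bl.I, (bl.σ / L k) ^ L k ≤ ES (bl.P k) (bl.J k) (bl.J k - bl.i k) := by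
    intro k hk
    have hLk : (0 : ℝ) < L k := by exact_mod_cast hL1 k hk
    have h1 := le_ES (bl.P k) (bl.w k) (hw0 k hk) (bl.lew k hk) bl.σ bl.σ0 (bl.J k)
      (bl.J k - bl.i k) (by
        refine (bl.hσ k hk).trans ?_
        have h2 : ((bl.J k : ℝ) + ((bl.J k - bl.i k : ℕ) : ℝ)) ≤ 2 * bl.J k := by
          have : bl.J k + (bl.J k - bl.i k) ≤ 2 * bl.J k := by omega
          exact_mod_cast this
        have h3 := mul_le_mul_of_nonneg_right h2 (hw0 k hk)
        linarith)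
    rw [hsumL k hk] at h1
    have h4 := fact_mul_le (bl.J k) (bl.J k - bl.i k)
    rw [hsumL k hk] at h4
    have h5 := ES_nonneg' (bl.P k) (bl.J k) (bl.J k - bl.i k)
    rw [div_pow, div_le_iff₀ (by positivity)]
    calc bl.σ ^ L k ≤ _ := h1
      _ ≤ (L k : ℝ) ^ L k * ES (bl.P k) (bl.J k) (bl.J k - bl.i k) :=
        mul_le_mul_of_nonneg_right h4 h5
      _ = _ := mul_comm _ _
  have hlogexp : ∀ k, Real.exp ((L k : ℝ) * Real.log bl.R) = bl.R ^ L k := by
    intro k
    rw [Real.exp_nat_mul, Real.exp_log hRpos]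
  have hen1 : ∑ k ∈ bl.I, (L k : ℝ) * (80 + 2 * Real.log bl.R) ≤ δ * V := by
    refine le_trans ?_ bl.en
    refine Finset.sum_le_sum fun k hk => ?_
    have h1 : (L k : ℝ) ≤ 2 * bl.J k := by exact_mod_cast hLJ k
    exact mul_le_mul_of_nonneg_right h1 (by linarith)
  have henergy : ∀ A B A' B' : Finset (ι → Finset ℕ × Finset ℕ),
      (A = FS P (fun k => J k - i k) J ∨ A = FS P J (fun k => J k - i k)) →
      (B = FS P (fun k => J k - i k) J ∨ B = FS P J (fun k => J k - i k)) →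
      (A' = FS P (fun k => J k - i k) J ∨ A' = FS P J (fun k => J k - i k)) →
      (B' = FS P (fun k => J k - i k) J ∨ B' = FS P J (fun k => J k - i k)) →
      ∑ a ∈ A, ∑ b ∈ B, ∑ a' ∈ A', ∑ b' ∈ B', (ff a * ff b * ff a' * ff b') * gw nu de a b a' b' ≤
        Real.exp (δ * V) * (∏ k ∈ bl.I, ES (bl.P k) (bl.J k) (bl.J k - bl.i k)) ^ 2 := by
    intro A B A' B' hA hB hA' hB'
    have ex : ∀ A : Finset (ι → Finset ℕ × Finset ℕ),
        (A = FS P (fun k => J k - i k) J ∨ A = FS P J (fun k => J k - i k)) →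
        ∃ j j' : ι → ℕ, (∀ k : ι, j k + j' k = L k) ∧ A = FS P j j' := by
      intro A hA
      rcases hA with hA | hA
      · refine ⟨fun k => J k - i k, J, fun k => ?_, hA⟩
        have := hsumL k k.2
        show (bl.J k - bl.i k) + bl.J k = L k
        omega
      · refine ⟨J, fun k => J k - i k, fun k => hsumL k k.2, hA⟩
    obtain ⟨j1, j1', hj1, rfl⟩ := ex A hA
    obtain ⟨j2, j2', hj2, rfl⟩ := ex B hB
    obtain ⟨j3, j3', hj3, rfl⟩ := ex A' hA'
    obtain ⟨j4, j4', hj4, rfl⟩ := ex B' hB'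
    have h1 := energy_le (P := P) hP hdisj (L := fun k : ι => L k) hj1 hj2 hj3 hj4
      (fun k => hL1 k k.2) (fun k : ι => bl.w k) (fun k => bl.lew k k.2) (fun k : ι => sg k)
      (fun k => rfl) (fun k => hLw k k.2) (fun k => hsgpos k k.2) (fun k => hsgL k k.2)
    refine h1.trans ?_
    rw [e1 (fun k => (sg k / L k) ^ (2 * L k) * Real.exp (80 * L k)), ← Finset.prod_pow]
    have h2 : ∀ k ∈ bl.I, (sg k / L k) ^ (2 * L k) * Real.exp (80 * L k) ≤
        Real.exp ((L k : ℝ) * (80 + 2 * Real.log bl.R)) *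
          ES (bl.P k) (bl.J k) (bl.J k - bl.i k) ^ 2 := by
      intro k hk
      have hLk : (0 : ℝ) < L k := by exact_mod_cast hL1 k hk
      have hs := hsgpos k hk
      have h3 : sg k / L k ≤ bl.R * (bl.σ / L k) := by
        rw [← mul_div_assoc]
        exact div_le_div_of_nonneg_right (bl.hR k hk) hLk.le
      have h4 : (sg k / L k) ^ (2 * L k) ≤ (bl.R * (bl.σ / L k)) ^ (2 * L k) :=
        pow_le_pow_left₀ (div_nonneg hs.le hLk.le) h3 _
      have h5 : (bl.R * (bl.σ / L k)) ^ (2 * L k) =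
          (bl.R ^ L k) ^ 2 * ((bl.σ / L k) ^ L k) ^ 2 := by
        rw [mul_pow, mul_comm 2 (L k), pow_mul, pow_mul]
      have h6 : ((bl.σ / L k) ^ L k) ^ 2 ≤ ES (bl.P k) (bl.J k) (bl.J k - bl.i k) ^ 2 :=
        pow_le_pow_left₀ (by positivity) (hF0low k hk) 2
      have h7 : Real.exp ((L k : ℝ) * (80 + 2 * Real.log bl.R)) =
          Real.exp (80 * L k) * (bl.R ^ L k) ^ 2 := by
        rw [← hlogexp k, ← Real.exp_nat_mul, ← Real.exp_add]
        congr 1
        push_cast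
        ring
      rw [h7]
      calc (sg k / L k) ^ (2 * L k) * Real.exp (80 * L k) ≤
          ((bl.R ^ L k) ^ 2 * ((bl.σ / L k) ^ L k) ^ 2) * Real.exp (80 * L k) := by
            rw [← h5]
            exact mul_le_mul_of_nonneg_right h4 (Real.exp_pos _).le
        _ ≤ ((bl.R ^ L k) ^ 2 * ES (bl.P k) (bl.J k) (bl.J k - bl.i k) ^ 2) *
            Real.exp (80 * L k) := by gcongr
        _ = _ := by ring
    calc ∏ k ∈ bl.I, (sg k / L k) ^ (2 * L k) * Real.exp (80 * L k) ≤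
        ∏ k ∈ bl.I, (Real.exp ((L k : ℝ) * (80 + 2 * Real.log bl.R)) *
          ES (bl.P k) (bl.J k) (bl.J k - bl.i k) ^ 2) :=
          Finset.prod_le_prod (fun k hk => by
            have := (hsgpos k hk).le
            positivity) h2
      _ = Real.exp (∑ k ∈ bl.I, (L k : ℝ) * (80 + 2 * Real.log bl.R)) *
          ∏ k ∈ bl.I, ES (bl.P k) (bl.J k) (bl.J k - bl.i k) ^ 2 := by
          rw [Finset.prod_mul_distrib, Real.exp_sum]
      _ ≤ _ := by
          apply mul_le_mul_of_nonneg_right (Real.exp_le_exp.2 hen1)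
          exact Finset.prod_nonneg fun k _ => sq_nonneg _
  -- comparison of F0 with the smaller system
  have hcomp : ∀ (D : Finset ℕ) (E1 : ℝ),
      E1 = ∏ k ∈ bl.I, ES (bl.P k \ D) (bl.J k) (bl.J k - bl.i k) → D.card ≤ r →
      ∏ k ∈ bl.I, ES (bl.P k) (bl.J k) (bl.J k - bl.i k) ≤ Real.exp (δ * V) * E1 := by
    intro D E1 hE1 hDr
    have h2 : ∀ k ∈ bl.I, ES (bl.P k) (bl.J k) (bl.J k - bl.i k) ≤
        bl.R ^ L k * ES (bl.P k \ D) (bl.J k) (bl.J k - bl.i k) := by
      intro k hk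
      have hf := hfac k
      have h3 := ES_le (bl.P k) (bl.J k) (bl.J k - bl.i k)
      rw [hsumL k hk] at h3
      have h4 : bl.σ ≤ (∑ p ∈ bl.P k \ D, 1 / (p : ℝ)) -
          ((bl.J k : ℝ) + ((bl.J k - bl.i k : ℕ) : ℝ)) * bl.w k := by
        have h5 := bl.hsr k hk
        have h6 : (∑ p ∈ bl.P k, 1 / (p : ℝ)) ≤ (∑ p ∈ bl.P k \ D, 1 / (p : ℝ)) + r * bl.w k := by
          have h7 : (∑ p ∈ bl.P k, 1 / (p : ℝ)) =
              (∑ p ∈ bl.P k \ D, 1 / (p : ℝ)) + ∑ p ∈ bl.P k ∩ D, 1 / (p : ℝ) := by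
            rw [← Finset.sum_sdiff (s₁ := bl.P k ∩ D) (s₂ := bl.P k) Finset.inter_subset_left,
              Finset.sdiff_inter_self_left]
          rw [h7]
          have h8 : ∑ p ∈ bl.P k ∩ D, 1 / (p : ℝ) ≤ ((bl.P k ∩ D).card : ℝ) * bl.w k := by
            rw [← nsmul_eq_mul]
            apply Finset.sum_le_card_nsmul
            intro p hp
            exact bl.lew k hk p (Finset.mem_inter.mp hp).1
          have h9 : (((bl.P k ∩ D).card : ℕ) : ℝ) ≤ r := by
            exact_mod_cast (Finset.card_le_card Finset.inter_subset_right).trans hDr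
          have h10 : ((bl.P k ∩ D).card : ℝ) * bl.w k ≤ r * bl.w k :=
            mul_le_mul_of_nonneg_right h9 (hw0 k hk)
          linarith
        have h11 : ((bl.J k : ℝ) + ((bl.J k - bl.i k : ℕ) : ℝ)) ≤ 2 * bl.J k := by
          have : bl.J k + (bl.J k - bl.i k) ≤ 2 * bl.J k := by omega
          exact_mod_cast this
        have h12 := mul_le_mul_of_nonneg_right h11 (hw0 k hk)
        have h13 : (2 * (bl.J k : ℝ) + r) * bl.w k = 2 * bl.J k * bl.w k + r * bl.w k := by ring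
        rw [h13] at h5
        linarith
      have h5 := le_ES (bl.P k \ D) (bl.w k) (hw0 k hk)
        (fun p hp => bl.lew k hk p (Finset.sdiff_subset hp)) bl.σ bl.σ0 (bl.J k)
        (bl.J k - bl.i k) h4
      rw [hsumL k hk] at h5
      have h6 : sg k ^ L k ≤ (bl.R * bl.σ) ^ L k :=
        pow_le_pow_left₀ (hsgpos k hk).le (bl.hR k hk) _
      have h7 : ((bl.J k).factorial * (bl.J k - bl.i k).factorial : ℝ) *
          ES (bl.P k) (bl.J k) (bl.J k - bl.i k) ≤
          ((bl.J k).factorial * (bl.J k - bl.i k).factorial : ℝ) *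
          (bl.R ^ L k * ES (bl.P k \ D) (bl.J k) (bl.J k - bl.i k)) := by
        calc _ ≤ sg k ^ L k := h3
          _ ≤ (bl.R * bl.σ) ^ L k := h6
          _ = bl.R ^ L k * bl.σ ^ L k := mul_pow _ _ _
          _ ≤ bl.R ^ L k * (((bl.J k).factorial * (bl.J k - bl.i k).factorial : ℝ) *
              ES (bl.P k \ D) (bl.J k) (bl.J k - bl.i k)) := by gcongr
          _ = _ := by ring
      exact le_of_mul_le_mul_left h7 hf
    calc ∏ k ∈ bl.I, ES (bl.P k) (bl.J k) (bl.J k - bl.i k) ≤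
        ∏ k ∈ bl.I, (bl.R ^ L k * ES (bl.P k \ D) (bl.J k) (bl.J k - bl.i k)) :=
          Finset.prod_le_prod (fun k _ => ES_nonneg' _ _ _) h2
      _ = (∏ k ∈ bl.I, bl.R ^ L k) * E1 := by rw [Finset.prod_mul_distrib, hE1]
      _ ≤ Real.exp (δ * V) * E1 := by
          have h3 : ∏ k ∈ bl.I, bl.R ^ L k ≤ Real.exp (δ * V) := by
            rw [← Finset.prod_congr rfl fun k _ => hlogexp k, ← Real.exp_sum]
            refine Real.exp_le_exp.2 (le_trans (Finset.sum_le_sum fun k _ => ?_) hen1)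
            have : (0 : ℝ) ≤ L k := Nat.cast_nonneg _
            exact mul_le_mul_of_nonneg_left (by linarith) this
          refine mul_le_mul_of_nonneg_right h3 ?_
          rw [hE1]
          exact Finset.prod_nonneg fun k _ => ES_nonneg' _ _ _
  have hPV : ∀ k : ι, ∀ p ∈ P k, (p : ℝ) ≤ V ^ 2 := by
    intro k p hp
    have h1 := bl.leY k k.2 p hp
    have h2 := bl.Ysmall k k.2
    have h3 : (p : ℝ) ≤ bl.Y k := by exact_mod_cast h1
    linarith
  have hPM : ∀ k : ι, ∀ p ∈ P k, p ≤ ⌊V ^ 2⌋₊ := fun k p hp => Nat.le_floor (hPV k p hp)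
  set N := ∏ k ∈ bl.I, ((bl.P k).card.choose (bl.J k) : ℝ) ^ 2 with hN
  have hNle : N ≤ Real.exp (V - 3) := by
    have hpos : ∀ k ∈ bl.I, (0 : ℝ) < ((bl.P k).card.choose (bl.J k) : ℝ) := by
      intro k hk
      have := bl.card k hk
      exact_mod_cast Nat.choose_pos (by omega)
    have hNpos : 0 < N := Finset.prod_pos fun k hk => by
      have := hpos k hk
      positivity
    rw [← Real.log_le_iff_le_exp hNpos, hN, Real.log_prod]
    · calc ∑ k ∈ bl.I, Real.log (((bl.P k).card.choose (bl.J k) : ℝ) ^ 2) =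
          ∑ k ∈ bl.I, 2 * Real.log ((bl.P k).card.choose (bl.J k)) := by
            apply Finset.sum_congr rfl
            intro k _
            rw [Real.log_pow]
            push_cast
            rfl
        _ ≤ V - 3 := bl.size
    · intro k hk
      have := hpos k hk
      positivity
  have hNV : N ≤ Real.exp V := hNle.trans (Real.exp_le_exp.2 (by linarith))
  set g := ∏ k ∈ bl.I, (Real.exp (2 * bl.i k) / (2 * (Real.exp 1 * bl.i k) ^ 2)) with hg
  have hgexp : Real.exp G ≤ g := by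
    have h1 : g = Real.exp (∑ k ∈ bl.I, (2 * (bl.i k : ℝ) - Real.log (2 * (Real.exp 1 * bl.i k) ^ 2))) := by
      rw [Real.exp_sum, hg]
      apply Finset.prod_congr rfl
      intro k hk
      have hi' : (0 : ℝ) < bl.i k := by
        have := bl.i1 k hk
        exact_mod_cast (by omega : 0 < bl.i k)
      rw [Real.exp_sub, Real.exp_log (by positivity)]
    rw [h1]
    exact Real.exp_le_exp.mpr bl.gain
  have hlen : (((∏ k : ι, bl.Y k ^ bl.i k) * (∏ k : ι, bl.Y k ^ bl.i k) : ℕ) : ℝ) ≤ Real.exp (2 * V) := by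
    rw [e2 (fun k => bl.Y k ^ bl.i k)]
    have hpos : (0 : ℝ) < ((∏ k ∈ bl.I, bl.Y k ^ bl.i k : ℕ) : ℝ) := by
      have : 0 < ∏ k ∈ bl.I, bl.Y k ^ bl.i k :=
        Finset.prod_pos fun k hk => pow_pos (bl.Ypos k hk) _
      exact_mod_cast this
    have hlog : Real.log (((∏ k ∈ bl.I, bl.Y k ^ bl.i k : ℕ) : ℝ)) =
        ∑ k ∈ bl.I, (bl.i k : ℝ) * Real.log (bl.Y k) := by
      push_cast
      rw [Real.log_prod]
      · apply Finset.sum_congr rfl
        intro k _
        rw [Real.log_pow]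
      · intro k hk
        have : (0 : ℝ) < bl.Y k := by exact_mod_cast bl.Ypos k hk
        positivity
    rw [Nat.cast_mul, ← Real.log_le_iff_le_exp (by positivity), Real.log_mul hpos.ne' hpos.ne',
      hlog]
    have := bl.length
    linarith
  have c1 : ((FS P (fun k => J k - i k) J).card : ℝ) ≤ Real.exp V := by
    refine (card_FS_le2 P J i hJ).trans ?_
    rw [e1 (fun k => ((bl.P k).card.choose (bl.J k) : ℝ) ^ 2)]
    exact hNV
  have c2 : ((FS P J (fun k => J k - i k)).card : ℝ) ≤ Real.exp V := by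
    refine (card_FS_le1 P J i hJ).trans ?_
    rw [e1 (fun k => ((bl.P k).card.choose (bl.J k) : ℝ) ^ 2)]
    exact hNV
  have hsub : ∀ x : ι → Finset ℕ × Finset ℕ,
      (x ∈ FS P (fun k => J k - i k) J ∨ x ∈ FS P J (fun k => J k - i k)) →
      (∀ k, (x k).1 ⊆ P k) ∧ (∀ k, (x k).2 ⊆ P k) := by
    intro x hx
    rcases hx with hx | hx
    · rw [mem_FS] at hx
      exact ⟨fun k => (hx k).1.1, fun k => (hx k).2.1.1⟩
    · rw [mem_FS] at hx
      exact ⟨fun k => (hx k).1.1, fun k => (hx k).2.1.1⟩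
  refine ⟨{
    α := ι → Finset ℕ × Finset ℕ
    S := FS P (fun k => J k - i k) J
    T := FS P J (fun k => J k - i k)
    nu := nu
    de := de
    f := ff
    F0 := ∏ k ∈ bl.I, ES (bl.P k) (bl.J k) (bl.J k - bl.i k)
    F0_pos := hF0pos
    f_nonneg := ff_nonneg
    cardS := c1
    cardT := c2
    pos := fun a ha => ⟨Phi_pos hP (hsub a ha).1, Phi_pos hP (hsub a ha).2⟩
    size := fun a ha => ⟨Phi_le_four hP hdisj _ hPM (hsub a ha).1,
      Phi_le_four hP hdisj _ hPM (hsub a ha).2⟩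
    cop := ?_
    injS := fun a ha b hb h => frac_inj hP hdisj ha hb h
    injT := fun a ha b hb h => frac_inj hP hdisj ha hb h
    sumS := hsumS.le
    sumT := hsumT.le
    energy := ?_
    sub := ?_ }⟩
  · intro a ha q hq hVq
    have hPq : ∀ k : ι, ∀ p ∈ P k, p < q := by
      intro k p hp
      have := (hPV k p hp).trans_lt hVq
      exact_mod_cast this
    exact ⟨Phi_coprime hP hq hPq (hsub a ha).1, Phi_coprime hP hq hPq (hsub a ha).2⟩
  · intro A B A' B' hA hB hA' hB'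
    exact henergy A B A' B' hA hB hA' hB'
  intro D hD hDr
  -- the blocks without the primes of D
  let P' : ι → Finset ℕ := fun k => P k \ D
  let PP : ℕ → Finset ℕ := fun k => bl.P k \ D
  have hP'P : ∀ k, P' k ⊆ P k := fun k => Finset.sdiff_subset
  have hP' : ∀ k : ι, ∀ p ∈ P' k, p.Prime := fun k p hp => hP k p (hP'P k hp)
  have hdisj' : ∀ k l : ι, k ≠ l → Disjoint (P' k) (P' l) := fun k l hkl =>
    Finset.disjoint_of_subset_left (hP'P k) (Finset.disjoint_of_subset_right (hP'P l) (hdisj k l hkl))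
  have hDP' : ∀ p ∈ D, ∀ k, p ∉ P' k := by
    intro p hp k hk
    exact (Finset.mem_sdiff.mp hk).2 hp
  set E1 := ∏ k ∈ bl.I, ES (PP k) (bl.J k) (bl.J k - bl.i k) with hE1
  have hcardPP : ∀ k ∈ bl.I, 2 * bl.J k ≤ (PP k).card := by
    intro k hk
    have h1 := bl.cardr k hk
    have h2 := Finset.le_card_sdiff D (bl.P k)
    have h3 : (PP k).card = (bl.P k \ D).card := rfl
    omega
  have hE1pos : 0 < E1 := by
    apply Finset.prod_pos
    intro k hk
    apply ES_pos _ (fun p hp => bl.prime k hk p (Finset.sdiff_subset hp))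
    have := hcardPP k hk
    have h3 : (PP k).card = (bl.P k \ D).card := rfl
    omega
  have hσ' : ∀ k ∈ bl.I, bl.σ ≤ (∑ p ∈ PP k, 1 / (p : ℝ)) - 2 * bl.J k * bl.w k := by
    intro k hk
    have h1 := bl.hsr k hk
    have h2 : (∑ p ∈ bl.P k, 1 / (p : ℝ)) ≤ (∑ p ∈ PP k, 1 / (p : ℝ)) + r * bl.w k := by
      have h3 : (∑ p ∈ bl.P k, 1 / (p : ℝ)) =
          (∑ p ∈ PP k, 1 / (p : ℝ)) + ∑ p ∈ bl.P k ∩ D, 1 / (p : ℝ) := by
        rw [← Finset.sum_sdiff (s₁ := bl.P k ∩ D) (s₂ := bl.P k) Finset.inter_subset_left,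
          Finset.sdiff_inter_self_left]
      rw [h3]
      have hw : (bl.P k ∩ D).card ≤ r := (Finset.card_le_card Finset.inter_subset_right).trans hDr
      have h4 : ∑ p ∈ bl.P k ∩ D, 1 / (p : ℝ) ≤ ((bl.P k ∩ D).card : ℝ) * bl.w k := by
        rw [← nsmul_eq_mul]
        apply Finset.sum_le_card_nsmul
        intro p hp
        exact bl.lew k hk p (Finset.mem_inter.mp hp).1
      rcases Nat.eq_zero_or_pos (bl.P k ∩ D).card with h0 | h0
      · have h5 : bl.P k ∩ D = ∅ := Finset.card_eq_zero.mp h0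
        rw [h5]
        have hw0 : 0 ≤ (r : ℝ) * bl.w k := by
          by_cases hr : r = 0
          · have hr' : (r : ℝ) = 0 := by exact_mod_cast hr
            simp [hr']
          · have hne : (bl.P k).Nonempty := by
              rw [← Finset.card_pos]
              have := bl.cardr k hk
              omega
            obtain ⟨p, hp⟩ := hne
            have h6 := bl.lew k hk p hp
            have h7 : (0 : ℝ) ≤ 1 / (p : ℝ) := by positivity
            have : 0 ≤ bl.w k := h7.trans h6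
            positivity
        simpa using hw0
      · obtain ⟨p, hp⟩ := Finset.card_pos.mp h0
        have h6 := bl.lew k hk p (Finset.mem_inter.mp hp).1
        have h7 : (0 : ℝ) ≤ 1 / (p : ℝ) := by positivity
        have h8 : 0 ≤ bl.w k := h7.trans h6
        have h9 : (((bl.P k ∩ D).card : ℕ) : ℝ) ≤ r := by exact_mod_cast hw
        have h10 : ((bl.P k ∩ D).card : ℝ) * bl.w k ≤ r * bl.w k :=
          mul_le_mul_of_nonneg_right h9 h8
        linarith
    linarith
  have hgain : ∏ k ∈ bl.I, (Real.exp (2 * bl.i k) / (2 * (Real.exp 1 * bl.i k) ^ 2) *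
      ES (PP k) (bl.J k) (bl.J k - bl.i k)) ≤
      (∏ k ∈ bl.I, ((bl.J k).choose (bl.i k) : ℝ) ^ 2) * ∏ k ∈ bl.I, ES (PP k) (bl.J k) (bl.J k) := by
    rw [← Finset.prod_mul_distrib]
    apply Finset.prod_le_prod
    · intro k hk
      exact mul_nonneg (by positivity) (ES_nonneg' _ _ _)
    · intro k hk
      exact block_gain2 (PP k) (bl.w k) (fun p hp => bl.lew k hk p (Finset.sdiff_subset hp))
        (bl.J k) (bl.i k) (bl.i1 k hk) bl.σ bl.σ0 bl.σ1 (hσ' k hk) (bl.hi k hk)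
  rw [Finset.prod_mul_distrib] at hgain
  have s1 : ∑ s ∈ FS P' (fun k => J k - i k) J, ff s ^ 2 = E1 := by
    rw [sum_ff_sq, hE1, ← e1 (fun k => ES (PP k) (bl.J k) (bl.J k - bl.i k))]
    exact Finset.prod_congr rfl fun k _ => ES_comm _ _ _
  have s2 : ∑ s ∈ FS P' J (fun k => J k - i k), ff s ^ 2 = E1 := by
    rw [sum_ff_sq, hE1, ← e1 (fun k => ES (PP k) (bl.J k) (bl.J k - bl.i k))]
  have hsub' : ∀ x : ι → Finset ℕ × Finset ℕ,
      (x ∈ FS P' (fun k => J k - i k) J ∨ x ∈ FS P' J (fun k => J k - i k)) →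
      (∀ k, (x k).1 ⊆ P' k) ∧ (∀ k, (x k).2 ⊆ P' k) := by
    intro x hx
    rcases hx with hx | hx
    · rw [mem_FS] at hx
      exact ⟨fun k => (hx k).1.1, fun k => (hx k).2.1.1⟩
    · rw [mem_FS] at hx
      exact ⟨fun k => (hx k).1.1, fun k => (hx k).2.1.1⟩
  refine ⟨FS P' (fun k => J k - i k) J, FS P' J (fun k => J k - i k), E1,
    (ZZ P' J i).image tri, FS_mono hP'P _ _, FS_mono hP'P _ _, hE1pos, ?_, ?_, s1, s2, ?_, ?_⟩
  · exact hcomp D E1 hE1 hDr
  · intro a ha p hp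
    exact ⟨not_dvd_Phi hP' (hsub' a ha).1 (hD p hp) (hDP' p hp),
      not_dvd_Phi hP' (hsub' a ha).2 (hD p hp) (hDP' p hp)⟩
  · intro ω hω
    rw [Finset.mem_image] at hω
    obtain ⟨⟨x, y⟩, hz, rfl⟩ := hω
    rw [mem_ZZ] at hz
    obtain ⟨hx, hy⟩ := hz
    simp only at hx hy
    have hx0 := mem_FS.mp hx
    have hy0 := mem_YY.mp hy
    have l3 : 0 < nu y := Phi_pos hP' fun k => (hy0 k).1.1.trans (hx0 k).1.1
    have l4 : 0 < de y := Phi_pos hP' fun k => (hy0 k).2.1.trans (hx0 k).2.1.1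
    refine ⟨?_, ?_, src_mem hx hy, tgt_mem hx hy, ?_, ?_⟩
    · simp only [tri]
      exact Nat.mul_pos l3 l4
    · simp only [tri]
      refine le_trans ?_ hlen
      have l1 : nu y ≤ ∏ k : ι, bl.Y k ^ bl.i k := by
        apply Phi_le (Y := fun k : ι => bl.Y k) (i := fun k : ι => bl.i k)
        · intro k p hp
          exact bl.leY k k.2 p (hP'P k ((hx0 k).1.1 ((hy0 k).1.1 hp)))
        · intro k
          exact (hy0 k).1.2
      have l2 : de y ≤ ∏ k : ι, bl.Y k ^ bl.i k := by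
        apply Phi_le (Y := fun k : ι => bl.Y k) (i := fun k : ι => bl.i k)
        · intro k p hp
          exact bl.leY k k.2 p (hP'P k ((hx0 k).2.1.1 ((hy0 k).2.1 hp)))
        · intro k
          exact (hy0 k).2.2
      exact_mod_cast Nat.mul_le_mul l1 l2
    · simp only [tri]
      have e1 : nu (tgt x y) = nu x := rfl
      have e2 : de (src x y) = de x := rfl
      rw [e1, e2]
      have e3 := nu_src hx hy
      have e4 := de_tgt hx hy
      rw [← e3]
      conv_rhs => rw [← e4]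
      ring
    · intro p hp hdvd
      simp only [tri] at hdvd
      rcases (hD p hp).dvd_mul.mp hdvd with h | h
      · exact not_dvd_Phi hP' (fun k => (hy0 k).1.1.trans (hx0 k).1.1) (hD p hp) (hDP' p hp) h
      · exact not_dvd_Phi hP' (fun k => (hy0 k).2.1.trans (hx0 k).2.1.1) (hD p hp) (hDP' p hp) h
  · rw [tri_sum hP' hdisj' J i]
    have a1 := e1 (fun k => ((bl.J k).choose (bl.i k) : ℝ) ^ 2)
    have a2 := e1 (fun k => ES (PP k) (bl.J k) (bl.J k))
    calc Real.exp G * E1 ≤ g * E1 := mul_le_mul_of_nonneg_right hgexp hE1pos.le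
      _ ≤ _ := hgain
      _ = _ := by rw [← a1, ← a2]

end Pool.Agent.H.MP_3e6494_nt.H14
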