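import Pool.Agent.H.MP_3e6494_nt.helper14.BlocksE
import Pool.Agent.H.MP_3e6494_nt.helper14.ResoE
import Pool.Agent.H.MP_3e6494_nt.helper14.RegDef
import Pool.Agent.H.MP_3e6494_nt.helper15.Mertens

/-!
The resonators with an energy bound exist.
-/

set_option autoImplicit false
set_option linter.unusedVariables false

open Finset Filter Topology

namespace Pool.Agent.H.MP_3e6494_nt.A14

open Pool.Agent.H.MP_3e6494_nt.H15 Pool.Agent.H.MP_3e6494_nt.H14

theorem resEx (r : ℕ) : ResEx r := by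
  intro ε' δ₀ hε' hδ₀
  obtain ⟨C0, hC0⟩ := mertens_lower
  filter_upwards [exists_blocksE r C0 hC0 ε' hε' δ₀ hδ₀, eventually_ge_atTop (1 : ℝ)] with V hV hV1
  obtain ⟨bl⟩ := hV
  exact resoE_of_blocks hV1 bl

end Pool.Agent.H.MP_3e6494_nt.A14
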