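import Mathlib
import Pool.Agent.H.MP_3e6494_nt.helper14.LevAll
import Pool.Agent.H.MP_3e6494_nt.helper14.CndEv
import Pool.Agent.H.MP_3e6494_nt.helper14.Exc
import Pool.Agent.H.MP_3e6494_nt.helper50.T3Gain
import Pool.Agent.H.MP_3e6494_nt.helper14.Num14
import Pool.Agent.H.MP_3e6494_nt.helper14.ResEx

/-!
Large values in every coset of large subgroups, for almost all primes.
-/

open Finset Filter Topology

set_option linter.unusedSectionVars false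
set_option linter.unusedVariables false

namespace Pool.Agent.H.MP_3e6494_nt.A14

open Pool.Agent.H.MP_3e6494_nt.H14 (ResoE)

open Pool.Agent.H.MP_3e6494_nt.Class Pool.Agent.H.MP_3e6494_nt.T3Cnt
  Pool.Agent.H.MP_3e6494_nt.T6Par Pool.Agent.H.MP_3e6494_nt.T3Res
  Pool.Agent.H.MP_3e6494_nt.T3Exc Pool.Agent.H.MP_3e6494_nt.H15
open Pool.Agent.H.MP_3e6494_nt.T3Prime (u u_val u_mul u_one index_le q_lt Q_le)

/-- the length is at most the cube of the level, in terms of the level -/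
lemma sqrt_len_le' {q k : ℕ} [hq : Fact q.Prime] (hk : Nat.log 2 q = k) :
    Real.sqrt (Final.len q) ≤ (3 / 2) * ((k : ℝ) + 2) * Real.sqrt q := by
  have h1 := Final.sqrt_len_le (q := q)
  have h2 := one_add_log_le (q := q) hk
  have h3 : 0 ≤ Real.sqrt (q : ℝ) := Real.sqrt_nonneg _
  nlinarith

/-- numerics at one prime: the first moments -/
lemma num_all {κ ν ε : ℝ} {k q : ℕ} [hq : Fact q.Prime] (hκ0 : 0 ≤ κ) (hν : 0 < ν)
    (h : 3 * κ + 2 * ν < 1) (hε : 0 < ε) (hεν : 32 * ε ≤ ν) (hk1 : 1 ≤ k) (hk : Nat.log 2 q = k)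
    (a3 : 42 * ((k : ℝ) + 2) ≤ ((2 : ℝ) ^ k) ^ (3 * ε / 8)) {c : ℝ} (hc0 : 0 ≤ c)
    (hc : c ≤ (q : ℝ) ^ κ) {Y : ℕ} (hY : ((2 : ℝ) ^ k) ^ (2 * κ + 2 * ν - ε) / 4 ≤ Y) :
    (((2 : ℝ) ^ k) ^ (-(ε / 2)) + c * (1 / Real.sqrt Y + 2 * Real.sqrt (Final.len q) / q) *
      (4 * ((2 : ℝ) ^ k) ^ (ν - ε))) * ((2 : ℝ) ^ k) ^ (ε / 8) < 1 := by
  have hkr : (1 : ℝ) ≤ k := by exact_mod_cast hk1
  set Q : ℝ := (2 : ℝ) ^ k with hQ
  have hQ1 : 1 ≤ Q := one_le_pow₀ (by norm_num)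
  have hQ0 : 0 < Q := by linarith
  have hqp : q.Prime := Fact.out
  have hq0 : (0 : ℝ) < q := by exact_mod_cast hqp.pos
  have hQq : Q ≤ q := by
    have := Q_le (q := q) hqp.ne_zero
    rw [hk] at this; exact this
  have hq2 : (q : ℝ) ≤ 2 * Q := by
    have := q_lt q
    rw [hk, pow_succ, ← hQ] at this
    linarith
  -- the order of the kernel
  have hc' : c ≤ 2 * Q ^ κ := by
    refine hc.trans ?_
    calc (q : ℝ) ^ κ ≤ (2 * Q) ^ κ := Real.rpow_le_rpow hq0.le hq2 hκ0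
      _ = 2 ^ κ * Q ^ κ := Real.mul_rpow (by norm_num) hQ0.le
      _ ≤ 2 * Q ^ κ := by
          apply mul_le_mul_of_nonneg_right _ (by positivity)
          calc (2 : ℝ) ^ κ ≤ 2 ^ (1 : ℝ) := Real.rpow_le_rpow_of_exponent_le (by norm_num)
                (by linarith)
            _ = 2 := Real.rpow_one _
  -- the short range
  set a : ℝ := κ + ν - ε / 2 with ha
  have hYs : Q ^ a / 2 ≤ Real.sqrt Y := by
    apply Real.le_sqrt_of_sq_le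
    rw [div_pow]
    have e : (Q ^ a) ^ 2 = Q ^ (2 * κ + 2 * ν - ε) := by
      rw [← Real.rpow_natCast, ← Real.rpow_mul hQ0.le]
      congr 1; rw [ha]; push_cast; ring
    rw [e]
    norm_num
    exact hY
  have hYi : 1 / Real.sqrt Y ≤ 2 * Q ^ (-a) := by
    have h1 : 0 < Q ^ a / 2 := by positivity
    refine (one_div_le_one_div_of_le h1 hYs).trans (le_of_eq ?_)
    rw [Real.rpow_neg hQ0.le]
    field_simp
  have hsq : Real.sqrt (q : ℝ) * Real.sqrt q = q := Real.mul_self_sqrt hq0.le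
  have hsq0 : 0 < Real.sqrt (q : ℝ) := Real.sqrt_pos.2 hq0
  have hXq : 2 * Real.sqrt (Final.len q) / q ≤ 3 * ((k : ℝ) + 2) * Q ^ (-(1 / 2) : ℝ) := by
    have h1 := sqrt_len_le' (q := q) hk
    have h2 : 2 * Real.sqrt (Final.len q) / q ≤ 3 * ((k : ℝ) + 2) * (1 / Real.sqrt q) := by
      rw [div_le_iff₀ hq0]
      calc 2 * Real.sqrt (Final.len q) ≤ 2 * ((3 / 2) * ((k : ℝ) + 2) * Real.sqrt q) := by linarith
        _ = 3 * ((k : ℝ) + 2) * (1 / Real.sqrt q) * (Real.sqrt q * Real.sqrt q) := by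
            field_simp
        _ = 3 * ((k : ℝ) + 2) * (1 / Real.sqrt q) * q := by rw [hsq]
    refine h2.trans ?_
    apply mul_le_mul_of_nonneg_left _ (by positivity)
    rw [Real.rpow_neg hQ0.le, ← Real.sqrt_eq_rpow, one_div]
    exact inv_anti₀ (Real.sqrt_pos.2 hQ0) (Real.sqrt_le_sqrt hQq)
  have hE0 : 0 < Q ^ (ν - ε) := by positivity
  have hmid : c * (1 / Real.sqrt Y + 2 * Real.sqrt (Final.len q) / q) * (4 * Q ^ (ν - ε)) ≤
      40 * ((k : ℝ) + 2) * Q ^ (-(ε / 2)) := by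
    have h0 : 0 ≤ 1 / Real.sqrt (Y : ℝ) + 2 * Real.sqrt (Final.len q) / q := by positivity
    have h1 : 1 / Real.sqrt Y + 2 * Real.sqrt (Final.len q) / q ≤
        2 * Q ^ (-a) + 3 * ((k : ℝ) + 2) * Q ^ (-(1 / 2) : ℝ) := add_le_add hYi hXq
    have e1 : Q ^ κ * Q ^ (-a) * Q ^ (ν - ε) = Q ^ (-(ε / 2)) := by
      rw [← Real.rpow_add hQ0, ← Real.rpow_add hQ0]
      congr 1; rw [ha]; ring
    have e2 : Q ^ κ * Q ^ (-(1 / 2) : ℝ) * Q ^ (ν - ε) ≤ Q ^ (-(ε / 2)) := by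
      rw [← Real.rpow_add hQ0, ← Real.rpow_add hQ0]
      apply Real.rpow_le_rpow_of_exponent_le hQ1
      linarith
    calc c * (1 / Real.sqrt Y + 2 * Real.sqrt (Final.len q) / q) * (4 * Q ^ (ν - ε))
        ≤ (2 * Q ^ κ) * (2 * Q ^ (-a) + 3 * ((k : ℝ) + 2) * Q ^ (-(1 / 2) : ℝ)) *
            (4 * Q ^ (ν - ε)) := by
          apply mul_le_mul_of_nonneg_right _ (by positivity)
          exact mul_le_mul hc' h1 h0 (by positivity)
      _ = 16 * (Q ^ κ * Q ^ (-a) * Q ^ (ν - ε)) +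
          24 * ((k : ℝ) + 2) * (Q ^ κ * Q ^ (-(1 / 2) : ℝ) * Q ^ (ν - ε)) := by ring
      _ ≤ 16 * Q ^ (-(ε / 2)) + 24 * ((k : ℝ) + 2) * Q ^ (-(ε / 2)) := by
          rw [e1]
          gcongr
      _ ≤ 40 * ((k : ℝ) + 2) * Q ^ (-(ε / 2)) := by
          have h3 : 0 ≤ Q ^ (-(ε / 2)) := by positivity
          nlinarith
  have hQε : 0 < Q ^ (ε / 8) := by positivity
  have e3 : Q ^ (-(ε / 2)) * Q ^ (ε / 8) = Q ^ (-(3 * ε / 8)) := by
    rw [← Real.rpow_add hQ0]; congr 1; ring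
  have e4 : Q ^ (3 * ε / 8) * Q ^ (-(3 * ε / 8)) = 1 := by
    rw [← Real.rpow_add hQ0, add_neg_cancel, Real.rpow_zero]
  have hpos : 0 < Q ^ (-(3 * ε / 8)) := by positivity
  calc (Q ^ (-(ε / 2)) + c * (1 / Real.sqrt Y + 2 * Real.sqrt (Final.len q) / q) *
      (4 * Q ^ (ν - ε))) * Q ^ (ε / 8)
      ≤ (Q ^ (-(ε / 2)) + 40 * ((k : ℝ) + 2) * Q ^ (-(ε / 2))) * Q ^ (ε / 8) := by
        gcongr
    _ = (1 + 40 * ((k : ℝ) + 2)) * (Q ^ (-(ε / 2)) * Q ^ (ε / 8)) := by ring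
    _ = (1 + 40 * ((k : ℝ) + 2)) * Q ^ (-(3 * ε / 8)) := by rw [e3]
    _ < (42 * ((k : ℝ) + 2)) * Q ^ (-(3 * ε / 8)) := by
        apply mul_lt_mul_of_pos_right _ hpos
        linarith
    _ ≤ Q ^ (3 * ε / 8) * Q ^ (-(3 * ε / 8)) := mul_le_mul_of_nonneg_right a3 hpos.le
    _ = 1 := e4

/-- numerics at one prime: the principal character -/
lemma num_prin {κ ν ε : ℝ} {k q : ℕ} [hq : Fact q.Prime] (hκ0 : 0 ≤ κ) (hν : 0 < ν)
    (h : 3 * κ + 2 * ν < 1) (hε : 0 < ε) (hεν : 32 * ε ≤ ν) (hk1 : 1 ≤ k) (hk : Nat.log 2 q = k)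
    (a3 : 42 * ((k : ℝ) + 2) ≤ ((2 : ℝ) ^ k) ^ (3 * ε / 8)) :
    2 * Real.sqrt (Final.len q) * ((2 : ℝ) ^ k) ^ (ν - ε) ≤ (q : ℝ) ^ (1 - κ) := by
  have hkr : (1 : ℝ) ≤ k := by exact_mod_cast hk1
  set Q : ℝ := (2 : ℝ) ^ k with hQ
  have hQ1 : 1 ≤ Q := one_le_pow₀ (by norm_num)
  have hQ0 : 0 < Q := by linarith
  have hqp : q.Prime := Fact.out
  have hq0 : (0 : ℝ) < q := by exact_mod_cast hqp.pos
  have hq1 : (1 : ℝ) ≤ q := by exact_mod_cast hqp.one_lt.le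
  have hQq : Q ≤ q := by
    have := Q_le (q := q) hqp.ne_zero
    rw [hk] at this; exact this
  have h1 := sqrt_len_le' (q := q) hk
  have h3 : Q ^ (ν - ε) ≤ (q : ℝ) ^ (ν - ε) :=
    Real.rpow_le_rpow hQ0.le hQq (by linarith)
  have h4 : 3 * ((k : ℝ) + 2) ≤ (q : ℝ) ^ ε := by
    have h5 : ((2 : ℝ) ^ k) ^ (3 * ε / 8) ≤ (q : ℝ) ^ ε := by
      calc Q ^ (3 * ε / 8) ≤ (q : ℝ) ^ (3 * ε / 8) := Real.rpow_le_rpow hQ0.le hQq (by positivity)
        _ ≤ (q : ℝ) ^ ε := Real.rpow_le_rpow_of_exponent_le hq1 (by linarith)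
    have h6 := a3.trans h5
    linarith
  have hsq : Real.sqrt q = (q : ℝ) ^ (1 / 2 : ℝ) := Real.sqrt_eq_rpow _
  calc 2 * Real.sqrt (Final.len q) * Q ^ (ν - ε)
      ≤ 2 * ((3 / 2) * ((k : ℝ) + 2) * Real.sqrt q) * (q : ℝ) ^ (ν - ε) := by gcongr
    _ = (3 * ((k : ℝ) + 2)) * ((q : ℝ) ^ (1 / 2 : ℝ) * (q : ℝ) ^ (ν - ε)) := by
        rw [hsq]; ring
    _ ≤ (q : ℝ) ^ ε * ((q : ℝ) ^ (1 / 2 : ℝ) * (q : ℝ) ^ (ν - ε)) := by gcongr
    _ = (q : ℝ) ^ (ε + (1 / 2 + (ν - ε)) : ℝ) := by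
        rw [← Real.rpow_add hq0, ← Real.rpow_add hq0]
    _ ≤ (q : ℝ) ^ (1 - κ) := by
        apply Real.rpow_le_rpow_of_exponent_le hq1
        linarith

/-- the statement at the level `k` -/
def LevA (θ ν ε δ₀ s : ℝ) (k : ℕ) : Prop :=
  ∀ G : ℝ, ResoE 1 (Vk ν ε k) G (Real.exp (δ₀ * Vk ν ε k)) →
    ∃ 𝒮 : Finset ℕ, (𝒮.card : ℝ) ≤ ((2 : ℝ) ^ k) ^ s ∧
      ∀ (q : ℕ) [Fact q.Prime], Nat.log 2 q = k → q ∉ 𝒮 →
      ∀ H : Subgroup (DirichletCharacter ℂ q), (q : ℝ) ^ θ ≤ Nat.card H →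
      ∀ VL : ℝ, 0 ≤ VL → 2 * (VL + 2) + 3 ≤ Real.exp G →
      ∀ χ₀ : DirichletCharacter ℂ q, ∃ ψ ∈ H, χ₀ * ψ ≠ 1 ∧
        VL < ‖(χ₀ * ψ).LFunction (1 / 2)‖

/-- **the level theorem for every coset** -/
theorem level_all {θ ν ε : ℝ} (h1 : θ ≤ 1) (hν : 0 < ν) (h : 3 * (1 - θ) + 2 * ν < 1)
    (hε : 0 < ε) (hεν : 32 * ε ≤ ν) :
    ∀ᶠ k : ℕ in atTop, LevA θ ν ε (ε / 8) (3 * (1 - θ) + 2 * ν - ε / 2) k := by
  set κ : ℝ := 1 - θ with hκ
  have hκ0 : 0 ≤ κ := by rw [hκ]; linarith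
  have hκ1 : κ ≤ 1 := by linarith
  filter_upwards [eventually_ge_atTop 1, poly_le 4 (by norm_num) 2 1 one_pos,
    poly_le 672 (by norm_num) 2 (ε / 2) (by positivity),
    poly_le 42 (by norm_num) 1 (3 * ε / 8) (by positivity),
    poly_le 2 (by norm_num) 0 (2 * κ + 2 * ν - ε) (by linarith)] with k hk1 a1 a2 a3 a4
  intro G R
  rw [Real.rpow_one] at a1
  rw [pow_one] at a3
  rw [pow_zero, mul_one] at a4
  have hkr : (1 : ℝ) ≤ k := by exact_mod_cast hk1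
  set Q : ℝ := (2 : ℝ) ^ k with hQ
  have hQ1 : 1 ≤ Q := one_le_pow₀ (by norm_num)
  have hQ0 : 0 < Q := by linarith
  set Y : ℕ := ⌊Q ^ (2 * κ + 2 * ν - ε)⌋₊ with hY
  have hYle : (Y : ℝ) ≤ Q ^ (2 * κ + 2 * ν - ε) := Nat.floor_le (by positivity)
  have hYge : Q ^ (2 * κ + 2 * ν - ε) / 4 ≤ Y := by
    have h2 := Nat.lt_floor_add_one (Q ^ (2 * κ + 2 * ν - ε))
    rw [← hY] at h2
    linarith
  have hY1 : 1 ≤ Y := by
    apply Nat.le_floor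
    push_cast
    linarith
  have hY3 : Y ≤ 2 ^ (3 * k) := by
    have h2 : (Y : ℝ) ≤ (2 : ℝ) ^ (3 * k) := by
      calc (Y : ℝ) ≤ Q ^ (2 * κ + 2 * ν - ε) := hYle
        _ ≤ Q ^ (1 : ℝ) := Real.rpow_le_rpow_of_exponent_le hQ1 (by linarith)
        _ = (2 : ℝ) ^ k := Real.rpow_one _
        _ ≤ (2 : ℝ) ^ (3 * k) := pow_le_pow_right₀ (by norm_num) (by omega)
    exact_mod_cast h2
  have ht0 : 0 < Q ^ (-(ε / 2)) := by positivity
  obtain ⟨𝒮, hc, hS⟩ := fst_level hκ0 hκ1 hε hεν (by linarith) hk1 R Y hY1 hY3 ht0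
  refine ⟨𝒮, hc.trans ?_, ?_⟩
  · rw [exp_Vk, ← hQ]
    have hYs : Real.sqrt Y ≤ Q ^ (κ + ν - ε / 2) := by
      rw [Real.sqrt_le_left (by positivity)]
      refine hYle.trans (le_of_eq ?_)
      rw [← Real.rpow_natCast, ← Real.rpow_mul hQ0.le]
      congr 1; push_cast; ring
    have e2 : Q ^ (κ + ν - ε / 2) * Q ^ (ν - ε) / Q ^ (-(ε / 2)) * Q ^ (2 * κ) =
        Q ^ (3 * κ + 2 * ν - ε) := by
      rw [← Real.rpow_add hQ0, ← Real.rpow_sub hQ0, ← Real.rpow_add hQ0]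
      congr 1; ring
    calc (2 * Real.sqrt Y * (4 * Q ^ (ν - ε)) / Q ^ (-(ε / 2))) *
          (((7 * k ^ 2 : ℕ) : ℝ) * 12) * Q ^ (2 * κ)
        ≤ (2 * Q ^ (κ + ν - ε / 2) * (4 * Q ^ (ν - ε)) / Q ^ (-(ε / 2))) *
          (((7 * k ^ 2 : ℕ) : ℝ) * 12) * Q ^ (2 * κ) := by gcongr
      _ = (672 * (k : ℝ) ^ 2) *
          (Q ^ (κ + ν - ε / 2) * Q ^ (ν - ε) / Q ^ (-(ε / 2)) * Q ^ (2 * κ)) := by
          push_cast; ring
      _ ≤ (672 * ((k : ℝ) + 2) ^ 2) * Q ^ (3 * κ + 2 * ν - ε) := by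
          rw [e2]
          gcongr
          linarith
      _ ≤ Q ^ (ε / 2) * Q ^ (3 * κ + 2 * ν - ε) := by
          apply mul_le_mul_of_nonneg_right a2 (by positivity)
      _ = Q ^ (3 * κ + 2 * ν - ε / 2) := by
          rw [← Real.rpow_add hQ0]
          congr 1; ring
  intro q _ hk hq H hH VL hVL hG χ₀
  have hqp : q.Prime := Fact.out
  have hq0 : (0 : ℝ) < q := by exact_mod_cast hqp.pos
  have hq1 : (1 : ℝ) ≤ q := by exact_mod_cast hqp.one_lt.le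
  have hQq : Q ≤ q := by
    have := Q_le (q := q) hqp.ne_zero
    rw [hk] at this; exact this
  have hqk : q < 2 ^ (k + 1) := by
    rw [← hk]; exact Nat.lt_pow_succ_log_self (by norm_num) q
  have hV0 := Vk_nonneg (k := k) hε hεν
  have hVle := Vk_le (k := k) hε hεν (by linarith)
  have hV2 : (Vk ν ε k) ^ 2 ≤ (k : ℝ) ^ 2 := pow_le_pow_left₀ hV0 hVle 2
  have hVq : (Vk ν ε k) ^ 2 < q := by nlinarith
  have hH' : (q : ℝ) ^ (1 - κ) ≤ Nat.card H := by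
    rw [hκ, sub_sub_cancel]
    exact hH
  have hKc := index_le (κ := κ) H hH'
  have hfst := hS q hqk hVq hq (K H) hKc (Final.len q)
  have hVY : Real.exp (2 * Vk ν ε k) ≤ (Final.len q : ℝ) := by
    have e : Real.exp (2 * Vk ν ε k) = Q ^ (2 * ν - 2 * ε) := by
      rw [two_mul, Real.exp_add, exp_Vk, ← hQ, ← Real.rpow_add hQ0]
      congr 1; ring
    rw [e]
    calc Q ^ (2 * ν - 2 * ε) ≤ Q ^ (1 : ℝ) := Real.rpow_le_rpow_of_exponent_le hQ1 (by linarith)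
      _ = Q := Real.rpow_one _
      _ ≤ q := hQq
      _ ≤ _ := Final.q_le_len
  have hnum := num_all (q := q) hκ0 hν h hε hεν hk1 hk a3 (Nat.cast_nonneg _) hKc hYge
  have hprin := num_prin (q := q) hκ0 hν h hε hεν hk1 hk a3
  have hΛ : Real.exp (ε / 8 * Vk ν ε k) ≤ Q ^ (ε / 8) := by
    have h2 : Vk ν ε k ≤ k * Real.log 2 := by
      unfold Vk
      have h3 : 0 ≤ (k : ℝ) * Real.log 2 := by
        have : 0 < Real.log 2 := Real.log_pos (by norm_num)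
        positivity
      calc (ν - ε) * (k * Real.log 2) ≤ 1 * (k * Real.log 2) := by
            apply mul_le_mul_of_nonneg_right _ h3
            linarith
        _ = _ := one_mul _
    rw [Real.rpow_def_of_pos hQ0, Real.log_pow]
    apply Real.exp_le_exp.2
    calc ε / 8 * Vk ν ε k ≤ ε / 8 * (k * Real.log 2) := by gcongr
      _ = k * Real.log 2 * (ε / 8) := by ring
  set s : ℝ := Q ^ (-(ε / 2)) + (Nat.card (K H) : ℝ) *
          (1 / Real.sqrt Y + 2 * Real.sqrt (Final.len q) / q) * (4 * Real.exp (Vk ν ε k)) with hs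
  have hs0 : 0 ≤ s := by rw [hs]; positivity
  have hsΛ : s * Real.exp (ε / 8 * Vk ν ε k) < 1 := by
    refine lt_of_le_of_lt (mul_le_mul_of_nonneg_left hΛ hs0) ?_
    rw [hs, exp_Vk, ← hQ]
    exact hnum
  refine one_all R hVq H (Final.len q) Final.one_le_len hVY Final.B_div hs0 hsΛ hfst hVL hG ?_ χ₀
  rw [exp_Vk, ← hQ]
  exact hprin.trans hH'

/-- **large values in every coset of large subgroups, for almost all primes** -/
theorem reg_all (θ : ℝ) (h1 : θ ≤ 1) (ν : ℝ) (hν : 0 < ν) (h : 3 * (1 - θ) + 2 * ν < 1) (ε₀ : ℝ)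
    (hε₀ : 0 < ε₀) : ∃ (E : Set ℕ) (x₀ : ℕ),
      (∀ x : ℕ, x₀ ≤ x → ((E ∩ Set.Icc 1 x).ncard : ℝ) ≤ (x : ℝ) ^ (3 * (1 - θ) + 2 * ν)) ∧
      ∀ (q : ℕ) [Fact q.Prime], x₀ ≤ q → q ∉ E →
        ∀ H : Subgroup (DirichletCharacter ℂ q), (q : ℝ) ^ θ ≤ Nat.card H →
          ∀ χ₀ : DirichletCharacter ℂ q, ∃ χ : DirichletCharacter ℂ q, χ₀⁻¹ * χ ∈ H ∧ χ ≠ 1 ∧
            Real.exp ((Real.sqrt (2 * ν) - ε₀) *
              Real.sqrt (Real.log q * Real.log (Real.log (Real.log q)) / Real.log (Real.log q))) ≤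
              ‖DirichletCharacter.LFunction χ (1 / 2)‖ := by
  have hsν : 0 < Real.sqrt (2 * ν) := Real.sqrt_pos.2 (by linarith)
  have hsν1 : Real.sqrt (2 * ν) ≤ 1 := by
    rw [Real.sqrt_le_left (by norm_num)]
    linarith
  have hsq : Real.sqrt (2 * ν) * Real.sqrt (2 * ν) = 2 * ν := Real.mul_self_sqrt (by linarith)
  -- it is enough to treat small `ε₀`
  suffices hsmall : ∀ ε₀ : ℝ, 0 < ε₀ → ε₀ ≤ Real.sqrt (2 * ν) / 2 →
      ∃ (E : Set ℕ) (x₀ : ℕ),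
      (∀ x : ℕ, x₀ ≤ x → ((E ∩ Set.Icc 1 x).ncard : ℝ) ≤ (x : ℝ) ^ (3 * (1 - θ) + 2 * ν)) ∧
      ∀ (q : ℕ) [Fact q.Prime], x₀ ≤ q → q ∉ E →
        ∀ H : Subgroup (DirichletCharacter ℂ q), (q : ℝ) ^ θ ≤ Nat.card H →
          ∀ χ₀ : DirichletCharacter ℂ q, ∃ χ : DirichletCharacter ℂ q, χ₀⁻¹ * χ ∈ H ∧ χ ≠ 1 ∧
            Real.exp ((Real.sqrt (2 * ν) - ε₀) *
              Real.sqrt (Real.log q * Real.log (Real.log (Real.log q)) / Real.log (Real.log q))) ≤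
              ‖DirichletCharacter.LFunction χ (1 / 2)‖ by
    obtain ⟨E, x₀, h2, h3⟩ := hsmall (min ε₀ (Real.sqrt (2 * ν) / 2))
      (lt_min hε₀ (by positivity)) (min_le_right _ _)
    refine ⟨E, x₀, h2, fun q _ hq hqE H hH χ₀ => ?_⟩
    obtain ⟨χ, b1, b2, b3⟩ := h3 q hq hqE H hH χ₀
    refine ⟨χ, b1, b2, le_trans (Real.exp_le_exp.2 ?_) b3⟩
    apply mul_le_mul_of_nonneg_right _ (Real.sqrt_nonneg _)
    have := min_le_left ε₀ (Real.sqrt (2 * ν) / 2)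
    linarith
  clear hε₀ ε₀
  intro ε₀ hε₀ hε₀ν
  set ε : ℝ := ε₀ * Real.sqrt (2 * ν) / 32 with hε
  have hε0 : 0 < ε := by positivity
  have hεν16 : 32 * ε ≤ ν := by
    rw [hε]
    nlinarith
  have hεν : ε < ν := by linarith
  set θ' : ℝ := ν - 2 * ε with hθ
  have hθ0 : 0 < θ' := by rw [hθ]; linarith
  have hsθ : Real.sqrt (2 * ν) - ε₀ / 4 ≤ Real.sqrt (2 * θ') := by
    apply Real.le_sqrt_of_sq_le
    rw [hθ, hε]
    nlinarith [Real.sqrt_nonneg (2 * ν)]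
  obtain ⟨ε', hε'0, hε'1, hgain⟩ := T3Gain.gain_ge θ' (ε₀ / 2) hθ0 (by positivity)
  have hlevk := level_all h1 hν h hε0 hεν16
  have hbl := resEx 1 ε' (ε / 8) hε'0 (by positivity)
  -- the families
  set G : ℕ → ℝ := fun k => (Real.sqrt 2 - ε') * Real.sqrt (T3Exc.Vk ν ε k *
    Real.log (Real.log (T3Exc.Vk ν ε k)) / Real.log (T3Exc.Vk ν ε k)) + 1 with hG
  have hVt : Tendsto (fun k : ℕ => T3Exc.Vk ν ε k) atTop atTop := by
    unfold T3Exc.Vk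
    apply Tendsto.const_mul_atTop (by linarith)
    exact Tendsto.atTop_mul_const (Real.log_pos (by norm_num)) tendsto_natCast_atTop_atTop
  have hev := (hVt.eventually hbl).and hlevk
  obtain ⟨k₁, hk₁⟩ := eventually_atTop.1 hev
  set k₀ := max k₁ 1 with hk₀
  have hlev' : ∀ k, k₀ ≤ k → ∃ 𝒮 : Finset ℕ,
      (𝒮.card : ℝ) ≤ ((2 : ℝ) ^ k) ^ (3 * (1 - θ) + 2 * ν - ε / 2) ∧
      ∀ (q : ℕ) [Fact q.Prime], Nat.log 2 q = k → q ∉ 𝒮 →
      ∀ H : Subgroup (DirichletCharacter ℂ q), (q : ℝ) ^ θ ≤ Nat.card H →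
      ∀ VL : ℝ, 0 ≤ VL → 2 * (VL + 2) + 3 ≤ Real.exp (G k) →
      ∀ χ₀ : DirichletCharacter ℂ q, ∃ ψ ∈ H, χ₀ * ψ ≠ 1 ∧
        VL < ‖(χ₀ * ψ).LFunction (1 / 2)‖ := by
    intro k hk
    obtain ⟨⟨R⟩, hL⟩ := hk₁ k ((le_max_left _ _).trans hk)
    exact hL (G k) R
  choose! 𝒮 h𝒮 using hlev'
  obtain ⟨x₁, hx₁⟩ := exc_total (fun k q => q ∈ 𝒮 k) (3 * (1 - θ) + 2 * ν - ε / 2)
    (3 * (1 - θ) + 2 * ν) (by linarith)
    (by linarith) k₀ (fun k hk => ⟨𝒮 k, fun q _ h => h, (h𝒮 k hk).1⟩)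
  -- the largeness conditions
  have ht : Tendsto (fun q : ℕ => (q : ℝ)) atTop atTop := tendsto_natCast_atTop_atTop
  have htl : Tendsto (fun q : ℕ => Real.log (q : ℝ)) atTop atTop :=
    Real.tendsto_log_atTop.comp ht
  set C1 : ℝ := 9 with hC1
  set M : ℝ := 1 + (4 / ε₀) * Real.log C1 with hM
  have hM1 : 1 ≤ M := by
    rw [hM]
    have h1 : 0 ≤ Real.log C1 := Real.log_nonneg (by rw [hC1]; norm_num)
    have : 0 ≤ (4 / ε₀) * Real.log C1 := by positivity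
    linarith
  set δ' : ℝ := (4000 / M) ^ 2 with hδ'
  have hδ'0 : 0 < δ' := by rw [hδ']; positivity
  have hbig := (htl.eventually hgain).and ((htl.eventually (Final.cond_eventually δ' hδ'0)).and
      ((htl.eventually_ge_atTop (1 / ε)).and (eventually_ge_atTop (2 ^ k₀))))
  obtain ⟨x₂, hx₂⟩ := eventually_atTop.1 hbig
  refine ⟨{q : ℕ | q.Prime ∧ k₀ ≤ Nat.log 2 q ∧ q ∈ 𝒮 (Nat.log 2 q)}, max x₁ x₂,
    fun x hx => hx₁ x ((le_max_left x₁ x₂).trans hx), ?_⟩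
  intro q _ hq hqE H hH χ₀
  obtain ⟨hg, ⟨-, -, -, hS, -⟩, hl, hpow⟩ := hx₂ q ((le_max_right x₁ x₂).trans hq)
  have hqp : q.Prime := Fact.out
  have hq0 : (0 : ℝ) < q := by exact_mod_cast hqp.pos
  have hq1 : (1 : ℝ) ≤ q := by exact_mod_cast hqp.one_lt.le
  set k := Nat.log 2 q with hk
  have hkk₀ : k₀ ≤ k := by
    rw [hk]
    exact Nat.le_log_of_pow_le (by norm_num) hpow
  have hnb : q ∉ 𝒮 k := fun hbad => hqE ⟨hqp, hkk₀, hbad⟩
  set S : ℝ := Real.sqrt (Real.log q * Real.log (Real.log (Real.log q)) / Real.log (Real.log q))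
    with hSdef
  set G' : ℝ := (Real.sqrt 2 - ε') * Real.sqrt (T3Exc.Vk ν ε k *
    Real.log (Real.log (T3Exc.Vk ν ε k)) / Real.log (T3Exc.Vk ν ε k)) with hG'
  have hMS : M ≤ S := by
    have h1 : 4000 / Real.sqrt δ' = M := by
      rw [hδ', Real.sqrt_sq (by positivity)]
      field_simp
    rw [h1] at hS
    exact Real.le_sqrt_of_sq_le hS
  have hSpos : 0 ≤ S := Real.sqrt_nonneg _
  have hVθ : θ' * Real.log q ≤ T3Exc.Vk ν ε k := by
    have h1 : Real.log q - Real.log 2 ≤ k * Real.log 2 := by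
      have h2 := T3Prime.q_lt q
      have h3 := Real.log_le_log hq0 h2
      rw [Real.log_pow] at h3
      push_cast at h3
      rw [← hk] at h3
      linarith
    have h2 : Real.log 2 < 1 := by linarith [Real.log_two_lt_d9]
    have h2' : 0 < Real.log 2 := Real.log_pos (by norm_num)
    have h3 : 1 ≤ ε * Real.log q := by
      rw [div_le_iff₀ hε0] at hl
      linarith
    unfold T3Exc.Vk
    have h4 : (ν - ε) * (Real.log q - Real.log 2) ≤ (ν - ε) * (k * Real.log 2) :=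
      mul_le_mul_of_nonneg_left h1 (by linarith)
    have h5 : (ν - ε) * Real.log 2 ≤ 1 := by nlinarith
    rw [hθ]
    nlinarith
  have hgq : (Real.sqrt (2 * θ') - ε₀ / 2) * S ≤ G' := hg _ hVθ
  have hG'1 : (Real.sqrt (2 * ν) - ε₀) * S + (ε₀ / 4) * S ≤ G' := by
    refine le_trans ?_ hgq
    have : (Real.sqrt (2 * ν) - ε₀) * S + (ε₀ / 4) * S =
        (Real.sqrt (2 * ν) - 3 * ε₀ / 4) * S := by ring
    rw [this]
    apply mul_le_mul_of_nonneg_right _ hSpos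
    linarith
  set VL : ℝ := Real.exp ((Real.sqrt (2 * ν) - ε₀) * S) with hVL
  have hVL1 : 1 ≤ VL := by
    rw [hVL]
    apply Real.one_le_exp
    apply mul_nonneg _ hSpos
    linarith
  have hcond : 2 * (VL + 2) + 3 ≤ Real.exp (G k) := by
    have h1 : C1 ≤ Real.exp ((ε₀ / 4) * S) := by
      rw [← Real.log_le_iff_le_exp (by rw [hC1]; norm_num)]
      have h2 : (4 / ε₀) * Real.log C1 ≤ S := by linarith
      calc Real.log C1 = (ε₀ / 4) * ((4 / ε₀) * Real.log C1) := by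
            field_simp
        _ ≤ (ε₀ / 4) * S := mul_le_mul_of_nonneg_left h2 (by positivity)
    have h2 : VL * Real.exp ((ε₀ / 4) * S) ≤ Real.exp (G k) := by
      rw [hVL, ← Real.exp_add]
      apply Real.exp_le_exp.2
      have : G k = G' + 1 := rfl
      rw [this]
      linarith
    have h3 : VL * C1 ≤ VL * Real.exp ((ε₀ / 4) * S) :=
      mul_le_mul_of_nonneg_left h1 (by linarith)
    rw [hC1] at h3
    nlinarith
  obtain ⟨ψ, hψ, hne, hlt⟩ := (h𝒮 k hkk₀).2 q rfl hnb H hH VL (by linarith) hcond χ₀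
  refine ⟨χ₀ * ψ, ?_, hne, hlt.le⟩
  rw [inv_mul_cancel_left]
  exact hψ

end Pool.Agent.H.MP_3e6494_nt.A14
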