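import Mathlib
import Pool.Agent.H.MP_3e6494_nt.helper14.Num14
import Pool.Agent.H.MP_3e6494_nt.helper14.FinE
import Pool.Agent.H.MP_3e6494_nt.helper14.LevE
import Pool.Agent.H.MP_3e6494_nt.helper14.PhiTail

/-!
The first constant: short dual length, trivial count of the long part (helper50).
-/

open Finset Filter Topology

set_option linter.unusedSectionVars false
set_option linter.unusedVariables false

namespace Pool.Agent.H.MP_3e6494_nt.A14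

open Pool.Agent.H.MP_3e6494_nt.H14 (ResoE)

open Pool.Agent.H.MP_3e6494_nt.T3Cnt Pool.Agent.H.MP_3e6494_nt.T3Exc
open Pool.Agent.H.MP_3e6494_nt.T3Prime (index_le q_lt Q_le)

/-- the loss at the level `k` -/
lemma loss_le {ν ε δ₀ : ℝ} {k : ℕ} (hδ₀ : 0 ≤ δ₀) (hε : 0 ≤ ε) (hν : ν ≤ 1) :
    Real.exp (δ₀ * Vk ν ε k) ≤ ((2 : ℝ) ^ k) ^ δ₀ := by
  have hQ1 : (1 : ℝ) ≤ (2 : ℝ) ^ k := one_le_pow₀ (by norm_num)
  have hQ0 : (0 : ℝ) < (2 : ℝ) ^ k := by positivity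
  rw [mul_comm, Real.exp_mul, exp_Vk, ← Real.rpow_mul hQ0.le]
  apply Real.rpow_le_rpow_of_exponent_le hQ1
  nlinarith

/-- the number of exceptional moduli, first part -/
lemma num_exc1 (r : ℕ) (s η δ₀ ν ε a : ℝ) (hr : 1 ≤ r) (hη : 0 ≤ η) (hδ₀ : 0 ≤ δ₀) (hε : 0 ≤ ε)
    (hν : ν ≤ 1) (ha : r * (δ₀ + η) + s < a) :
    ∀ᶠ k : ℕ in atTop, ∀ Y : ℕ, 1 ≤ Y → (Y : ℝ) ≤ (2 : ℝ) ^ k →
      (16 * Real.exp (δ₀ * Vk ν ε k) * (1 + Real.log Y) / ((2 : ℝ) ^ k) ^ (-η)) ^ r *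
        (r * ((7 * k ^ 2 : ℕ) : ℝ) * (4 * 3 ^ r)) * ((2 : ℝ) ^ k) ^ s ≤
        (1 / 2) * ((2 : ℝ) ^ k) ^ a := by
  set b : ℝ := a - (r * (δ₀ + η) + s) with hb
  have hb0 : 0 < b := by rw [hb]; linarith
  filter_upwards [poly_le (2 * (16 ^ r * (r * 7 * (4 * 3 ^ r)))) (by positivity) (r + 2) b hb0]
    with k hk Y hY1 hY
  set Q : ℝ := (2 : ℝ) ^ k with hQ
  have hQ1 : (1 : ℝ) ≤ Q := one_le_pow₀ (by norm_num)
  have hQ0 : (0 : ℝ) < Q := by positivity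
  have hYr : (1 : ℝ) ≤ Y := by exact_mod_cast hY1
  have hk0 : (0 : ℝ) ≤ k := Nat.cast_nonneg _
  have hlog0 : 0 ≤ Real.log Y := Real.log_nonneg hYr
  have hlog : 1 + Real.log Y ≤ (k : ℝ) + 2 := by
    have h1 := Real.log_le_log (by linarith) hY
    rw [hQ, Real.log_pow] at h1
    have hl21 : Real.log 2 < 1 := by linarith [Real.log_two_lt_d9]
    nlinarith
  have hΛ := loss_le (k := k) hδ₀ hε hν
  rw [← hQ] at hΛ
  have h1 : 16 * Real.exp (δ₀ * Vk ν ε k) * (1 + Real.log Y) / Q ^ (-η) ≤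
      16 * ((k : ℝ) + 2) * Q ^ (δ₀ + η) := by
    rw [Real.rpow_neg hQ0.le, div_inv_eq_mul, Real.rpow_add hQ0]
    calc 16 * Real.exp (δ₀ * Vk ν ε k) * (1 + Real.log Y) * Q ^ η
        ≤ 16 * Q ^ δ₀ * ((k : ℝ) + 2) * Q ^ η := by gcongr
      _ = _ := by ring
  have h2 : (16 * Real.exp (δ₀ * Vk ν ε k) * (1 + Real.log Y) / Q ^ (-η)) ^ r ≤
      (16 * ((k : ℝ) + 2) * Q ^ (δ₀ + η)) ^ r := pow_le_pow_left₀ (by positivity) h1 r
  have h3 : ((7 * k ^ 2 : ℕ) : ℝ) ≤ 7 * ((k : ℝ) + 2) ^ 2 := by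
    push_cast
    nlinarith
  have e1 : (Q ^ (δ₀ + η)) ^ r = Q ^ (r * (δ₀ + η)) := by
    rw [← Real.rpow_natCast, ← Real.rpow_mul hQ0.le, mul_comm]
  calc (16 * Real.exp (δ₀ * Vk ν ε k) * (1 + Real.log Y) / Q ^ (-η)) ^ r *
        (r * ((7 * k ^ 2 : ℕ) : ℝ) * (4 * 3 ^ r)) * Q ^ s
      ≤ (16 * ((k : ℝ) + 2) * Q ^ (δ₀ + η)) ^ r * (r * (7 * ((k : ℝ) + 2) ^ 2) * (4 * 3 ^ r)) *
        Q ^ s := by gcongr
    _ = (1 / 2) * ((2 * (16 ^ r * (r * 7 * (4 * 3 ^ r))) * ((k : ℝ) + 2) ^ (r + 2)) *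
        (Q ^ (r * (δ₀ + η)) * Q ^ s)) := by
        rw [mul_pow, mul_pow, e1, pow_add]; ring
    _ ≤ (1 / 2) * (Q ^ b * (Q ^ (r * (δ₀ + η)) * Q ^ s)) := by gcongr
    _ = (1 / 2) * Q ^ a := by
        rw [← Real.rpow_add hQ0, ← Real.rpow_add hQ0]
        congr 2
        rw [hb]; ring

/-- the number of exceptional moduli, second part -/
lemma num_exc2 (ν ε c a : ℝ) (hc : c + 2 * (ν - ε) + ε < a) :
    ∀ᶠ k : ℕ in atTop, ∀ Y : ℕ, (Y : ℝ) ≤ ((2 : ℝ) ^ k) ^ c →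
      64 * Y * Real.exp (Vk ν ε k) ^ 2 / ((2 : ℝ) ^ k) ^ (-ε) * (2 * ((7 * k ^ 2 : ℕ) : ℝ) + 1) ≤
        (1 / 2) * ((2 : ℝ) ^ k) ^ a := by
  set b : ℝ := a - (c + 2 * (ν - ε) + ε) with hb
  have hb0 : 0 < b := by rw [hb]; linarith
  filter_upwards [poly_le (2 * (64 * 15)) (by positivity) 2 b hb0] with k hk Y hY
  set Q : ℝ := (2 : ℝ) ^ k with hQ
  have hQ1 : (1 : ℝ) ≤ Q := one_le_pow₀ (by norm_num)
  have hQ0 : (0 : ℝ) < Q := by positivity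
  have hk0 : (0 : ℝ) ≤ k := Nat.cast_nonneg _
  have h3 : 2 * ((7 * k ^ 2 : ℕ) : ℝ) + 1 ≤ 15 * ((k : ℝ) + 2) ^ 2 := by
    push_cast
    nlinarith
  have e1 : Real.exp (Vk ν ε k) ^ 2 = Q ^ (2 * (ν - ε)) := by
    rw [exp_Vk, ← hQ, ← Real.rpow_natCast, ← Real.rpow_mul hQ0.le]
    congr 1; push_cast; ring
  rw [e1, Real.rpow_neg hQ0.le, div_inv_eq_mul]
  calc 64 * Y * Q ^ (2 * (ν - ε)) * Q ^ ε * (2 * ((7 * k ^ 2 : ℕ) : ℝ) + 1)
      ≤ 64 * Q ^ c * Q ^ (2 * (ν - ε)) * Q ^ ε * (15 * ((k : ℝ) + 2) ^ 2) := by gcongr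
    _ = (1 / 2) * ((2 * (64 * 15) * ((k : ℝ) + 2) ^ 2) * (Q ^ c * Q ^ (2 * (ν - ε)) * Q ^ ε)) := by
        ring
    _ ≤ (1 / 2) * (Q ^ b * (Q ^ c * Q ^ (2 * (ν - ε)) * Q ^ ε)) := by gcongr
    _ = (1 / 2) * Q ^ a := by
        rw [← Real.rpow_add hQ0, ← Real.rpow_add hQ0, ← Real.rpow_add hQ0]
        congr 2
        rw [hb]; ring

/-- a power of the modulus from a power of the level -/
lemma rpow_level {q k : ℕ} [hq : Fact q.Prime] (hk : Nat.log 2 q = k) (hk1 : 1 ≤ k) {a : ℝ}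
    (ha : 0 ≤ a) : ((2 : ℝ) ^ k) ^ (-(2 * a)) ≤ (q : ℝ) ^ (-a) := by
  set Q : ℝ := (2 : ℝ) ^ k with hQ
  have hQ1 : 1 ≤ Q := one_le_pow₀ (by norm_num)
  have hQ0 : 0 < Q := by linarith
  have hq0 : (0 : ℝ) < q := by exact_mod_cast hq.out.pos
  have hQ2 : 2 ≤ Q := by
    calc (2 : ℝ) = 2 ^ 1 := by norm_num
      _ ≤ 2 ^ k := pow_le_pow_right₀ (by norm_num) hk1
  have hqQ : (q : ℝ) ≤ Q ^ (2 : ℝ) := by
    have h1 := q_lt q
    rw [hk, pow_succ, ← hQ] at h1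
    have e : Q ^ (2 : ℝ) = Q * Q := by
      rw [show (2 : ℝ) = ((2 : ℕ) : ℝ) by norm_num, Real.rpow_natCast, sq]
    rw [e]
    nlinarith
  rw [Real.rpow_neg hQ0.le, Real.rpow_neg hq0.le]
  apply inv_anti₀ (by positivity)
  calc (q : ℝ) ^ a ≤ (Q ^ (2 : ℝ)) ^ a := Real.rpow_le_rpow hq0.le hqQ ha
    _ = Q ^ (2 * a) := by rw [← Real.rpow_mul hQ0.le]

lemma ro_a {L a Q : ℝ} (h1 : L ≤ a + 1) (h2 : a ≤ (2 * Q) * (Q / 4)) (h3 : 2 * Q ^ 2 ≤ Q ^ 3)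
    (h4 : 1 ≤ Q ^ 2) : L ≤ Q ^ 3 := by nlinarith

lemma ro_b {x k l : ℝ} (h1 : x ≤ 3 * (k * l)) (hl : l < 1) (hk : 1 ≤ k) : 1 + x ≤ 3 * k + 1 := by
  nlinarith

lemma ro_c {L k : ℝ} (h : L ≤ (k + 2) ^ 2 + 3) (hk : 1 ≤ k) : L ≤ 2 * (k + 2) ^ 2 := by
  nlinarith

lemma ro_d {k x : ℝ} (hx : 0 < x) : 4 * x + (3 * k + 1) * x ≤ 3 * (k + 2) * x := by nlinarith

lemma ro_e {c x : ℝ} (hc : 1 ≤ c) (hx : 0 < x) : 6 * x + 6 * c * x ≤ 12 * c * x := by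
  nlinarith [mul_le_mul_of_nonneg_right hc hx.le]

lemma ro_f {κ x : ℝ} (hκ : κ ≤ 1) (hx : 0 ≤ x) : κ * x ≤ x := by nlinarith

lemma ro_g {k : ℝ} (hk : 1 ≤ k) : k ^ 2 < (k + 2) ^ 2 := by nlinarith

lemma ro_h {a b y Y : ℝ} (ha : 1 ≤ a) (hb : 2 ≤ b) (h : a * b ≤ y) (hy : y < Y + 1)
    (hY : 1 ≤ Y) : a ≤ Y := by nlinarith

/-- numerics of the number of exceptional characters -/
lemma num_cnt (κ ν ε η : ℝ) (hκ0 : 0 ≤ κ) (hκν : κ + 4 * ν = 1) (hν : 0 < ν)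
    (hε : 0 < ε) (hεν : 32 * ε ≤ ν) (hη0 : 0 < η) (hηε : η ≤ ε) :
    ∀ᶠ k : ℕ in atTop, ∀ (q : ℕ) [Fact q.Prime], Nat.log 2 q = k →
      ∀ Y : ℕ, (Y : ℝ) ≤ ((2 : ℝ) ^ k) ^ (κ + 2 * ν) → ((2 : ℝ) ^ k) ^ (κ + 2 * ν) / 2 ≤ Y →
      ∀ J : ℝ, 0 ≤ J → J ≤ (q : ℝ) ^ κ →
      q * (3 * ((((2 : ℝ) ^ k) ^ (-η) + ((2 : ℝ) ^ k) ^ (-ε)) *
          Real.exp (η / 8 * Vk ν ε k) ^ 2) +
        ((Final.len q / q + 1 : ℕ) : ℝ) * (J * (1 / Y + (1 + Real.log (Final.len q)) / q)) *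
          Real.exp (Vk ν ε k) ^ 2) +
        (2 * Real.sqrt Y * Real.exp (Vk ν ε k) + 2 * Real.sqrt (Final.len q) *
          Real.exp (Vk ν ε k)) ≤ (q : ℝ) ^ (1 - η / 8) := by
  filter_upwards [eventually_ge_atTop 1, poly_le 24 (by norm_num) 3 (η / 2) (by positivity),
    poly_le 12 (by norm_num) 1 (1 / 8) (by norm_num),
    poly_le 4 (by norm_num) 2 1 one_pos] with k hk1 a1 a2 a3 q _ hk Y hY1 hY2 J hJ0 hJ
  have hqp : q.Prime := Fact.out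
  have hq0 : (0 : ℝ) < q := by exact_mod_cast hqp.pos
  have hq1 : (1 : ℝ) ≤ q := by exact_mod_cast hqp.one_lt.le
  set Q : ℝ := (2 : ℝ) ^ k with hQ
  have hQ1 : 1 ≤ Q := one_le_pow₀ (by norm_num)
  have hQ0 : 0 < Q := by linarith
  have hQ2 : 2 ≤ Q := by
    calc (2 : ℝ) = 2 ^ 1 := by norm_num
      _ ≤ 2 ^ k := pow_le_pow_right₀ (by norm_num) hk1
  have hQq : Q ≤ q := by
    have := Q_le (q := q) hqp.ne_zero
    rw [hk] at this; exact this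
  have hqQ : (q : ℝ) ≤ 2 * Q := by
    have := q_lt q
    rw [hk, pow_succ, ← hQ] at this
    linarith
  have hkr : (1 : ℝ) ≤ k := by exact_mod_cast hk1
  have hν4 : ν ≤ 1 / 4 := by linarith
  have hη1 : η ≤ 1 := by linarith
  -- the first term
  have hΛ := loss_le (ν := ν) (k := k) (ε := ε) (δ₀ := η / 8) (by positivity) hε.le (by linarith)
  rw [← hQ] at hΛ
  have hv : 3 * ((Q ^ (-η) + Q ^ (-ε)) * Real.exp (η / 8 * Vk ν ε k) ^ 2) ≤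
      6 * Q ^ (-(3 * η / 4)) := by
    have h1 : Q ^ (-ε) ≤ Q ^ (-η) := Real.rpow_le_rpow_of_exponent_le hQ1 (by linarith)
    have h2 : Real.exp (η / 8 * Vk ν ε k) ^ 2 ≤ (Q ^ (η / 8)) ^ 2 :=
      pow_le_pow_left₀ (Real.exp_pos _).le hΛ 2
    have e2 : (Q ^ (η / 8)) ^ 2 = Q ^ (η / 4) := by
      rw [← Real.rpow_natCast, ← Real.rpow_mul hQ0.le]
      congr 1; push_cast; ring
    calc 3 * ((Q ^ (-η) + Q ^ (-ε)) * Real.exp (η / 8 * Vk ν ε k) ^ 2)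
        ≤ 3 * ((Q ^ (-η) + Q ^ (-η)) * Q ^ (η / 4)) := by
          rw [← e2]
          gcongr
      _ = 6 * (Q ^ (-η) * Q ^ (η / 4)) := by ring
      _ = 6 * Q ^ (-(3 * η / 4)) := by
          rw [← Real.rpow_add hQ0]
          congr 2; ring
  -- the second term
  have e1 : Real.exp (Vk ν ε k) ^ 2 = Q ^ (2 * (ν - ε)) := by
    rw [exp_Vk, ← hQ, ← Real.rpow_natCast, ← Real.rpow_mul hQ0.le]
    congr 1; push_cast; ring
  have hlen0 : (0 : ℝ) < Final.len q := lt_of_lt_of_le hq0 Final.q_le_len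
  have hlenQ : (Final.len q : ℝ) ≤ Q ^ 3 := by
    have h1 := len_le (q := q) hk
    rw [Real.rpow_one] at a3
    have h2 : (q : ℝ) * ((k : ℝ) + 2) ^ 2 ≤ (2 * Q) * (Q / 4) :=
      mul_le_mul hqQ (by linarith) (by positivity) (by positivity)
    have h3 : 2 * Q ^ 2 ≤ Q ^ 3 := by
      have : Q ^ 3 = Q * Q ^ 2 := by ring
      rw [this]
      exact mul_le_mul_of_nonneg_right hQ2 (by positivity)
    have h4 : 1 ≤ Q ^ 2 := one_le_pow₀ hQ1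
    exact ro_a h1 h2 h3 h4
  have hloglen : 1 + Real.log (Final.len q) ≤ 3 * (k : ℝ) + 1 := by
    have h1 := Real.log_le_log hlen0 hlenQ
    rw [Real.log_pow, hQ, Real.log_pow] at h1
    push_cast at h1
    have hl21 : Real.log 2 < 1 := by linarith [Real.log_two_lt_d9]
    exact ro_b h1 hl21 hkr
  have hyp : 0 < Q ^ (κ + 2 * ν) := by positivity
  have hY0 : (0 : ℝ) < Y := by linarith
  have hJ1 : J ≤ 2 * Q ^ κ := by
    refine hJ.trans ?_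
    calc (q : ℝ) ^ κ ≤ (2 * Q) ^ κ := Real.rpow_le_rpow hq0.le hqQ hκ0
      _ = 2 ^ κ * Q ^ κ := Real.mul_rpow (by norm_num) hQ0.le
      _ ≤ 2 * Q ^ κ := by
          apply mul_le_mul_of_nonneg_right _ (by positivity)
          calc (2 : ℝ) ^ κ ≤ 2 ^ (1 : ℝ) :=
                Real.rpow_le_rpow_of_exponent_le (by norm_num) (by linarith)
            _ = 2 := Real.rpow_one _
  have hJY : J * (1 / Y) ≤ 4 * Q ^ (-(2 * ν)) := by
    have h1 : 1 / (Y : ℝ) ≤ 2 * Q ^ (-(κ + 2 * ν)) := by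
      rw [Real.rpow_neg hQ0.le, div_le_iff₀ hY0, mul_assoc, ← div_le_iff₀' (by norm_num),
        ← div_le_iff₀' (by positivity)]
      rw [div_inv_eq_mul]
      linarith
    calc J * (1 / Y) ≤ (2 * Q ^ κ) * (2 * Q ^ (-(κ + 2 * ν))) := by gcongr
      _ = 4 * (Q ^ κ * Q ^ (-(κ + 2 * ν))) := by ring
      _ = 4 * Q ^ (-(2 * ν)) := by
          rw [← Real.rpow_add hQ0]
          congr 2; ring
  have hJq : J * ((1 + Real.log (Final.len q)) / q) ≤ (3 * (k : ℝ) + 1) * Q ^ (-(2 * ν)) := by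
    have h1 : J / q ≤ Q ^ (-(2 * ν)) := by
      calc J / q ≤ (q : ℝ) ^ κ / q := div_le_div_of_nonneg_right hJ hq0.le
        _ = (q : ℝ) ^ (κ - 1) := (Real.rpow_sub_one hq0.ne' κ).symm
        _ ≤ (q : ℝ) ^ (-(2 * ν)) := Real.rpow_le_rpow_of_exponent_le hq1 (by linarith)
        _ ≤ Q ^ (-(2 * ν)) := Real.rpow_le_rpow_of_nonpos hQ0 hQq (by linarith)
    have h2 : 0 ≤ 1 + Real.log (Final.len q) := by
      have : 0 ≤ Real.log (Final.len q) := Real.log_natCast_nonneg _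
      linarith
    calc J * ((1 + Real.log (Final.len q)) / q) = (1 + Real.log (Final.len q)) * (J / q) := by
          ring
      _ ≤ (3 * (k : ℝ) + 1) * Q ^ (-(2 * ν)) := by
          apply mul_le_mul hloglen h1 (by positivity) (by positivity)
  have hvL : ((Final.len q / q + 1 : ℕ) : ℝ) * (J * (1 / Y + (1 + Real.log (Final.len q)) / q)) *
      Real.exp (Vk ν ε k) ^ 2 ≤ 6 * ((k : ℝ) + 2) ^ 3 * Q ^ (-(3 * η / 4)) := by
    have h1 := len_div_le (q := q) hk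
    have h1' : ((Final.len q / q + 1 : ℕ) : ℝ) ≤ 2 * ((k : ℝ) + 2) ^ 2 := ro_c h1 hkr
    have h2 : J * (1 / Y + (1 + Real.log (Final.len q)) / q) ≤
        3 * ((k : ℝ) + 2) * Q ^ (-(2 * ν)) := by
      have : 0 < Q ^ (-(2 * ν)) := by positivity
      calc J * (1 / Y + (1 + Real.log (Final.len q)) / q) =
            J * (1 / Y) + J * ((1 + Real.log (Final.len q)) / q) := by ring
        _ ≤ 4 * Q ^ (-(2 * ν)) + (3 * (k : ℝ) + 1) * Q ^ (-(2 * ν)) := add_le_add hJY hJq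
        _ ≤ 3 * ((k : ℝ) + 2) * Q ^ (-(2 * ν)) := ro_d this
    have h2' : 0 ≤ J * (1 / Y + (1 + Real.log (Final.len q)) / q) := by
      have : 0 ≤ Real.log (Final.len q) := Real.log_natCast_nonneg _
      positivity
    rw [e1]
    calc ((Final.len q / q + 1 : ℕ) : ℝ) * (J * (1 / Y + (1 + Real.log (Final.len q)) / q)) *
          Q ^ (2 * (ν - ε))
        ≤ (2 * ((k : ℝ) + 2) ^ 2) * (3 * ((k : ℝ) + 2) * Q ^ (-(2 * ν))) * Q ^ (2 * (ν - ε)) := by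
          gcongr
      _ = 6 * ((k : ℝ) + 2) ^ 3 * (Q ^ (-(2 * ν)) * Q ^ (2 * (ν - ε))) := by ring
      _ = 6 * ((k : ℝ) + 2) ^ 3 * Q ^ (-(2 * ε)) := by
          rw [← Real.rpow_add hQ0]
          congr 2; ring
      _ ≤ 6 * ((k : ℝ) + 2) ^ 3 * Q ^ (-(3 * η / 4)) := by
          apply mul_le_mul_of_nonneg_left _ (by positivity)
          apply Real.rpow_le_rpow_of_exponent_le hQ1
          linarith
  have hpart1 : q * (3 * ((Q ^ (-η) + Q ^ (-ε)) * Real.exp (η / 8 * Vk ν ε k) ^ 2) +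
        ((Final.len q / q + 1 : ℕ) : ℝ) * (J * (1 / Y + (1 + Real.log (Final.len q)) / q)) *
          Real.exp (Vk ν ε k) ^ 2) ≤ (1 / 2) * (q : ℝ) ^ (1 - η / 8) := by
    have hp0 : 0 < Q ^ (-(3 * η / 4)) := by positivity
    have h1 : 6 * Q ^ (-(3 * η / 4)) + 6 * ((k : ℝ) + 2) ^ 3 * Q ^ (-(3 * η / 4)) ≤
        12 * ((k : ℝ) + 2) ^ 3 * Q ^ (-(3 * η / 4)) := by
      have h2 : (1 : ℝ) ≤ ((k : ℝ) + 2) ^ 3 := one_le_pow₀ (by linarith)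
      exact ro_e h2 hp0
    have h2 : 12 * ((k : ℝ) + 2) ^ 3 * Q ^ (-(3 * η / 4)) ≤ (1 / 2) * Q ^ (-(2 * (η / 8))) := by
      calc 12 * ((k : ℝ) + 2) ^ 3 * Q ^ (-(3 * η / 4))
          = (1 / 2) * ((24 * ((k : ℝ) + 2) ^ 3) * Q ^ (-(3 * η / 4))) := by ring
        _ ≤ (1 / 2) * (Q ^ (η / 2) * Q ^ (-(3 * η / 4))) := by gcongr
        _ = (1 / 2) * Q ^ (-(2 * (η / 8))) := by
            rw [← Real.rpow_add hQ0]
            congr 2; ring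
    have h3 := rpow_level (q := q) hk hk1 (a := η / 8) (by positivity)
    rw [← hQ] at h3
    calc q * (3 * ((Q ^ (-η) + Q ^ (-ε)) * Real.exp (η / 8 * Vk ν ε k) ^ 2) +
        ((Final.len q / q + 1 : ℕ) : ℝ) * (J * (1 / Y + (1 + Real.log (Final.len q)) / q)) *
          Real.exp (Vk ν ε k) ^ 2)
        ≤ q * ((1 / 2) * (q : ℝ) ^ (-(η / 8))) := by
          apply mul_le_mul_of_nonneg_left _ hq0.le
          linarith
      _ = (1 / 2) * ((q : ℝ) ^ (1 : ℝ) * (q : ℝ) ^ (-(η / 8))) := by rw [Real.rpow_one]; ring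
      _ = (1 / 2) * (q : ℝ) ^ (1 - η / 8) := by
          rw [← Real.rpow_add hq0]
          congr 2
  -- the last terms
  have hYlen : Real.sqrt Y ≤ Real.sqrt (Final.len q) := by
    apply Real.sqrt_le_sqrt
    calc (Y : ℝ) ≤ Q ^ (κ + 2 * ν) := hY1
      _ ≤ Q ^ (1 : ℝ) := Real.rpow_le_rpow_of_exponent_le hQ1 (by linarith)
      _ = Q := Real.rpow_one _
      _ ≤ q := hQq
      _ ≤ _ := Final.q_le_len
  have hpart2 : 2 * Real.sqrt Y * Real.exp (Vk ν ε k) + 2 * Real.sqrt (Final.len q) *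
          Real.exp (Vk ν ε k) ≤ (1 / 2) * (q : ℝ) ^ (1 - η / 8) := by
    have h1 := Final.sqrt_len_le (q := q)
    have h2 := one_add_log_le (q := q) hk
    have h0 := Final.log_nonneg' (q := q)
    have h3 : Real.exp (Vk ν ε k) ≤ (q : ℝ) ^ (1 / 4 : ℝ) := by
      rw [exp_Vk, ← hQ]
      calc Q ^ (ν - ε) ≤ Q ^ (1 / 4 : ℝ) := Real.rpow_le_rpow_of_exponent_le hQ1 (by linarith)
        _ ≤ _ := Real.rpow_le_rpow hQ0.le hQq (by norm_num)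
    have h4 : 12 * ((k : ℝ) + 2) ≤ (q : ℝ) ^ (1 / 8 : ℝ) := by
      rw [pow_one] at a2
      refine a2.trans ?_
      exact Real.rpow_le_rpow (by positivity) hQq (by norm_num)
    have hsq : Real.sqrt q = (q : ℝ) ^ (1 / 2 : ℝ) := Real.sqrt_eq_rpow _
    calc 2 * Real.sqrt Y * Real.exp (Vk ν ε k) + 2 * Real.sqrt (Final.len q) *
          Real.exp (Vk ν ε k)
        ≤ 2 * Real.sqrt (Final.len q) * Real.exp (Vk ν ε k) + 2 * Real.sqrt (Final.len q) *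
          Real.exp (Vk ν ε k) := by gcongr
      _ = 4 * Real.sqrt (Final.len q) * Real.exp (Vk ν ε k) := by ring
      _ ≤ 4 * ((3 / 2) * (Real.sqrt q * (1 + Real.log q))) * (q : ℝ) ^ (1 / 4 : ℝ) := by gcongr
      _ ≤ 4 * ((3 / 2) * (Real.sqrt q * ((k : ℝ) + 2))) * (q : ℝ) ^ (1 / 4 : ℝ) := by gcongr
      _ = (1 / 2) * ((12 * ((k : ℝ) + 2)) * ((q : ℝ) ^ (1 / 2 : ℝ) * (q : ℝ) ^ (1 / 4 : ℝ))) := by
          rw [hsq]; ring
      _ ≤ (1 / 2) * ((q : ℝ) ^ (1 / 8 : ℝ) * ((q : ℝ) ^ (1 / 2 : ℝ) * (q : ℝ) ^ (1 / 4 : ℝ))) := by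
          gcongr
      _ = (1 / 2) * (q : ℝ) ^ (1 / 8 + (1 / 2 + 1 / 4) : ℝ) := by
          rw [← Real.rpow_add hq0, ← Real.rpow_add hq0]
      _ ≤ (1 / 2) * (q : ℝ) ^ (1 - η / 8) := by
          apply mul_le_mul_of_nonneg_left _ (by norm_num)
          apply Real.rpow_le_rpow_of_exponent_le hq1
          linarith
  linarith

/-- the first constant -/
theorem reg_one_of (hres : ∀ r, ResEx r) (θ : ℝ) (h0 : 0 < θ) (h1 : θ ≤ 1) :
    Reg θ (Real.sqrt (θ / 2)) := by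
  set ν : ℝ := θ / 4 with hνd
  set κ : ℝ := 1 - θ with hκd
  have hν : 0 < ν := by positivity
  have hν1 : ν ≤ 1 / 4 := by rw [hνd]; linarith
  have hκ0 : 0 ≤ κ := by rw [hκd]; linarith
  have hκ1 : κ ≤ 1 := by rw [hκd]; linarith
  have hκν : κ + 4 * ν = 1 := by rw [hνd, hκd]; ring
  have e2ν : θ / 2 = 2 * ν := by rw [hνd]; ring
  rw [e2ν]
  set r : ℕ := ⌈1 / θ⌉₊ + 1 with hrd
  have hr : 1 ≤ r := by omega
  have hr0 : (0 : ℝ) < r := by exact_mod_cast hr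
  have hrθ : 1 / (r : ℝ) < θ := by
    rw [one_div_lt hr0 h0, hrd]
    push_cast
    have := Nat.le_ceil (1 / θ)
    linarith
  set s : ℝ := κ * (1 + 1 / r) with hs
  have hs1 : s < 1 := by
    rw [hs]
    have h3 : κ * (1 / r) ≤ 1 / (r : ℝ) := by
      have : (0 : ℝ) ≤ 1 / r := by positivity
      exact ro_f hκ1 this
    rw [mul_add, mul_one]
    linarith
  apply reg_of_levels r θ ν hν (by linarith) (hres r)
  intro ε hε hεν
  set g : ℝ := 1 - s with hg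
  have hg0 : 0 < g := by rw [hg]; linarith
  set η : ℝ := min ε (g / (4 * r)) with hη
  have hη0 : 0 < η := lt_min hε (by positivity)
  have hηε : η ≤ ε := min_le_left _ _
  have hηg : r * η ≤ g / 4 := by
    have h3 : η ≤ g / (4 * r) := min_le_right _ _
    calc r * η ≤ r * (g / (4 * r)) := mul_le_mul_of_nonneg_left h3 hr0.le
      _ = g / 4 := by field_simp
  set δ₁ : ℝ := min (g / 2) (ε / 2) with hδ₁
  have hδ₁0 : 0 < δ₁ := lt_min (by positivity) (by positivity)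
  have hδ₁g : δ₁ ≤ g / 2 := min_le_left _ _
  have hδ₁ε : δ₁ ≤ ε / 2 := min_le_right _ _
  refine ⟨η / 8, δ₁, η / 8, by positivity, hδ₁0, by linarith, by positivity, ?_⟩
  have hc1 : r * (η / 8 + η) + s < 1 - δ₁ := by
    have : (r : ℝ) * (η / 8 + η) = (9 / 8) * (r * η) := by ring
    rw [this]
    have hs' : s = 1 - g := by rw [hg]; ring
    rw [hs']
    linarith
  have hc2 : (κ + 2 * ν) + 2 * (ν - ε) + ε < 1 - δ₁ := by linarith
  filter_upwards [eventually_ge_atTop 1,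
    num_exc1 r s η (η / 8) ν ε (1 - δ₁) hr hη0.le (by positivity) hε.le (by linarith) hc1,
    num_exc2 ν ε (κ + 2 * ν) (1 - δ₁) hc2,
    num_cnt κ ν ε η hκ0 hκν hν hε hεν hη0 hηε,
    poly_le 2 (by norm_num) 0 (2 * ε) (by positivity),
    poly_le 2 (by norm_num) 0 (κ + 2 * ν) (by linarith),
    poly_le 1 (by norm_num) 2 1 one_pos,
    poly_le 4 (by norm_num) 2 1 one_pos] with k hk1 b1 b2 b3 b4 b5 b6 b7
  intro G R
  set Q : ℝ := (2 : ℝ) ^ k with hQ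
  have hQ1 : 1 ≤ Q := one_le_pow₀ (by norm_num)
  have hQ0 : 0 < Q := by linarith
  have hkr : (1 : ℝ) ≤ k := by exact_mod_cast hk1
  rw [pow_zero, mul_one] at b4 b5
  set y : ℝ := Q ^ (κ + 2 * ν) with hy
  have hy0 : 0 < y := by rw [hy]; positivity
  set Y : ℕ := ⌊y⌋₊ with hYd
  have hYy : (Y : ℝ) ≤ y := Nat.floor_le hy0.le
  have hyY : y < (Y : ℝ) + 1 := Nat.lt_floor_add_one _
  have hY1' : (1 : ℝ) ≤ Y := by
    have h3 : 1 ≤ Y := by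
      rw [hYd, Nat.one_le_floor_iff]
      linarith
    exact_mod_cast h3
  have hY1 : 1 ≤ Y := by exact_mod_cast hY1'
  have hyh : y / 2 ≤ Y := by linarith
  have hyQ : y ≤ Q := by
    calc y ≤ Q ^ (1 : ℝ) := Real.rpow_le_rpow_of_exponent_le hQ1 (by linarith)
      _ = Q := Real.rpow_one _
  have hY3 : Y ≤ 2 ^ (3 * k) := by
    have h3 : (Y : ℝ) ≤ (2 : ℝ) ^ (3 * k) := by
      calc (Y : ℝ) ≤ Q := hYy.trans hyQ
        _ = (2 : ℝ) ^ k := hQ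
        _ ≤ (2 : ℝ) ^ (3 * k) := pow_le_pow_right₀ (by norm_num) (by omega)
    exact_mod_cast h3
  obtain ⟨𝒮, hc, h𝒮⟩ := secE_level (κ := κ) hr hκ0 hκ1 hε hεν (by linarith) hk1
    (Real.exp_pos _).le R Y hY1 hY3 (t1 := Q ^ (-η)) (t2 := Q ^ (-ε)) (by positivity)
    (by positivity)
  refine ⟨𝒮, ?_, ?_⟩
  · refine hc.trans ?_
    have h3 := b1 Y hY1 (hYy.trans hyQ)
    have h4 := b2 Y hYy
    linarith
  intro q _ hk hq H hH VL hVL hG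
  have hqp : q.Prime := Fact.out
  have hq0 : (0 : ℝ) < q := by exact_mod_cast hqp.pos
  have hQq : Q ≤ q := by
    have := Q_le (q := q) hqp.ne_zero
    rw [hk] at this; exact this
  have hqk : q < 2 ^ (k + 1) := by
    rw [← hk]; exact Nat.lt_pow_succ_log_self (by norm_num) q
  have hV0 := Vk_nonneg (k := k) hε hεν
  have hVle := Vk_le (k := k) hε hεν (by linarith)
  have hV2 : (Vk ν ε k) ^ 2 ≤ (k : ℝ) ^ 2 := pow_le_pow_left₀ hV0 hVle 2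
  have hVq : (Vk ν ε k) ^ 2 < q := by
    rw [Real.rpow_one, one_mul] at b6
    have h3 : (k : ℝ) ^ 2 < ((k : ℝ) + 2) ^ 2 := ro_g hkr
    exact hV2.trans_lt (h3.trans_le (b6.trans hQq))
  have hH' : (q : ℝ) ^ (1 - κ) ≤ Nat.card H := by
    have e : 1 - κ = θ := by rw [hκd]; ring
    rw [e]; exact hH
  have hKc := index_le (κ := κ) H hH'
  obtain ⟨D, hDr, hDp, hsec⟩ := h𝒮 q hqk hVq hq (Class.K H) hKc
  have hYlen : Y ≤ Final.len q := by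
    have h3 : (Y : ℝ) ≤ Final.len q := by
      have := Final.q_le_len (q := q)
      linarith
    exact_mod_cast h3
  have hX1 : 1 ≤ Final.len q := hY1.trans hYlen
  have hVY : Real.exp (2 * Vk ν ε k) ≤ Y := by
    have e3 : Real.exp (2 * Vk ν ε k) = Q ^ (2 * ν - 2 * ε) := by
      rw [mul_comm, Real.exp_mul, exp_Vk, ← hQ, ← Real.rpow_mul hQ0.le]
      congr 1; ring
    rw [e3]
    have e4 : Q ^ (2 * ν) = Q ^ (2 * ν - 2 * ε) * Q ^ (2 * ε) := by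
      rw [← Real.rpow_add hQ0]; congr 1; ring
    have h4 : 1 ≤ Q ^ (2 * ν - 2 * ε) := Real.one_le_rpow hQ1 (by linarith)
    have h5 : Q ^ (2 * ν) ≤ y := Real.rpow_le_rpow_of_exponent_le hQ1 (by linarith)
    rw [e4] at h5
    exact ro_h h4 b4 h5 hyY hY1'
  have hphi := phiE_tail R hVq (Class.K H) (Final.len q) Y hYlen hY1 D hDp
  have hmain := one_E R hVq H (Final.len q) Y hX1 hVY (Final.B_div (q := q)) D hDp hDr.le
    (by positivity) hsec hphi hVL hG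
  exact hmain.trans (b3 q hk Y hYy hyh _ (Nat.cast_nonneg _) hKc)

end Pool.Agent.H.MP_3e6494_nt.A14
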