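import Mathlib
import Pool.Agent.H.MP_3e6494_nt.helper14.FinE
import Pool.Agent.H.MP_3e6494_nt.helper14.PhiDual
import Pool.Agent.H.MP_3e6494_nt.helper14.Num14
import Pool.Agent.H.MP_3e6494_nt.helper14.NumThree

/-!
The regime for all subgroups of order at least `q ^ θ`, with `θ > 0` arbitrary.
-/

open Finset Filter Topology

set_option linter.unusedSectionVars false
set_option linter.unusedVariables false

namespace Pool.Agent.H.MP_3e6494_nt.A14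

open Pool.Agent.H.MP_3e6494_nt.H14 (ResoE gw)

open Pool.Agent.H.MP_3e6494_nt.Class Pool.Agent.H.MP_3e6494_nt.T3Cnt
  Pool.Agent.H.MP_3e6494_nt.T6Par Pool.Agent.H.MP_3e6494_nt.T3Res
  Pool.Agent.H.MP_3e6494_nt.T3Exc
open Pool.Agent.H.MP_3e6494_nt.T3Prime (u u_val u_mul u_one index_le q_lt Q_le)

/-- small numerical facts -/
lemma r3_sq_lt {V k Q q : ℝ} (h2 : V ^ 2 ≤ k ^ 2) (hk : 1 ≤ k) (hc : (k + 2) ^ 2 + 3 ≤ Q)
    (hQ : Q ≤ q) : V ^ 2 < q := by nlinarith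

lemma r3_three {k Q q : ℝ} (hk : 1 ≤ k) (hc : (k + 2) ^ 2 + 3 ≤ Q) (hQ : Q ≤ q) : 3 ≤ q := by
  nlinarith

lemma r3_cube {X Q : ℝ} (h : X ≤ (2 * Q) * (Q - 3) + 1) (hQ : 2 ≤ Q) : X ≤ Q * Q * Q := by
  have h1 : 0 ≤ Q * (Q * (Q - 2)) := by
    apply mul_nonneg (by linarith)
    exact mul_nonneg (by linarith) (by linarith)
  nlinarith

lemma r3_log {k x l : ℝ} (h : x ≤ 3 * k * l) (hl : l < 1) (hk : 1 ≤ k) : 2 + x ≤ 3 * (k + 2) := by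
  nlinarith

lemma r3_gt {γ θ r : ℝ} (h : γ * (16 * r) ≤ θ) (hr : 1 ≤ r) (hγ : 0 < γ) : 16 * γ ≤ θ := by
  nlinarith

lemma r3_k2 {k : ℝ} (hk : 1 ≤ k) : 2 * (7 * k ^ 2) + 1 ≤ 15 * (k + 2) ^ 2 := by nlinarith

lemma r3_k3 {k : ℝ} (hk : 1 ≤ k) : 7 * k ^ 2 ≤ 7 * (k + 2) ^ 2 := by nlinarith

lemma r3_logY {x k l : ℝ} (h : x ≤ k * l) (hl : l < 1) (hk : 1 ≤ k) : 1 + x ≤ k + 2 := by
  nlinarith

/-- the loss is small -/
lemma loss3 {ε γ : ℝ} {k : ℕ} (hε : 0 < ε) (hγ : 0 < γ) :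
    Real.exp (γ / 16 * Vk (1 / 8) ε k) ≤ ((2 : ℝ) ^ k) ^ (γ / 16) := by
  have hQ0 : (0 : ℝ) < (2 : ℝ) ^ k := by positivity
  rw [Real.rpow_def_of_pos hQ0]
  apply Real.exp_le_exp.2
  have h2 : Vk (1 / 8) ε k ≤ Real.log ((2 : ℝ) ^ k) := by
    rw [Real.log_pow]
    unfold Vk
    have hl2 : 0 < Real.log 2 := Real.log_pos (by norm_num)
    have h4 : 0 ≤ (k : ℝ) * Real.log 2 := by positivity
    nlinarith
  rw [mul_comm (Real.log _)]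
  exact mul_le_mul_of_nonneg_left h2 (by positivity)

/-- the length of the short part -/
noncomputable def Y3 (ε : ℝ) (k : ℕ) : ℕ := ⌊((2 : ℝ) ^ k) ^ (3 / 4 - ε)⌋₊

lemma Y3_props {ε : ℝ} {k : ℕ} (hε : 0 < ε) (hε1 : 32 * ε ≤ 1 / 8)
    (h5 : 2 ≤ ((2 : ℝ) ^ k) ^ (1 / 4 : ℝ)) :
    1 ≤ Y3 ε k ∧ (Y3 ε k : ℝ) ≤ (2 : ℝ) ^ k ∧ (Y3 ε k : ℝ) ≤ ((2 : ℝ) ^ k) ^ (3 / 4 - ε) ∧
      ((2 : ℝ) ^ k) ^ (3 / 4 - ε) ≤ ((Y3 ε k + 1 : ℕ) : ℝ) ∧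
      ((2 : ℝ) ^ k) ^ (1 / 4 : ℝ) ≤ Y3 ε k := by
  set Q : ℝ := (2 : ℝ) ^ k with hQ
  have hQ1 : 1 ≤ Q := one_le_pow₀ (by norm_num)
  have hQ0 : 0 < Q := by linarith
  have hy0 : 0 < Q ^ (3 / 4 - ε) := Real.rpow_pos_of_pos hQ0 _
  have hYy : (Y3 ε k : ℝ) ≤ Q ^ (3 / 4 - ε) := Nat.floor_le hy0.le
  have hyY : Q ^ (3 / 4 - ε) < (Y3 ε k : ℝ) + 1 := Nat.lt_floor_add_one _
  have hy2 : Q ^ (1 / 4 : ℝ) * 2 ≤ Q ^ (3 / 4 - ε) := by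
    have h1 : Q ^ (1 / 4 : ℝ) * Q ^ (1 / 4 : ℝ) = Q ^ (1 / 2 : ℝ) := by
      rw [← Real.rpow_add hQ0]; norm_num
    have h2 : Q ^ (1 / 2 : ℝ) ≤ Q ^ (3 / 4 - ε) := mono3 hQ1 (by linarith)
    calc Q ^ (1 / 4 : ℝ) * 2 ≤ Q ^ (1 / 4 : ℝ) * Q ^ (1 / 4 : ℝ) :=
          mul_le_mul_of_nonneg_left h5 (Real.rpow_pos_of_pos hQ0 _).le
      _ ≤ _ := by rw [h1]; exact h2
  have hQ14 : 1 ≤ Q ^ (1 / 4 : ℝ) := Real.one_le_rpow hQ1 (by norm_num)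
  have hYlow : Q ^ (1 / 4 : ℝ) ≤ Y3 ε k := by linarith
  refine ⟨?_, ?_, hYy, ?_, hYlow⟩
  · have : (1 : ℝ) ≤ Y3 ε k := hQ14.trans hYlow
    exact_mod_cast this
  · refine hYy.trans ?_
    calc Q ^ (3 / 4 - ε) ≤ Q ^ (1 : ℝ) := mono3 hQ1 (by linarith)
      _ = Q := Real.rpow_one _
  · push_cast; exact hyY.le

/-- the exceptional primes of one level -/
theorem exc_three (r : ℕ) (hr : 1 ≤ r) (θ : ℝ) (hθ0 : 0 < θ) (hθ1 : θ ≤ 1)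
    (hrθ : (1 - θ) * (1 + 1 / r) ≤ 1 - θ / 2) (ε : ℝ) (hε : 0 < ε) (hε1 : 32 * ε ≤ 1 / 8)
    (γ : ℝ) (hγ0 : 0 < γ) (hγε : γ ≤ ε) (hγr : γ * (16 * r) ≤ θ) (k : ℕ) (h : Cnd3 r θ ε γ k)
    {G : ℝ} (R : ResoE r (Vk (1 / 8) ε k) G (Real.exp (γ / 16 * Vk (1 / 8) ε k))) :
    ∃ 𝒮 : Finset ℕ, (𝒮.card : ℝ) ≤ ((2 : ℝ) ^ k) ^ (1 - γ) ∧
      ∀ (q : ℕ) [Fact q.Prime], q < 2 ^ (k + 1) → (Vk (1 / 8) ε k) ^ 2 < q → q ∉ 𝒮 →
      ∀ K : Subgroup (ZMod q)ˣ, ((Nat.card K : ℕ) : ℝ) ≤ (q : ℝ) ^ (1 - θ) →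
        (∃ D : Finset ℕ, D.card < r ∧ (∀ p ∈ D, p.Prime) ∧
          SecE R K (Y3 ε k) D ((((2 : ℝ) ^ k) ^ (-γ) + ((2 : ℝ) ^ k) ^ (-ε)) *
            (Real.exp (γ / 16 * Vk (1 / 8) ε k)) ^ 2)) ∧
        DualE q R (2 ^ k) (((2 : ℝ) ^ k) ^ (-(1 / 2) : ℝ)) := by
  classical
  obtain ⟨hY1, hYQ, hYy, hyY, hYlow⟩ := Y3_props hε hε1 h.a5
  have hk1 := h.k1
  have hkr : (1 : ℝ) ≤ k := by exact_mod_cast hk1
  have hQ1 : (1 : ℝ) ≤ (2 : ℝ) ^ k := one_le_pow₀ (by norm_num)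
  have hQ0 : (0 : ℝ) < (2 : ℝ) ^ k := by linarith
  have hQe : ∀ s : ℝ, 0 < ((2 : ℝ) ^ k) ^ s := fun s => Real.rpow_pos_of_pos hQ0 s
  have hr1 : (1 : ℝ) ≤ r := by exact_mod_cast hr
  have hγθ : 16 * γ ≤ θ := r3_gt hγr hr1 hγ0
  have hYk : Y3 ε k ≤ 2 ^ k := by
    have : (Y3 ε k : ℝ) ≤ ((2 ^ k : ℕ) : ℝ) := by push_cast; exact hYQ
    exact_mod_cast this
  have hY3k : Y3 ε k ≤ 2 ^ (3 * k) := hYk.trans (Nat.pow_le_pow_right (by norm_num) (by omega))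
  obtain ⟨𝒮₁, hc₁, h₁⟩ := secE_level (κ := 1 - θ) hr (by linarith) (by linarith) hε hε1
    (by norm_num) hk1 (Real.exp_pos _).le R (Y3 ε k) hY1 hY3k (t1 := ((2 : ℝ) ^ k) ^ (-γ))
    (t2 := ((2 : ℝ) ^ k) ^ (-ε)) (hQe _) (hQe _)
  obtain ⟨𝒮₂, hc₂, h₂⟩ := dual_level hε hε1 (by norm_num) hk1 R
    (t3 := ((2 : ℝ) ^ k) ^ (-(1 / 2) : ℝ)) (hQe _)
  refine ⟨𝒮₁ ∪ 𝒮₂, ?_, ?_⟩
  · have h3 : ((𝒮₁ ∪ 𝒮₂).card : ℝ) ≤ 𝒮₁.card + 𝒮₂.card := by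
      exact_mod_cast Finset.card_union_le _ _
    have hL1 : (1 : ℝ) ≤ (k : ℝ) + 2 := by linarith
    have hlogY : 1 + Real.log (Y3 ε k) ≤ (k : ℝ) + 2 := by
      have h1 : Real.log (Y3 ε k) ≤ Real.log ((2 : ℝ) ^ k) :=
        Real.log_le_log (by exact_mod_cast hY1) hYQ
      rw [Real.log_pow] at h1
      have hl21 : Real.log 2 < 1 := by linarith [Real.log_two_lt_d9]
      exact r3_logY h1 hl21 hkr
    have hlogY0 : 0 ≤ 1 + Real.log (Y3 ε k) := by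
      have := Real.log_natCast_nonneg (Y3 ε k)
      linarith
    have h14 : (2 * ((7 * k ^ 2 : ℕ) : ℝ) + 1) ≤ 15 * ((k : ℝ) + 2) ^ 2 := by
      push_cast
      exact r3_k2 hkr
    have h7 : ((7 * k ^ 2 : ℕ) : ℝ) ≤ 7 * ((k : ℝ) + 2) ^ 2 := by
      push_cast
      exact r3_k3 hkr
    have pa := num_a hQ1 hL1 (Λ := Real.exp (γ / 16 * Vk (1 / 8) ε k)) (κ := 1 - θ) hr
      (Real.exp_pos _).le (loss3 hε hγ0) hlogY0 hlogY (Nat.cast_nonneg _) h7 h.a1 hrθ hγ0 hγr hγθ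
    have pb := num_b hQ1 hL1 (Y := (Y3 ε k : ℝ)) (N := Real.exp (Vk (1 / 8) ε k)) (ε := ε) (γ := γ)
      (a := 3 / 4 - ε) (n := 1 / 8 - ε) (Nat.cast_nonneg _) hYy exp_Vk (by positivity) h14 h.a2
      (by linarith)
    have pc := num_c hQ1 hL1 (k1 := 1 + (k : ℝ)) (N := Real.exp (Vk (1 / 8) ε k)) (γ := γ)
      (n := 1 / 8 - ε) (by positivity) (by linarith) exp_Vk (by positivity) h14 h.a3
      (by linarith)
    have h4 : ((𝒮₁ ∪ 𝒮₂).card : ℝ) ≤ 3 * ((2 : ℝ) ^ k) ^ (1 - 3 / 2 * γ) := by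
      refine h3.trans ?_
      have c1 := hc₁.trans (add_le_add pa pb)
      have c2 := hc₂.trans pc
      linarith
    refine h4.trans ?_
    calc 3 * ((2 : ℝ) ^ k) ^ (1 - 3 / 2 * γ)
        ≤ ((2 : ℝ) ^ k) ^ (γ / 2) * ((2 : ℝ) ^ k) ^ (1 - 3 / 2 * γ) :=
          mul_le_mul_of_nonneg_right h.a4 (hQe _).le
      _ = ((2 : ℝ) ^ k) ^ (γ / 2 + (1 - 3 / 2 * γ)) := by rw [← Real.rpow_add hQ0]
      _ = ((2 : ℝ) ^ k) ^ (1 - γ) := by congr 1; ring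
  · intro q _ hqk hVq hqS K hK
    rw [Finset.mem_union, not_or] at hqS
    exact ⟨h₁ q hqk hVq hqS.1 K hK, h₂ q Fact.out hqS.2⟩

/-- the level theorem -/
theorem level_three (r : ℕ) (hr : 1 ≤ r) (θ : ℝ) (hθ0 : 0 < θ) (hθ1 : θ ≤ 1)
    (hrθ : (1 - θ) * (1 + 1 / r) ≤ 1 - θ / 2) (ε : ℝ) (hε : 0 < ε) (hε1 : 32 * ε ≤ 1 / 8)
    (γ : ℝ) (hγ0 : 0 < γ) (hγε : γ ≤ ε) (hγr : γ * (16 * r) ≤ θ) (k : ℕ) (h : Cnd3 r θ ε γ k) :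
    LevE r θ (1 / 8) ε (γ / 16) γ (γ / 8) k := by
  intro G R
  obtain ⟨𝒮, hc, h𝒮⟩ := exc_three r hr θ hθ0 hθ1 hrθ ε hε hε1 γ hγ0 hγε hγr k h R
  refine ⟨𝒮, hc, ?_⟩
  intro q _ hk hqS H hH VL hVL hG
  have hqp : q.Prime := Fact.out
  have hq0 : (0 : ℝ) < q := by exact_mod_cast hqp.pos
  have hk1 := h.k1
  have hkr : (1 : ℝ) ≤ k := by exact_mod_cast hk1
  obtain ⟨hY1, hYQ, hYy, hyY, hYlow⟩ := Y3_props hε hε1 h.a5
  set Y : ℕ := Y3 ε k with hY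
  set Q : ℝ := (2 : ℝ) ^ k with hQ
  have hQ1 : 1 ≤ Q := one_le_pow₀ (by norm_num)
  have hQ0 : 0 < Q := by linarith
  have hQ2 : 2 ≤ Q := by
    calc (2 : ℝ) = 2 ^ 1 := by norm_num
      _ ≤ 2 ^ k := pow_le_pow_right₀ (by norm_num) hk1
  have hQq : Q ≤ q := by
    have := Q_le (q := q) hqp.ne_zero
    rw [hk] at this; exact this
  have hqQ2 : (q : ℝ) ≤ 2 * Q := by
    have := q_lt q
    rw [hk, pow_succ, ← hQ] at this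
    linarith
  have hqk : q < 2 ^ (k + 1) := by
    rw [← hk]; exact Nat.lt_pow_succ_log_self (by norm_num) q
  have hV0 : 0 ≤ Vk (1 / 8) ε k := Vk_nonneg hε hε1
  have hVle : Vk (1 / 8) ε k ≤ k := Vk_le hε hε1 (by norm_num)
  have hc1 := h.c1
  rw [← hQ] at hc1
  have hVq : (Vk (1 / 8) ε k) ^ 2 < q := by
    have h2 : (Vk (1 / 8) ε k) ^ 2 ≤ (k : ℝ) ^ 2 := pow_le_pow_left₀ hV0 hVle 2
    exact r3_sq_lt h2 hkr hc1 hQq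
  have hq3 : 3 ≤ q := by
    have : (3 : ℝ) ≤ q := r3_three hkr hc1 hQq
    exact_mod_cast this
  have hH' : (q : ℝ) ^ (1 - (1 - θ)) ≤ Nat.card H := by
    have : 1 - (1 - θ) = θ := by ring
    rw [this]; exact hH
  have hKc := index_le (κ := 1 - θ) H hH'
  obtain ⟨⟨D, hDr, hDp, hsec⟩, hdual⟩ := h𝒮 q hqk hVq hqS (K H) hKc
  set X := Final.len q with hX
  have hlenq : (q : ℝ) ≤ X := Final.q_le_len
  have hYX : Y ≤ X := by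
    have : (Y : ℝ) ≤ X := hYQ.trans (hQq.trans hlenq)
    exact_mod_cast this
  have hlen3 : (X : ℝ) ≤ (2 : ℝ) ^ (3 * k) := by
    have h1 := len_le (q := q) hk
    have h4 : (X : ℝ) ≤ Q * Q * Q := by
      have h5 : ((k : ℝ) + 2) ^ 2 ≤ Q - 3 := by linarith
      have h6 : (q : ℝ) * ((k : ℝ) + 2) ^ 2 ≤ (2 * Q) * (Q - 3) := by
        apply mul_le_mul hqQ2 h5 (by positivity) (by positivity)
      have h7 : (X : ℝ) ≤ (2 * Q) * (Q - 3) + 1 := by linarith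
      exact r3_cube h7 hQ2
    have e : Q * Q * Q = (2 : ℝ) ^ (3 * k) := by
      rw [hQ, ← pow_add, ← pow_add]
      congr 1; ring
    rw [e] at h4
    exact h4
  have hVY : Real.exp (2 * Vk (1 / 8) ε k) ≤ Y := by
    have e : Real.exp (2 * Vk (1 / 8) ε k) = Q ^ (1 / 4 - 2 * ε) := by
      rw [two_mul, Real.exp_add, exp_Vk, ← hQ, ← Real.rpow_add hQ0]
      congr 1; ring
    rw [e]
    exact (mono3 hQ1 (by linarith)).trans hYlow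
  have hΦ := phiE_dual R (Real.exp_pos _).le hVq hq3 hqk (Real.rpow_pos_of_pos hQ0 (-(1 / 2))).le
    hdual (K H) X Y hYX D hDp
  have hmain := one_E R hVq H X Y Final.one_le_len hVY Final.B_div D hDp hDr.le
    (by positivity) hsec hΦ hVL hG
  refine hmain.trans ?_
  have hlogX : 2 + Real.log X ≤ 3 * ((k : ℝ) + 2) := by
    have h2 : Real.log X ≤ Real.log ((2 : ℝ) ^ (3 * k)) := Real.log_le_log (by linarith) hlen3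
    rw [Real.log_pow] at h2
    push_cast at h2
    have hl21 : Real.log 2 < 1 := by linarith [Real.log_two_lt_d9]
    exact r3_log h2 hl21 hkr
  have hlogX0 : 0 ≤ 2 + Real.log X := by
    have := Real.log_natCast_nonneg X
    linarith
  have hlogq : 1 + Real.log q ≤ (k : ℝ) + 2 := one_add_log_le hk
  have hlogq0 : 0 ≤ 1 + Real.log q := by
    have := Real.log_natCast_nonneg q
    linarith
  have haw : aw (Y + 1) ≤ Q ^ (-(3 / 4 - ε) / 2) := by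
    unfold aw
    calc ((Y + 1 : ℕ) : ℝ) ^ (-(1 / 2) : ℝ) ≤ (Q ^ (3 / 4 - ε)) ^ (-(1 / 2) : ℝ) :=
          Real.rpow_le_rpow_of_nonpos (Real.rpow_pos_of_pos hQ0 _) hyY (by norm_num)
      _ = _ := by
          rw [← Real.rpow_mul hQ0.le]
          congr 1; ring
  have hD2 : (2 : ℝ) ^ D.card ≤ 2 ^ r := pow_le_pow_right₀ (by norm_num) hDr.le
  have hL1 : (1 : ℝ) ≤ (k : ℝ) + 2 := by linarith
  have hr1 : (1 : ℝ) ≤ r := by exact_mod_cast hr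
  have hγθ : 16 * γ ≤ θ := r3_gt hγr hr1 hγ0
  have hΛ0 := (Real.exp_pos (γ / 16 * Vk (1 / 8) ε k)).le
  have hΛ := loss3 (k := k) hε hγ0
  rw [← hQ] at hΛ
  have hN : Real.exp (Vk (1 / 8) ε k) = Q ^ (1 / 8 - ε) := exp_Vk
  have hKc0 : (0 : ℝ) ≤ (Nat.card (K H) : ℝ) := Nat.cast_nonneg _
  obtain ⟨hb0, hb⟩ := num_base hQ1 hL1
    (num_s1 hQ1 hQq hKc0 hKc rfl hθ0 hΛ0 hΛ)
    (num_s2 hQ1 hq0 hqQ2 hKc0 hKc (by linarith) (by linarith))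
    (num_s3 hQ1 hq0 hqQ2) (Real.sqrt_nonneg _) (Real.sqrt_nonneg _) (Real.sqrt_nonneg _)
    hΛ0 hΛ hlogX0 hlogX hlogq0 hlogq hN (aw_nonneg (Y + 1)) haw (by positivity) hD2 hγ0 hγε hγθ
    (by linarith) hε1
  have hp1 := num_part1 hQ2 hL1 hQq hqQ2 hγ0 (num_v hQ1 hΛ0 hΛ hγ0 hγε) hb0 hb h.a6
  have hp2 := num_part2 hQ1 (ε := ε) (γ := γ) hQq (Real.sqrt_nonneg Y) (by
      apply Real.sqrt_le_iff.2
      refine ⟨(Real.rpow_pos_of_pos hQ0 _).le, ?_⟩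
      rw [← Real.rpow_natCast (Q ^ (3 / 8 : ℝ)) 2, ← Real.rpow_mul hQ0.le]
      refine hYy.trans (mono3 hQ1 ?_)
      push_cast
      linarith) (Real.exp_pos (Vk (1 / 8) ε k)).le
    (by rw [hN]; exact mono3 hQ1 (by linarith)) (by positivity) hD2 h.a7 (by linarith)
  have hfin := add_le_add hp1 hp2
  refine hfin.trans (le_of_eq ?_)
  ring

/-- **the regime for all `θ > 0`** -/
theorem reg_three (hres : ∀ r, ResEx r) (θ : ℝ) (hθ0 : 0 < θ) (hθ1 : θ ≤ 1) : Reg θ (1 / 2) := by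
  -- the rank
  obtain ⟨r, hr⟩ := exists_nat_ge (2 / θ)
  have hr0 : (0 : ℝ) < r := lt_of_lt_of_le (by positivity) hr
  have hr1 : 1 ≤ r := by exact_mod_cast (show 0 < r by exact_mod_cast hr0)
  have hrθ : (1 - θ) * (1 + 1 / r) ≤ 1 - θ / 2 := by
    have h1 : 1 / (r : ℝ) ≤ θ / 2 := by
      rw [div_le_iff₀ hθ0] at hr
      rw [div_le_iff₀ hr0]
      linarith
    have h2 : 0 ≤ 1 / (r : ℝ) := by positivity
    nlinarith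
  have hsq : Real.sqrt (2 * (1 / 8)) = 1 / 2 := by
    rw [show (2 : ℝ) * (1 / 8) = (1 / 2) ^ 2 by norm_num]
    exact Real.sqrt_sq (by norm_num)
  rw [← hsq]
  apply reg_of_levels r θ (1 / 8) (by norm_num) (by norm_num) (hres r)
  intro ε hε hε1
  have hγ0 : 0 < min ε (θ / (16 * r)) := lt_min hε (by positivity)
  have hγε : min ε (θ / (16 * r)) ≤ ε := min_le_left _ _
  have hγr : min ε (θ / (16 * r)) * (16 * r) ≤ θ := by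
    have h1 : min ε (θ / (16 * r)) ≤ θ / (16 * r) := min_le_right _ _
    rw [le_div_iff₀ (by positivity)] at h1
    exact h1
  refine ⟨min ε (θ / (16 * r)) / 16, min ε (θ / (16 * r)), min ε (θ / (16 * r)) / 8,
    by positivity, hγ0, by linarith, by positivity, ?_⟩
  filter_upwards [cnd3_eventually r θ ε _ hθ0 hε hγ0] with k hk
  exact level_three r hr1 θ hθ0 hθ1 hrθ ε hε hε1 _ hγ0 hγε hγr k hk

end Pool.Agent.H.MP_3e6494_nt.A14
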