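import Mathlib
import Pool.Agent.H.MP_3e6494_nt.helper14.Num14
import Pool.Agent.H.MP_3e6494_nt.helper14.LevE
import Pool.Agent.H.MP_3e6494_nt.helper14.FinE
import Pool.Agent.H.MP_3e6494_nt.helper14.ResEx

/-!
The regime of large subgroups: no deleted primes, no long part.
-/

open Finset Filter Topology

set_option linter.unusedSectionVars false
set_option linter.unusedVariables false

namespace Pool.Agent.H.MP_3e6494_nt.A14

open Pool.Agent.H.MP_3e6494_nt.H14 (ResoE)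

open Pool.Agent.H.MP_3e6494_nt.Class Pool.Agent.H.MP_3e6494_nt.T3Cnt
  Pool.Agent.H.MP_3e6494_nt.T6Par Pool.Agent.H.MP_3e6494_nt.T3Res
  Pool.Agent.H.MP_3e6494_nt.T3Exc
open Pool.Agent.H.MP_3e6494_nt.T3Prime (u u_val u_mul u_one index_le q_lt Q_le)

/-- no long part -/
theorem phiE_zero {q : ℕ} [hq : Fact q.Prime] {r : ℕ} {V G Λ : ℝ} (R : ResoE r V G Λ)
    (K : Subgroup (ZMod q)ˣ) (X : ℕ) (D : Finset ℕ) : PhiE R K X X D 0 0 := by
  intro S' T' F hS hT hF hF0 hFS hFT hcop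
  refine ⟨fun _ => 0, ?_, ?_, ?_⟩
  · intro χ _
    simp
  · simp
  · simp

/-- **one level, second moments without deleted primes** -/
theorem secE_level0 {r : ℕ} {κ ν ε : ℝ} {k : ℕ} {G Λ : ℝ} (hκ0 : 0 ≤ κ) (hκ1 : κ ≤ 1)
    (hε : 0 < ε) (hεν : 32 * ε ≤ ν) (hν : ν ≤ 1) (hk : 1 ≤ k)
    (R : ResoE r (Vk ν ε k) G Λ) {t1 : ℝ} (ht1 : 0 < t1) :
    ∃ 𝒮 : Finset ℕ, (𝒮.card : ℝ) ≤
        ((1 + Real.log ((2 ^ (3 * k) : ℕ) : ℝ)) * (4 * Real.exp (Vk ν ε k) ^ 2) / t1) ^ 1 *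
          (1 * ((7 * k ^ 2 : ℕ) : ℝ) * (4 * 3 ^ 1)) *
          ((2 : ℝ) ^ k) ^ (κ * (1 + 1 / 1)) ∧
      ∀ (q : ℕ) [Fact q.Prime], q < 2 ^ (k + 1) → (Vk ν ε k) ^ 2 < q → q ∉ 𝒮 →
      ∀ K : Subgroup (ZMod q)ˣ, ((Nat.card K : ℕ) : ℝ) ≤ (q : ℝ) ^ κ →
        ∀ X : ℕ, X ≤ 2 ^ (3 * k) → SecE R K X ∅ (((X / q + 1 : ℕ) : ℝ) * t1) := by
  classical
  set x := xt R.nu R.de with hx
  set y := yt R.nu R.de with hy
  have hent := entries hε hεν hν hk R (le_refl (2 ^ (3 * k)))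
  obtain ⟨𝒮₁, hc₁, h₁⟩ := h26t.famw_level κ hκ0 hκ1 1 k le_rfl (tri R (2 ^ (3 * k))) x y
    (fun t => ((t.1 : ℝ)⁻¹)) (7 * k ^ 2) (fun t _ => by positivity) hent t1 ht1
  refine ⟨𝒮₁, ?_, ?_⟩
  · refine hc₁.trans ?_
    have h4 : ∑ t ∈ tri R (2 ^ (3 * k)), ((t.1 : ℝ)⁻¹) ≤
        (1 + Real.log ((2 ^ (3 * k) : ℕ) : ℝ)) * (4 * Real.exp (Vk ν ε k) ^ 2) := by
      unfold tri
      rw [Finset.sum_product]
      simp only [Finset.sum_const, Finset.card_product, nsmul_eq_mul]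
      rw [← Finset.mul_sum, mul_comm]
      have h5 := harm_le (2 ^ (3 * k))
      have h6 := card_UU R
      have h7 : (((UU R).card * (UU R).card : ℕ) : ℝ) ≤ 4 * Real.exp (Vk ν ε k) ^ 2 := by
        push_cast
        have h8 : (0 : ℝ) ≤ (UU R).card := Nat.cast_nonneg _
        calc ((UU R).card : ℝ) * (UU R).card ≤ (2 * Real.exp (Vk ν ε k)) * (2 * Real.exp (Vk ν ε k)) :=
              mul_le_mul h6 h6 h8 (by positivity)
          _ = _ := by ring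
      have h9 : 0 ≤ ∑ n ∈ Finset.Icc 1 (2 ^ (3 * k) : ℕ), ((n : ℝ)⁻¹) :=
        Finset.sum_nonneg fun _ _ => by positivity
      exact mul_le_mul h5 h7 (Nat.cast_nonneg _) (h9.trans h5)
    have h5 : 0 ≤ ∑ t ∈ tri R (2 ^ (3 * k)), ((t.1 : ℝ)⁻¹) :=
      Finset.sum_nonneg fun _ _ => by positivity
    have h6 : ((∑ t ∈ tri R (2 ^ (3 * k)), ((t.1 : ℝ)⁻¹)) / t1) ≤
      (1 + Real.log ((2 ^ (3 * k) : ℕ) : ℝ)) * (4 * Real.exp (Vk ν ε k) ^ 2) / t1 := by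
      gcongr
    have h7 : 0 ≤ (∑ t ∈ tri R (2 ^ (3 * k)), ((t.1 : ℝ)⁻¹)) / t1 := div_nonneg h5 ht1.le
    push_cast
    push_cast at h6
    gcongr
  · intro q _ hqk hVq hq K hK X hX
    have hqp : q.Prime := Fact.out
    obtain ⟨P, hPr, hPp, hP⟩ := h₁ q hqk hq K hK
    have hP0 : P = ∅ := by
      rw [← Finset.card_eq_zero]
      omega
    subst hP0
    intro S1 S2 F hS1 hS2 hF hF0 hF1 hF2 𝓢 h𝓢
    have h2 := second_D0 𝓢 S1 S2 (rh q R.nu R.de) R.f R.f_nonneg (u q) (fun m hm => u_val hm) K X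
      hF1 hF2 (fun t ht => by
        obtain ⟨a1, a2, a3⟩ := h𝓢 t ht
        exact ⟨a1.1, a2, a3⟩)
    refine h2.trans ?_
    have h3 : ∑ t ∈ 𝓢.filter (fun t => zt (u q) (rh q R.nu R.de) t ∈ K), ((t.1 : ℝ)⁻¹) ≤ t1 := by
      refine (hP _ ?_).le
      intro t ht
      rw [Finset.mem_filter] at ht
      obtain ⟨ht, hz⟩ := ht
      obtain ⟨a1, a2, a3⟩ := h𝓢 t ht
      obtain ⟨c1, c2⟩ := xt_cop R hVq a1.1.2.2 a1.2.1.1 a1.2.1.2
      rw [zt_eq R hVq a1.1.2.2 a1.2.1.1 a1.2.1.2] at hz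
      refine ⟨?_, c1, c2, hz, ?_, a1.2.2.2⟩
      · rw [mem_tri]
        exact ⟨⟨a1.1.1, a1.1.2.1.trans hX⟩, a1.2.1⟩
      · intro p hp
        exact absurd hp (Finset.notMem_empty p)
    calc F ^ 2 * (((X / q + 1 : ℕ) : ℝ) *
          ∑ t ∈ 𝓢.filter (fun t => zt (u q) (rh q R.nu R.de) t ∈ K), ((t.1 : ℝ)⁻¹))
        ≤ F ^ 2 * (((X / q + 1 : ℕ) : ℝ) * t1) := by gcongr
      _ = _ := by ring


/-- the length is at most the cube of the level -/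
lemma len_le_cube {q k : ℕ} [hq : Fact q.Prime] (hk : Nat.log 2 q = k)
    (h : 4 * ((k : ℝ) + 2) ^ 2 ≤ (2 : ℝ) ^ k) : Final.len q ≤ 2 ^ (3 * k) := by
  set Q : ℝ := (2 : ℝ) ^ k with hQ
  have hQ1 : 1 ≤ Q := one_le_pow₀ (by norm_num)
  have hk0 : (0 : ℝ) ≤ k := Nat.cast_nonneg _
  have h1 := len_le (q := q) hk
  have h2 : (q : ℝ) ≤ 2 * Q := by
    have := q_lt q
    rw [hk, pow_succ, ← hQ] at this
    linarith
  have h4 : (Final.len q : ℝ) ≤ Q * Q * Q := by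
    have h6 : (q : ℝ) * ((k : ℝ) + 2) ^ 2 ≤ (2 * Q) * (Q / 4) := by
      apply mul_le_mul h2 (by linarith) (by positivity) (by positivity)
    have hQ16 : 16 ≤ Q := by nlinarith
    have h7 : Q * Q * 16 ≤ Q * Q * Q := mul_le_mul_of_nonneg_left hQ16 (by positivity)
    nlinarith
  have e : Q * Q * Q = (2 : ℝ) ^ (3 * k) := by
    rw [hQ, ← pow_add, ← pow_add]
    congr 1; ring
  rw [e] at h4
  exact_mod_cast h4

/-- numerics at one prime -/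
lemma num_two {θ ε : ℝ} {k q : ℕ} [hq : Fact q.Prime] (h : 1 / 2 < θ) (h1 : θ ≤ 1) (hε : 0 < ε)
    (hεν : 32 * ε ≤ θ - 1 / 2) (hk1 : 1 ≤ k) (hk : Nat.log 2 q = k)
    (a3 : 36 * ((k : ℝ) + 2) ^ 2 ≤ ((2 : ℝ) ^ k) ^ (3 * ε / 8)) :
    q * (3 * (((Final.len q / q + 1 : ℕ) : ℝ) * ((2 : ℝ) ^ k) ^ (-ε))) +
      2 * Real.sqrt (Final.len q) * ((2 : ℝ) ^ k) ^ (θ - 1 / 2 - ε) ≤ (q : ℝ) ^ (1 - ε / 8) := by
  set ν : ℝ := θ - 1 / 2 with hν
  have hε1 : ε ≤ 1 / 64 := by linarith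
  have hkr : (1 : ℝ) ≤ k := by exact_mod_cast hk1
  set Q : ℝ := (2 : ℝ) ^ k with hQ
  have hQ1 : 1 ≤ Q := one_le_pow₀ (by norm_num)
  have hQ0 : 0 < Q := by linarith
  have hQ2 : 2 ≤ Q := by
    calc (2 : ℝ) = 2 ^ 1 := by norm_num
      _ ≤ 2 ^ k := pow_le_pow_right₀ (by norm_num) hk1
  have hqp : q.Prime := Fact.out
  have hq0 : (0 : ℝ) < q := by exact_mod_cast hqp.pos
  have hq1 : (1 : ℝ) ≤ q := by exact_mod_cast hqp.one_lt.le
  have hQq : Q ≤ q := by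
    have := Q_le (q := q) hqp.ne_zero
    rw [hk] at this; exact this
  have hqQ : (q : ℝ) ≤ Q ^ (2 : ℝ) := by
    have h1 := q_lt q
    rw [hk, pow_succ, ← hQ] at h1
    have e : Q ^ (2 : ℝ) = Q * Q := by
      rw [show (2 : ℝ) = ((2 : ℕ) : ℝ) by norm_num, Real.rpow_natCast, sq]
    rw [e]
    have h3 : Q * 2 ≤ Q * Q := mul_le_mul_of_nonneg_left hQ2 hQ0.le
    linarith
  have hX := len_div_le (q := q) hk
  -- first part
  have hQε : Q ^ (-ε) ≤ Q ^ (-(3 * ε / 8)) * (q : ℝ) ^ (-(5 * ε / 16)) := by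
    have e : Q ^ (-ε) = Q ^ (-(3 * ε / 8)) * Q ^ (-(5 * ε / 8)) := by
      rw [← Real.rpow_add hQ0]; congr 1; ring
    rw [e]
    apply mul_le_mul_of_nonneg_left _ (by positivity)
    have e3 : Q ^ (-(5 * ε / 8)) = (Q ^ (2 : ℝ)) ^ (-(5 * ε / 16)) := by
      rw [← Real.rpow_mul hQ0.le]; congr 1; ring
    rw [e3]
    exact Real.rpow_le_rpow_of_nonpos hq0 hqQ (by linarith)
  have hpoly : 36 * ((k : ℝ) + 2) ^ 2 * Q ^ (-(3 * ε / 8)) ≤ 1 := by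
    calc 36 * ((k : ℝ) + 2) ^ 2 * Q ^ (-(3 * ε / 8)) ≤ Q ^ (3 * ε / 8) * Q ^ (-(3 * ε / 8)) := by
          apply mul_le_mul_of_nonneg_right a3 (by positivity)
      _ = 1 := by
          rw [← Real.rpow_add hQ0, add_neg_cancel, Real.rpow_zero]
  have hpart1 : q * (3 * (((Final.len q / q + 1 : ℕ) : ℝ) * Q ^ (-ε))) ≤
      (1 / 2) * (q : ℝ) ^ (1 - ε / 8) := by
    calc q * (3 * (((Final.len q / q + 1 : ℕ) : ℝ) * Q ^ (-ε)))
        ≤ q * (3 * ((((k : ℝ) + 2) ^ 2 + 3) * (Q ^ (-(3 * ε / 8)) * (q : ℝ) ^ (-(5 * ε / 16))))) := by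
          gcongr
      _ ≤ q * ((1 / 2) * ((36 * ((k : ℝ) + 2) ^ 2 * Q ^ (-(3 * ε / 8))) *
            (q : ℝ) ^ (-(5 * ε / 16)))) := by
          apply mul_le_mul_of_nonneg_left _ hq0.le
          have hpos : 0 ≤ Q ^ (-(3 * ε / 8)) * (q : ℝ) ^ (-(5 * ε / 16)) := by positivity
          have h5 : 3 * (((k : ℝ) + 2) ^ 2 + 3) ≤ 18 * ((k : ℝ) + 2) ^ 2 := by nlinarith
          calc 3 * ((((k : ℝ) + 2) ^ 2 + 3) * (Q ^ (-(3 * ε / 8)) * (q : ℝ) ^ (-(5 * ε / 16))))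
              = (3 * (((k : ℝ) + 2) ^ 2 + 3)) * (Q ^ (-(3 * ε / 8)) * (q : ℝ) ^ (-(5 * ε / 16))) := by
                ring
            _ ≤ (18 * ((k : ℝ) + 2) ^ 2) * (Q ^ (-(3 * ε / 8)) * (q : ℝ) ^ (-(5 * ε / 16))) :=
                mul_le_mul_of_nonneg_right h5 hpos
            _ = _ := by ring
      _ ≤ q * ((1 / 2) * (1 * (q : ℝ) ^ (-(5 * ε / 16)))) := by gcongr
      _ ≤ (1 / 2) * ((q : ℝ) ^ (1 : ℝ) * (q : ℝ) ^ (-(ε / 8))) := by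
          rw [Real.rpow_one, one_mul]
          have h6 : (q : ℝ) ^ (-(5 * ε / 16)) ≤ (q : ℝ) ^ (-(ε / 8)) :=
            Real.rpow_le_rpow_of_exponent_le hq1 (by linarith)
          calc (q : ℝ) * ((1 / 2) * (q : ℝ) ^ (-(5 * ε / 16)))
              = (1 / 2) * (q * (q : ℝ) ^ (-(5 * ε / 16))) := by ring
            _ ≤ (1 / 2) * (q * (q : ℝ) ^ (-(ε / 8))) := by gcongr
      _ = (1 / 2) * (q : ℝ) ^ (1 - ε / 8) := by
          rw [← Real.rpow_add hq0]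
          congr 2
  -- second part
  have hpart2 : 2 * Real.sqrt (Final.len q) * Q ^ (ν - ε) ≤ (1 / 2) * (q : ℝ) ^ (1 - ε / 8) := by
    have h1' := Final.sqrt_len_le (q := q)
    have h2 := one_add_log_le (q := q) hk
    have h0 := Final.log_nonneg' (q := q)
    have h3 : Q ^ (ν - ε) ≤ (q : ℝ) ^ (ν - ε) :=
      Real.rpow_le_rpow hQ0.le hQq (by linarith)
    have h4 : 6 * ((k : ℝ) + 2) ≤ (q : ℝ) ^ (3 * ε / 8) := by
      refine le_trans ?_ (a3.trans (Real.rpow_le_rpow hQ0.le hQq (by positivity)))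
      nlinarith
    have hsq : Real.sqrt q = (q : ℝ) ^ (1 / 2 : ℝ) := Real.sqrt_eq_rpow _
    calc 2 * Real.sqrt (Final.len q) * Q ^ (ν - ε)
        ≤ 2 * ((3 / 2) * (Real.sqrt q * (1 + Real.log q))) * (q : ℝ) ^ (ν - ε) := by gcongr
      _ ≤ 2 * ((3 / 2) * (Real.sqrt q * ((k : ℝ) + 2))) * (q : ℝ) ^ (ν - ε) := by gcongr
      _ = (1 / 2) * ((6 * ((k : ℝ) + 2)) * ((q : ℝ) ^ (1 / 2 : ℝ) * (q : ℝ) ^ (ν - ε))) := by
          rw [hsq]; ring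
      _ ≤ (1 / 2) * ((q : ℝ) ^ (3 * ε / 8) * ((q : ℝ) ^ (1 / 2 : ℝ) * (q : ℝ) ^ (ν - ε))) := by
          gcongr
      _ = (1 / 2) * (q : ℝ) ^ (3 * ε / 8 + (1 / 2 + (ν - ε)) : ℝ) := by
          rw [← Real.rpow_add hq0, ← Real.rpow_add hq0]
      _ ≤ (1 / 2) * (q : ℝ) ^ (1 - ε / 8) := by
          apply mul_le_mul_of_nonneg_left _ (by norm_num)
          apply Real.rpow_le_rpow_of_exponent_le hq1
          linarith
  linarith

/-- **the level theorem for large subgroups** -/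
theorem level_two {θ ε : ℝ} (h : 1 / 2 < θ) (h1 : θ ≤ 1) (hε : 0 < ε)
    (hεν : 32 * ε ≤ θ - 1 / 2) :
    ∀ᶠ k : ℕ in atTop, LevE 1 θ (θ - 1 / 2) ε 1 (ε / 2) (ε / 8) k := by
  set ν : ℝ := θ - 1 / 2 with hν
  set κ : ℝ := 1 - θ with hκ
  have hε1 : ε ≤ 1 / 64 := by linarith
  filter_upwards [eventually_ge_atTop 1, poly_le 4 (by norm_num) 2 1 one_pos,
    poly_le (12 * 4 * 7 * 12) (by norm_num) 3 (ε / 2) (by positivity),
    poly_le 36 (by norm_num) 2 (3 * ε / 8) (by positivity)] with k hk1 a1 a2 a3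
  intro G R
  rw [Real.rpow_one] at a1
  have hkr : (1 : ℝ) ≤ k := by exact_mod_cast hk1
  set Q : ℝ := (2 : ℝ) ^ k with hQ
  have hQ1 : 1 ≤ Q := one_le_pow₀ (by norm_num)
  have hQ0 : 0 < Q := by linarith
  have hQ2 : 2 ≤ Q := by
    calc (2 : ℝ) = 2 ^ 1 := by norm_num
      _ ≤ 2 ^ k := pow_le_pow_right₀ (by norm_num) hk1
  have ht1 : 0 < Q ^ (-ε) := by positivity
  obtain ⟨𝒮, hc, hS⟩ := secE_level0 (κ := κ) (by linarith) (by linarith) hε hεν (by linarith) hk1 R ht1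
  refine ⟨𝒮, hc.trans ?_, ?_⟩
  · rw [exp_Vk, ← hQ]
    have e1 : (Q ^ (ν - ε)) ^ 2 = Q ^ (2 * ν - 2 * ε) := by
      rw [← Real.rpow_natCast, ← Real.rpow_mul hQ0.le]
      congr 1; push_cast; ring
    have hlog : 1 + Real.log ((2 ^ (3 * k) : ℕ) : ℝ) ≤ 3 * ((k : ℝ) + 2) := by
      push_cast
      rw [Real.log_pow]
      have hl21 : Real.log 2 < 1 := by linarith [Real.log_two_lt_d9]
      have hl2 : 0 < Real.log 2 := Real.log_pos (by norm_num)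
      push_cast
      nlinarith
    have hlog0 : 0 ≤ 1 + Real.log ((2 ^ (3 * k) : ℕ) : ℝ) := by
      have : 0 ≤ Real.log ((2 ^ (3 * k) : ℕ) : ℝ) := Real.log_natCast_nonneg _
      linarith
    have e2 : Q ^ (2 * ν - 2 * ε) / Q ^ (-ε) * Q ^ (κ * (1 + 1 / 1)) = Q ^ (1 - ε) := by
      rw [← Real.rpow_sub hQ0, ← Real.rpow_add hQ0]
      congr 1
      rw [hν, hκ]; ring
    calc ((1 + Real.log ((2 ^ (3 * k) : ℕ) : ℝ)) * (4 * (Q ^ (ν - ε)) ^ 2) / Q ^ (-ε)) ^ 1 *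
          (1 * ((7 * k ^ 2 : ℕ) : ℝ) * (4 * 3 ^ 1)) * Q ^ (κ * (1 + 1 / 1))
        = ((1 + Real.log ((2 ^ (3 * k) : ℕ) : ℝ)) * (4 * 7 * 12) * (k : ℝ) ^ 2) *
          (Q ^ (2 * ν - 2 * ε) / Q ^ (-ε) * Q ^ (κ * (1 + 1 / 1))) := by
          rw [e1]; push_cast; ring
      _ ≤ ((3 * ((k : ℝ) + 2)) * (4 * 7 * 12) * ((k : ℝ) + 2) ^ 2) * Q ^ (1 - ε) := by
          rw [e2]
          gcongr
          linarith
      _ ≤ Q ^ (ε / 2) * Q ^ (1 - ε) := by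
          apply mul_le_mul_of_nonneg_right _ (by positivity)
          refine le_trans ?_ a2
          have : (0 : ℝ) ≤ ((k : ℝ) + 2) ^ 3 := by positivity
          nlinarith
      _ = Q ^ (1 - ε / 2) := by
          rw [← Real.rpow_add hQ0]
          congr 1; ring
  intro q _ hk hq H hH VL hVL hG
  have hqp : q.Prime := Fact.out
  have hq0 : (0 : ℝ) < q := by exact_mod_cast hqp.pos
  have hq1 : (1 : ℝ) ≤ q := by exact_mod_cast hqp.one_lt.le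
  have hQq : Q ≤ q := by
    have := Q_le (q := q) hqp.ne_zero
    rw [hk] at this; exact this
  have hqQ : (q : ℝ) ≤ Q ^ (2 : ℝ) := by
    have h1 := q_lt q
    rw [hk, pow_succ, ← hQ] at h1
    have e : Q ^ (2 : ℝ) = Q * Q := by
      rw [show (2 : ℝ) = ((2 : ℕ) : ℝ) by norm_num, Real.rpow_natCast, sq]
    rw [e]
    nlinarith
  have hqk : q < 2 ^ (k + 1) := by
    rw [← hk]; exact Nat.lt_pow_succ_log_self (by norm_num) q
  have hV0 := Vk_nonneg (k := k) hε hεν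
  have hVle := Vk_le (k := k) hε hεν (by linarith)
  have hV2 : (Vk ν ε k) ^ 2 ≤ (k : ℝ) ^ 2 := pow_le_pow_left₀ hV0 hVle 2
  have hVq : (Vk ν ε k) ^ 2 < q := by nlinarith
  have hH' : (q : ℝ) ^ (1 - κ) ≤ Nat.card H := by
    rw [hκ, sub_sub_cancel]
    exact hH
  have hKc := index_le (κ := κ) H hH'
  have hlen3 := len_le_cube (q := q) hk a1
  have hsec := hS q hqk hVq hq (K H) hKc (Final.len q) hlen3
  have hVY : Real.exp (2 * Vk ν ε k) ≤ (Final.len q : ℝ) := by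
    have e : Real.exp (2 * Vk ν ε k) = Q ^ (2 * ν - 2 * ε) := by
      rw [two_mul, Real.exp_add, exp_Vk, ← hQ, ← Real.rpow_add hQ0]
      congr 1; ring
    rw [e]
    calc Q ^ (2 * ν - 2 * ε) ≤ Q ^ (1 : ℝ) := Real.rpow_le_rpow_of_exponent_le hQ1 (by linarith)
      _ = Q := Real.rpow_one _
      _ ≤ q := hQq
      _ ≤ _ := Final.q_le_len
  have hnum := num_two (q := q) h h1 hε hεν hk1 hk a3
  have hmain := one_E R hVq H (Final.len q) (Final.len q) Final.one_le_len hVY Final.B_div ∅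
    (fun p hp => absurd hp (Finset.notMem_empty p)) (by simp) (le_refl 0) hsec
    (phiE_zero R (K H) (Final.len q) ∅) hVL hG
  refine hmain.trans ?_
  rw [add_zero, add_zero, exp_Vk, ← hQ]
  exact hnum

/-- **the regime of large subgroups** -/
theorem reg_two (θ : ℝ) (h : 1 / 2 < θ) (h1 : θ ≤ 1) : Reg θ (Real.sqrt (2 * θ - 1)) := by
  have h2 := reg_of_levels 1 θ (θ - 1 / 2) (by linarith) (by linarith) (resEx 1)
    (fun ε hε hεν => ⟨1, ε / 2, ε / 8, one_pos, by positivity, by linarith, by positivity,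
      level_two h h1 hε hεν⟩)
  rwa [show 2 * (θ - 1 / 2) = 2 * θ - 1 by ring] at h2

end Pool.Agent.H.MP_3e6494_nt.A14
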