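import Mathlib
import Pool.Agent.H.MP_3e6494_nt.helper50.T3Cnt

/-!
The harmonic tail sum over a coset of a subgroup, from bounds for the dyadic counts.
-/

open Finset

set_option linter.unusedSectionVars false
set_option linter.unusedVariables false

namespace Pool.Agent.H.MP_3e6494_nt.A14

open Pool.Agent.H.MP_3e6494_nt.T3Cnt

variable {q : ℕ} [hq : Fact q.Prime]

open scoped Classical in
theorem tail_sum (K : Subgroup (ZMod q)ˣ) (u : ℕ → (ZMod q)ˣ) (c : (ZMod q)ˣ)
    (Z X Jm : ℕ) (hX : X < 2 ^ Jm) (hZ : 1 ≤ Z) {β γ : ℝ} (hβ : 0 ≤ β) (hγ : 0 ≤ γ)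
    (h : ∀ j ≤ Jm, ((A K u c (2 ^ j)).card : ℝ) ≤ β + γ * 2 ^ j) :
    ∑ m ∈ (Finset.Ioc Z X).filter (fun m => m.Coprime q ∧ u m * c ∈ K), ((m : ℝ)⁻¹)
      ≤ Jm * (2 * β / Z + 2 * γ) := by
  set F := (Finset.Ioc Z X).filter (fun m => m.Coprime q ∧ u m * c ∈ K) with hF
  have hZ0 : (0 : ℝ) < Z := by exact_mod_cast hZ
  have hmaps : ∀ m ∈ F, Nat.log 2 m ∈ Finset.range Jm := by
    intro m hm
    rw [hF, Finset.mem_filter, Finset.mem_Ioc] at hm
    rw [Finset.mem_range]
    apply Nat.log_lt_of_lt_pow (by omega)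
    omega
  rw [← Finset.sum_fiberwise_of_maps_to hmaps]
  have hone : ∀ j ∈ Finset.range Jm, ∑ m ∈ F.filter (fun m => Nat.log 2 m = j), ((m : ℝ)⁻¹) ≤
      2 * β / Z + 2 * γ := by
    intro j hj
    rw [Finset.mem_range] at hj
    have hpos : 0 ≤ 2 * β / Z + 2 * γ := by positivity
    rcases Finset.eq_empty_or_nonempty (F.filter (fun m => Nat.log 2 m = j)) with he | hne
    · rw [he, Finset.sum_empty]; exact hpos
    · obtain ⟨m₀, hm₀⟩ := hne
      rw [Finset.mem_filter, hF, Finset.mem_filter, Finset.mem_Ioc] at hm₀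
      have hm₀1 : m₀ ≠ 0 := by omega
      have hlt : m₀ < 2 ^ (j + 1) := by
        rw [← hm₀.2]; exact Nat.lt_pow_succ_log_self (by norm_num) m₀
      have hZj : (Z : ℝ) < 2 ^ (j + 1) := by
        have : Z < 2 ^ (j + 1) := by omega
        exact_mod_cast this
      have h2j : (0 : ℝ) < 2 ^ j := by positivity
      -- each term
      have hterm : ∀ m ∈ F.filter (fun m => Nat.log 2 m = j), ((m : ℝ)⁻¹) ≤ ((2 : ℝ) ^ j)⁻¹ := by
        intro m hm
        rw [Finset.mem_filter, hF, Finset.mem_filter, Finset.mem_Ioc] at hm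
        have hm1 : m ≠ 0 := by omega
        have h1 : 2 ^ j ≤ m := by
          rw [← hm.2]; exact Nat.pow_log_le_self 2 hm1
        apply inv_anti₀ h2j
        exact_mod_cast h1
      have hcard : ((F.filter (fun m => Nat.log 2 m = j)).card : ℝ) ≤ β + γ * 2 ^ (j + 1) := by
        refine le_trans ?_ (h (j + 1) (by omega))
        have : F.filter (fun m => Nat.log 2 m = j) ⊆ A K u c (2 ^ (j + 1)) := by
          intro m hm
          rw [Finset.mem_filter, hF, Finset.mem_filter, Finset.mem_Ioc] at hm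
          unfold A
          rw [Finset.mem_filter, Finset.mem_Icc]
          refine ⟨⟨by omega, ?_⟩, hm.1.2⟩
          rw [← hm.2]
          exact (Nat.lt_pow_succ_log_self (by norm_num) m).le
        exact_mod_cast Finset.card_le_card this
      calc ∑ m ∈ F.filter (fun m => Nat.log 2 m = j), ((m : ℝ)⁻¹)
          ≤ ∑ m ∈ F.filter (fun m => Nat.log 2 m = j), ((2 : ℝ) ^ j)⁻¹ := Finset.sum_le_sum hterm
        _ = ((F.filter (fun m => Nat.log 2 m = j)).card : ℝ) * ((2 : ℝ) ^ j)⁻¹ := by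
            rw [Finset.sum_const, nsmul_eq_mul]
        _ ≤ (β + γ * 2 ^ (j + 1)) * ((2 : ℝ) ^ j)⁻¹ := by gcongr
        _ = β * ((2 : ℝ) ^ j)⁻¹ + 2 * γ := by
            rw [pow_succ]; field_simp
        _ ≤ 2 * β / Z + 2 * γ := by
            have h3 : ((2 : ℝ) ^ j)⁻¹ ≤ 2 / Z := by
              rw [inv_eq_one_div, div_le_div_iff₀ h2j hZ0]
              rw [pow_succ] at hZj
              linarith
            have h4 : β * ((2 : ℝ) ^ j)⁻¹ ≤ β * (2 / Z) := mul_le_mul_of_nonneg_left h3 hβ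
            have h5 : β * (2 / Z) = 2 * β / Z := by ring
            linarith
  calc ∑ j ∈ Finset.range Jm, ∑ m ∈ F.filter (fun m => Nat.log 2 m = j), ((m : ℝ)⁻¹)
      ≤ ∑ j ∈ Finset.range Jm, (2 * β / Z + 2 * γ) := Finset.sum_le_sum hone
    _ = Jm * (2 * β / Z + 2 * γ) := by rw [Finset.sum_const, Finset.card_range, nsmul_eq_mul]

end Pool.Agent.H.MP_3e6494_nt.A14
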